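import Pool.Agent.Work.MP_c58d8b_pr.PG.Stmts

/-!
# MP_c58d8b_pr, block PG, item KA: constants
-/

set_option autoImplicit false

namespace Pool.Agent.Work.MP_c58d8b_pr.PG

open MeasureTheory ProbabilityTheory Set Filter Topology
open scoped ENNReal unitInterval Classical
open Pool.Agent.Work.MP_c58d8b_pr.SO Pool.Agent.Work.MP_c58d8b_pr.PT

universe u

namespace IX_KA

theorem mem_nb {V : Type u} {H : SimpleGraph V} (hH : LocFinite H) (x y : V) :
    y ∈ nb H x ↔ H.Adj x y := by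
  unfold nb
  rw [dif_pos (hH x), Set.Finite.mem_toFinset]
  rfl

end IX_KA

open IX_KA

theorem pg_KA (hRC : StRC.{u}) : StKA.{u} := by
  intro X
  haveI := X.conn.nonempty
  obtain ⟨o⟩ := (inferInstance : Nonempty (X.T × X.T'))
  let f : X.T × X.T' → ℕ := fun v => max (td X.par o.1 v.1) (td X.par' o.2 v.2)
  have key : ∀ u v : X.T × X.T', X.G.Adj u v → ∃ α ∈ X.A, ∃ β ∈ X.B, ∃ v' : X.T × X.T',
      X.G.Adj o v' ∧ α o.1 = u.1 ∧ β o.2 = u.2 ∧ α v'.1 = v.1 ∧ β v'.2 = v.2 := by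
    intro u v huv
    obtain ⟨α, hα, _, hα1⟩ := X.mov o.1 u.1
    obtain ⟨β, hβ, hβ1⟩ := X.mov' o.2 u.2
    refine ⟨α, hα, β, hβ, (α.symm v.1, β.symm v.2), ?_, hα1, hβ1, Equiv.apply_symm_apply _ _,
      Equiv.apply_symm_apply _ _⟩
    have h1 := X.inv α hα β hβ o (α.symm v.1, β.symm v.2)
    refine h1.1 ?_
    rw [hα1, hβ1]
    simp only [Equiv.apply_symm_apply]
    exact huv
  refine ⟨max 1 (nb X.G o).card, max 1 ((nb X.G o).sup f), ⟨le_max_left _ _, le_max_left _ _⟩, ?_, ?_⟩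
  · intro u
    refine le_trans ?_ (le_max_right _ _)
    obtain ⟨α, hα, _, hα1⟩ := X.mov o.1 u.1
    obtain ⟨β, hβ, hβ1⟩ := X.mov' o.2 u.2
    have hsub : nb X.G u ⊆ (nb X.G o).image (fun w => (α w.1, β w.2)) := by
      intro v hv
      rw [mem_nb X.lf] at hv
      refine Finset.mem_image.2 ⟨(α.symm v.1, β.symm v.2), ?_, ?_⟩
      · rw [mem_nb X.lf]
        refine (X.inv α hα β hβ o (α.symm v.1, β.symm v.2)).1 ?_
        rw [hα1, hβ1]
        simp only [Equiv.apply_symm_apply]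
        exact hv
      · simp only [Equiv.apply_symm_apply]
    exact (Finset.card_le_card hsub).trans Finset.card_image_le
  · intro u v huv
    obtain ⟨α, hα, β, hβ, v', hov, h1, h2, h3, h4⟩ := key u v huv
    have hm : f v' ≤ max 1 ((nb X.G o).sup f) :=
      le_trans (Finset.le_sup (f := f) ((mem_nb X.lf o v').2 hov)) (le_max_right _ _)
    have hd1 : td X.par u.1 v.1 = td X.par o.1 v'.1 := by
      rw [← h1, ← h3]
      exact X.iso α hα _ _
    have hd2 : td X.par' u.2 v.2 = td X.par' o.2 v'.2 := by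
      rw [← h2, ← h4]
      exact (hRC X.T' X.par' X.h' X.b X.tr' β (X.com' β hβ)).2.2.2.1 _ _
    refine ⟨?_, ?_⟩
    · rw [hd1]
      exact le_trans (le_max_left _ _) hm
    · rw [hd2]
      exact le_trans (le_max_right _ _) hm

end Pool.Agent.Work.MP_c58d8b_pr.PG
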