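import Pool.Agent.Work.MP_c58d8b_pr.PG.Stmts

/-!
# MP_c58d8b_pr, block PG, item KB: the group and the weights (copy of PT VB of helper99)
-/

set_option autoImplicit false

namespace Pool.Agent.Work.MP_c58d8b_pr.PG

open MeasureTheory ProbabilityTheory Set Filter Topology
open scoped ENNReal unitInterval Classical
open Pool.Agent.Work.MP_c58d8b_pr.SO Pool.Agent.Work.MP_c58d8b_pr.PT

universe u

namespace IX_KB

theorem td_symm {T : Type u} (par : T → T) (x y : T) : td par x y = td par y x := by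
  unfold td
  congr 1
  ext k
  constructor
  · rintro ⟨m, n, h1, h2⟩
    exact ⟨n, m, by omega, h2.symm⟩
  · rintro ⟨m, n, h1, h2⟩
    exact ⟨n, m, by omega, h2.symm⟩

theorem height {T : Type u} {par : T → T} {h : T → ℤ} {a : ℕ} (ht : Tr par h a) (n : ℕ) (x : T) :
    h (par^[n] x) = h x + n := by
  induction n generalizing x with
  | zero => simp
  | succ n ih =>
    rw [Function.iterate_succ_apply, ih, ht.hpar]
    push_cast
    ring

variable (X : Sg.{u})

theorem mem_Γ {α : Equiv.Perm X.T} {β : Equiv.Perm X.T'} (hα : α ∈ X.A) (hβ : β ∈ X.B) :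
    (Equiv.prodCongr α β : Equiv.Perm (X.T × X.T')) ∈ X.Γ := ⟨α, hα, β, hβ, rfl⟩

theorem pres : Preserves X.Γ X.G := by
  rintro γ ⟨α, hα, β, hβ, rfl⟩ x y
  exact X.inv α hα β hβ x y

theorem trans : Transitive X.Γ := by
  intro u v
  obtain ⟨α, hα, -, h1⟩ := X.mov u.1 v.1
  obtain ⟨β, hβ, h2⟩ := X.mov' u.2 v.2
  refine ⟨_, mem_Γ X hα hβ, ?_⟩
  exact Prod.ext h1 h2

theorem inf : Infinite (X.T × X.T') := by
  obtain ⟨u⟩ := X.conn.nonempty
  refine Infinite.of_injective (fun n : ℕ => ((u.1, X.par'^[n] u.2) : X.T × X.T')) ?_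
  intro m n hmn
  have h1 : X.par'^[m] u.2 = X.par'^[n] u.2 := congrArg Prod.snd hmn
  have h2 := congrArg X.h' h1
  rw [height X.tr', height X.tr'] at h2
  omega

theorem w_self (hW : WeightStmt.{u}) (u : X.T × X.T') : weight X.Γ u u = 1 := by
  obtain ⟨hp, -, hc⟩ := hW _ X.G X.Γ X.conn X.lf (pres X)
  have h1 := hc u u u
  have h2 := hp u u
  exact mul_left_cancel₀ h2.ne' (by rw [h1, mul_one])

theorem w_swap (hW : WeightStmt.{u}) (u v : X.T × X.T') :
    weight X.Γ u v * weight X.Γ v u = 1 := by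
  obtain ⟨hp, -, hc⟩ := hW _ X.G X.Γ X.conn X.lf (pres X)
  rw [hc, w_self X hW]

theorem w_hor (hW : WeightStmt.{u}) (s t : X.T) (x : X.T') :
    weight X.Γ (s, x) (t, x) = 1 := by
  obtain ⟨hp, hi, hc⟩ := hW _ X.G X.Γ X.conn X.lf (pres X)
  obtain ⟨α, hα, h1, h2⟩ := X.hom s t t s (td_symm X.par s t)
  have h3 := hi _ (mem_Γ X hα X.B.one_mem) (s, x) (t, x)
  have h4 : (Equiv.prodCongr α (1 : Equiv.Perm X.T')) (s, x) = (t, x) := Prod.ext h1 rfl
  have h5 : (Equiv.prodCongr α (1 : Equiv.Perm X.T')) (t, x) = (s, x) := Prod.ext h2 rfl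
  rw [h4, h5] at h3
  have h6 := w_swap X hW (s, x) (t, x)
  rw [h3] at h6
  have h7 := hp (s, x) (t, x)
  nlinarith

theorem w_par (s : X.T) (x : X.T') :
    weight X.Γ (s, x) (s, X.par' x) = (X.b : ℝ)⁻¹ := by
  have h1 : orb X.Γ (s, x) (s, X.par' x) = {(s, X.par' x)} := by
    ext z
    constructor
    · rintro ⟨γ, ⟨α, hα, β, hβ, rfl⟩, h2, h3⟩
      have h4 : α s = s := congrArg Prod.fst h2
      have h5 : β x = x := congrArg Prod.snd h2
      rw [Set.mem_singleton_iff, ← h3]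
      refine Prod.ext h4 ?_
      change β (X.par' x) = X.par' x
      rw [X.com' β hβ, h5]
    · intro hz
      rw [Set.mem_singleton_iff] at hz
      rw [hz]
      exact ⟨1, X.Γ.one_mem, rfl, rfl⟩
  have h2 : orb X.Γ (s, X.par' x) (s, x) = (fun y => (s, y)) '' {y | X.par' y = X.par' x} := by
    ext z
    constructor
    · rintro ⟨γ, ⟨α, hα, β, hβ, rfl⟩, h2, h3⟩
      have h4 : α s = s := congrArg Prod.fst h2
      have h5 : β (X.par' x) = X.par' x := congrArg Prod.snd h2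
      refine ⟨β x, ?_, ?_⟩
      · change X.par' (β x) = X.par' x
        rw [← X.com' β hβ, h5]
      · rw [← h3]
        exact Prod.ext h4.symm rfl
    · rintro ⟨y, hy, rfl⟩
      obtain ⟨β, hβ, h3⟩ := X.mov' x y
      refine ⟨_, mem_Γ X X.A.one_mem hβ, ?_, ?_⟩
      · refine Prod.ext rfl ?_
        change β (X.par' x) = X.par' x
        rw [X.com' β hβ, h3]
        exact hy
      · exact Prod.ext rfl h3
  unfold weight
  rw [h1, h2, Set.ncard_singleton, Set.ncard_image_of_injective _ (Prod.mk_right_injective s),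
    X.tr'.kids]
  simp

theorem w_iter (hW : WeightStmt.{u}) (s : X.T) (n : ℕ) (x : X.T') :
    weight X.Γ (s, x) (s, X.par'^[n] x) = ((X.b : ℝ)⁻¹) ^ n := by
  obtain ⟨hp, hi, hc⟩ := hW _ X.G X.Γ X.conn X.lf (pres X)
  induction n generalizing x with
  | zero => simpa using w_self X hW (s, x)
  | succ n ih =>
    rw [Function.iterate_succ_apply, ← hc (s, x) (s, X.par' x), w_par, ih, pow_succ, mul_comm]

end IX_KB

open IX_KB in
theorem pg_KB (hB : Basics.{u}) (hW : WeightStmt.{u}) : StKB.{u} := by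
  intro X
  refine ⟨⟨X.conn, X.lf, pres X, trans X⟩, hB.countable _ X.G X.conn X.lf, inf X, ?_⟩
  rintro ⟨s, x⟩ ⟨t, y⟩
  obtain ⟨hp, hi, hc⟩ := hW _ X.G X.Γ X.conn X.lf (pres X)
  obtain ⟨m, n, hmn⟩ := X.tr'.common x y
  have hb : (0 : ℝ) < X.b := by
    have := X.tr'.two
    exact_mod_cast (by omega : 0 < X.b)
  have h1 := w_iter X hW s m x
  have h2 := w_iter X hW t n y
  have h3 := w_hor X hW s t (X.par'^[m] x)
  have h4 := w_swap X hW (t, y) (t, X.par'^[n] y)
  rw [h2] at h4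
  have h5 : weight X.Γ (t, X.par'^[n] y) (t, y) = (X.b : ℝ) ^ n := by
    have h6 : ((X.b : ℝ)⁻¹) ^ n * (X.b : ℝ) ^ n = 1 := by
      rw [← mul_pow, inv_mul_cancel₀ hb.ne', one_pow]
    exact mul_left_cancel₀ (pow_pos (inv_pos.mpr hb) n).ne' (h4.trans h6.symm)
  have h6 : X.h' x + m = X.h' y + n := by
    rw [← height X.tr', ← height X.tr', hmn]
  have h7 : weight X.Γ (s, x) (t, y) = ((X.b : ℝ)⁻¹) ^ m * (X.b : ℝ) ^ n := by
    rw [← hc (s, x) (s, X.par'^[m] x) (t, y), h1,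
      ← hc (s, X.par'^[m] x) (t, X.par'^[m] x) (t, y), h3, one_mul, hmn, h5]
  rw [h7]
  change _ = (X.b : ℝ) ^ (X.h' x - X.h' y)
  have h8 : X.h' x - X.h' y = (n : ℤ) - m := by omega
  rw [h8, zpow_sub₀ hb.ne', zpow_natCast, zpow_natCast, inv_pow]
  field_simp

end Pool.Agent.Work.MP_c58d8b_pr.PG
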