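import Pool.Agent.Work.MP_c58d8b_pr.PG.Stmts

/-!
# MP_c58d8b_pr, block PG, item KC: equivariance of the regions
-/

set_option autoImplicit false

namespace Pool.Agent.Work.MP_c58d8b_pr.PG

open MeasureTheory ProbabilityTheory Set Filter Topology
open scoped ENNReal unitInterval Classical
open Pool.Agent.Work.MP_c58d8b_pr.SO Pool.Agent.Work.MP_c58d8b_pr.PT

universe u

namespace IX_KC

theorem img {V : Type u} (γ : Equiv.Perm V) (P Q : Set V) (h : ∀ v, γ v ∈ Q ↔ v ∈ P) :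
    γ '' P = Q := by
  ext w
  constructor
  · rintro ⟨v, hv, rfl⟩
    exact (h v).2 hv
  · intro hw
    refine ⟨γ.symm w, (h _).1 ?_, γ.apply_symm_apply w⟩
    rw [γ.apply_symm_apply]
    exact hw

theorem reach {V : Type u} (H H' : SimpleGraph V) (γ : Equiv.Perm V)
    (h : ∀ u v, H'.Adj (γ u) (γ v) ↔ H.Adj u v) (u v : V) :
    H'.Reachable (γ u) (γ v) ↔ H.Reachable u v := by
  let φ : H ≃g H' := { toEquiv := γ, map_rel_iff' := fun {a b} => h a b }
  exact φ.reachable_iff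

end IX_KC

open IX_KC in
theorem pg_KC (hRB : StRB.{u}) (hRC : StRC.{u}) : StKC.{u} := by
  intro X α hα β hβ
  obtain ⟨-, c1, c2, c3, c4⟩ := hRC X.T' X.par' X.h' X.b X.tr' β (X.com' β hβ)
  have hup : ∀ n x, β (X.up n x) = X.up n (β x) := fun n x => c1 n x
  have hDn : ∀ x, Equiv.prodCongr α β '' X.Dn x = X.Dn (β x) := fun x =>
    img _ _ _ fun v => c4 x v.2
  have hadj : ∀ (x : X.T') (u v : X.T × X.T'),
      (within X.G (X.Dn (β x))ᶜ).Adj (Equiv.prodCongr α β u) (Equiv.prodCongr α β v) ↔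
        (within X.G (X.Dn x)ᶜ).Adj u v := by
    intro x u v
    show (X.G.Adj (α u.1, β u.2) (α v.1, β v.2) ∧ ¬ (β u.2 ∈ desc X.par' (β x)) ∧
      ¬ (β v.2 ∈ desc X.par' (β x))) ↔
      (X.G.Adj u v ∧ ¬ (u.2 ∈ desc X.par' x) ∧ ¬ (v.2 ∈ desc X.par' x))
    rw [X.inv α hα β hβ, c4, c4]
  have hEs' : ∀ (x : X.T') (v : X.T × X.T'), Equiv.prodCongr α β v ∈ X.Es (β x) ↔ v ∈ X.Es x := by
    intro x v
    constructor
    · rintro ⟨q₀, hq⟩
      refine ⟨q₀, fun q hqq s => ?_⟩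
      have h1 := hq q hqq (α s)
      rw [← hup] at h1
      exact (reach _ _ (Equiv.prodCongr α β) (hadj x) v (s, X.up q x)).1 h1
    · rintro ⟨q₀, hq⟩
      refine ⟨q₀, fun q hqq s => ?_⟩
      have h1 := hq q hqq (α.symm s)
      have h2 := (reach _ _ (Equiv.prodCongr α β) (hadj x) v (α.symm s, X.up q x)).2 h1
      have h3 : Equiv.prodCongr α β (α.symm s, X.up q x) = (s, X.up q (β x)) := by
        show (α (α.symm s), β (X.up q x)) = (s, X.up q (β x))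
        rw [α.apply_symm_apply, hup]
      rw [h3] at h2
      exact h2
  have hvr' : ∀ (n : ℕ) (x : X.T') (v : X.T × X.T'),
      Equiv.prodCongr α β v ∈ X.vr n (β x) ↔ v ∈ X.vr n x := by
    intro n x v
    show (Equiv.prodCongr α β v ∈ X.Es (β x) ∧
      ¬ (Equiv.prodCongr α β v ∈ X.Es (X.up n (β x)))) ↔ (v ∈ X.Es x ∧ ¬ (v ∈ X.Es (X.up n x)))
    rw [← hup, hEs', hEs']
  have hSl : ∀ x K L, Equiv.prodCongr α β '' X.Sl x K L = X.Sl (β x) K L := by
    intro x K L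
    refine img _ _ _ fun v => ?_
    show (β v.2 ∈ desc X.par' (X.up K (β x)) ∧ X.h' (β x) < X.h' (β v.2) + L) ↔
      (v.2 ∈ desc X.par' (X.up K x) ∧ X.h' x < X.h' v.2 + L)
    have h1 := c2 x v.2
    rw [← hup, c4]
    refine and_congr_right fun _ => ?_
    constructor <;> intro h2 <;> omega
  have hfin : ∀ (M : ℕ) (u : X.T × X.T'), (X.Bl M u).Finite := by
    intro M u
    have f1 : {y | td X.par u.1 y ≤ M}.Finite :=
      (hRB X.T X.par X.h X.a X.tr).2.2.2.2.2.2.2.2.1 u.1 M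
    have f2 : {y | td X.par' u.2 y ≤ M}.Finite :=
      (hRB X.T' X.par' X.h' X.b X.tr').2.2.2.2.2.2.2.2.1 u.2 M
    exact (f1.prod f2).subset fun v hv => ⟨hv.1, hv.2⟩
  have hBlF : ∀ (M : ℕ) (u v : X.T × X.T'), v ∈ X.BlF M u ↔ v ∈ X.Bl M u := by
    intro M u v
    unfold Sg.BlF
    rw [dif_pos (hfin M u), Set.Finite.mem_toFinset]
  have hiff : ∀ (M : ℕ) (u v : X.T × X.T'),
      (α v.1, β v.2) ∈ X.Bl M (α u.1, β u.2) ↔ v ∈ X.Bl M u := by
    intro M u v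
    show (td X.par (α u.1) (α v.1) ≤ M ∧ td X.par' (β u.2) (β v.2) ≤ M) ↔
      (td X.par u.1 v.1 ≤ M ∧ td X.par' u.2 v.2 ≤ M)
    rw [X.iso α hα, c3]
  refine ⟨X.inv α hα β hβ, hup, fun s t => X.iso α hα s t, hDn, fun x => img _ _ _ (hEs' x),
    fun n x => img _ _ _ (hvr' n x), hSl, hiff, ?_, ?_⟩
  · intro M u
    refine ⟨hfin M u, ?_⟩
    ext w
    rw [Finset.mem_image, hBlF]
    constructor
    · rintro ⟨v, hv, rfl⟩
      exact (hiff M u v).2 ((hBlF M u v).1 hv)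
    · intro hw
      have e : (Equiv.prodCongr α β) ((Equiv.prodCongr α β).symm w) = w :=
        Equiv.apply_symm_apply _ _
      refine ⟨(Equiv.prodCongr α β).symm w, (hBlF M u _).2 ((hiff M u _).1 ?_), e⟩
      rw [← e] at hw
      exact hw
  · intro hpar
    obtain ⟨-, -, a2, -, -⟩ := hRC X.T X.par X.h X.a X.tr α hpar
    refine ⟨fun t s => ?_, fun u v => ?_⟩
    · unfold Sg.om
      rw [a2]
    · show √(X.a : ℝ) ^ (X.h (α v.1) - X.h (α u.1)) * √(X.b : ℝ) ^ (X.h' (β v.2) - X.h' (β u.2)) =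
        √(X.a : ℝ) ^ (X.h v.1 - X.h u.1) * √(X.b : ℝ) ^ (X.h' v.2 - X.h' u.2)
      rw [a2, c2]

end Pool.Agent.Work.MP_c58d8b_pr.PG
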