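import Pool.Agent.Work.MP_c58d8b_pr.PG.Stmts

/-!
# MP_c58d8b_pr, block PG, item KF: facts on `Es`
-/

set_option autoImplicit false

namespace Pool.Agent.Work.MP_c58d8b_pr.PG

open MeasureTheory ProbabilityTheory Set Filter Topology
open scoped ENNReal unitInterval Classical
open Pool.Agent.Work.MP_c58d8b_pr.SO Pool.Agent.Work.MP_c58d8b_pr.PT

universe u

namespace IX_KF

theorem within_mono {V : Type u} (G : SimpleGraph V) {A B : Set V} (h : A ⊆ B) :
    within G A ≤ within G B := fun _ _ hab => ⟨hab.1, h hab.2.1, h hab.2.2⟩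

/-- A vertex outside `A` is isolated. -/
theorem isolated {V : Type u} (G : SimpleGraph V) (A : Set V) {v w : V} (hv : v ∉ A)
    (h : (within G A).Reachable v w) : v = w := by
  obtain ⟨p⟩ := h
  cases p with
  | nil => rfl
  | cons hadj _ => exact absurd hadj.2.1 hv

variable (X : Sg.{u})

theorem par_ne (t : X.T) : X.par t ≠ t := by
  intro h
  have h1 := X.tr.hpar t
  rw [h] at h1
  omega

theorem up_add (m n : ℕ) (x : X.T') : X.up (m + n) x = X.up m (X.up n x) := by
  unfold Sg.up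
  exact Function.iterate_add_apply _ m n x

theorem disj (x : X.T') {v : X.T × X.T'} (hv : v ∈ X.Es x) : v ∉ X.Dn x := by
  intro hD
  obtain ⟨q₀, hq⟩ := hv
  have hn : v ∉ (X.Dn x)ᶜ := fun h => h hD
  have h1 := isolated X.G _ hn (hq q₀ le_rfl v.1)
  have h2 := isolated X.G _ hn (hq q₀ le_rfl (X.par v.1))
  rw [h1] at h2
  have h3 := congrArg Prod.fst h2
  have h4 := congrArg Prod.fst h1
  simp only at h3 h4
  exact par_ne X v.1 h3.symm

theorem Dn_sub (x : X.T') (k : ℕ) : X.Dn x ⊆ X.Dn (X.up k x) := by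
  rintro v ⟨n, hn⟩
  refine ⟨k + n, ?_⟩
  rw [Function.iterate_add_apply, hn]
  rfl

theorem step (x : X.T') {z w : X.T × X.T'} (hw : w ∈ X.Es x)
    (h : (within X.G (X.Dn x)ᶜ).Adj z w) : z ∈ X.Es x := by
  obtain ⟨q₀, hq⟩ := hw
  exact ⟨q₀, fun q hq' s => h.reachable.trans (hq q hq' s)⟩

theorem walk (x : X.T') {u w : X.T × X.T'} (p : (within X.G (X.Dn x)ᶜ).Walk u w)
    (hu : u ∈ X.Es x) : (within X.G (X.Es x)).Reachable u w := by
  induction p with
  | nil => exact SimpleGraph.Reachable.refl _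
  | cons hadj _ ih =>
    have hc := step X x hu hadj.symm
    have ha : (within X.G (X.Es x)).Adj _ _ := ⟨hadj.1, hu, hc⟩
    exact ha.reachable.trans (ih hc)

end IX_KF

theorem pg_KF (hRA : StRA.{u}) (hKK : StKK.{u}) : StKF.{u} := by
  intro X
  have h4 : ∀ x (v : X.T × X.T'), X.h' x < X.h' v.2 → v ∈ X.Es x := by
    intro x v hv
    obtain ⟨q₀, hq⟩ := hKK X
    obtain ⟨m, l, hml⟩ := X.tr'.common v.2 x
    have hsub : {w : X.T × X.T' | X.h' v.2 ≤ X.h' w.2} ⊆ (X.Dn x)ᶜ := by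
      intro w hw hD
      have h1 := ((hRA X.T' X.par' X.h' X.b X.tr').2.2.2.1 x w.2 hD).2.1
      have h2 : X.h' v.2 ≤ X.h' w.2 := hw
      omega
    refine ⟨l + q₀, fun q hq' s => ?_⟩
    have e : X.up q x = X.up (q - l + m) v.2 := by
      have e1 : q = (q - l) + l := by omega
      rw [IX_KF.up_add]
      conv_lhs => rw [e1, IX_KF.up_add]
      exact congrArg (X.up (q - l)) hml.symm
    rw [e]
    exact (hq v (q - l + m) (by omega) s).mono (IX_KF.within_mono X.G hsub)
  refine ⟨?_, ?_, ?_, h4, ?_, ?_⟩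
  · intro x
    rw [Set.disjoint_left]
    intro v hv
    exact IX_KF.disj X x hv
  · rintro x k v ⟨q₀, hq⟩
    refine ⟨q₀ + k, fun q hq' s => ?_⟩
    have e : X.up q x = X.up (q - k) (X.up k x) := by
      rw [← IX_KF.up_add]
      congr 1
      omega
    rw [e]
    exact (hq (q - k) (by omega) s).mono
      (IX_KF.within_mono X.G (Set.compl_subset_compl.mpr (IX_KF.Dn_sub X x k)))
  · intro x z w hz hw hadj
    by_contra hD
    exact hz (IX_KF.step X x hw ⟨hadj, hD, IX_KF.disj X x hw⟩)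
  · intro x u hu v hv
    have hu' := hu
    have hv' := hv
    obtain ⟨q₁, h1⟩ := hu'
    obtain ⟨q₂, h2⟩ := hv'
    obtain ⟨p1⟩ := h1 (max q₁ q₂) (le_max_left _ _) u.1
    obtain ⟨p2⟩ := h2 (max q₁ q₂) (le_max_right _ _) u.1
    exact (IX_KF.walk X x p1 hu).trans (IX_KF.walk X x p2 hv).symm
  · intro x n v hv hh
    exact ⟨h4 x v hh, fun hE => IX_KF.disj X _ hE hv⟩

end Pool.Agent.Work.MP_c58d8b_pr.PG
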