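import Pool.Agent.Work.MP_c58d8b_pr.PG.Stmts

/-!
# MP_c58d8b_pr, block PG, item KG: local paths in `Es x`
-/

set_option autoImplicit false

namespace Pool.Agent.Work.MP_c58d8b_pr.PG

open MeasureTheory ProbabilityTheory Set Filter Topology
open scoped ENNReal unitInterval Classical
open Pool.Agent.Work.MP_c58d8b_pr.SO Pool.Agent.Work.MP_c58d8b_pr.PT

universe u

namespace IX_KG

theorem Bl_mono (X : Sg.{u}) (u : X.T × X.T') {M M' : ℕ} (h : M ≤ M') : X.Bl M u ⊆ X.Bl M' u :=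
  fun _ hv => ⟨hv.1.trans h, hv.2.trans h⟩

theorem within_mono {V : Type u} (G : SimpleGraph V) {A B : Set V} (h : A ⊆ B) :
    within G A ≤ within G B := fun _ _ hxy => ⟨hxy.1, h hxy.2.1, h hxy.2.2⟩

theorem fin_sub (X : Sg.{u}) (u : X.T × X.T') (S : Finset (X.T × X.T')) :
    ∃ M : ℕ, (S : Set (X.T × X.T')) ⊆ X.Bl M u := by
  refine ⟨S.sup (fun v => td X.par u.1 v.1 + td X.par' u.2 v.2), fun v hv => ?_⟩
  have h : td X.par u.1 v.1 + td X.par' u.2 v.2 ≤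
      S.sup (fun v => td X.par u.1 v.1 + td X.par' u.2 v.2) :=
    Finset.le_sup (f := fun v : X.T × X.T' => td X.par u.1 v.1 + td X.par' u.2 v.2) hv
  exact ⟨(Nat.le_add_right _ _).trans h, (Nat.le_add_left _ _).trans h⟩

theorem coe_BlF (X : Sg.{u}) (M : ℕ) (u : X.T × X.T') (hf : (X.Bl M u).Finite) :
    (X.BlF M u : Set (X.T × X.T')) = X.Bl M u := by
  unfold Sg.BlF
  rw [dif_pos hf, hf.coe_toFinset]

end IX_KG

theorem pg_KG (hQC : StQC.{u}) (hQD : StQD.{u}) (hRB : StRB.{u}) (hKC : StKC.{u})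
    (hKF : StKF.{u}) (hQB : StQB.{u}) : StKG.{u} := by
  intro X r
  obtain ⟨⟨t₀, x₀⟩⟩ := X.conn.nonempty
  have hfin : ∀ M u, (X.Bl M u).Finite := fun M u => by
    obtain ⟨-, -, -, -, -, -, -, -, h9, -⟩ := hKC X 1 X.A.one_mem 1 X.B.one_mem
    exact (h9 M u).1
  have htd : ∀ t, td X.par t t = 0 := fun t => ((hRB X.T X.par X.h X.a X.tr).1 t t).2 rfl
  let F : Set ((X.T × X.T') × (X.T × X.T')) := {q | q.1.1 = t₀ ∧ td X.par' x₀ q.1.2 ≤ r ∧
    q.2 ∈ X.Bl r q.1 ∧ q.1 ∈ X.Es x₀ ∧ q.2 ∈ X.Es x₀}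
  have hF : F.Finite := by
    refine ((hfin r (t₀, x₀)).biUnion
      (fun a _ => ((hfin r a).image (fun b => (a, b))))).subset ?_
    rintro ⟨a, b⟩ ⟨e1, e2, e3, -, -⟩
    refine Set.mem_biUnion (x := a) ?_ ⟨b, e3, rfl⟩
    refine ⟨?_, e2⟩
    have e1' : a.1 = t₀ := e1
    show td X.par t₀ a.1 ≤ r
    rw [e1', htd]
    exact Nat.zero_le r
  have hP : ∀ q ∈ F, ∃ P : ℕ, (within X.G (X.Es x₀ ∩ X.Bl P q.1)).Reachable q.1 q.2 := by
    rintro ⟨a, b⟩ ⟨-, -, -, ha, hb⟩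
    have h := (hKF X).2.2.2.2.1 x₀ a ha b hb
    obtain ⟨S, haS, hbS, hS⟩ := (hQD _ (within X.G (X.Es x₀))).2 a b h
    obtain ⟨M, hM⟩ := IX_KG.fin_sub X a S
    refine ⟨M, ?_⟩
    have h2 := hS b hbS
    rw [(hQC _).2.2] at h2
    exact h2.mono (IX_KG.within_mono _ (Set.inter_subset_inter_right _ hM))
  choose! P hP using hP
  have hreach : ∀ x, ∀ u ∈ X.Es x, ∀ v ∈ X.Es x, td X.par' x u.2 ≤ r → v ∈ X.Bl r u →
      (within X.G (X.Es x ∩ X.Bl (max r (hF.toFinset.sup P)) u)).Reachable u v := by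
    intro x u hu v hv hxu hvu
    obtain ⟨α, hα, -, hα1⟩ := X.mov t₀ u.1
    obtain ⟨β, hβ, hβ1⟩ := X.mov' x₀ x
    obtain ⟨haut, -, -, -, hEs, -, -, hBl, -, -⟩ := hKC X α hα β hβ
    have himg := hEs x₀
    rw [hβ1] at himg
    rw [← himg] at hu hv
    obtain ⟨a, ha, rfl⟩ := hu
    obtain ⟨b, hb, rfl⟩ := hv
    have ha1 : a.1 = t₀ := by
      apply α.injective
      exact hα1.symm
    have hxa : td X.par' x₀ a.2 ≤ r := by
      have h := (hBl r (t₀, x₀) (t₀, a.2)).1 ⟨by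
          show td X.par (α t₀) (α t₀) ≤ r
          rw [htd]
          exact Nat.zero_le r, by
          show td X.par' (β x₀) (β a.2) ≤ r
          rw [hβ1]
          exact hxu⟩
      exact h.2
    have hba : b ∈ X.Bl r a := (hBl r a b).1 hvu
    have hmem : (a, b) ∈ F := ⟨ha1, hxa, hba, ha, hb⟩
    have hq := hP (a, b) hmem
    have hle : P (a, b) ≤ max r (hF.toFinset.sup P) :=
      (Finset.le_sup (f := P) (hF.mem_toFinset.2 hmem)).trans (le_max_right _ _)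
    let f : within X.G (X.Es x₀ ∩ X.Bl (P (a, b)) a) →g
        within X.G (X.Es x ∩ X.Bl (max r (hF.toFinset.sup P)) (Equiv.prodCongr α β a)) :=
      { toFun := Equiv.prodCongr α β
        map_rel' := by
          intro y z hyz
          refine ⟨(X.inv α hα β hβ y z).2 hyz.1, ⟨?_, ?_⟩, ⟨?_, ?_⟩⟩
          · rw [← himg]
            exact ⟨y, hyz.2.1.1, rfl⟩
          · exact (hBl _ a y).2 (IX_KG.Bl_mono X a hle hyz.2.1.2)
          · rw [← himg]
            exact ⟨z, hyz.2.2.1, rfl⟩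
          · exact (hBl _ a z).2 (IX_KG.Bl_mono X a hle hyz.2.2.2) }
    exact hq.map f
  refine ⟨max r (hF.toFinset.sup P), le_max_left _ _, hreach, ?_⟩
  intro p hp0 hp1
  refine ⟨p ^ (X.BlF (max r (hF.toFinset.sup P)) (t₀, x₀)).card, pow_pos hp0 _,
    pow_le_one₀ hp0.le hp1, ?_⟩
  intro x u hu v hv hxu hvu W hW
  have hcard : (X.BlF (max r (hF.toFinset.sup P)) u).card =
      (X.BlF (max r (hF.toFinset.sup P)) (t₀, x₀)).card := by
    obtain ⟨α, hα, -, hα1⟩ := X.mov t₀ u.1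
    obtain ⟨β, hβ, hβ1⟩ := X.mov' x₀ u.2
    obtain ⟨-, -, -, -, -, -, -, -, h9, -⟩ := hKC X α hα β hβ
    have h := (h9 (max r (hF.toFinset.sup P)) (t₀, x₀)).2
    have e : ((α (t₀, x₀).1, β (t₀, x₀).2) : X.T × X.T') = u := Prod.ext hα1 hβ1
    rw [e] at h
    rw [← h, Finset.card_image_of_injective _ (Equiv.injective _)]
  have hr : (within (within X.G W)
      (X.BlF (max r (hF.toFinset.sup P)) u : Set (X.T × X.T'))).Reachable u v := by
    rw [(hQC _).2.2, IX_KG.coe_BlF X _ u (hfin _ u)]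
    exact (hreach x u hu v hv hxu hvu).mono
      (IX_KG.within_mono _ (fun z hz => ⟨hW hz, hz.2⟩))
  have h1 := (hQD _ (within X.G W)).1 p (X.BlF (max r (hF.toFinset.sup P)) u) u v hp0.le hp1 hr
  rw [hcard] at h1
  exact ⟨⟨X.BlF (max r (hF.toFinset.sup P)) u, h1⟩, fun S hS => h1.trans
    ((hQB _).1 (within X.G W) (within X.G W) _ S p p le_rfl hS hp0.le le_rfl hp1 u v)⟩

end Pool.Agent.Work.MP_c58d8b_pr.PG
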