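import Pool.Agent.Work.MP_c58d8b_pr.PG.Stmts

/-!
# MP_c58d8b_pr, block PG, item KH: local probabilities
-/

set_option autoImplicit false

namespace Pool.Agent.Work.MP_c58d8b_pr.PG

open MeasureTheory ProbabilityTheory Set Filter Topology
open scoped ENNReal unitInterval Classical
open Pool.Agent.Work.MP_c58d8b_pr.SO Pool.Agent.Work.MP_c58d8b_pr.PT

universe u

namespace IX_KH

/-- The balls are finite. -/
theorem bl_fin (hKC : StKC.{u}) (X : Sg.{u}) (M : ℕ) (u : X.T × X.T') : (X.Bl M u).Finite :=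
  ((hKC X 1 X.A.one_mem 1 X.B.one_mem).2.2.2.2.2.2.2.2.1 M u).1

/-- The ball as a finite set. -/
theorem coe_blF (hKC : StKC.{u}) (X : Sg.{u}) (M : ℕ) (u : X.T × X.T') :
    ((X.BlF M u : Finset (X.T × X.T')) : Set (X.T × X.T')) = X.Bl M u := by
  unfold Sg.BlF
  rw [dif_pos (bl_fin hKC X M u), Set.Finite.coe_toFinset]

/-- All balls of radius `M` have the same number of elements. -/
theorem card_blF (hKC : StKC.{u}) (X : Sg.{u}) (M : ℕ) (o u : X.T × X.T') :
    (X.BlF M u).card = (X.BlF M o).card := by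
  obtain ⟨α, hα, -, hα2⟩ := X.mov o.1 u.1
  obtain ⟨β, hβ, hβ2⟩ := X.mov' o.2 u.2
  have h := ((hKC X α hα β hβ).2.2.2.2.2.2.2.2.1 M o).2
  rw [hα2, hβ2] at h
  have h2 : X.BlF M (u.1, u.2) = X.BlF M u := rfl
  rw [h2] at h
  rw [← h, Finset.card_image_of_injective _ (Equiv.injective _)]

end IX_KH

open IX_KH in
/-- Item KH. -/
theorem pg_KH (hQB : StQB.{u}) (hQC : StQC.{u}) (hQD : StQD.{u}) (hKC : StKC.{u})
    (hKL : StKL.{u}) : StKH.{u} := by
  intro X p hp0 hp1 r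
  obtain ⟨P, hrP, hP⟩ := hKL X r
  obtain ⟨o⟩ := X.conn.nonempty
  refine ⟨P, p ^ (X.BlF P o).card, hrP, pow_pos hp0 _, pow_le_one₀ hp0.le hp1, ?_⟩
  intro u v huv
  have hre := hP u v huv
  have hcard : (X.BlF P u).card = (X.BlF P o).card := card_blF hKC X P o u
  have hW : ∀ W, X.Bl P u ⊆ W →
      p ^ (X.BlF P o).card ≤ tau (within X.G W) p (X.BlF P u) u v := by
    intro W hW
    rw [← hcard]
    refine (hQD (X.T × X.T') (within X.G W)).1 p (X.BlF P u) u v hp0.le hp1 ?_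
    rw [coe_blF hKC X P u, (hQC (X.T × X.T')).2.2 X.G W (X.Bl P u),
      Set.inter_eq_self_of_subset_right hW]
    exact hre
  refine ⟨fun W hWs => ⟨⟨X.BlF P u, hW W hWs⟩, fun S hS => ?_⟩, ?_⟩
  · exact (hW W hWs).trans ((hQB (X.T × X.T')).1 (within X.G W) (within X.G W) (X.BlF P u) S p p
      le_rfl hS hp0.le le_rfl hp1 u v)
  · have h1 : p ^ (X.BlF P o).card ≤ tau X.G p (X.BlF P u) u v := by
      rw [← hcard]
      refine (hQD (X.T × X.T') X.G).1 p (X.BlF P u) u v hp0.le hp1 ?_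
      rw [coe_blF hKC X P u]
      exact hre
    exact (ENNReal.ofReal_le_ofReal h1).trans
      (le_iSup (fun S : Finset (X.T × X.T') => ENNReal.ofReal (tau X.G p S u v)) (X.BlF P u))

end Pool.Agent.Work.MP_c58d8b_pr.PG
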