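import Pool.Agent.Work.MP_c58d8b_pr.PG.Stmts

/-!
# MP_c58d8b_pr, block PG, item KJ: up-jumps
-/

set_option autoImplicit false

namespace Pool.Agent.Work.MP_c58d8b_pr.PG

open MeasureTheory ProbabilityTheory Set Filter Topology
open scoped ENNReal unitInterval Classical
open Pool.Agent.Work.MP_c58d8b_pr.SO Pool.Agent.Work.MP_c58d8b_pr.PT

universe u

namespace IX_KJ

/-- Some edge goes up. -/
theorem step (X : Sg.{u}) : ∃ u v : X.T × X.T', X.G.Adj u v ∧ X.h' u.2 < X.h' v.2 := by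
  by_contra hcon
  have hcon' : ∀ u v : X.T × X.T', X.G.Adj u v → X.h' v.2 ≤ X.h' u.2 := by
    intro u v huv
    by_contra h
    exact hcon ⟨u, v, huv, not_le.1 h⟩
  obtain ⟨⟨t, x⟩⟩ := X.conn.nonempty
  have h1 : ∀ u v : X.T × X.T', X.G.Walk u v → X.h' v.2 ≤ X.h' u.2 := by
    intro u v w
    induction w with
    | nil => exact le_rfl
    | cons h _ ih => exact ih.trans (hcon' _ _ h)
  obtain ⟨w⟩ := X.conn.preconnected (t, x) (t, X.par' x)
  have h2 : X.h' (X.par' x) ≤ X.h' x := h1 _ _ w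
  have h3 := X.tr'.hpar x
  omega

end IX_KJ

/-- item KJ -/
theorem pg_KJ (hRA : StRA.{u}) (hRB : StRB.{u}) (hRC : StRC.{u}) : StKJ.{u} := by
  intro X
  obtain ⟨⟨r, y⟩, ⟨r', y'⟩, hadj, hlt⟩ := IX_KJ.step X
  have hlt' : X.h' y < X.h' y' := hlt
  obtain ⟨a1, -⟩ := hRA X.T' X.par' X.h' X.b X.tr'
  obtain ⟨-, -, -, b4, -⟩ := hRB X.T' X.par' X.h' X.b X.tr'
  obtain ⟨m, l, hD, hml⟩ := b4 y y'
  have e1 := a1 m y
  have e2 := a1 l y'
  rw [hml] at e1
  obtain ⟨k, hk⟩ : ∃ k : ℕ, X.h' y' = X.h' y + k := ⟨(X.h' y' - X.h' y).toNat, by omega⟩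
  have hm : m = l + k := by omega
  have hup : X.par'^[m + l] y' = X.par'^[m + l + k] y := by
    have h2 : m + l + k = m + m := by omega
    rw [h2, Function.iterate_add_apply X.par' m l, ← hml, ← Function.iterate_add_apply]
  choose β hβ hβy using fun x => X.mov' y x
  refine ⟨X.d r r', k, m + l, by omega, by omega, fun x => β x y', ?_, ?_⟩
  · intro x
    obtain ⟨-, c2, c3, -⟩ := hRC X.T' X.par' X.h' X.b X.tr' (β x) (X.com' (β x) (hβ x))
    constructor
    · have h1 := c3 y' y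
      rw [hβy x] at h1
      show X.h' (β x y') = X.h' x + k
      omega
    · show X.par'^[m + l] (β x y') = X.par'^[m + l + k] x
      rw [← c2, hup, c2, hβy x]
  · intro t s x hts
    obtain ⟨α, hα, hα1, hα2⟩ := X.hom r r' t s hts.symm
    have h1 := (X.inv α hα (β x) (hβ x) (r, y) (r', y')).2 hadj
    have h2 : X.G.Adj (α r, β x y) (α r', β x y') := h1
    rw [hα1, hα2, hβy x] at h2
    exact h2

end Pool.Agent.Work.MP_c58d8b_pr.PG
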