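import Pool.Agent.Work.MP_c58d8b_pr.PG.Stmts

/-!
# MP_c58d8b_pr, block PG, item KL (local paths)
-/

set_option autoImplicit false

namespace Pool.Agent.Work.MP_c58d8b_pr.PG

open MeasureTheory ProbabilityTheory Set Filter Topology
open scoped ENNReal unitInterval Classical
open Pool.Agent.Work.MP_c58d8b_pr.SO Pool.Agent.Work.MP_c58d8b_pr.PT

universe u

namespace IX_KL

/-- a walk with all its vertices in `W` -/
theorem reach_of_walk {V : Type u} (G : SimpleGraph V) (W : Set V) {x y : V} (w : G.Walk x y)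
    (h : ∀ z ∈ w.support, z ∈ W) : (within G W).Reachable x y := by
  induction w with
  | nil => exact SimpleGraph.Reachable.refl _
  | cons hadj p ih =>
    have h1 := ih (fun z hz => h z (by
      rw [SimpleGraph.Walk.support_cons]
      exact List.mem_cons_of_mem _ hz))
    have ha : (within G W).Adj _ _ := ⟨hadj, h _ (SimpleGraph.Walk.start_mem_support _),
      h _ (by
        rw [SimpleGraph.Walk.support_cons]
        exact List.mem_cons_of_mem _ (SimpleGraph.Walk.start_mem_support _))⟩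
    exact ha.reachable.trans h1

theorem within_mono {V : Type u} (G : SimpleGraph V) {W W' : Set V} (h : W ⊆ W') :
    within G W ≤ within G W' := fun _ _ hxy => ⟨hxy.1, h hxy.2.1, h hxy.2.2⟩

theorem Bl_mono (X : Sg.{u}) {M N : ℕ} (h : M ≤ N) (u : X.T × X.T') : X.Bl M u ⊆ X.Bl N u :=
  fun _ hv => ⟨hv.1.trans h, hv.2.trans h⟩

/-- all elements of a finite list are in a ball -/
theorem list_ball (X : Sg.{u}) (o : X.T × X.T') (l : List (X.T × X.T')) :
    ∃ P : ℕ, ∀ z ∈ l, z ∈ X.Bl P o := by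
  induction l with
  | nil => exact ⟨0, fun z hz => absurd hz (List.not_mem_nil)⟩
  | cons a l ih =>
    obtain ⟨P, hP⟩ := ih
    refine ⟨max P (max (td X.par o.1 a.1) (td X.par' o.2 a.2)), ?_⟩
    intro z hz
    rcases List.mem_cons.1 hz with rfl | hz
    · exact ⟨(le_max_left _ _).trans (le_max_right _ _), (le_max_right _ _).trans (le_max_right _ _)⟩
    · exact Bl_mono X (le_max_left _ _) o (hP z hz)

theorem one_point (X : Sg.{u}) (o v : X.T × X.T') :
    ∃ P : ℕ, (within X.G (X.Bl P o)).Reachable o v := by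
  obtain ⟨w⟩ := X.conn.preconnected o v
  obtain ⟨P, hP⟩ := list_ball X o w.support
  exact ⟨P, reach_of_walk X.G _ w hP⟩

end IX_KL

open IX_KL in
/-- Item KL. -/
theorem pg_KL (hKC : StKC.{u}) : StKL.{u} := by
  intro X r
  obtain ⟨o⟩ := X.conn.nonempty
  have hfin : (X.Bl r o).Finite :=
    ((hKC X 1 X.A.one_mem 1 X.B.one_mem).2.2.2.2.2.2.2.2.1 r o).1
  choose f hf using one_point X o
  refine ⟨max r (hfin.toFinset.sup f), le_max_left _ _, ?_⟩
  intro u v hv
  obtain ⟨α, hα, _, hα1⟩ := X.mov o.1 u.1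
  obtain ⟨β, hβ, hβ1⟩ := X.mov' o.2 u.2
  have hb := (hKC X α hα β hβ).2.2.2.2.2.2.2.1
  have hu : (α o.1, β o.2) = u := by rw [hα1, hβ1]
  have hv' : (α (α⁻¹ v.1), β (β⁻¹ v.2)) = v :=
    Prod.ext (Equiv.apply_symm_apply α v.1) (Equiv.apply_symm_apply β v.2)
  have h1 : (α⁻¹ v.1, β⁻¹ v.2) ∈ X.Bl r o := by
    refine (hb r o (α⁻¹ v.1, β⁻¹ v.2)).1 ?_
    show (α (α⁻¹ v.1), β (β⁻¹ v.2)) ∈ _
    rw [hv', hu]
    exact hv
  have h2 : f (α⁻¹ v.1, β⁻¹ v.2) ≤ max r (hfin.toFinset.sup f) :=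
    (Finset.le_sup (f := f) (hfin.mem_toFinset.2 h1)).trans (le_max_right _ _)
  have h3 : (within X.G (X.Bl (max r (hfin.toFinset.sup f)) o)).Reachable o (α⁻¹ v.1, β⁻¹ v.2) :=
    (hf _).mono (within_mono X.G (Bl_mono X h2 o))
  let φ : (within X.G (X.Bl (max r (hfin.toFinset.sup f)) o)) →g
      (within X.G (X.Bl (max r (hfin.toFinset.sup f)) u)) :=
    { toFun := fun z => (α z.1, β z.2)
      map_rel' := by
        intro a b hab
        refine ⟨(X.inv α hα β hβ a b).2 hab.1, ?_, ?_⟩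
        · rw [← hu]
          exact (hb _ o a).2 hab.2.1
        · rw [← hu]
          exact (hb _ o b).2 hab.2.2 }
  have h4 := h3.map φ
  have e1 : φ o = u := hu
  have e2 : φ (α⁻¹ v.1, β⁻¹ v.2) = v := hv'
  rw [e1, e2] at h4
  exact h4

end Pool.Agent.Work.MP_c58d8b_pr.PG
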