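import Pool.Agent.Work.MP_c58d8b_pr.PG.Stmts

/-!
# MP_c58d8b_pr, block PG, item KN: a chain of translates
-/

set_option autoImplicit false

namespace Pool.Agent.Work.MP_c58d8b_pr.PG

open MeasureTheory ProbabilityTheory Set Filter Topology
open scoped ENNReal unitInterval Classical
open Pool.Agent.Work.MP_c58d8b_pr.SO Pool.Agent.Work.MP_c58d8b_pr.PT

universe u

namespace IX_KN

/-- Iterated ancestors. -/
theorem up_up (X : Sg.{u}) (m n : ℕ) (x : X.T') : X.up m (X.up n x) = X.up (m + n) x := by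
  unfold Sg.up
  rw [Function.iterate_add_apply]

/-- The descendants of an ancestor grow. -/
theorem desc_up_mono (X : Sg.{u}) (x : X.T') {m n : ℕ} (hmn : m ≤ n) :
    desc X.par' (X.up m x) ⊆ desc X.par' (X.up n x) := by
  rintro y ⟨k, hk⟩
  refine ⟨(n - m) + k, ?_⟩
  have e : n = (n - m) + m := by omega
  rw [Function.iterate_add_apply, hk]
  change X.up (n - m) (X.up m x) = X.up n x
  rw [up_up, ← e]

/-- Slabs grow with the first index. -/
theorem Sl_mono (X : Sg.{u}) (x : X.T') {K K' : ℕ} (L : ℕ) (hK : K ≤ K') :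
    X.Sl x K L ⊆ X.Sl x K' L := by
  intro v hv
  exact ⟨desc_up_mono X x hK hv.1, hv.2⟩

/-- The slab of an ancestor is contained in the slab of the point. -/
theorem Sl_up (hRA : StRA.{u}) (X : Sg.{u}) (x : X.T') (m K L : ℕ) :
    X.Sl (X.up m x) K L ⊆ X.Sl x (m + K) L := by
  intro v hv
  obtain ⟨h1, h2⟩ := hv
  have hh : X.h' (X.up m x) = X.h' x + m := (hRA X.T' X.par' X.h' X.b X.tr').1 m x
  refine ⟨?_, ?_⟩
  · rw [up_up] at h1
    rw [Nat.add_comm m K]
    exact h1
  · rw [hh] at h2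
    have : (0 : ℤ) ≤ (m : ℤ) := Int.natCast_nonneg m
    linarith

end IX_KN

open IX_KN in
/-- Item KN. -/
theorem pg_KN (hQA : StQA.{u}) (hQE : StQE.{u}) (hRA : StRA.{u}) (hRB : StRB.{u}) : StKN.{u} := by
  intro X p hp0 hp1 e j L c hc0 hc1 hstep N
  obtain ⟨q1, -, q3, -⟩ := hQE (X.T × X.T') X.G p hp0 hp1
  obtain ⟨b1, -, -, -, -, -, b7, -⟩ := hRB X.T X.par X.h X.a X.tr
  induction N with
  | zero =>
    intro t s x hd
    have hts : t = s := (b1 t s).1 (by
      have h0 : X.d t s = 0 := by rw [hd, Nat.zero_mul]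
      exact h0)
    subst hts
    refine ⟨∅, ?_⟩
    have hx : X.up (0 * j) x = x := by
      rw [Nat.zero_mul]
      rfl
    rw [hx, (hQA (X.T × X.T') (within X.G (X.Sl x (0 * j + L) L)) p hp0 hp1).2.1 ∅ (t, x), pow_zero]
  | succ N ih =>
    intro t s x hd
    have hd' : td X.par t s = N * e + e := by
      have h0 : X.d t s = (N + 1) * e := hd
      rw [Nat.succ_mul] at h0
      exact h0
    obtain ⟨r, hr1, hr2⟩ := b7 t s (N * e) e hd'
    have A1 : Ach X.G (X.Sl x (N * j + L) L) p (t, x) (r, X.up (N * j) x) (c ^ N) := ih t r x hr1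
    have A2 : Ach X.G (X.Sl (X.up (N * j) x) L L) p (r, X.up (N * j) x)
        (s, X.up j (X.up (N * j) x)) c := hstep r s (X.up (N * j) x) hr2
    have e1 : X.up j (X.up (N * j) x) = X.up ((N + 1) * j) x := by
      rw [up_up]
      congr 1
      ring
    rw [e1] at A2
    have hle : N * j + L ≤ (N + 1) * j + L := by
      have : N * j ≤ (N + 1) * j := Nat.mul_le_mul_right j (Nat.le_succ N)
      omega
    have A1' := q1 _ (X.Sl x ((N + 1) * j + L) L) _ _ _ (Sl_mono X x L hle) A1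
    have A2' := q1 _ (X.Sl x ((N + 1) * j + L) L) _ _ _
      ((Sl_up hRA X x (N * j) L L).trans (Sl_mono X x L hle)) A2
    rw [pow_succ]
    exact q3 _ _ _ _ _ _ (pow_nonneg hc0 N) hc0 A1' A2'

end Pool.Agent.Work.MP_c58d8b_pr.PG
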