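import Pool.Agent.Work.MP_c58d8b_pr.PG.Stmts

/-!
# Block PG, item KQ: iteration of the zigzag step
-/

set_option autoImplicit false

namespace Pool.Agent.Work.MP_c58d8b_pr.PG

theorem pg_KQ : StKQ := by
  intro a i K₁ K₂ c' Q ha hi hK₁ hK₂ hc' hbig hQ0 hQle hstep
  have ha0 : 0 < a := by linarith
  have hA : 1 < a ^ (2 * i) := one_lt_pow₀ ha (by omega)
  have hA0 : 0 < a ^ (2 * i) := by linarith
  -- choice of mu
  have h1 : (a ^ (2 * i))⁻¹ < min 1 K₁ := by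
    rw [lt_min_iff]
    refine ⟨inv_lt_one_of_one_lt₀ hA, ?_⟩
    rw [inv_lt_iff_one_lt_mul₀ hA0]
    linarith [mul_comm K₁ (a ^ (2 * i))]
  obtain ⟨μ, hμ1, hμ2⟩ := exists_between h1
  have hμ0 : 0 < μ := lt_trans (inv_pos.2 hA0) hμ1
  rw [lt_min_iff] at hμ2
  obtain ⟨hμ2, hμ3⟩ := hμ2
  have hAμ : 1 < a ^ (2 * i) * μ := by
    rw [inv_lt_iff_one_lt_mul₀ hA0] at hμ1
    linarith [mul_comm μ (a ^ (2 * i))]
  have hKK : 0 ≤ K₁ * K₂ := by positivity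
  -- choice of eps
  obtain ⟨ε, hε0, hε2⟩ : ∃ ε : ℝ, 0 < ε ∧ K₁ * K₂ * ε ≤ 2 * (K₁ - μ) := by
    refine ⟨2 * (K₁ - μ) / (K₁ * K₂ + 1), div_pos (by linarith) (by linarith), ?_⟩
    rw [mul_div_assoc', div_le_iff₀ (by linarith)]
    nlinarith [hKK, hμ3]
  obtain ⟨δ, hδ0, hδ1, hδ2⟩ : ∃ δ : ℝ, 0 < δ ∧ δ ≤ 1 ∧ δ ≤ c' * ε :=
    ⟨min 1 (c' * ε), lt_min one_pos (by positivity), min_le_left _ _, min_le_right _ _⟩
  -- the claim
  have key : ∀ N : ℕ, ∃ z : ℝ, δ * μ ^ N ≤ z ∧ z ≤ 1 ∧ Q (2 * i * N) z := by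
    intro N
    induction N with
    | zero => exact ⟨1, by simpa using hδ1, le_rfl, by simpa using hQ0⟩
    | succ N ih =>
      obtain ⟨z, hz1, hz2, hz3⟩ := ih
      have hz0 : 0 < z := lt_of_lt_of_le (by positivity) hz1
      obtain ⟨hs1, hs2⟩ := hstep (2 * i * N) z hz0.le hz2 hz3
      have he : 2 * i * (N + 1) = 2 * i * N + 2 * i := by ring
      rw [he]
      by_cases hzε : z ≤ ε
      · refine ⟨_, ?_, hQle _ _ hs1, hs1⟩
        have h3 : μ ≤ K₁ * (1 - K₂ * z / 2) := by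
          have h4 : K₁ * K₂ * z ≤ K₁ * K₂ * ε := mul_le_mul_of_nonneg_left hzε hKK
          nlinarith [h4, hε2]
        calc δ * μ ^ (N + 1) = (δ * μ ^ N) * μ := by ring
          _ ≤ z * μ := mul_le_mul_of_nonneg_right hz1 hμ0.le
          _ ≤ z * (K₁ * (1 - K₂ * z / 2)) := mul_le_mul_of_nonneg_left h3 hz0.le
          _ = K₁ * z * (1 - K₂ * z / 2) := by ring
      · push Not at hzε
        refine ⟨_, ?_, hQle _ _ hs2, hs2⟩
        have h5 : μ ^ (N + 1) ≤ 1 := pow_le_one₀ hμ0.le hμ2.le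
        calc δ * μ ^ (N + 1) ≤ δ * 1 := mul_le_mul_of_nonneg_left h5 hδ0.le
          _ = δ := mul_one _
          _ ≤ c' * ε := hδ2
          _ ≤ c' * z := mul_le_mul_of_nonneg_left hzε.le hc'.le
  -- conclusion
  obtain ⟨N, hN⟩ := pow_unbounded_of_one_lt (1 / δ) hAμ
  obtain ⟨z, hz1, hz2, hz3⟩ := key (N + 1)
  have hz0 : 0 < z := lt_of_lt_of_le (by positivity) hz1
  refine ⟨2 * i * (N + 1), z, ?_, hz0, hz3, ?_⟩
  · have : 1 ≤ 2 * i * (N + 1) := Nat.one_le_iff_ne_zero.2 (by positivity)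
    exact this
  · rw [div_lt_iff₀ hδ0] at hN
    have h6 : (a ^ (2 * i) * μ) ^ N ≤ (a ^ (2 * i) * μ) ^ (N + 1) :=
      pow_le_pow_right₀ hAμ.le (Nat.le_succ N)
    calc (1 : ℝ) ≤ (a ^ (2 * i) * μ) ^ N * δ := hN.le
      _ ≤ (a ^ (2 * i) * μ) ^ (N + 1) * δ := mul_le_mul_of_nonneg_right h6 hδ0.le
      _ = a ^ (2 * i * (N + 1)) * (δ * μ ^ (N + 1)) := by
        rw [mul_pow, ← pow_mul]; ring
      _ ≤ a ^ (2 * i * (N + 1)) * z := mul_le_mul_of_nonneg_left hz1 (by positivity)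

end Pool.Agent.Work.MP_c58d8b_pr.PG
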