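import Pool.Agent.Work.MP_c58d8b_pr.PG.Stmts

/-!
# MP_c58d8b_pr, block PG, item KR (helper6): a good horizontal connection
-/

set_option autoImplicit false

namespace Pool.Agent.Work.MP_c58d8b_pr.PG

open MeasureTheory ProbabilityTheory Set Filter Topology
open scoped ENNReal unitInterval Classical
open Pool.Agent.Work.MP_c58d8b_pr.SO Pool.Agent.Work.MP_c58d8b_pr.PT

universe u

/-- item KR -/
theorem pg_KR (hQA : StQA.{u}) (hQE : StQE.{u}) (hRB : StRB.{u}) (hKI : StKI.{u})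
    (hKZ : StKZ.{u}) (hKQ : StKQ) : StKR.{u} := by
  intro X p hp hp1 hB
  obtain ⟨e, j, L, c, hL, hc, hc1, h1, hA⟩ := hKI X p hp.le hp1 hB
  have ha2 : (2 : ℝ) ≤ (X.a : ℝ) := by exact_mod_cast X.tr.two
  have hb2 : (2 : ℝ) ≤ (X.b : ℝ) := by exact_mod_cast X.tr'.two
  have hb0 : (0 : ℝ) ≤ (X.b : ℝ) := by linarith
  have hmono : ∀ (W : Set (X.T × X.T')) u v (z : ℝ), Ach X.G W p u v z →
      Ach X.G Set.univ p u v z := fun W u v z h =>
    (hQE (X.T × X.T') X.G p hp.le hp1).1 W Set.univ u v z (Set.subset_univ _) h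
  rcases Nat.eq_zero_or_pos j with hj | hj
  · subst hj
    rw [pow_zero, mul_one] at h1
    refine ⟨e, c, ?_, hc, hc1, h1.le, ?_⟩
    · rcases Nat.eq_zero_or_pos e with he | he
      · subst he
        rw [pow_zero, one_mul] at h1
        linarith
      · exact he
    · intro t s x hd
      exact hmono _ _ _ _ (hA t s x hd)
  · obtain ⟨κ, κ', κ'', N₀, hκ, hκ', hκ'', hstep⟩ := hKZ X p hp hp1 e j L c hj hL hc hc1 hA
    have hone : ∀ (m : ℕ) (z : ℝ),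
        (∀ t s w, X.d t s = m → Ach X.G (X.Dn (X.up L w)) p (t, w) (s, w) z) → z ≤ 1 := by
      intro m z hQ
      obtain ⟨⟨t, w⟩⟩ := X.conn.nonempty
      obtain ⟨s, hs⟩ := (hRB X.T X.par X.h X.a X.tr).2.2.2.2.2.2.2.1 t m
      exact ((hQE (X.T × X.T') X.G p hp.le hp1).2.2.2.1 (X.Dn (X.up L w)) (t, w) (s, w) z
        (hQ t s w hs)).2
    have hθ2 : 1 < ((X.a : ℝ) ^ e * √(X.b : ℝ) ^ j * c) ^ 2 := one_lt_pow₀ h1 two_ne_zero
    have haκ : 0 < (X.a : ℝ) ^ 2 * κ := mul_pos (pow_pos (by linarith) 2) hκ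
    have hlim : Tendsto (fun N : ℕ => (X.a : ℝ) ^ 2 * κ *
        (((X.a : ℝ) ^ e * √(X.b : ℝ) ^ j * c) ^ 2) ^ N) atTop atTop :=
      (tendsto_pow_atTop_atTop_of_one_lt hθ2).const_mul_atTop haκ
    obtain ⟨N, hN, hN0⟩ := ((hlim.eventually_gt_atTop 1).and (eventually_ge_atTop N₀)).exists
    have hbN : 0 < (X.b : ℝ) ^ (N * j) := pow_pos (by linarith) _
    have hcN : 0 < c ^ (2 * N) := pow_pos hc _
    have hsq : (1 : ℝ) < (X.a : ℝ) ^ (2 * (N * e + 1)) *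
        (κ * (X.b : ℝ) ^ (N * j) * c ^ (2 * N)) := by
      have h2 : (X.a : ℝ) ^ 2 * κ * (((X.a : ℝ) ^ e * √(X.b : ℝ) ^ j * c) ^ 2) ^ N =
          (X.a : ℝ) ^ (2 * (N * e + 1)) * (κ * (X.b : ℝ) ^ (N * j) * c ^ (2 * N)) := by
        have h3 : ((X.a : ℝ) ^ e * √(X.b : ℝ) ^ j * c) ^ 2 =
            (X.a : ℝ) ^ (2 * e) * (X.b : ℝ) ^ j * c ^ 2 := by
          rw [mul_pow, mul_pow, ← pow_mul, mul_comm e 2, ← pow_mul (√(X.b : ℝ)), mul_comm j 2,
            pow_mul (√(X.b : ℝ)), Real.sq_sqrt hb0]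
        rw [h3, mul_pow, mul_pow, ← pow_mul, ← pow_mul, ← pow_mul, Nat.mul_comm N j,
          show 2 * (N * e + 1) = 2 * e * N + 2 by ring, pow_add]
        ring
      rw [← h2]
      exact hN
    obtain ⟨m, z, hm, hz, hQ, hmz⟩ := hKQ (X.a : ℝ) (N * e + 1)
      (κ * (X.b : ℝ) ^ (N * j) * c ^ (2 * N)) (κ' * (X.b : ℝ) ^ (N * j)) (κ'' * c ^ (2 * N))
      (fun m z => ∀ t s w, X.d t s = m → Ach X.G (X.Dn (X.up L w)) p (t, w) (s, w) z)
      (by linarith) (Nat.le_add_left 1 _) (mul_pos (mul_pos hκ hbN) hcN) (mul_pos hκ' hbN).le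
      (mul_pos hκ'' hcN) hsq
      (by
        intro t s w hd
        have hts : t = s := ((hRB X.T X.par X.h X.a X.tr).1 t s).1 hd
        subst hts
        exact ⟨∅, ((hQA (X.T × X.T') (within X.G (X.Dn (X.up L w))) p hp.le hp1).2.1 ∅
          (t, w)).ge⟩)
      hone
      (by
        intro m z hz hz1 hQ
        exact ⟨fun t s w hd => (hstep N hN0 m z hz hz1 hQ t s w hd).1,
          fun t s w hd => (hstep N hN0 m z hz hz1 hQ t s w hd).2⟩)
    exact ⟨m, z, hm, hz, hone m z hQ, hmz, fun t s x hd => hmono _ _ _ _ (hQ t s x hd)⟩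

end Pool.Agent.Work.MP_c58d8b_pr.PG
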