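import Pool.Agent.Work.MP_c58d8b_pr.PG.Stmts

/-!
# MP_c58d8b_pr, block PG, item KT: the exit pair (copy of PT II)
-/

set_option autoImplicit false

namespace Pool.Agent.Work.MP_c58d8b_pr.PG

open MeasureTheory ProbabilityTheory Set Filter Topology
open scoped ENNReal unitInterval Classical
open Pool.Agent.Work.MP_c58d8b_pr.SO Pool.Agent.Work.MP_c58d8b_pr.PT

universe u

namespace IX_KT

lemma within_mono_left {V : Type u} (G : SimpleGraph V) (A B : Set V) (h : A ⊆ B) :
    within G A ≤ within G B := by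
  intro x y hxy
  exact ⟨hxy.1, h hxy.2.1, h hxy.2.2⟩

/-- Inside a finite set contained in `U` the restriction to `U` does not matter. -/
lemma tau_within {V : Type u} (hQC : StQC.{u}) (G : SimpleGraph V) (U : Set V) (p : ℝ)
    (S : Finset V) (hS : ∀ v ∈ S, v ∈ U) (x y : V) :
    tau (within G U) p S x y = tau G p S x y := by
  rw [(hQC V).2.1 G U p S x y, Finset.filter_true_of_mem hS]

/-- The chain of the steps. -/
lemma chain (hQA : StQA.{u}) (hQB : StQB.{u}) (hQC : StQC.{u}) (X : Sg.{u}) (p q z : ℝ)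
    (m : ℕ) (hp : 0 < p) (hpq : p ≤ q) (hq : q ≤ 1) (hz : 0 ≤ z) (t₀ : X.T) (x : X.T')
    (U : Set (X.T × X.T')) (St : X.T → Finset (X.T × X.T'))
    (hU : ∀ t, ∀ v ∈ St t, v ∈ U)
    (hzt : ∀ t, z ≤ tau X.G p (St t) (X.par^[m] t, x) (t, x))
    (S : Finset (X.T × X.T')) :
    ∀ (k : ℕ) (t : X.T), X.par^[k * m] t = t₀ → (∀ l < k, St (X.par^[l * m] t) ⊆ S) →
      z ^ k ≤ tau (within X.G U) q S (t₀, x) (t, x) := by
  have hq0 : 0 ≤ q := hp.le.trans hpq
  have hA := hQA (X.T × X.T') (within X.G U) q hq0 hq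
  intro k
  induction k with
  | zero =>
    intro t ht _
    have h : t = t₀ := by simpa using ht
    subst h
    rw [hA.2.1 S (t, x), pow_zero]
  | succ k ih =>
    intro t ht hl
    have h1 : X.par^[k * m] (X.par^[m] t) = t₀ := by
      rw [← Function.iterate_add_apply, ← ht]
      congr 1
      ring
    have h2 : ∀ l < k, St (X.par^[l * m] (X.par^[m] t)) ⊆ S := by
      intro l hlk
      have h := hl (l + 1) (by omega)
      rw [← Function.iterate_add_apply]
      have e : l * m + m = (l + 1) * m := by ring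
      rw [e]
      exact h
    have h3 := ih (X.par^[m] t) h1 h2
    have h4 : St t ⊆ S := by simpa using hl 0 (by omega)
    have h5 : z ≤ tau (within X.G U) q S (X.par^[m] t, x) (t, x) := by
      calc z ≤ tau X.G p (St t) (X.par^[m] t, x) (t, x) := hzt t
        _ = tau (within X.G U) p (St t) (X.par^[m] t, x) (t, x) :=
            (tau_within hQC X.G U p (St t) (hU t) _ _).symm
        _ ≤ _ := (hQB (X.T × X.T')).1 _ _ _ _ p q le_rfl h4 hp.le hpq hq _ _
    calc z ^ (k + 1) = z ^ k * z := pow_succ z k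
      _ ≤ tau (within X.G U) q S (t₀, x) (X.par^[m] t, x) *
          tau (within X.G U) q S (X.par^[m] t, x) (t, x) :=
          mul_le_mul h3 h5 hz (hA.1 S _ _).1
      _ ≤ _ := hA.2.2.2.1 S _ _ _

/-- The exit edge of a connected finite set which is not contained in `S`. -/
lemma exit_edge {V : Type u} (G : SimpleGraph V) (S F : Finset V) (a : V) (haS : a ∈ S)
    (hF : ∀ v ∈ F, (within G (F : Set V)).Reachable a v) (hFS : ¬ F ⊆ S) :
    ∃ y ∈ S, ∃ w, w ∉ S ∧ G.Adj y w ∧ y ∈ F ∧ w ∈ F ∧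
      (within G {v | v ∈ F ∧ v ∈ S}).Reachable a y := by
  obtain ⟨v, hvF, hvS⟩ := Finset.not_subset.mp hFS
  obtain ⟨W⟩ := hF v hvF
  let K := within G {v | v ∈ F ∧ v ∈ S}
  have hC : ∀ y, K.Reachable a y → y ∈ S := by
    intro y hy
    obtain ⟨W'⟩ := hy.symm
    cases W' with
    | nil => exact haS
    | cons h _ =>
      exact h.2.1.2
  obtain ⟨d, -, hd1, hd2⟩ := W.exists_boundary_dart {y | K.Reachable a y}
    (SimpleGraph.Reachable.refl a) (fun h => hvS (hC v h))
  have hadj : (within G (F : Set V)).Adj d.fst d.snd := d.adj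
  have hy : d.fst ∈ S := hC _ hd1
  have hyF : d.fst ∈ F := by exact_mod_cast hadj.2.1
  have hwF : d.snd ∈ F := by exact_mod_cast hadj.2.2
  refine ⟨d.fst, hy, d.snd, ?_, hadj.1, hyF, hwF, hd1⟩
  intro hwS
  apply hd2
  have hK : K.Adj d.fst d.snd := by
    exact ⟨hadj.1, ⟨hyF, hy⟩, ⟨hwF, hwS⟩⟩
  exact SimpleGraph.Reachable.trans hd1 hK.reachable

end IX_KT

open IX_KT in
/-- [KT] -/
theorem pg_KT (hQA : StQA.{u}) (hQB : StQB.{u}) (hQC : StQC.{u}) (hQD : StQD.{u}) :
    StKT.{u} := by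
  intro X p q z m N R hp hpq hq hz t₀ x U St hSt S ht₀ k t t' hkt hl htt' hnot
  have hp1 : p ≤ 1 := hpq.trans hq
  have hq0 : 0 ≤ q := hp.le.trans hpq
  have hU : ∀ t, ∀ v ∈ St t, v ∈ U := fun t v hv => ((hSt t).2.2.2.1 v hv).2.1
  have hch := chain hQA hQB hQC X p q z m hp hpq hq hz t₀ x U St hU
    (fun t => (hSt t).2.2.2.2) S k t hkt hl
  have htS : (t, x) ∈ S := by
    rcases Nat.eq_zero_or_pos k with hk | hk
    · subst hk
      have h : t = t₀ := by simpa using hkt
      rw [h]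
      exact ht₀
    · have h : St t ⊆ S := by simpa using hl 0 hk
      exact h (hSt t).2.2.1
  obtain ⟨y, hyS, w, hwS, hadj, hyF, hwF, hreach⟩ := exit_edge X.G S (St t') (t, x) htS
    (fun v hv => by
      have h := ((hSt t').2.2.2.1 v hv).2.2
      rw [htt'] at h
      exact h) hnot
  have hy := (hSt t').2.2.2.1 y hyF
  rw [htt'] at hy
  refine ⟨y, hyS, w, hwS, hadj, hy.2.1, hU t' w hwF, hy.1, ?_⟩
  have hset : ((((St t').filter (· ∈ S) : Finset (X.T × X.T')) : Set (X.T × X.T'))) =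
      {v | v ∈ St t' ∧ v ∈ S} := by
    ext v
    simp
  have hreach' : (within X.G (((St t').filter (· ∈ S) : Finset (X.T × X.T')) :
      Set (X.T × X.T'))).Reachable (t, x) y := by
    rw [hset]
    exact hreach
  have h1 : p ^ N ≤ tau (within X.G U) q S (t, x) y := by
    have hcard : ((St t').filter (· ∈ S)).card ≤ N :=
      (Finset.card_le_card (Finset.filter_subset _ _)).trans (hSt t').1
    calc p ^ N ≤ p ^ ((St t').filter (· ∈ S)).card := pow_le_pow_of_le_one hp.le hp1 hcard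
      _ ≤ tau X.G p ((St t').filter (· ∈ S)) (t, x) y :=
          (hQD (X.T × X.T') X.G).1 p _ _ _ hp.le hp1 hreach'
      _ = tau (within X.G U) p ((St t').filter (· ∈ S)) (t, x) y :=
          (tau_within hQC X.G U p _ (fun v hv => hU t' v (Finset.mem_filter.mp hv).1) _ _).symm
      _ ≤ _ := (hQB (X.T × X.T')).1 _ _ _ _ p q le_rfl
          (fun v hv => (Finset.mem_filter.mp hv).2) hp.le hpq hq _ _
  have hA := hQA (X.T × X.T') (within X.G U) q hq0 hq
  calc z ^ k * p ^ N ≤ tau (within X.G U) q S (t₀, x) (t, x) *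
      tau (within X.G U) q S (t, x) y := mul_le_mul hch h1 (by positivity) (hA.1 S _ _).1
    _ ≤ _ := hA.2.2.2.1 S _ _ _

end Pool.Agent.Work.MP_c58d8b_pr.PG
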