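import Pool.Agent.Work.MP_c58d8b_pr.PG.Stmts

/-!
# MP_c58d8b_pr, block PG, item KU: paths between levels
-/

set_option autoImplicit false

namespace Pool.Agent.Work.MP_c58d8b_pr.PG

open MeasureTheory ProbabilityTheory Set Filter Topology
open scoped ENNReal unitInterval Classical
open Pool.Agent.Work.MP_c58d8b_pr.SO Pool.Agent.Work.MP_c58d8b_pr.PT

universe u

namespace IX_KU

theorem reach_mono {V : Type u} (G : SimpleGraph V) {W W' : Set V} (h : W ⊆ W') {x y : V}
    (hr : (within G W).Reachable x y) : (within G W').Reachable x y := by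
  have hle : within G W ≤ within G W' := fun _ _ hab => ⟨hab.1, h hab.2.1, h hab.2.2⟩
  exact hr.mono hle

theorem up_add (X : Sg.{u}) (m n : ℕ) (x : X.T') : X.up (m + n) x = X.up m (X.up n x) :=
  Function.iterate_add_apply _ m n x

theorem desc_up_mono (X : Sg.{u}) {m n : ℕ} (hmn : m ≤ n) (x : X.T') :
    desc X.par' (X.up m x) ⊆ desc X.par' (X.up n x) := by
  rintro y ⟨j, hj⟩
  refine ⟨(n - m) + j, ?_⟩
  rw [Function.iterate_add_apply, hj]
  have h1 : n = (n - m) + m := by omega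
  conv_rhs => rw [h1]
  rw [up_add]
  rfl

/-- `2 J` jumps -/
theorem jumps (X : Sg.{u}) (d₀ : ℕ) (f : X.T' → X.T')
    (hadj : ∀ t s x, X.d t s = d₀ → X.G.Adj (t, x) (s, f x))
    (hex : ∀ t : X.T, ∃ s, X.d t s = d₀ ∧ X.d s t = d₀) (W : Set (X.T × X.T')) (t : X.T)
    (x : X.T') (J : ℕ) (hW : ∀ i ≤ 2 * J, ∀ t₁, (t₁, f^[i] x) ∈ W) :
    (within X.G W).Reachable (t, x) (t, f^[2 * J] x) := by
  induction J with
  | zero => exact SimpleGraph.Reachable.refl _
  | succ J ih =>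
    have h1 := ih (fun i hi t₁ => hW i (by omega) t₁)
    obtain ⟨s, hs1, hs2⟩ := hex t
    have e1 : f^[2 * J + 1] x = f (f^[2 * J] x) := Function.iterate_succ_apply' f _ x
    have e2 : f^[2 * (J + 1)] x = f (f^[2 * J + 1] x) := Function.iterate_succ_apply' f _ x
    have h2 : (within X.G W).Adj (t, f^[2 * J] x) (s, f^[2 * J + 1] x) := by
      refine ⟨?_, hW _ (by omega) t, hW _ (by omega) s⟩
      rw [e1]
      exact hadj t s _ hs1
    have h3 : (within X.G W).Adj (s, f^[2 * J + 1] x) (t, f^[2 * (J + 1)] x) := by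
      refine ⟨?_, hW _ (by omega) s, hW _ le_rfl t⟩
      rw [e2]
      exact hadj s t _ hs2
    exact (h1.trans h2.reachable).trans h3.reachable

/-- heights and ancestors of the iterates of `f` -/
theorem iter_f (X : Sg.{u}) (k D : ℕ) (f : X.T' → X.T')
    (hf : ∀ x, X.h' (f x) = X.h' x + k ∧ X.up D (f x) = X.up (D + k) x) (x : X.T') (i : ℕ) :
    X.h' (f^[i] x) = X.h' x + (i * k : ℕ) ∧ X.up D (f^[i] x) = X.up (D + i * k) x := by
  induction i with
  | zero => simp
  | succ i ih =>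
    rw [Function.iterate_succ_apply']
    constructor
    · rw [(hf _).1, ih.1]
      push_cast
      ring
    · rw [(hf _).2, add_comm D k, up_add, ih.2, ← up_add]
      congr 1
      ring

end IX_KU

open IX_KU in
/-- [KU] -/
theorem pg_KU (hRA : StRA.{u}) (hRB : StRB.{u}) (hKX : StKX.{u}) (hKL : StKL.{u})
    (hKJ : StKJ.{u}) : StKU.{u} := by
  intro X
  obtain ⟨rh, -, -, -, -, -⟩ := hRA X.T' X.par' X.h' X.b X.tr'
  obtain ⟨-, -, -, -, rtd, -, -, -, -, -⟩ := hRB X.T' X.par' X.h' X.b X.tr'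
  obtain ⟨tz, tsym, -, -, -, -, -, tex, -, -⟩ := hRB X.T X.par X.h X.a X.tr
  obtain ⟨-, kx⟩ := hKX X.T' X.par' X.h' X.b X.tr'
  obtain ⟨d₀, k, D, hk1, hkD, f, hf, hadj⟩ := hKJ X
  obtain ⟨ρ₀, hρ₀, hloc₀⟩ := hKL X (2 * D + 2 * k + 1)
  have hex : ∀ t : X.T, ∃ s, X.d t s = d₀ ∧ X.d s t = d₀ := by
    intro t
    obtain ⟨s, hs⟩ := tex t d₀
    exact ⟨s, hs, by rw [← hs]; exact tsym s t⟩
  have hup : ∀ n x, X.h' (X.up n x) = X.h' x + n := rh
  -- a local ball is contained in the slab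
  have hball : ∀ (N ρ m i : ℕ) (x : X.T') (t : X.T), ρ < m + i * k →
      ρ + D + i * k + m ≤ N →
      X.Bl ρ (t, f^[i] (X.up m x)) ⊆ X.Sl x N 0 := by
    intro N ρ m i x t h1 h2 w hw
    obtain ⟨hi1, hi2⟩ := iter_f X k D f hf (X.up m x) i
    obtain ⟨hd, hh⟩ := kx _ _ ρ hw.2
    constructor
    · have e1 : desc X.par' (X.up ρ (f^[i] (X.up m x))) ⊆
          desc X.par' (X.up (ρ + D) (f^[i] (X.up m x))) := desc_up_mono X (by omega) _
      have e2 : X.up (ρ + D) (f^[i] (X.up m x)) = X.up (ρ + D + i * k + m) x := by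
        rw [up_add, hi2, ← up_add, ← up_add]
        congr 1
        ring
      rw [e2] at e1
      exact desc_up_mono X h2 x (e1 hd)
    · have e3 := abs_le.mp hh
      have e4 := e3.1
      have e5 : X.h' (f^[i] (X.up m x)) = X.h' x + m + (i * k : ℕ) := by rw [hi1, hup]
      have e6 : ((t, f^[i] (X.up m x)) : X.T × X.T').2 = f^[i] (X.up m x) := rfl
      rw [e6, e5] at e4
      show X.h' x < X.h' w.2 + ((0 : ℕ) : ℤ)
      have e7 : (ρ : ℤ) < m + (i * k : ℕ) := by exact_mod_cast h1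
      push_cast at e4 e7 ⊢
      linarith
  -- the vertices of the jumps are in the slab
  have hjmp : ∀ (N m i : ℕ) (x : X.T') (t : X.T), 1 ≤ m → D + i * k + m ≤ N →
      (t, f^[i] (X.up m x)) ∈ X.Sl x N 0 := by
    intro N m i x t h1 h2
    refine hball N 0 m i x t (by omega) (by omega) ⟨?_, ?_⟩
    · exact le_of_eq ((tz t t).mpr rfl)
    · exact le_trans (rtd _ _ 0 0 rfl) (by simp)
  refine ⟨D + ρ₀ + 1, by omega, fun e => ?_⟩
  obtain ⟨K, hK⟩ : ∃ K, K = D + ρ₀ + 1 := ⟨_, rfl⟩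
  rw [← hK]
  obtain ⟨ρ, hρ, hloc⟩ := hKL X (2 * D + 2 * k + e)
  refine ⟨2 * K + 2 * ρ * k + ρ + 2 * k, by nlinarith, ?_⟩
  intro n hn t s x hts
  -- `n - K = K + 2 ρ k + r + 2 J' k`
  obtain ⟨m, hm⟩ : ∃ m, n = 2 * K + 2 * ρ * k + m := ⟨n - (2 * K + 2 * ρ * k), by omega⟩
  obtain ⟨J', r, hr, hmr⟩ : ∃ J' r, r < 2 * k ∧ m = 2 * J' * k + r := by
    refine ⟨m / (2 * k), m % (2 * k), Nat.mod_lt _ (by omega), ?_⟩
    have h1 := Nat.div_add_mod m (2 * k)
    have h2 : 2 * (m / (2 * k)) * k = 2 * k * (m / (2 * k)) := by ring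
    omega
  have hJ' : ρ < 2 * J' * k := by omega
  have hρk : ρ ≤ 2 * ρ * k := by nlinarith
  have hnK : n - K = K + 2 * ρ * k + r + 2 * J' * k := by omega
  -- step 1
  have s1 : (within X.G (X.Sl x (n - 1) 0)).Reachable (t, X.up K x)
      (t, f^[2 * ρ] (X.up K x)) := by
    refine jumps X d₀ f hadj hex _ t _ ρ ?_
    intro i hi t₁
    refine hjmp (n - 1) K i x t₁ (by omega) ?_
    have h1 : i * k ≤ 2 * ρ * k := Nat.mul_le_mul_right k hi
    omega
  -- step 2
  have s2 : (within X.G (X.Sl x (n - 1) 0)).Reachable (t, f^[2 * ρ] (X.up K x))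
      (s, X.up (K + 2 * ρ * k + r) x) := by
    refine reach_mono X.G (hball (n - 1) ρ K (2 * ρ) x t (by omega) (by omega)) ?_
    refine hloc _ _ ⟨?_, ?_⟩
    · show td X.par t s ≤ _
      have h1 : td X.par t s = e := hts
      omega
    · show td X.par' (f^[2 * ρ] (X.up K x)) (X.up (K + 2 * ρ * k + r) x) ≤ _
      have h1 := rtd (f^[2 * ρ] (X.up K x)) (X.up (K + 2 * ρ * k + r) x) (r + D) D (by
        have h2 := (iter_f X k D f hf (X.up K x) (2 * ρ)).2
        have h3 : X.up (r + D) (f^[2 * ρ] (X.up K x)) = X.up D (X.up (K + 2 * ρ * k + r) x) := by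
          rw [up_add, h2, ← up_add, ← up_add, ← up_add]
          congr 1
          ring
        exact h3)
      omega
  -- step 3
  have s3 : (within X.G (X.Sl x (n - 1) 0)).Reachable (s, X.up (K + 2 * ρ * k + r) x)
      (s, f^[2 * J'] (X.up (K + 2 * ρ * k + r) x)) := by
    refine jumps X d₀ f hadj hex _ s _ J' ?_
    intro i hi t₁
    refine hjmp (n - 1) (K + 2 * ρ * k + r) i x t₁ (by omega) ?_
    have h1 : i * k ≤ 2 * J' * k := Nat.mul_le_mul_right k hi
    omega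
  -- step 4
  have s4 : (within X.G (X.Sl x (n - 1) 0)).Reachable
      (s, f^[2 * J'] (X.up (K + 2 * ρ * k + r) x)) (s, X.up (n - K) x) := by
    refine reach_mono X.G (hball (n - 1) ρ₀ (K + 2 * ρ * k + r) (2 * J') x s (by omega)
      (by omega)) ?_
    refine hloc₀ _ _ ⟨?_, ?_⟩
    · show td X.par s s ≤ _
      rw [(tz s s).mpr rfl]
      omega
    · show td X.par' (f^[2 * J'] (X.up (K + 2 * ρ * k + r) x)) (X.up (n - K) x) ≤ _
      have h1 := rtd (f^[2 * J'] (X.up (K + 2 * ρ * k + r) x)) (X.up (n - K) x) D D (by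
        have h2 := (iter_f X k D f hf (X.up (K + 2 * ρ * k + r) x) (2 * J')).2
        have h3 : X.up D (f^[2 * J'] (X.up (K + 2 * ρ * k + r) x)) =
            X.up D (X.up (n - K) x) := by
          rw [h2, ← up_add, ← up_add, hnK]
          congr 1
          ring
        exact h3)
      omega
  exact ((s1.trans s2).trans s3).trans s4

end Pool.Agent.Work.MP_c58d8b_pr.PG
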