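import Pool.Agent.Work.MP_c58d8b_pr.PG.Stmts

set_option autoImplicit false

namespace Pool.Agent.Work.MP_c58d8b_pr.PG

open MeasureTheory ProbabilityTheory Set Filter Topology
open scoped ENNReal unitInterval Classical
open Pool.Agent.Work.MP_c58d8b_pr.SO Pool.Agent.Work.MP_c58d8b_pr.PT

universe u

theorem pg_KX (hRA : StRA.{u}) (hRB : StRB.{u}) : StKX.{u} := by
  intro T par h a htr
  obtain ⟨A1, -, -, -, -, -⟩ := hRA T par h a htr
  obtain ⟨-, -, B3, B4, B5, B6, -, -, -, -⟩ := hRB T par h a htr
  refine ⟨fun x y w hy hw => ?_, fun x y r hr => ?_⟩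
  · obtain ⟨l, hl⟩ := hy
    obtain ⟨m, n, hmn, hpar⟩ := B4 y w
    have hlm : l < m := by
      by_contra hcon
      have hml : m ≤ l := not_lt.mp hcon
      refine hw ⟨(l - m) + n, ?_⟩
      rw [Function.iterate_add_apply, ← hpar, ← Function.iterate_add_apply, Nat.sub_add_cancel hml,
        hl]
    have h1 : par^[m - l] x = par^[n] w := by
      rw [← hl, ← Function.iterate_add_apply, Nat.sub_add_cancel hlm.le, hpar]
    have h2 : td par x w ≤ m - l + n := B5 x w _ _ h1
    have h3 : td par y x = l := by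
      rw [← hl]
      exact B6 y l
    have h4 := B3 y x w
    omega
  · obtain ⟨m, n, hmn, hpar⟩ := B4 x y
    have hm : m ≤ r := by omega
    refine ⟨⟨(r - m) + n, ?_⟩, ?_⟩
    · rw [Function.iterate_add_apply, ← hpar, ← Function.iterate_add_apply, Nat.sub_add_cancel hm]
    · have h1 := A1 m x
      have h2 := A1 n y
      rw [hpar, h2] at h1
      have h3 : (m : ℤ) + n ≤ r := by exact_mod_cast (by omega : m + n ≤ r)
      rw [abs_le]
      constructor <;> omega

end Pool.Agent.Work.MP_c58d8b_pr.PG
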