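import Pool.Agent.Work.MP_c58d8b_pr.PG.Stmts

/-!
# MP_c58d8b_pr, block PG, item KZ: one step of the zigzag
-/

set_option autoImplicit false

namespace Pool.Agent.Work.MP_c58d8b_pr.PG

open MeasureTheory ProbabilityTheory Set Filter Topology
open scoped ENNReal unitInterval Classical
open Pool.Agent.Work.MP_c58d8b_pr.SO Pool.Agent.Work.MP_c58d8b_pr.PT

universe u

namespace IX_KZ

theorem mem_EI {V : Type u} (H : SimpleGraph V) (S : Finset V) (e : Sym2 V) :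
    e ∈ EI H S ↔ ∃ a b : V, a ∈ S ∧ b ∈ S ∧ H.Adj a b ∧ s(a, b) = e := by
  unfold EI
  rw [Finset.mem_image]
  constructor
  · rintro ⟨⟨a, b⟩, h, rfl⟩
    rw [Finset.mem_filter, Finset.mem_product] at h
    exact ⟨a, b, h.1.1, h.1.2, h.2, rfl⟩
  · rintro ⟨a, b, ha, hb, hab, rfl⟩
    refine ⟨(a, b), ?_, rfl⟩
    rw [Finset.mem_filter, Finset.mem_product]
    exact ⟨⟨ha, hb⟩, hab⟩

theorem card_EI {V : Type u} (H : SimpleGraph V) (S : Finset V) : (EI H S).card ≤ S.card ^ 2 := by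
  unfold EI
  refine Finset.card_image_le.trans ((Finset.card_filter_le _ _).trans ?_)
  rw [Finset.card_product, sq]

theorem EI_mono {V : Type u} {G : SimpleGraph V} {W W' : Set V} {S S' : Finset V} (hW : W' ⊆ W)
    (hS : S' ⊆ S) : EI (within G W') S' ⊆ EI (within G W) S := by
  intro e he
  rw [mem_EI] at he ⊢
  obtain ⟨a, b, ha, hb, hab, rfl⟩ := he
  exact ⟨a, b, hS ha, hS hb, ⟨hab.1, hW hab.2.1, hW hab.2.2⟩, rfl⟩

theorem loc (hPB : StPB.{u}) (hPL : StPL.{u}) {V : Type u} (E E' : Finset (Sym2 V)) (p : ℝ)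
    (hp0 : 0 ≤ p) (hp1 : p ≤ 1) (hE : E' ⊆ E) (a b : V) :
    Pr E p {r | b ∈ Cluster (r ∩ (E' : Set (Sym2 V))) a} = Pr E' p {r | b ∈ Cluster r a} := by
  rw [hPL (Sym2 V) E E' p hp0 hp1 hE {r | b ∈ Cluster (r ∩ (E' : Set (Sym2 V))) a} (by
    intro s _
    simp only [Set.mem_ofPred_eq]
    rw [Set.inter_assoc, Set.inter_self])]
  obtain ⟨-, -, h3, -, -⟩ := hPB (Sym2 V) E' p hp0 hp1
  have e : ∀ s : Finset (Sym2 V), s ⊆ E' → (s : Set (Sym2 V)) ∩ (E' : Set (Sym2 V)) = s := by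
    intro s hs
    exact Set.inter_eq_left.2 (by exact_mod_cast hs)
  apply le_antisymm
  · apply h3
    intro s hs h
    simp only [Set.mem_ofPred_eq] at h ⊢
    rwa [e s hs] at h
  · apply h3
    intro s hs h
    simp only [Set.mem_ofPred_eq] at h ⊢
    rwa [e s hs]

/-- an edge inside a set of vertices -/
def Ins {V : Type u} (W : Set V) (e : Sym2 V) : Prop := ∃ a b : V, e = s(a, b) ∧ a ∈ W ∧ b ∈ W

theorem ins_mk {V : Type u} {W : Set V} {a b : V} (h : Ins W s(a, b)) : a ∈ W ∧ b ∈ W := by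
  obtain ⟨a', b', h1, h2, h3⟩ := h
  rcases Sym2.eq_iff.1 h1 with ⟨rfl, rfl⟩ | ⟨rfl, rfl⟩
  · exact ⟨h2, h3⟩
  · exact ⟨h3, h2⟩

theorem ins_EI {V : Type u} {G : SimpleGraph V} {W : Set V} {S : Finset V} {e : Sym2 V}
    (h : e ∈ EI (within G W) S) : Ins W e := by
  rw [mem_EI] at h
  obtain ⟨a, b, -, -, hab, rfl⟩ := h
  exact ⟨a, b, rfl, hab.2.1, hab.2.2⟩

theorem inc_cl (hCB : StCB.{u}) {V : Type u} (E' : Finset (Sym2 V)) (a b : V) :
    Inc {r : Set (Sym2 V) | b ∈ Cluster (r ∩ (E' : Set (Sym2 V))) a} := by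
  intro s t hst h
  obtain ⟨-, -, -, h4, -, -⟩ := hCB V (s ∩ (E' : Set (Sym2 V)))
  exact h4 _ (Set.inter_subset_inter_left _ hst) a h

theorem inc_sub {V : Type u} (T : Finset (Sym2 V)) :
    Inc {r : Set (Sym2 V) | (T : Set (Sym2 V)) ⊆ r} := by
  intro s t hst h
  exact Set.Subset.trans h hst

theorem inc_inter {V : Type u} {A B : Set (Set (Sym2 V))} (hA : Inc A) (hB : Inc B) :
    Inc (A ∩ B) := by
  intro s t hst h
  exact ⟨hA s t hst h.1, hB s t hst h.2⟩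

/-- the abstract step -/
theorem key (hPB : StPB.{u}) (hPL : StPL.{u}) (hPA : StPA.{u}) (hCB : StCB.{u})
    (hFB : StFB.{u}) (hFU : StFU.{u})
    {V κ : Type u} (G : SimpleGraph V) (W : Set V) (p : ℝ) (hp0 : 0 ≤ p) (hp1 : p ≤ 1)
    (Y : Finset κ) (hY : Y.Nonempty) (W₁ W₂ W₃ : κ → Set V) (u v : V) (u₁ v₁ u' v' : κ → V)
    (T : κ → Finset (Sym2 V)) (ST : κ → Finset V) (M : ℕ) (c z : ℝ)
    (hc : 0 ≤ c) (hz : 0 ≤ z) (hz1 : z ≤ 1)
    (hW₁ : ∀ y ∈ Y, W₁ y ⊆ W) (hW₂ : ∀ y ∈ Y, W₂ y ⊆ W) (hW₃ : ∀ y ∈ Y, W₃ y ⊆ W)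
    (hT : ∀ y ∈ Y, T y ⊆ EI (within G W) (ST y)) (hTc : ∀ y ∈ Y, (T y).card ≤ M)
    (hTs : ∀ y ∈ Y, ∀ s : Set (Sym2 V), (T y : Set (Sym2 V)) ⊆ s →
      u₁ y ∈ Cluster s (u' y) ∧ v₁ y ∈ Cluster s (v' y))
    (h1 : ∀ y ∈ Y, Ach G (W₁ y) p (u₁ y) u c) (h2 : ∀ y ∈ Y, Ach G (W₂ y) p (v₁ y) v c)
    (h3 : ∀ y ∈ Y, Ach G (W₃ y) p (u' y) (v' y) z)
    (d1 : ∀ y ∈ Y, ∀ y' ∈ Y, ∀ a, a ∈ W₁ y → a ∈ W₃ y' → False)
    (d2 : ∀ y ∈ Y, ∀ y' ∈ Y, ∀ a, a ∈ W₂ y → a ∈ W₃ y' → False)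
    (d3 : ∀ y ∈ Y, ∀ y' ∈ Y, y ≠ y' → ∀ a, a ∈ W₃ y → a ∈ W₃ y' → False)
    (d4 : ∀ y ∈ Y, ∀ y' ∈ Y, y ≠ y' → ∀ e ∈ T y, Ins (W₃ y') e → False) :
    Ach G W p u v (Y.card * (p ^ M * c ^ 2) * (p ^ M * z) * (1 - Y.card * (p ^ M * z) / 2)) ∧
      Ach G W p u v ((p ^ M * c ^ 2) * (p ^ M * z)) := by
  have h1' : ∀ y ∈ Y, ∃ S : Finset V, c ≤ tau (within G (W₁ y)) p S (u₁ y) u := h1
  have h2' : ∀ y ∈ Y, ∃ S : Finset V, c ≤ tau (within G (W₂ y)) p S (v₁ y) v := h2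
  have h3' : ∀ y ∈ Y, ∃ S : Finset V, z ≤ tau (within G (W₃ y)) p S (u' y) (v' y) := h3
  choose! S₁ hS₁ using h1'
  choose! S₂ hS₂ using h2'
  choose! S₃ hS₃ using h3'
  obtain ⟨S, hS⟩ : ∃ S : Finset V, ∀ y ∈ Y, S₁ y ⊆ S ∧ S₂ y ⊆ S ∧ S₃ y ⊆ S ∧ ST y ⊆ S := by
    refine ⟨Y.biUnion (fun y => S₁ y ∪ (S₂ y ∪ (S₃ y ∪ ST y))), fun y hy => ⟨?_, ?_, ?_, ?_⟩⟩
    · intro a ha
      rw [Finset.mem_biUnion]
      exact ⟨y, hy, Finset.mem_union_left _ ha⟩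
    · intro a ha
      rw [Finset.mem_biUnion]
      exact ⟨y, hy, Finset.mem_union_right _ (Finset.mem_union_left _ ha)⟩
    · intro a ha
      rw [Finset.mem_biUnion]
      exact ⟨y, hy, Finset.mem_union_right _ (Finset.mem_union_right _
        (Finset.mem_union_left _ ha))⟩
    · intro a ha
      rw [Finset.mem_biUnion]
      exact ⟨y, hy, Finset.mem_union_right _ (Finset.mem_union_right _
        (Finset.mem_union_right _ ha))⟩
  -- the gadget edges inside and not inside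
  obtain ⟨Ti, hTi⟩ : ∃ Ti : κ → Finset (Sym2 V), Ti = fun y => (T y).filter (Ins (W₃ y)) :=
    ⟨_, rfl⟩
  obtain ⟨To, hTo⟩ : ∃ To : κ → Finset (Sym2 V), To = fun y => (T y).filter (fun e =>
      ¬ Ins (W₃ y) e) := ⟨_, rfl⟩
  have hTim : ∀ y e, e ∈ Ti y ↔ e ∈ T y ∧ Ins (W₃ y) e := by
    intro y e
    rw [hTi, Finset.mem_filter]
  have hTom : ∀ y e, e ∈ To y ↔ e ∈ T y ∧ ¬ Ins (W₃ y) e := by
    intro y e
    rw [hTo, Finset.mem_filter]
  obtain ⟨F, hF⟩ : ∃ F : κ → Finset (Sym2 V), F = fun y => EI (within G (W₃ y)) (S₃ y) ∪ Ti y :=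
    ⟨_, rfl⟩
  have hFm : ∀ y e, e ∈ F y ↔ e ∈ EI (within G (W₃ y)) (S₃ y) ∨ e ∈ Ti y := by
    intro y e
    rw [hF, Finset.mem_union]
  have hFI : ∀ y e, e ∈ F y → Ins (W₃ y) e := by
    intro y e he
    rcases (hFm y e).1 he with h | h
    · exact ins_EI h
    · exact ((hTim y e).1 h).2
  obtain ⟨E₀, hE₀⟩ : ∃ E₀ : Finset (Sym2 V), ∀ e, e ∈ E₀ ↔ ∃ y ∈ Y,
      e ∈ EI (within G (W₁ y)) (S₁ y) ∨ e ∈ EI (within G (W₂ y)) (S₂ y) ∨ e ∈ To y := by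
    refine ⟨Y.biUnion (fun y => EI (within G (W₁ y)) (S₁ y) ∪ (EI (within G (W₂ y)) (S₂ y) ∪
      To y)), ?_⟩
    intro e
    rw [Finset.mem_biUnion]
    simp only [Finset.mem_union]
  have sub1 : ∀ y ∈ Y, EI (within G (W₁ y)) (S₁ y) ⊆ E₀ := fun y hy e he =>
    (hE₀ e).2 ⟨y, hy, Or.inl he⟩
  have sub2 : ∀ y ∈ Y, EI (within G (W₂ y)) (S₂ y) ⊆ E₀ := fun y hy e he =>
    (hE₀ e).2 ⟨y, hy, Or.inr (Or.inl he)⟩
  have sub3 : ∀ y ∈ Y, To y ⊆ E₀ := fun y hy e he =>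
    (hE₀ e).2 ⟨y, hy, Or.inr (Or.inr he)⟩
  obtain ⟨E, hE⟩ : ∃ E : Finset (Sym2 V), E = EI (within G W) S := ⟨_, rfl⟩
  have hTE : ∀ y ∈ Y, T y ⊆ E := by
    intro y hy
    rw [hE]
    exact (hT y hy).trans (EI_mono subset_rfl (hS y hy).2.2.2)
  have hE₀E : E₀ ⊆ E := by
    intro e he
    obtain ⟨y, hy, h | h | h⟩ := (hE₀ e).1 he
    · rw [hE]
      exact EI_mono (hW₁ y hy) (hS y hy).1 h
    · rw [hE]
      exact EI_mono (hW₂ y hy) (hS y hy).2.1 h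
    · exact hTE y hy ((hTom y e).1 h).1
  have hFE : ∀ y ∈ Y, F y ⊆ E := by
    intro y hy e he
    rcases (hFm y e).1 he with h | h
    · rw [hE]
      exact EI_mono (hW₃ y hy) (hS y hy).2.2.1 h
    · exact hTE y hy ((hTim y e).1 h).1
  have dis1 : ∀ y ∈ Y, Disjoint E₀ (F y) := by
    intro y' hy'
    rw [Finset.disjoint_left]
    intro e he he'
    have hi := hFI y' e he'
    obtain ⟨y, hy, h | h | h⟩ := (hE₀ e).1 he
    · rw [mem_EI] at h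
      obtain ⟨a, b, -, -, hab, rfl⟩ := h
      exact d1 y hy y' hy' a hab.2.1 (ins_mk hi).1
    · rw [mem_EI] at h
      obtain ⟨a, b, -, -, hab, rfl⟩ := h
      exact d2 y hy y' hy' a hab.2.1 (ins_mk hi).1
    · obtain ⟨hh1, hh2⟩ := (hTom y e).1 h
      by_cases hyy : y = y'
      · rw [hyy] at hh2
        exact hh2 hi
      · exact d4 y hy y' hy' hyy e hh1 hi
  have dis2 : ∀ y ∈ Y, ∀ y' ∈ Y, y ≠ y' → Disjoint (F y) (F y') := by
    intro y hy y' hy' hne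
    rw [Finset.disjoint_left]
    intro e he he'
    obtain ⟨a, b, rfl, ha, hb⟩ := hFI y e he
    exact d3 y hy y' hy' hne a ha (ins_mk (hFI y' _ he')).1
  obtain ⟨D, hD⟩ : ∃ D : κ → Set (Set (Sym2 V)), D = fun y =>
      {r | (To y : Set (Sym2 V)) ⊆ r} ∩
      ({r | u ∈ Cluster (r ∩ (EI (within G (W₁ y)) (S₁ y) : Set (Sym2 V))) (u₁ y)} ∩
      {r | v ∈ Cluster (r ∩ (EI (within G (W₂ y)) (S₂ y) : Set (Sym2 V))) (v₁ y)}) := ⟨_, rfl⟩
  obtain ⟨Z, hZ⟩ : ∃ Z : κ → Set (Set (Sym2 V)), Z = fun y =>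
      {r | (Ti y : Set (Sym2 V)) ⊆ r} ∩
      {r | v' y ∈ Cluster (r ∩ (EI (within G (W₃ y)) (S₃ y) : Set (Sym2 V))) (u' y)} := ⟨_, rfl⟩
  have hDpr : ∀ y ∈ Y, p ^ M * c ^ 2 ≤ Pr E₀ p (D y) := by
    intro y hy
    have k0 := hPA (Sym2 V) E₀ (To y) p hp0 hp1 (sub3 y hy)
    have k := hFB (Sym2 V) E₀ p hp0 hp1 _ _
      (inc_cl hCB (EI (within G (W₁ y)) (S₁ y)) (u₁ y) u)
      (inc_cl hCB (EI (within G (W₂ y)) (S₂ y)) (v₁ y) v)
    rw [loc hPB hPL E₀ _ p hp0 hp1 (sub1 y hy), loc hPB hPL E₀ _ p hp0 hp1 (sub2 y hy)] at k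
    have k1 : c ≤ Pr (EI (within G (W₁ y)) (S₁ y)) p {r | u ∈ Cluster r (u₁ y)} := hS₁ y hy
    have k2 : c ≤ Pr (EI (within G (W₂ y)) (S₂ y)) p {r | v ∈ Cluster r (v₁ y)} := hS₂ y hy
    have k3 := hFB (Sym2 V) E₀ p hp0 hp1 _ _ (inc_sub (To y)) (inc_inter
      (inc_cl hCB (EI (within G (W₁ y)) (S₁ y)) (u₁ y) u)
      (inc_cl hCB (EI (within G (W₂ y)) (S₂ y)) (v₁ y) v))
    rw [k0] at k3
    have k4 : p ^ M ≤ p ^ (To y).card := by
      apply pow_le_pow_of_le_one hp0 hp1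
      refine le_trans (Finset.card_le_card ?_) (hTc y hy)
      intro e he
      exact ((hTom y e).1 he).1
    have k5 : c ^ 2 ≤ Pr E₀ p ({r | u ∈ Cluster (r ∩ (EI (within G (W₁ y)) (S₁ y) :
        Set (Sym2 V))) (u₁ y)} ∩ {r | v ∈ Cluster (r ∩ (EI (within G (W₂ y)) (S₂ y) :
        Set (Sym2 V))) (v₁ y)}) := by
      calc c ^ 2 = c * c := by ring
        _ ≤ _ := mul_le_mul k1 k2 hc (hc.trans k1)
        _ ≤ _ := k
    rw [hD]
    calc p ^ M * c ^ 2 ≤ _ := mul_le_mul k4 k5 (by positivity) (by positivity)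
      _ ≤ _ := k3
  have hZpr : ∀ y ∈ Y, p ^ M * z ≤ Pr (F y) p (Z y) := by
    intro y hy
    have s1 : Ti y ⊆ F y := fun e he => (hFm y e).2 (Or.inr he)
    have s2 : EI (within G (W₃ y)) (S₃ y) ⊆ F y := fun e he => (hFm y e).2 (Or.inl he)
    have k0 := hPA (Sym2 V) (F y) (Ti y) p hp0 hp1 s1
    have k3 := hFB (Sym2 V) (F y) p hp0 hp1 _ _ (inc_sub (Ti y))
      (inc_cl hCB (EI (within G (W₃ y)) (S₃ y)) (u' y) (v' y))
    rw [k0, loc hPB hPL (F y) _ p hp0 hp1 s2] at k3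
    have k1 : z ≤ Pr (EI (within G (W₃ y)) (S₃ y)) p {r | v' y ∈ Cluster r (u' y)} := hS₃ y hy
    have k4 : p ^ M ≤ p ^ (Ti y).card := by
      apply pow_le_pow_of_le_one hp0 hp1
      refine le_trans (Finset.card_le_card ?_) (hTc y hy)
      intro e he
      exact ((hTim y e).1 he).1
    rw [hZ]
    calc p ^ M * z ≤ _ := mul_le_mul k4 k1 hz (by positivity)
      _ ≤ _ := k3
  have hpM : 0 ≤ p ^ M := by positivity
  have hpM1 : p ^ M ≤ 1 := pow_le_one₀ hp0 hp1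
  have hfu := hFU (Sym2 V) κ E E₀ p hp0 hp1 Y F D Z (p ^ M * c ^ 2) (p ^ M * z) hE₀E hFE dis1
    dis2 (by positivity) (by positivity) (by nlinarith) hDpr hZpr hY
  have hfin : Pr E p {s | ∃ y ∈ Y, s ∩ (E₀ : Set (Sym2 V)) ∈ D y ∧
      s ∩ (F y : Set (Sym2 V)) ∈ Z y} ≤ tau (within G W) p S u v := by
    obtain ⟨-, -, h3, -, -⟩ := hPB (Sym2 V) E p hp0 hp1
    have k := h3 {s | ∃ y ∈ Y, s ∩ (E₀ : Set (Sym2 V)) ∈ D y ∧
      s ∩ (F y : Set (Sym2 V)) ∈ Z y} {s | v ∈ Cluster s u} (by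
      rintro s hs ⟨y, hy, hDy, hZy⟩
      obtain ⟨-, c2, c3, -, -, -⟩ := hCB V (s : Set (Sym2 V))
      rw [hD] at hDy
      rw [hZ] at hZy
      obtain ⟨hD0, hD1, hD2⟩ := hDy
      obtain ⟨hZ0, hZ1⟩ := hZy
      simp only [Set.mem_ofPred_eq] at hD0 hD1 hD2 hZ0 hZ1
      have hTsub : (T y : Set (Sym2 V)) ⊆ (s : Set (Sym2 V)) := by
        intro e he
        by_cases hi : Ins (W₃ y) e
        · exact (hZ0 ((hTim y e).2 ⟨he, hi⟩)).1
        · exact (hD0 ((hTom y e).2 ⟨he, hi⟩)).1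
      obtain ⟨g1, g2⟩ := hTs y hy _ hTsub
      have m1 : u ∈ Cluster (s : Set (Sym2 V)) (u₁ y) :=
        (hCB V _).2.2.2.1 _ (Set.inter_subset_left.trans Set.inter_subset_left) _ hD1
      have m2 : v ∈ Cluster (s : Set (Sym2 V)) (v₁ y) :=
        (hCB V _).2.2.2.1 _ (Set.inter_subset_left.trans Set.inter_subset_left) _ hD2
      have m3 : v' y ∈ Cluster (s : Set (Sym2 V)) (u' y) :=
        (hCB V _).2.2.2.1 _ (Set.inter_subset_left.trans Set.inter_subset_left) _ hZ1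
      exact c3 _ _ _ (c2 _ _ (c3 _ _ _ g1 m1)) (c3 _ _ _ m3 (c3 _ _ _ g2 m2)))
    rw [hE] at k ⊢
    exact k
  exact ⟨⟨S, hfu.1.trans hfin⟩, ⟨S, hfu.2.trans hfin⟩⟩

/-- the edges of a walk -/
theorem reach_cl {V : Type u} {G : SimpleGraph V} {B : Set V} {a b : V} {s : Set (Sym2 V)}
    (h : (within G B).Reachable a b) (hs : ∀ x y, x ∈ B → y ∈ B → G.Adj x y → s(x, y) ∈ s) :
    b ∈ Cluster s a := by
  show (SimpleGraph.fromEdgeSet s).Reachable a b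
  refine h.mono ?_
  intro x y hxy
  rw [SimpleGraph.fromEdgeSet_adj]
  exact ⟨hs x y hxy.2.1 hxy.2.2 hxy.1, hxy.1.ne⟩

end IX_KZ

open IX_KZ in
theorem pg_KZ (hPB : StPB.{u}) (hPL : StPL.{u}) (hPA : StPA.{u}) (hCB : StCB.{u})
    (hFB : StFB.{u}) (hFU : StFU.{u}) (hRA : StRA.{u}) (hRB : StRB.{u}) (hKX : StKX.{u})
    (hKC : StKC.{u}) (hKL : StKL.{u}) (hKN : StKN.{u}) : StKZ.{u} := by
  intro X p hp0 hp1 e j L c hj hL hc0 hc1 hch
  obtain ⟨r1, -, r3, r4, r5, r6⟩ := hRA X.T' X.par' X.h' X.b X.tr'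
  obtain ⟨-, hsym, -, -, -, -, hmid, -⟩ := hRB X.T X.par X.h X.a X.tr
  obtain ⟨-, -, -, -, -, hup', -⟩ := hRB X.T' X.par' X.h' X.b X.tr'
  have hx2 := (hKX X.T' X.par' X.h' X.b X.tr').2
  obtain ⟨P, -, hP⟩ := hKL X (2 * L)
  have hb2 := X.tr'.two
  have hbr : (0 : ℝ) < X.b := by exact_mod_cast (by omega : 0 < X.b)
  -- the number of vertices of a ball
  obtain ⟨u₀⟩ : Nonempty (X.T × X.T') := X.conn.nonempty
  obtain ⟨C, hC⟩ : ∃ C, C = (X.BlF P u₀).card := ⟨_, rfl⟩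
  have hBfin : ∀ u, (X.Bl P u).Finite := by
    intro u
    obtain ⟨-, -, -, -, -, -, -, -, h9, -⟩ := hKC X 1 X.A.one_mem 1 X.B.one_mem
    exact (h9 P u).1
  have hBm : ∀ u w, w ∈ X.BlF P u ↔ w ∈ X.Bl P u := by
    intro u w
    unfold Sg.BlF
    rw [dif_pos (hBfin u), Set.Finite.mem_toFinset]
  have hBc : ∀ u, (X.BlF P u).card = C := by
    intro u
    obtain ⟨α, hα, -, h1⟩ := X.mov u₀.1 u.1
    obtain ⟨β, hβ, h2⟩ := X.mov' u₀.2 u.2
    obtain ⟨-, -, -, -, -, -, -, -, h9, -⟩ := hKC X α hα β hβ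
    have h3 := (h9 P u₀).2
    rw [h1, h2] at h3
    have h4 : X.BlF P u = (X.BlF P u₀).image (Equiv.prodCongr α β) := by
      rw [h3]
    rw [h4, Finset.card_image_of_injective _ (Equiv.prodCongr α β).injective, hC]
  obtain ⟨M, hM⟩ : ∃ M, M = 2 * C ^ 2 := ⟨_, rfl⟩
  obtain ⟨K, hK⟩ : ∃ K, K = max P L := ⟨_, rfl⟩
  have hPK : P ≤ K := by omega
  have hLK : L ≤ K := by omega
  refine ⟨(X.b : ℝ) ^ (2 * L) / (X.b : ℝ) ^ K * p ^ (2 * M),
    (X.b : ℝ) ^ (2 * L) / (X.b : ℝ) ^ K * p ^ M, p ^ (2 * M), P + K, by positivity,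
    by positivity, by positivity, ?_⟩
  intro N hN m z hz0 hz1 hz t s v hts
  have hNj : N ≤ N * j := Nat.le_mul_of_pos_right N hj
  obtain ⟨n, hn⟩ : ∃ n, n = 2 * L + N * j := ⟨_, rfl⟩
  have hKn : K ≤ n := by omega
  -- points of the first tree
  obtain ⟨t', ht1, ht2⟩ := hmid t s (N * e + 1) (m + (N * e + 1)) (by
    have : td X.par t s = m + 2 * (N * e + 1) := hts
    rw [this]
    ring)
  obtain ⟨s', hs1, hs2⟩ := hmid t' s m (N * e + 1) ht2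
  obtain ⟨t₁, ht3, ht4⟩ := hmid t t' (N * e) 1 ht1
  obtain ⟨s₁, hs3, hs4⟩ := hmid s' s 1 (N * e) (by rw [hs2]; ring)
  -- the vertices below `v`
  obtain ⟨hfin, hncard⟩ := r3 (n - K) v
  obtain ⟨Y, hYe⟩ : ∃ Y : Finset X.T', Y = hfin.toFinset := ⟨_, rfl⟩
  have hYm : ∀ y, y ∈ Y ↔ X.up (n - K) y = v := by
    intro y
    rw [hYe, Set.Finite.mem_toFinset]
    rfl
  have hYc : Y.card = X.b ^ (n - K) := by
    rw [hYe, ← Set.ncard_eq_toFinset_card _ hfin, hncard]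
  have hYn : Y.Nonempty := by
    rw [← Finset.card_pos, hYc]
    positivity
  have hw : ∀ y : X.T', ∃ w, X.up K w = y := by
    intro y
    obtain ⟨h1, h2⟩ := r3 K y
    have h3 : {w | X.par'^[K] w = y}.Nonempty := by
      rw [← Set.ncard_pos h1, h2]
      positivity
    exact h3
  choose w hw using hw
  have hupup : ∀ (k l : ℕ) (x : X.T'), X.up k (X.up l x) = X.up (k + l) x := by
    intro k l x
    unfold Sg.up
    rw [Function.iterate_add_apply]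
  have hwn : ∀ y ∈ Y, X.up n (w y) = v := by
    intro y hy
    have h1 := (hYm y).1 hy
    rw [← hw y, hupup, Nat.sub_add_cancel hKn] at h1
    exact h1
  have hhy : ∀ y ∈ Y, X.h' v = X.h' y + ((n - K : ℕ) : ℤ) := by
    intro y hy
    rw [← (hYm y).1 hy]
    exact r1 _ y
  have hhw : ∀ y ∈ Y, X.h' v = X.h' (w y) + n := by
    intro y hy
    rw [← hwn y hy]
    exact r1 n (w y)
  -- descendants
  have hde : ∀ (k l : ℕ) (x z : X.T'), k ≤ l → z ∈ desc X.par' (X.up k x) →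
      z ∈ desc X.par' (X.up l x) := by
    intro k l x z hkl hz
    have h1 : X.up k x ∈ desc X.par' (X.up l x) := by
      refine ⟨l - k, ?_⟩
      show X.up (l - k) (X.up k x) = X.up l x
      rw [hupup, Nat.sub_add_cancel hkl]
    exact (r4 _ _ h1).1 hz
  have hball : ∀ (k : ℕ) (x z : X.T'), td X.par' x z ≤ k → z ∈ desc X.par' (X.up k x) :=
    fun k x z h => (hx2 x z k h).1
  have hyy : ∀ y ∈ Y, ∀ y' ∈ Y, ∀ z, z ∈ desc X.par' y → z ∈ desc X.par' y' → y = y' := by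
    intro y hy y' hy' z hz hz'
    have hh : X.h' y = X.h' y' := by
      have := hhy y hy
      have := hhy y' hy'
      linarith
    have hd := r6 y y' z hz hz' hh.le
    have := (r4 y' y hd).2.2
    rw [hh, sub_self] at this
    exact this
  have hnL : ∀ y ∈ Y, X.up L v = X.up (n + L) (w y) := by
    intro y hy
    rw [← hwn y hy, hupup, Nat.add_comm]
  obtain ⟨W, hW⟩ : ∃ W, W = X.Dn (X.up L v) := ⟨_, rfl⟩
  have hballW : ∀ y ∈ Y, ∀ r : X.T, X.Bl P (r, w y) ⊆ W := by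
    intro y hy r a ha
    rw [hW]
    show a.2 ∈ desc X.par' (X.up L v)
    rw [hnL y hy]
    exact hde P (n + L) (w y) a.2 (by omega) (hball P (w y) a.2 ha.2)
  have hSlW : ∀ y ∈ Y, X.Sl (X.up (2 * L) (w y)) (N * j + L) L ⊆ W := by
    intro y hy a ha
    rw [hW]
    show a.2 ∈ desc X.par' (X.up L v)
    rw [hnL y hy]
    have := ha.1
    rw [hupup] at this
    rwa [show n + L = N * j + L + 2 * L by omega]
  have hDnW : ∀ y ∈ Y, X.Dn (X.up L (w y)) ⊆ W := by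
    intro y hy a ha
    rw [hW]
    show a.2 ∈ desc X.par' (X.up L v)
    rw [hnL y hy]
    exact hde L (n + L) (w y) a.2 (by omega) ha
  have hDny : ∀ y ∈ Y, ∀ a, a ∈ X.Dn (X.up L (w y)) → a.2 ∈ desc X.par' y := by
    intro y hy a ha
    have := hde L K (w y) a.2 hLK ha
    rwa [hw y] at this
  have hBly : ∀ y ∈ Y, ∀ (r : X.T) (a : X.T × X.T'), a ∈ X.Bl P (r, w y) →
      a.2 ∈ desc X.par' y := by
    intro y hy r a ha
    have := hball K (w y) a.2 (le_trans ha.2 hPK)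
    rwa [hw y] at this
  have hSlDn : ∀ y ∈ Y, ∀ y' ∈ Y, ∀ a, a ∈ X.Sl (X.up (2 * L) (w y)) (N * j + L) L →
      a ∈ X.Dn (X.up L (w y')) → False := by
    intro y hy y' hy' a ha ha'
    have h1 := ha.2
    have h2 := (r4 _ _ ha').2.1
    have h3 : X.h' (X.up (2 * L) (w y)) = X.h' (w y) + ((2 * L : ℕ) : ℤ) := r1 _ _
    have h4 : X.h' (X.up L (w y')) = X.h' (w y') + (L : ℤ) := r1 _ _
    have h5 := hhw y hy
    have h6 := hhw y' hy'
    push_cast at h3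
    linarith
  -- gadgets
  have hgad : ∀ (r r₁ : X.T) (x : X.T'), X.d r r₁ = 1 →
      (within X.G (X.Bl P (r, x))).Reachable (r, x) (r₁, X.up (2 * L) x) := by
    intro r r₁ x h1
    apply hP
    refine ⟨?_, ?_⟩
    · show td X.par r r₁ ≤ 2 * L
      have : td X.par r r₁ = 1 := h1
      omega
    · show td X.par' x (X.up (2 * L) x) ≤ 2 * L
      exact (hup' x (2 * L)).le
  obtain ⟨T, hT⟩ : ∃ T : X.T' → Finset (Sym2 (X.T × X.T')), T = fun y =>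
      EI (within X.G W) (X.BlF P (t', w y)) ∪ EI (within X.G W) (X.BlF P (s', w y)) := ⟨_, rfl⟩
  have hTm : ∀ y e, e ∈ T y ↔ e ∈ EI (within X.G W) (X.BlF P (t', w y)) ∨
      e ∈ EI (within X.G W) (X.BlF P (s', w y)) := by
    intro y e
    rw [hT, Finset.mem_union]
  have hres := key hPB hPL hPA hCB hFB hFU X.G W p hp0.le hp1 Y hYn
    (fun y => X.Sl (X.up (2 * L) (w y)) (N * j + L) L)
    (fun y => X.Sl (X.up (2 * L) (w y)) (N * j + L) L)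
    (fun y => X.Dn (X.up L (w y))) (t, v) (s, v)
    (fun y => (t₁, X.up (2 * L) (w y))) (fun y => (s₁, X.up (2 * L) (w y)))
    (fun y => (t', w y)) (fun y => (s', w y)) T
    (fun y => X.BlF P (t', w y) ∪ X.BlF P (s', w y)) M (c ^ N) z (by positivity) hz0 hz1
    hSlW hSlW hDnW
    (by
      intro y hy e he
      rcases (hTm y e).1 he with h | h
      · exact EI_mono subset_rfl Finset.subset_union_left h
      · exact EI_mono subset_rfl Finset.subset_union_right h)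
    (by
      intro y hy
      rw [hT, hM]
      refine (Finset.card_union_le _ _).trans ?_
      have k1 := card_EI (within X.G W) (X.BlF P (t', w y))
      have k2 := card_EI (within X.G W) (X.BlF P (s', w y))
      rw [hBc] at k1 k2
      omega)
    (by
      intro y hy r hr
      have hr' : ∀ q : X.T, (q = t' ∨ q = s') → ∀ a b, a ∈ X.Bl P (q, w y) →
          b ∈ X.Bl P (q, w y) → X.G.Adj a b → s(a, b) ∈ r := by
        intro q hq a b ha hb hab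
        apply hr
        show s(a, b) ∈ T y
        rw [hTm]
        rcases hq with rfl | rfl
        · left
          rw [mem_EI]
          exact ⟨a, b, (hBm _ _).2 ha, (hBm _ _).2 hb, ⟨hab, hballW y hy _ ha,
            hballW y hy _ hb⟩, rfl⟩
        · right
          rw [mem_EI]
          exact ⟨a, b, (hBm _ _).2 ha, (hBm _ _).2 hb, ⟨hab, hballW y hy _ ha,
            hballW y hy _ hb⟩, rfl⟩
      refine ⟨?_, ?_⟩
      · exact reach_cl (hgad t' t₁ (w y) (by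
          show td X.par t' t₁ = 1
          rw [hsym, ht4])) (hr' t' (Or.inl rfl))
      · exact reach_cl (hgad s' s₁ (w y) hs3) (hr' s' (Or.inr rfl)))
    (by
      intro y hy
      have k := hKN X p hp0.le hp1 e j L c hc0.le hc1 hch N t₁ t (X.up (2 * L) (w y)) (by
        show td X.par t₁ t = N * e
        rw [hsym, ht3])
      rw [hupup, show N * j + 2 * L = n by omega, hwn y hy] at k
      exact k)
    (by
      intro y hy
      have k := hKN X p hp0.le hp1 e j L c hc0.le hc1 hch N s₁ s (X.up (2 * L) (w y)) hs4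
      rw [hupup, show N * j + 2 * L = n by omega, hwn y hy] at k
      exact k)
    (fun y hy => hz t' s' (w y) hs1)
    hSlDn hSlDn
    (by
      intro y hy y' hy' hne a ha ha'
      exact hne (hyy y hy y' hy' a.2 (hDny y hy a ha) (hDny y' hy' a ha')))
    (by
      intro y hy y' hy' hne e he hi
      have hh : ∃ a : X.T × X.T', a.2 ∈ desc X.par' y ∧ a ∈ X.Dn (X.up L (w y')) := by
        rcases (hTm y e).1 he with h | h
        · rw [mem_EI] at h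
          obtain ⟨a, b, ha, -, -, rfl⟩ := h
          exact ⟨a, hBly y hy t' a ((hBm _ _).1 ha), (ins_mk hi).1⟩
        · rw [mem_EI] at h
          obtain ⟨a, b, ha, -, -, rfl⟩ := h
          exact ⟨a, hBly y hy s' a ((hBm _ _).1 ha), (ins_mk hi).1⟩
      obtain ⟨a, ha, ha'⟩ := hh
      exact hne (hyy y hy y' hy' a.2 ha (hDny y' hy' a ha')))
  rw [hYc, hW] at hres
  have hpow : ((X.b ^ (n - K) : ℕ) : ℝ) = (X.b : ℝ) ^ (2 * L) / (X.b : ℝ) ^ K *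
      (X.b : ℝ) ^ (N * j) := by
    push_cast
    rw [pow_sub₀ _ hbr.ne' hKn, hn, pow_add]
    field_simp
  rw [hpow] at hres
  obtain ⟨B, hB⟩ : ∃ B : ℝ, B = (X.b : ℝ) ^ (2 * L) / (X.b : ℝ) ^ K := ⟨_, rfl⟩
  rw [← hB] at hres ⊢
  have e1 : B * p ^ (2 * M) * (X.b : ℝ) ^ (N * j) * c ^ (2 * N) * z *
      (1 - B * p ^ M * (X.b : ℝ) ^ (N * j) * z / 2) =
      B * (X.b : ℝ) ^ (N * j) * (p ^ M * (c ^ N) ^ 2) * (p ^ M * z) *
        (1 - B * (X.b : ℝ) ^ (N * j) * (p ^ M * z) / 2) := by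
    ring
  have e2 : p ^ (2 * M) * c ^ (2 * N) * z = p ^ M * (c ^ N) ^ 2 * (p ^ M * z) := by
    ring
  rw [e1, e2]
  exact hres

end Pool.Agent.Work.MP_c58d8b_pr.PG
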