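import Pool.Agent.Work.MP_c58d8b_pr.PG.Stmts

/-!
# MP_c58d8b_pr, block PG, item YA: first bounds
-/

set_option autoImplicit false

namespace Pool.Agent.Work.MP_c58d8b_pr.PG

open MeasureTheory ProbabilityTheory Set Filter Topology
open scoped ENNReal unitInterval Classical
open Pool.Agent.Work.MP_c58d8b_pr.SO Pool.Agent.Work.MP_c58d8b_pr.PT

universe u

namespace IX_YA

theorem bpos (X : Sg.{u}) : (0 : ℝ) < X.b := by
  have := X.tr'.two
  exact_mod_cast (by omega : 0 < X.b)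

theorem om_nonneg (X : Sg.{u}) (t s : X.T) : 0 ≤ X.om t s :=
  zpow_nonneg (Real.sqrt_nonneg _) _

theorem om_self (X : Sg.{u}) (t : X.T) : X.om t t = 1 := by
  unfold Sg.om
  rw [sub_self, zpow_zero]

end IX_YA

open IX_YA in
theorem pg_YA (hQF : StQF.{u}) (hRE : StRE.{u}) (hKE : StKE.{u}) : StYA.{u} := by
  intro X
  obtain ⟨C, hC, hsum⟩ := hRE X.T X.par X.h X.a X.tr
  have hsum' : ∀ t : X.T, ∑' s : X.T, ENNReal.ofReal (X.om t s * ((X.a : ℝ)⁻¹) ^ X.d t s) ≤ C :=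
    fun t => hsum t
  have hsb : 0 < √(X.b : ℝ) := Real.sqrt_pos.2 (bpos X)
  refine ⟨C, hC, ?_⟩
  intro p hp0 hp1
  obtain ⟨-, hself, -⟩ := hQF (X.T × X.T') X.G p hp0 hp1
  refine ⟨?_, ?_⟩
  · intro hBd n x t
    have htt := (hKE X).2.2.2.2 p hp0 hp1 hBd
    unfold Sg.gg
    refine (ENNReal.tsum_le_tsum fun s => ?_).trans (hsum' t)
    refine (mul_le_mul' le_rfl (htt t s x n)).trans ?_
    rw [← ENNReal.ofReal_mul (mul_nonneg (om_nonneg X t s) (pow_nonneg hsb.le n))]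
    refine ENNReal.ofReal_le_ofReal (le_of_eq ?_)
    have e : √(X.b : ℝ) ^ n * ((√(X.b : ℝ))⁻¹) ^ n = 1 := by
      rw [← mul_pow, mul_inv_cancel₀ hsb.ne', one_pow]
    calc X.om t s * √(X.b : ℝ) ^ n * (((X.a : ℝ)⁻¹) ^ X.d t s * ((√(X.b : ℝ))⁻¹) ^ n)
        = X.om t s * ((X.a : ℝ)⁻¹) ^ X.d t s * (√(X.b : ℝ) ^ n * ((√(X.b : ℝ))⁻¹) ^ n) := by ring
      _ = _ := by rw [e, mul_one]
  · intro x t
    unfold Sg.gg
    refine le_trans (le_of_eq ?_) (ENNReal.le_tsum t)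
    rw [om_self, pow_zero, mul_one, ENNReal.ofReal_one, one_mul]
    exact (hself (t, x)).symm

end Pool.Agent.Work.MP_c58d8b_pr.PG
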