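import Pool.Agent.Work.MP_c58d8b_pr.PG.Stmts

/-!
# MP_c58d8b_pr, block PG, item YB: submultiplicativity
-/

set_option autoImplicit false

namespace Pool.Agent.Work.MP_c58d8b_pr.PG

open MeasureTheory ProbabilityTheory Set Filter Topology
open scoped ENNReal unitInterval Classical
open Pool.Agent.Work.MP_c58d8b_pr.SO Pool.Agent.Work.MP_c58d8b_pr.PT

universe u

namespace IX_YB

theorem up_add (X : Sg.{u}) (i j : ℕ) (x : X.T') : X.up (i + j) x = X.up i (X.up j x) :=
  Function.iterate_add_apply _ _ _ _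

/-- the weight is multiplicative -/
theorem om_mul (X : Sg.{u}) (t r s : X.T) : X.om t s = X.om t r * X.om r s := by
  unfold Sg.om
  have ha : (0 : ℝ) < √(X.a : ℝ) := by
    rw [Real.sqrt_pos]
    have := X.tr.two
    exact_mod_cast (by omega : 0 < X.a)
  rw [← zpow_add₀ ha.ne']
  congr 1
  ring

theorem om_nonneg (X : Sg.{u}) (t s : X.T) : 0 ≤ X.om t s := by
  unfold Sg.om
  positivity

theorem wt_mul (X : Sg.{u}) (t r s : X.T) (m n : ℕ) :
    ENNReal.ofReal (X.om t s * √(X.b : ℝ) ^ (m + n)) =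
      ENNReal.ofReal (X.om t r * √(X.b : ℝ) ^ m) *
        ENNReal.ofReal (X.om r s * √(X.b : ℝ) ^ n) := by
  rw [← ENNReal.ofReal_mul (mul_nonneg (om_nonneg X t r) (by positivity)), om_mul X t r s]
  congr 1
  rw [pow_add]
  ring

/-- the number of points at distance at most `D` -/
theorem ball_card (hRB : StRB.{u}) (X : Sg.{u}) (D : ℕ) (z : X.T') :
    {y | td X.par' z y ≤ D}.ncard ≤ ∑ r ∈ Finset.range (D + 1), 2 * X.b ^ r := by
  obtain ⟨-, -, -, -, -, -, -, -, hfin, hcard⟩ := hRB X.T' X.par' X.h' X.b X.tr'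
  have h1 : {y | td X.par' z y ≤ D} =
      ⋃ r ∈ Finset.range (D + 1), {y | td X.par' z y = r} := by
    ext y
    simp only [Set.mem_ofPred_eq, Set.mem_iUnion, Finset.mem_range, exists_prop]
    constructor
    · intro h
      exact ⟨td X.par' z y, by omega, rfl⟩
    · rintro ⟨r, hr, h⟩
      omega
  rw [h1]
  refine (Finset.set_ncard_biUnion_le _ _).trans ?_
  exact Finset.sum_le_sum fun r _ => hcard z r

end IX_YB

open IX_YB in
theorem pg_YB (hQF : StQF.{u}) (hQU : StQU.{u}) (hRA : StRA.{u}) (hRB : StRB.{u})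
    (hKX : StKX.{u}) (hKA : StKA.{u}) (hKD : StKD.{u}) (hKH : StKH.{u}) (hYA : StYA.{u}) :
    StYB.{u} := by
  intro X p hp0 hp1
  obtain ⟨Δ, D, hC⟩ := hKA X
  obtain ⟨_, c, _, hc0, _, hcc⟩ := hKH X p hp0 hp1 D
  obtain ⟨_, _, hYA1⟩ := hYA X
  have hgg0 := (hYA1 p hp0.le hp1).2
  obtain ⟨hA1, -, -, hA4, hA5, -⟩ := hRA X.T' X.par' X.h' X.b X.tr'
  obtain ⟨hB1, -, -, -, -, -, -, -, hfin, -⟩ := hRB X.T' X.par' X.h' X.b X.tr'
  have hBT := (hRB X.T X.par X.h X.a X.tr).1
  obtain ⟨hX1, -⟩ := hKX X.T' X.par' X.h' X.b X.tr'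
  obtain ⟨-, -, hsymm, hprod, -, -, -, -⟩ := hQF (X.T × X.T') X.G p hp0.le hp1
  set c' : ℝ≥0∞ := ENNReal.ofReal c with hc'
  have hc'0 : c' ≠ 0 := by
    rw [hc', Ne, ENNReal.ofReal_eq_zero, not_le]
    exact hc0
  have hc't : c' ≠ ⊤ := ENNReal.ofReal_ne_top
  set N : ℕ := ∑ r ∈ Finset.range (D + 1), 2 * X.b ^ r with hN
  set C₁ : ℝ≥0∞ := Δ * (N * (c'⁻¹ * c'⁻¹)) with hC₁
  have hci : c'⁻¹ ≠ ⊤ := ENNReal.inv_ne_top.2 hc'0
  have hC₁t : C₁ ≠ ⊤ := by
    rw [hC₁]
    exact ENNReal.mul_ne_top (ENNReal.natCast_ne_top _)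
      (ENNReal.mul_ne_top (ENNReal.natCast_ne_top _) (ENNReal.mul_ne_top hci hci))
  refine ⟨C₁ + 1, ENNReal.add_ne_top.2 ⟨hC₁t, ENNReal.one_ne_top⟩, ?_⟩
  intro m m' x t
  rcases Nat.eq_zero_or_pos m' with hm0 | hm'
  · subst hm0
    rw [add_zero]
    calc X.gg p m x t = 1 * (X.gg p m x t * 1) := by rw [one_mul, mul_one]
      _ ≤ (C₁ + 1) * (X.gg p m x t * X.gg p 0 x t) :=
        mul_le_mul' le_add_self (mul_le_mul' le_rfl (hgg0 x t))
  -- moving an endpoint
  have hmove : ∀ (u : X.T × X.T') (r : X.T) (z y : X.T'), td X.par' z y ≤ D →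
      tt X.G p u (r, y) ≤ c'⁻¹ * tt X.G p u (r, z) := by
    intro u r z y hy
    have h1 : ((r, y) : X.T × X.T') ∈ X.Bl D (r, z) := by
      refine ⟨?_, hy⟩
      have : td X.par r r = 0 := (hBT r r).2 rfl
      show td X.par r r ≤ D
      omega
    have h2 : c' ≤ tt X.G p (r, z) (r, y) := (hcc (r, z) (r, y) h1).2
    have h3 : tt X.G p u (r, y) * c' ≤ tt X.G p u (r, z) := by
      refine (mul_le_mul' le_rfl (h2.trans (hsymm _ _).le)).trans ?_
      exact hprod _ _ _
    rw [mul_comm, ← div_eq_mul_inv]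
    exact (ENNReal.le_div_iff_mul_le (Or.inl hc'0) (Or.inl hc't)).2 h3
  have hmove' : ∀ (v : X.T × X.T') (r : X.T) (z y : X.T'), td X.par' z y ≤ D →
      tt X.G p (r, y) v ≤ c'⁻¹ * tt X.G p (r, z) v := by
    intro v r z y hy
    rw [hsymm (r, y) v, hsymm (r, z) v]
    exact hmove v r z y hy
  -- the basic inequality
  have hbasic : ∀ s : X.T, tt X.G p (t, x) (s, X.up (m + m') x) ≤
      C₁ * ∑' r : X.T, tt X.G p (t, x) (r, X.up m x) *
        tt X.G p (r, X.up m x) (s, X.up (m + m') x) := by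
    intro s
    have hu : ((t, x) : X.T × X.T') ∈ X.Dn (X.up m x) := (hA5 x m).2
    have hv : ((s, X.up (m + m') x) : X.T × X.T') ∉ X.Dn (X.up m x) := by
      intro hv
      have h1 := (hA4 _ _ hv).2.1
      have h2 : X.h' (X.up (m + m') x) = X.h' x + ((m + m' : ℕ) : ℤ) := hA1 _ _
      have h3 : X.h' (X.up m x) = X.h' x + (m : ℤ) := hA1 _ _
      rw [h3] at h1
      rw [show ((s, X.up (m + m') x) : X.T × X.T').2 = X.up (m + m') x from rfl, h2] at h1
      omega
    refine (hQU (X.T × X.T') X.G X.lf Δ hC.deg (X.Dn (X.up m x)) (t, x)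
      (s, X.up (m + m') x) p hp0.le hp1 hu hv).trans ?_
    rw [hC₁, mul_assoc]
    refine mul_le_mul' le_rfl ?_
    rw [ENNReal.tsum_prod', ← ENNReal.tsum_mul_left]
    refine ENNReal.tsum_le_tsum fun r => ?_
    set B : ℝ≥0∞ := (c'⁻¹ * tt X.G p (t, x) (r, X.up m x)) *
      (c'⁻¹ * tt X.G p (r, X.up m x) (s, X.up (m + m') x)) with hB
    have hpt : ∀ y : X.T', (if ((r, y) : X.T × X.T') ∉ X.Dn (X.up m x) ∧
        ∃ z ∈ X.Dn (X.up m x), X.G.Adj z (r, y) then
        tt (within X.G (insert (r, y) (X.Dn (X.up m x)))) p (t, x) (r, y) *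
          tt X.G p (r, y) (s, X.up (m + m') x) else 0) ≤
        Set.indicator {y | td X.par' (X.up m x) y ≤ D} (fun _ => B) y := by
      intro y
      split_ifs with hc
      · obtain ⟨hw, z, hz, hadj⟩ := hc
        have hj := (hC.jmp z (r, y) hadj).2
        have hd := hX1 (X.up m x) z.2 y hz hw
        have hy : td X.par' (X.up m x) y ≤ D := by
          have hj' : td X.par' z.2 y ≤ D := hj
          omega
        rw [Set.indicator_of_mem (show y ∈ {y | td X.par' (X.up m x) y ≤ D} from hy), hB]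
        refine mul_le_mul' ?_ (hmove' _ r _ y hy)
        have hle : within X.G (insert (r, y) (X.Dn (X.up m x))) ≤ X.G :=
          fun _ _ h => h.1
        obtain ⟨-, -, -, -, -, -, hm, -⟩ := hQF (X.T × X.T')
          (within X.G (insert (r, y) (X.Dn (X.up m x)))) p hp0.le hp1
        exact (hm X.G p hle le_rfl hp1 _ _).trans (hmove _ r _ y hy)
      · exact zero_le
    refine (ENNReal.tsum_le_tsum hpt).trans ?_
    have hf : {y | td X.par' (X.up m x) y ≤ D}.Finite := hfin _ _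
    have hsum : ∑' y : X.T', Set.indicator {y | td X.par' (X.up m x) y ≤ D} (fun _ => B) y =
        ({y | td X.par' (X.up m x) y ≤ D}.ncard : ℝ≥0∞) * B := by
      rw [tsum_eq_sum (s := hf.toFinset)]
      · rw [Finset.sum_congr rfl (g := fun _ => B) (fun y hy => by
          rw [Set.indicator_of_mem (hf.mem_toFinset.1 hy)]), Finset.sum_const, nsmul_eq_mul,
          Set.ncard_eq_toFinset_card _ hf]
      · intro y hy
        rw [Set.indicator_of_notMem]
        intro h
        exact hy (hf.mem_toFinset.2 h)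
    rw [hsum]
    calc ({y | td X.par' (X.up m x) y ≤ D}.ncard : ℝ≥0∞) * B ≤ (N : ℝ≥0∞) * B := by
          refine mul_le_mul' ?_ le_rfl
          exact_mod_cast ball_card hRB X D (X.up m x)
      _ = (N * (c'⁻¹ * c'⁻¹)) * (tt X.G p (t, x) (r, X.up m x) *
            tt X.G p (r, X.up m x) (s, X.up (m + m') x)) := by
          rw [hB]
          ring
  -- the inner sums
  have hinner : ∀ r : X.T, ∑' s : X.T,
      ENNReal.ofReal (X.om r s * √(X.b : ℝ) ^ m') *
        tt X.G p (r, X.up m x) (s, X.up (m + m') x) = X.gg p m' x t := by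
    intro r
    obtain ⟨-, -, -, hg, -, -⟩ := hKD X p hp0.le hp1
    rw [← hg m' (X.up m x) r x t]
    unfold Sg.gg
    rw [← up_add, show m' + m = m + m' by omega]
  calc X.gg p (m + m') x t
      = ∑' s : X.T, ENNReal.ofReal (X.om t s * √(X.b : ℝ) ^ (m + m')) *
          tt X.G p (t, x) (s, X.up (m + m') x) := rfl
    _ ≤ ∑' s : X.T, ENNReal.ofReal (X.om t s * √(X.b : ℝ) ^ (m + m')) *
          (C₁ * ∑' r : X.T, tt X.G p (t, x) (r, X.up m x) *
            tt X.G p (r, X.up m x) (s, X.up (m + m') x)) :=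
        ENNReal.tsum_le_tsum fun s => mul_le_mul' le_rfl (hbasic s)
    _ = ∑' s : X.T, C₁ * ∑' r : X.T,
          (ENNReal.ofReal (X.om t r * √(X.b : ℝ) ^ m) * tt X.G p (t, x) (r, X.up m x)) *
          (ENNReal.ofReal (X.om r s * √(X.b : ℝ) ^ m') *
            tt X.G p (r, X.up m x) (s, X.up (m + m') x)) := by
        refine tsum_congr fun s => ?_
        rw [mul_left_comm, ← ENNReal.tsum_mul_left]
        congr 1
        refine tsum_congr fun r => ?_
        rw [wt_mul X t r s m m']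
        ring
    _ = C₁ * ∑' s : X.T, ∑' r : X.T,
          (ENNReal.ofReal (X.om t r * √(X.b : ℝ) ^ m) * tt X.G p (t, x) (r, X.up m x)) *
          (ENNReal.ofReal (X.om r s * √(X.b : ℝ) ^ m') *
            tt X.G p (r, X.up m x) (s, X.up (m + m') x)) := ENNReal.tsum_mul_left
    _ = C₁ * ∑' r : X.T, ∑' s : X.T,
          (ENNReal.ofReal (X.om t r * √(X.b : ℝ) ^ m) * tt X.G p (t, x) (r, X.up m x)) *
          (ENNReal.ofReal (X.om r s * √(X.b : ℝ) ^ m') *
            tt X.G p (r, X.up m x) (s, X.up (m + m') x)) := by rw [ENNReal.tsum_comm]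
    _ = C₁ * ∑' r : X.T,
          (ENNReal.ofReal (X.om t r * √(X.b : ℝ) ^ m) * tt X.G p (t, x) (r, X.up m x)) *
          X.gg p m' x t := by
        congr 1
        refine tsum_congr fun r => ?_
        rw [ENNReal.tsum_mul_left, hinner r]
    _ = C₁ * (X.gg p m x t * X.gg p m' x t) := by
        congr 1
        rw [ENNReal.tsum_mul_right]
        rfl
    _ ≤ (C₁ + 1) * (X.gg p m x t * X.gg p m' x t) := mul_le_mul' le_self_add le_rfl

end Pool.Agent.Work.MP_c58d8b_pr.PG
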