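import Pool.Agent.Work.MP_c58d8b_pr.PG.Stmts

/-!
# MP_c58d8b_pr, block PG, item YC: the double Simon-Lieb inequality
-/

set_option autoImplicit false

namespace Pool.Agent.Work.MP_c58d8b_pr.PG

open MeasureTheory ProbabilityTheory Set Filter Topology
open scoped ENNReal unitInterval Classical
open Pool.Agent.Work.MP_c58d8b_pr.SO Pool.Agent.Work.MP_c58d8b_pr.PT

universe u

namespace IX_YC

theorem mv (c : ℝ) (hc : 0 < c) (A B : ℝ≥0∞) (h : ENNReal.ofReal c * A ≤ B) :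
    A ≤ (ENNReal.ofReal c)⁻¹ * B := by
  have h0 : ENNReal.ofReal c ≠ 0 := by simpa using hc
  calc A = (ENNReal.ofReal c)⁻¹ * (ENNReal.ofReal c * A) := by
        rw [← mul_assoc, ENNReal.inv_mul_cancel h0 ENNReal.ofReal_ne_top, one_mul]
    _ ≤ _ := mul_le_mul_right h _

theorem inv_ne (c : ℝ) (hc : 0 < c) : (ENNReal.ofReal c)⁻¹ ≠ ⊤ := by
  have h0 : ENNReal.ofReal c ≠ 0 := by simpa using hc
  exact ENNReal.inv_ne_top.2 h0

theorem sum_ball {T T' : Type u} (P : T' → Prop) (M : ℕ) (hP : {z | P z}.Finite)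
    (hM : {z | P z}.ncard ≤ M) (F : T → ℝ≥0∞) (g : T × T' → ℝ≥0∞)
    (hg : ∀ w, g w ≤ if P w.2 then F w.1 else 0) : ∑' w, g w ≤ M * ∑' s, F s := by
  refine (ENNReal.tsum_le_tsum hg).trans ?_
  rw [ENNReal.tsum_prod', ← ENNReal.tsum_mul_left]
  refine ENNReal.tsum_le_tsum fun s => ?_
  simp only
  rw [tsum_eq_sum (s := hP.toFinset)]
  · rw [Finset.sum_congr rfl (g := fun _ => F s)]
    · rw [Finset.sum_const, nsmul_eq_mul]
      refine mul_le_mul_left ?_ _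
      rw [← Set.ncard_eq_toFinset_card _ hP]
      exact_mod_cast hM
    · intro z hz
      rw [if_pos (by simpa using hz)]
  · intro z hz
    rw [if_neg (by simpa using hz)]

theorem ball_card (hRB : StRB.{u}) (T : Type u) (par : T → T) (h : T → ℤ) (a : ℕ)
    (hT : Tr par h a) (D : ℕ) : ∀ x : T, {y | td par x y ≤ D}.Finite ∧
      {y | td par x y ≤ D}.ncard ≤ ∑ r ∈ Finset.range (D + 1), 2 * a ^ r := by
  obtain ⟨-, -, -, -, -, -, -, -, RB9, RB10⟩ := hRB T par h a hT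
  intro x
  refine ⟨RB9 x D, ?_⟩
  induction D with
  | zero =>
    have e : {y | td par x y ≤ 0} = {y | td par x y = 0} := by
      ext y
      simp
    rw [e]
    refine (RB10 x 0).trans ?_
    simp
  | succ D ih =>
    have e : {y | td par x y ≤ D + 1} = {y | td par x y ≤ D} ∪ {y | td par x y = D + 1} := by
      ext y
      simp only [Set.mem_ofPred_eq, Set.mem_union]
      omega
    rw [e, Finset.sum_range_succ]
    exact (Set.ncard_union_le _ _).trans (add_le_add ih (RB10 x (D + 1)))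

section

variable (X : Sg.{u})

theorem up_up (a b : ℕ) (y : X.T') : X.up a (X.up b y) = X.up (a + b) y :=
  (Function.iterate_add_apply X.par' a b y).symm

theorem step1 (hQU : StQU.{u}) (hRA : StRA.{u}) (hRB : StRB.{u}) (hKX : StKX.{u})
    (hKF : StKF.{u}) (Δ D : ℕ) (hC : X.Const Δ D) (p : ℝ) (hp0 : 0 ≤ p) (hp1 : p ≤ 1)
    (n : ℕ) (hn : 1 ≤ n) (x : X.T') (t s : X.T) :
    tt X.G p (t, x) (s, X.up n x) ≤ (Δ : ℝ≥0∞) * ∑' w : X.T × X.T',
      (if w ∈ X.Es (X.up (n - 1) x) ∧ td X.par' (X.up (n - 1) x) w.2 ≤ D then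
        tt (within X.G (insert w (X.Es (X.up (n - 1) x))ᶜ)) p (t, x) w *
          tt X.G p w (s, X.up n x) else 0) := by
  obtain ⟨RA1, -, -, RA4, RA5, -⟩ := hRA X.T' X.par' X.h' X.b X.tr'
  obtain ⟨RB1, RB2, RB3, -⟩ := hRB X.T' X.par' X.h' X.b X.tr'
  obtain ⟨KX1, KX2⟩ := hKX X.T' X.par' X.h' X.b X.tr'
  obtain ⟨KF1, KF2, KF3, KF4, KF5, KF6⟩ := hKF X
  have hu : ((t, x) : X.T × X.T') ∈ (X.Es (X.up (n - 1) x))ᶜ := fun h =>
    Set.disjoint_left.1 (KF1 (X.up (n - 1) x)) h (RA5 x (n - 1)).2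
  have hv : ((s, X.up n x) : X.T × X.T') ∉ (X.Es (X.up (n - 1) x))ᶜ := by
    refine fun h => h (KF4 _ _ ?_)
    change X.h' (X.par'^[n - 1] x) < X.h' (X.par'^[n] x)
    rw [RA1, RA1]
    omega
  refine (hQU _ X.G X.lf Δ hC.deg (X.Es (X.up (n - 1) x))ᶜ (t, x) (s, X.up n x) p hp0 hp1
    hu hv).trans (mul_le_mul_right ?_ _)
  refine ENNReal.tsum_le_tsum fun w => ?_
  by_cases hw : w ∉ (X.Es (X.up (n - 1) x))ᶜ ∧ ∃ z ∈ (X.Es (X.up (n - 1) x))ᶜ, X.G.Adj z w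
  · rw [if_pos hw]
    obtain ⟨hw1, z, hz, hadj⟩ := hw
    have hw2 : w ∈ X.Es (X.up (n - 1) x) := not_not.1 hw1
    have hz2 : z ∈ X.Dn (X.up (n - 1) x) := KF3 _ z w hz hw2 hadj
    have hw3 : w ∉ X.Dn (X.up (n - 1) x) := Set.disjoint_left.1 (KF1 _) hw2
    have h1 := KX1 (X.up (n - 1) x) z.2 w.2 hz2 hw3
    have h2 : td X.par' z.2 w.2 ≤ D := (hC.jmp z w hadj).2
    rw [if_pos ⟨hw2, by omega⟩]
  · rw [if_neg hw]
    exact zero_le

theorem step2 (hWB : SO.StWB.{u}) (hQC : StQC.{u}) (hQF : StQF.{u}) (hQU : StQU.{u})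
    (hRA : StRA.{u}) (hRB : StRB.{u}) (hKX : StKX.{u}) (hKF : StKF.{u}) (Δ D N : ℕ)
    (hC : X.Const Δ D) (hN : D < N)
    (p : ℝ) (hp0 : 0 ≤ p) (hp1 : p ≤ 1) (n : ℕ) (hn : 1 ≤ n) (y : X.T') (t : X.T)
    (w : X.T × X.T') (hw1 : w ∈ X.Es (X.up (n - 1 + N) y))
    (hw2 : td X.par' (X.up (n - 1 + N) y) w.2 ≤ D) :
    tt (within X.G (insert w (X.Es (X.up (n - 1 + N) y))ᶜ)) p (t, X.up N y) w ≤
      (Δ : ℝ≥0∞) * ∑' w' : X.T × X.T', (if X.h' y < X.h' w'.2 ∧ td X.par' (X.up N y) w'.2 ≤ D then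
        tt X.G p (t, X.up N y) w' * ttW X.G (X.vr (n + 2 * N) y) p w' w else 0) := by
  obtain ⟨RA1, -, -, RA4, RA5, -⟩ := hRA X.T' X.par' X.h' X.b X.tr'
  obtain ⟨RB1, RB2, RB3, -⟩ := hRB X.T' X.par' X.h' X.b X.tr'
  obtain ⟨KX1, KX2⟩ := hKX X.T' X.par' X.h' X.b X.tr'
  obtain ⟨KF1, KF2, KF3, KF4, KF5, KF6⟩ := hKF X
  set A : Set (X.T × X.T') := (X.Es (X.up (n - 1 + N) y))ᶜ with hA
  set H₁ : SimpleGraph (X.T × X.T') := within X.G (insert w A) with hH₁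
  have hle : H₁ ≤ X.G := fun a b hab => hab.1
  have hlf : LocFinite H₁ := fun a => (X.lf a).subset fun b hb => hle hb
  have hdeg : ∀ a, (nb H₁ a).card ≤ Δ := by
    intro a
    refine (Finset.card_le_card ?_).trans (hC.deg a)
    intro b hb
    rw [(hWB _ H₁ hlf).1] at hb
    rw [(hWB _ X.G X.lf).1]
    exact hle hb
  obtain ⟨-, -, hsym, -, -, -, hmono, -⟩ := hQF _ H₁ p hp0 hp1
  obtain ⟨-, -, hsymG, -, -, -, -, -⟩ := hQF _ X.G p hp0 hp1
  rw [hsym]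
  have e1 : X.up (n - 1) (X.up N y) = X.up (n - 1 + N) y := up_up X _ _ _
  have hw : w ∈ X.Es (X.up N y) := by
    refine KF2 (X.up N y) (n - 1) ?_
    rw [e1]
    exact hw1
  have hu : ((t, X.up N y) : X.T × X.T') ∉ X.Es (X.up N y) := fun h =>
    Set.disjoint_left.1 (KF1 (X.up N y)) h (RA5 (X.up N y) 0).1
  refine (hQU _ H₁ hlf Δ hdeg (X.Es (X.up N y)) w (t, X.up N y) p hp0 hp1 hw hu).trans
    (mul_le_mul_right ?_ _)
  refine ENNReal.tsum_le_tsum fun w' => ?_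
  by_cases hw' : w' ∉ X.Es (X.up N y) ∧ ∃ z ∈ X.Es (X.up N y), H₁.Adj z w'
  · rw [if_pos hw']
    obtain ⟨hw'1, z, hz, hadj⟩ := hw'
    have hw'2 : w' ∈ X.Dn (X.up N y) := KF3 _ w' z hw'1 hz (hle hadj).symm
    have hz3 : z ∉ X.Dn (X.up N y) := Set.disjoint_left.1 (KF1 _) hz
    have h1 := KX1 (X.up N y) w'.2 z.2 hw'2 hz3
    have h2 : td X.par' w'.2 z.2 ≤ D := (hC.jmp w' z (hle hadj).symm).2
    have h3 : td X.par' (X.up N y) w'.2 ≤ D := by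
      rw [RB2 (X.up N y) w'.2]
      omega
    have h4 : X.h' y < X.h' w'.2 := by
      have h5 := (KX2 (X.up N y) w'.2 D h3).2
      have h6 : X.h' (X.up N y) = X.h' y + N := RA1 N y
      rw [h6, abs_le] at h5
      omega
    rw [if_pos ⟨h4, h3⟩]
    have hEsy : w' ∈ X.Es y := KF4 _ _ h4
    have hsub : within H₁ (insert w' (X.Es (X.up N y))) ≤
        within X.G (X.vr (n + 2 * N) y) := by
      rw [hH₁, (hQC _).2.2]
      intro a b hab
      have key : ∀ v : X.T × X.T', v ∈ insert w A ∩ insert w' (X.Es (X.up N y)) →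
          v ∈ X.vr (n + 2 * N) y := by
        intro v hv
        obtain ⟨hv1, hv2⟩ := hv
        refine ⟨?_, ?_⟩
        · rcases hv2 with hv2 | hv2
          · rw [hv2]
            exact hEsy
          · exact KF2 y N hv2
        · have e2 : X.up (n + 2 * N) y = X.up (N + 1) (X.up (n - 1 + N) y) := by
            rw [up_up]
            congr 1
            omega
          rcases hv1 with hv1 | hv1
          · rw [hv1, e2]
            intro hcon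
            refine Set.disjoint_left.1 (KF1 _) hcon ?_
            have h7 := (KX2 (X.up (n - 1 + N) y) w.2 (N + 1) (by omega)).1
            exact h7
          · intro hcon
            rw [e2] at hcon
            exact hv1 (KF2 _ _ hcon)
      exact ⟨hab.1, key a hab.2.1, key b hab.2.2⟩
    have hp2 : tt (within H₁ (insert w' (X.Es (X.up N y)))) p w w' ≤
        ttW X.G (X.vr (n + 2 * N) y) p w' w := by
      obtain ⟨-, -, hsy, -, -, -, hmo, -⟩ :=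
        hQF _ (within H₁ (insert w' (X.Es (X.up N y)))) p hp0 hp1
      rw [hsy]
      exact hmo _ p hsub le_rfl hp1 _ _
    have hp3 : tt H₁ p w' (t, X.up N y) ≤ tt X.G p (t, X.up N y) w' := by
      rw [hsymG (t, X.up N y) w']
      exact hmono _ p hle le_rfl hp1 _ _
    rw [mul_comm]
    exact mul_le_mul' hp3 hp2
  · rw [if_neg hw']
    exact zero_le

/-- gadget 1 -/
theorem gad1 (hRA : StRA.{u}) (hRB : StRB.{u}) (hKX : StKX.{u}) (hKF : StKF.{u})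
    (K D N P₂ : ℕ) (hK : 1 ≤ K) (p c₂ : ℝ)
    (hG : ∀ x, ∀ u ∈ X.Es x, ∀ v ∈ X.Es x, td X.par' x u.2 ≤ N + D + K → v ∈ X.Bl (N + D + K) u →
      ∀ W, X.Es x ∩ X.Bl P₂ u ⊆ W → Ach X.G W p u v c₂ ∧
        ∀ S : Finset (X.T × X.T'), X.BlF P₂ u ⊆ S → c₂ ≤ tau (within X.G W) p S u v)
    (n : ℕ) (hn : P₂ + K ≤ n + 2 * N) (y : X.T') (w' : X.T × X.T') (h1 : X.h' y < X.h' w'.2)
    (h2 : td X.par' (X.up N y) w'.2 ≤ D) :
    Ach X.G (X.vr (n + 2 * N) y) p (w'.1, X.up K y) w' c₂ := by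
  obtain ⟨RA1, -, -, RA4, RA5, -⟩ := hRA X.T' X.par' X.h' X.b X.tr'
  obtain ⟨RB1, RB2, RB3, -, -, RB6, -⟩ := hRB X.T' X.par' X.h' X.b X.tr'
  obtain ⟨QB1, -⟩ := hRB X.T X.par X.h X.a X.tr
  obtain ⟨KX1, KX2⟩ := hKX X.T' X.par' X.h' X.b X.tr'
  obtain ⟨KF1, KF2, KF3, KF4, KF5, KF6⟩ := hKF X
  have hu : ((w'.1, X.up K y) : X.T × X.T') ∈ X.Es y := by
    refine KF4 _ _ ?_
    change X.h' y < X.h' (X.par'^[K] y)
    rw [RA1]
    omega
  have hv : w' ∈ X.Es y := KF4 _ _ h1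
  have h3 : td X.par' y (X.up K y) = K := RB6 y K
  have h4 : td X.par' y (X.up N y) = N := RB6 y N
  refine (hG y _ hu w' hv (by simp only; omega) ⟨?_, ?_⟩ _ ?_).1
  · have := (QB1 w'.1 w'.1).2 rfl
    simp only
    omega
  · simp only
    have h5 := RB3 (X.up K y) y w'.2
    have h6 := RB3 y (X.up N y) w'.2
    rw [RB2 (X.up K y) y] at h5
    omega
  · intro v hvv
    obtain ⟨hv1, hv2, hv3⟩ := hvv
    refine ⟨hv1, fun hcon => Set.disjoint_left.1 (KF1 _) hcon ?_⟩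
    simp only at hv3
    have h7 := (KX2 (X.up K y) v.2 P₂ hv3).1
    have h8 : X.par'^[P₂] (X.up K y) = X.up (P₂ + K) y := up_up X P₂ K y
    rw [h8] at h7
    have h9 : X.up (P₂ + K) y ∈ desc X.par' (X.up (n + 2 * N) y) := by
      refine ⟨n + 2 * N - (P₂ + K), ?_⟩
      have := up_up X (n + 2 * N - (P₂ + K)) (P₂ + K) y
      rw [show n + 2 * N - (P₂ + K) + (P₂ + K) = n + 2 * N by omega] at this
      exact this
    exact (RA4 _ _ h9).1 h7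

/-- gadget 2 -/
theorem gad2 (hQE : StQE.{u}) (hRA : StRA.{u}) (hRB : StRB.{u}) (hKX : StKX.{u})
    (hKF : StKF.{u}) (K D N P₁ : ℕ) (hN : D + K + P₁ + 1 ≤ N) (p c₁ c₃ : ℝ)
    (hp0 : 0 ≤ p) (hp1 : p ≤ 1) (hc₁ : 0 < c₁) (hc₃ : 0 < c₃)
    (hH : ∀ u v, v ∈ X.Bl (D + K + 1) u → ∀ W, X.Bl P₁ u ⊆ W → Ach X.G W p u v c₁)
    (hA₃ : ∀ t x, Ach X.G (X.vr (N + 1) x) p (t, X.up K x) (t, X.up (N + 1 - K) x) c₃)
    (n : ℕ) (hn : 1 ≤ n) (y : X.T') (w : X.T × X.T')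
    (h2 : td X.par' (X.up (n - 1 + N) y) w.2 ≤ D) :
    Ach X.G (X.vr (n + 2 * N) y) p w (w.1, X.up (n + 2 * N - K) y) (c₁ * c₃) := by
  obtain ⟨RA1, -, -, RA4, RA5, -⟩ := hRA X.T' X.par' X.h' X.b X.tr'
  obtain ⟨RB1, RB2, RB3, -, -, RB6, -⟩ := hRB X.T' X.par' X.h' X.b X.tr'
  obtain ⟨QB1, -⟩ := hRB X.T X.par X.h X.a X.tr
  obtain ⟨KX1, KX2⟩ := hKX X.T' X.par' X.h' X.b X.tr'
  obtain ⟨KF1, KF2, KF3, KF4, KF5, KF6⟩ := hKF X
  obtain ⟨QE1, -, QE3, -⟩ := hQE _ X.G p hp0 hp1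
  set x' : X.T' := X.up (n - 1 + N) y with hx'
  have e2 : X.up (n + 2 * N) y = X.up (N + 1) x' := by
    rw [hx', up_up]
    congr 1
    omega
  have e3 : X.up (n + 2 * N - K) y = X.up (N + 1 - K) x' := by
    rw [hx', up_up]
    congr 1
    omega
  have e4 : X.h' x' = X.h' y + ((n - 1 + N : ℕ) : ℤ) := RA1 (n - 1 + N) y
  rw [e3]
  refine QE3 _ _ (w.1, X.up K x') _ _ _ hc₁.le hc₃.le ?_ ?_
  · refine hH w (w.1, X.up K x') ⟨?_, ?_⟩ _ ?_
    · have := (QB1 w.1 w.1).2 rfl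
      simp only
      omega
    · simp only
      have h5 := RB3 w.2 x' (X.up K x')
      have h6 : td X.par' x' (X.up K x') = K := RB6 x' K
      rw [RB2 w.2 x'] at h5
      omega
    · intro v hv
      obtain ⟨hv1, hv2⟩ := hv
      have h5 := RB3 x' w.2 v.2
      have h6 : td X.par' x' v.2 ≤ D + P₁ := by omega
      refine KF6 y (n + 2 * N) v ?_ ?_
      · rw [e2]
        exact (KX2 x' v.2 (N + 1) (by omega)).1
      · have h7 := (KX2 x' v.2 (D + P₁) h6).2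
        rw [e4, abs_le] at h7
        omega
  · refine QE1 _ _ _ _ _ ?_ (hA₃ w.1 x')
    rintro v ⟨hv1, hv2⟩
    refine ⟨KF2 y (n - 1 + N) hv1, ?_⟩
    rw [e2]
    exact hv2

end

end IX_YC

open IX_YC in
theorem pg_YC (hWB : SO.StWB.{u}) (hQC : StQC.{u}) (hQE : StQE.{u}) (hQF : StQF.{u})
    (hQU : StQU.{u}) (hRA : StRA.{u}) (hRB : StRB.{u}) (hKX : StKX.{u}) (hKA : StKA.{u})
    (hKD : StKD.{u}) (hKF : StKF.{u}) (hKG : StKG.{u}) (hKH : StKH.{u}) : StYC.{u} := by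
  intro X K hK p hp0 hp1
  obtain ⟨RA1, -, -, RA4, RA5, -⟩ := hRA X.T' X.par' X.h' X.b X.tr'
  obtain ⟨RB1, RB2, RB3, -, -, RB6, -⟩ := hRB X.T' X.par' X.h' X.b X.tr'
  obtain ⟨QB1, -⟩ := hRB X.T X.par X.h X.a X.tr
  obtain ⟨-, -, -, -, -, KF6⟩ := hKF X
  obtain ⟨QE1, -, -, -, -, QE6, QE7, -⟩ := hQE _ X.G p hp0.le hp1
  obtain ⟨-, -, hsymG, hprG, -, -, -, -⟩ := hQF _ X.G p hp0.le hp1
  obtain ⟨Δ, D, hC⟩ := hKA X
  obtain ⟨P₁, c₁, hP₁, hc₁, hc₁', hH⟩ := hKH X p hp0 hp1 (D + K + 1)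
  obtain ⟨hK1, hK2⟩ := hK
  obtain ⟨n₁, hn₁, hn₁'⟩ := hK2 0
  obtain ⟨N, hN⟩ : ∃ N : ℕ, N = n₁ + D + K + P₁ + 1 := ⟨_, rfl⟩
  obtain ⟨P₂, hP₂, -, hG⟩ := hKG X (N + D + K)
  obtain ⟨c₂, hc₂, hc₂', hG2⟩ := hG p hp0 hp1
  obtain ⟨o⟩ := X.conn.nonempty
  have hself : ∀ t : X.T, X.d t t = 0 := fun t => (QB1 t t).2 rfl
  obtain ⟨c₃, hc₃, hc₃', hA₃⟩ := QE6 hp0 _ _ _
    (hn₁' (N + 1) (by omega) o.1 o.1 o.2 (hself o.1))
  have hA₃' : ∀ t x, Ach X.G (X.vr (N + 1) x) p (t, X.up K x) (t, X.up (N + 1 - K) x) c₃ := by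
    intro t x
    obtain ⟨-, -, KD3, -⟩ := hKD X p hp0.le hp1
    refine (KD3 (N + 1) o.2 o.1 o.1 x t t c₃ (by rw [hself, hself])).2 K ?_
    refine QE1 _ _ _ _ _ ?_ hA₃
    rintro v ⟨hv1, hv2⟩
    refine KF6 o.2 (N + 1) v ?_ (by simpa using hv2)
    have h1 : X.up (N + 1 - 1) o.2 ∈ desc X.par' (X.up (N + 1) o.2) := by
      refine ⟨1, ?_⟩
      have := up_up X 1 (N + 1 - 1) o.2
      rw [show 1 + (N + 1 - 1) = N + 1 by omega] at this
      exact this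
    exact (RA4 _ _ h1).1 hv1
  obtain ⟨M, hM⟩ : ∃ M : ℕ, M = ∑ r ∈ Finset.range (D + 1), 2 * X.b ^ r := ⟨_, rfl⟩
  have hcard := ball_card hRB X.T' X.par' X.h' X.b X.tr' D
  rw [← hM] at hcard
  obtain ⟨k₁, hk₁⟩ : ∃ k : ℝ≥0∞, k = (ENNReal.ofReal c₁)⁻¹ := ⟨_, rfl⟩
  obtain ⟨k₂, hk₂⟩ : ∃ k : ℝ≥0∞, k = (ENNReal.ofReal c₂)⁻¹ := ⟨_, rfl⟩
  obtain ⟨k₃, hk₃⟩ : ∃ k : ℝ≥0∞, k = (ENNReal.ofReal (c₁ * c₃))⁻¹ := ⟨_, rfl⟩
  have hk₁' : k₁ ≠ ⊤ := hk₁ ▸ inv_ne c₁ hc₁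
  have hk₂' : k₂ ≠ ⊤ := hk₂ ▸ inv_ne c₂ hc₂
  have hk₃' : k₃ ≠ ⊤ := hk₃ ▸ inv_ne (c₁ * c₃) (mul_pos hc₁ hc₃)
  refine ⟨(Δ : ℝ≥0∞) * ((M : ℝ≥0∞) * ((Δ : ℝ≥0∞) * ((M : ℝ≥0∞) * (k₁ * (k₂ * k₃) * k₁)))), N,
    P₂ + K + N + 2, ?_, ?_⟩
  · refine ENNReal.mul_ne_top (ENNReal.natCast_ne_top _) (ENNReal.mul_ne_top
      (ENNReal.natCast_ne_top _) (ENNReal.mul_ne_top (ENNReal.natCast_ne_top _)
      (ENNReal.mul_ne_top (ENNReal.natCast_ne_top _) ?_)))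
    exact ENNReal.mul_ne_top (ENNReal.mul_ne_top hk₁' (ENNReal.mul_ne_top hk₂' hk₃')) hk₁'
  · intro n hn y t s
    obtain ⟨x, hx⟩ : ∃ x : X.T', x = X.up N y := ⟨_, rfl⟩
    obtain ⟨x', hx'⟩ : ∃ x' : X.T', x' = X.up (n - 1 + N) y := ⟨_, rfl⟩
    obtain ⟨xn, hxn⟩ : ∃ xn : X.T', xn = X.up (n + N) y := ⟨_, rfl⟩
    obtain ⟨u, hu⟩ : ∃ u : X.T × X.T', u = (t, x) := ⟨_, rfl⟩
    obtain ⟨v, hv⟩ : ∃ v : X.T × X.T', v = (s, xn) := ⟨_, rfl⟩
    have ex1 : X.up n x = xn := by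
      rw [hx, hxn, up_up]
    have ex2 : X.up (n - 1) x = x' := by
      rw [hx, hx', up_up]
    have ex3 : td X.par' xn x' ≤ 1 := by
      have h1 : X.up 1 x' = xn := by
        rw [hx', hxn, up_up]
        congr 1
        omega
      have h2 : td X.par' x' (X.up 1 x') = 1 := RB6 x' 1
      rw [h1] at h2
      rw [RB2 xn x']
      omega
    -- the main term
    obtain ⟨F, hF⟩ : ∃ F : X.T → X.T → ℝ≥0∞, F = fun r s₁ =>
      tt X.G p u (r, x) * X.vv p K (n + 2 * N) y r s₁ * tt X.G p (s₁, xn) v := ⟨_, rfl⟩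
    have hpt : ∀ w w' : X.T × X.T', td X.par' x' w.2 ≤ D → X.h' y < X.h' w'.2 →
        td X.par' x w'.2 ≤ D →
        tt X.G p u w' * ttW X.G (X.vr (n + 2 * N) y) p w' w * tt X.G p w v ≤
          k₁ * (k₂ * k₃) * k₁ * F w'.1 w.1 := by
      intro w w' h1 h2 h3
      have a1 : tt X.G p u w' ≤ k₁ * tt X.G p u (w'.1, x) := by
        rw [hk₁]
        refine mv c₁ hc₁ _ _ ?_
        have h4 : ((w'.1, x) : X.T × X.T') ∈ X.Bl (D + K + 1) w' := by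
          refine ⟨?_, ?_⟩
          · have := (QB1 w'.1 w'.1).2 rfl
            simp only
            omega
          · simp only
            rw [RB2 w'.2 x]
            omega
        have h5 := (hH w' (w'.1, x) h4).2
        rw [mul_comm]
        exact (mul_le_mul_right h5 _).trans (hprG u w' (w'.1, x))
      have a2 : tt X.G p w v ≤ k₁ * tt X.G p (w.1, xn) v := by
        rw [hk₁]
        refine mv c₁ hc₁ _ _ ?_
        have h4 : w ∈ X.Bl (D + K + 1) ((w.1, xn) : X.T × X.T') := by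
          refine ⟨?_, ?_⟩
          · have := (QB1 w.1 w.1).2 rfl
            simp only
            omega
          · simp only
            have h6 := RB3 xn x' w.2
            omega
        have h5 := (hH (w.1, xn) w h4).2
        exact (mul_le_mul_left h5 _).trans (hprG (w.1, xn) w v)
      have a3 : ttW X.G (X.vr (n + 2 * N) y) p w' w ≤
          k₂ * k₃ * X.vv p K (n + 2 * N) y w'.1 w.1 := by
        obtain ⟨-, -, -, hprW, -, -, -, -⟩ :=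
          hQF _ (within X.G (X.vr (n + 2 * N) y)) p hp0.le hp1
        have g1 := QE7 _ _ _ _ (gad1 X hRA hRB hKX hKF K D N P₂ hK1 p c₂ hG2 n (by omega) y w' h2
          (by rw [← hx]; exact h3))
        have g2 := QE7 _ _ _ _ (gad2 X hQE hRA hRB hKX hKF K D N P₁ (by omega) p c₁ c₃ hp0.le hp1
          hc₁ hc₃ (fun u v huv W hW => ((hH u v huv).1 W hW).1) hA₃' n (by omega) y w
          (by rw [← hx']; exact h1))
        have g3 : ttW X.G (X.vr (n + 2 * N) y) p w' w ≤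
            k₃ * ttW X.G (X.vr (n + 2 * N) y) p w' (w.1, X.up (n + 2 * N - K) y) := by
          rw [hk₃]
          refine mv _ (mul_pos hc₁ hc₃) _ _ ?_
          rw [mul_comm]
          exact (mul_le_mul_right g2 _).trans (hprW _ _ _)
        have g4 : ttW X.G (X.vr (n + 2 * N) y) p w' (w.1, X.up (n + 2 * N - K) y) ≤
            k₂ * X.vv p K (n + 2 * N) y w'.1 w.1 := by
          rw [hk₂]
          refine mv _ hc₂ _ _ ?_
          exact (mul_le_mul_left g1 _).trans (hprW _ _ _)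
        calc ttW X.G (X.vr (n + 2 * N) y) p w' w ≤ k₃ * _ := g3
          _ ≤ k₃ * (k₂ * X.vv p K (n + 2 * N) y w'.1 w.1) := mul_le_mul_right g4 _
          _ = _ := by ring
      calc tt X.G p u w' * ttW X.G (X.vr (n + 2 * N) y) p w' w * tt X.G p w v
          ≤ (k₁ * tt X.G p u (w'.1, x)) * (k₂ * k₃ * X.vv p K (n + 2 * N) y w'.1 w.1) *
            (k₁ * tt X.G p (w.1, xn) v) := mul_le_mul' (mul_le_mul' a1 a3) a2
        _ = _ := by
            rw [hF]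
            ring
    have b1 := step1 X hQU hRA hRB hKX hKF Δ D hC p hp0.le hp1 n (by omega) x t s
    rw [ex1, ex2, ← hu, ← hv] at b1
    rw [← hx, ← hxn, ← hu, ← hv]
    refine b1.trans ?_
    rw [mul_assoc]
    refine mul_le_mul_right ?_ _
    have b2 : ∀ w : X.T × X.T', (if w ∈ X.Es x' ∧ td X.par' x' w.2 ≤ D then
        tt (within X.G (insert w (X.Es x')ᶜ)) p u w * tt X.G p w v else 0) ≤
        if td X.par' x' w.2 ≤ D then (Δ : ℝ≥0∞) * ((M : ℝ≥0∞) * (k₁ * (k₂ * k₃) * k₁)) *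
          ∑' r, F r w.1 else 0 := by
      intro w
      by_cases hw : w ∈ X.Es x' ∧ td X.par' x' w.2 ≤ D
      · rw [if_pos hw, if_pos hw.2]
        have b3 := step2 X hWB hQC hQF hQU hRA hRB hKX hKF Δ D N hC (by omega) p hp0.le hp1 n
          (by omega) y t w (hx' ▸ hw.1) (hx' ▸ hw.2)
        rw [← hx, ← hx', ← hu] at b3
        refine (mul_le_mul_left b3 _).trans ?_
        rw [mul_assoc, mul_assoc]
        refine mul_le_mul_right ?_ _
        rw [← ENNReal.tsum_mul_right]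
        rw [mul_assoc, ← ENNReal.tsum_mul_left]
        refine sum_ball (fun z => td X.par' x z ≤ D) M (hcard x).1 (hcard x).2
          (fun r => k₁ * (k₂ * k₃) * k₁ * F r w.1) _ ?_
        intro w'
        by_cases hw' : X.h' y < X.h' w'.2 ∧ td X.par' x w'.2 ≤ D
        · rw [if_pos hw', if_pos hw'.2]
          exact hpt w w' hw.2 hw'.1 hw'.2
        · rw [if_neg hw', zero_mul]
          exact zero_le
      · rw [if_neg hw]
        exact zero_le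
    have b4 := sum_ball (fun z => td X.par' x' z ≤ D) M (hcard x').1 (hcard x').2
      (fun s₁ => (Δ : ℝ≥0∞) * ((M : ℝ≥0∞) * (k₁ * (k₂ * k₃) * k₁)) * ∑' r, F r s₁) _
      (fun w => (b2 w).trans (le_of_eq (by split_ifs <;> rfl)))
    refine b4.trans (le_of_eq ?_)
    rw [ENNReal.tsum_mul_left, ENNReal.tsum_comm, hF]
    ring

end Pool.Agent.Work.MP_c58d8b_pr.PG
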