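import Pool.Agent.Work.MP_c58d8b_pr.PG.Stmts

/-!
# MP_c58d8b_pr, block PG, item YD (helper48): sum of the double Simon-Lieb inequality
-/

set_option autoImplicit false

namespace Pool.Agent.Work.MP_c58d8b_pr.PG

open MeasureTheory ProbabilityTheory Set Filter Topology
open scoped ENNReal unitInterval Classical
open Pool.Agent.Work.MP_c58d8b_pr.SO Pool.Agent.Work.MP_c58d8b_pr.PT

universe u

namespace IX_YD

lemma om_nonneg (X : Sg.{u}) (t s : X.T) : 0 ≤ X.om t s := by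
  unfold Sg.om; positivity

lemma sqa_pos (X : Sg.{u}) : 0 < √(X.a : ℝ) := by
  have h := X.tr.two
  exact Real.sqrt_pos.mpr (by exact_mod_cast (by omega : 0 < X.a))

lemma sqb_ge (X : Sg.{u}) : 1 ≤ √(X.b : ℝ) := by
  have h := X.tr'.two
  exact Real.one_le_sqrt.mpr (by exact_mod_cast (by omega : 1 ≤ X.b))

lemma om_mul (X : Sg.{u}) (t r s : X.T) : X.om t s = X.om t r * X.om r s := by
  unfold Sg.om
  rw [← zpow_add₀ (sqa_pos X).ne']
  congr 1
  ring

lemma weight_le (X : Sg.{u}) (t r s₁ s : X.T) (n N : ℕ) :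
    ENNReal.ofReal (X.om t s * √(X.b : ℝ) ^ n) ≤
      ENNReal.ofReal (X.om t r * √(X.b : ℝ) ^ 0) *
      (ENNReal.ofReal (X.om r s₁ * √(X.b : ℝ) ^ (n + 2 * N)) *
      ENNReal.ofReal (X.om s₁ s * √(X.b : ℝ) ^ 0)) := by
  have hB := sqb_ge X
  have h1 := om_nonneg X t r
  have h2 := om_nonneg X r s₁
  have h3 := om_nonneg X s₁ s
  rw [← ENNReal.ofReal_mul (by positivity), ← ENNReal.ofReal_mul (by positivity)]
  apply ENNReal.ofReal_le_ofReal
  rw [om_mul X t r s, om_mul X r s₁ s]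
  have h4 : √(X.b : ℝ) ^ n ≤ √(X.b : ℝ) ^ (n + 2 * N) := pow_le_pow_right₀ hB (by omega)
  calc X.om t r * (X.om r s₁ * X.om s₁ s) * √(X.b : ℝ) ^ n
      ≤ X.om t r * (X.om r s₁ * X.om s₁ s) * √(X.b : ℝ) ^ (n + 2 * N) := by gcongr
    _ = _ := by ring

lemma up_up (X : Sg.{u}) (n N : ℕ) (y : X.T') : X.up n (X.up N y) = X.up (n + N) y := by
  unfold Sg.up
  rw [← Function.iterate_add_apply]

end IX_YD

open IX_YD in
/-- [YD] -/
theorem pg_YD (hKD : StKD.{u}) (hYC : StYC.{u}) : StYD.{u} := by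
  intro X K hK p hp0 hp1
  obtain ⟨C, N, n₀, hC, h⟩ := hYC X K hK p hp0 hp1
  refine ⟨C, N, n₀, hC, ?_⟩
  intro n hn x t
  obtain ⟨-, -, -, hgg, hgv, -⟩ := hKD X p hp0.le hp1
  set y : X.T' := x with hy
  set g : ℝ≥0∞ := X.gg p 0 x t with hg
  set v : ℝ≥0∞ := X.gv p K (n + 2 * N) x t with hv
  have key : ∀ s r s₁ : X.T,
      ENNReal.ofReal (X.om t s * √(X.b : ℝ) ^ n) *
        (tt X.G p (t, X.up N y) (r, X.up N y) * X.vv p K (n + 2 * N) y r s₁ *
          tt X.G p (s₁, X.up (n + N) y) (s, X.up (n + N) y)) ≤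
      (ENNReal.ofReal (X.om t r * √(X.b : ℝ) ^ 0) * tt X.G p (t, X.up N y) (r, X.up N y)) *
      ((ENNReal.ofReal (X.om r s₁ * √(X.b : ℝ) ^ (n + 2 * N)) * X.vv p K (n + 2 * N) y r s₁) *
      (ENNReal.ofReal (X.om s₁ s * √(X.b : ℝ) ^ 0) *
        tt X.G p (s₁, X.up (n + N) y) (s, X.up (n + N) y))) := by
    intro s r s₁
    calc _ ≤ (ENNReal.ofReal (X.om t r * √(X.b : ℝ) ^ 0) *
          (ENNReal.ofReal (X.om r s₁ * √(X.b : ℝ) ^ (n + 2 * N)) *
          ENNReal.ofReal (X.om s₁ s * √(X.b : ℝ) ^ 0))) *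
          (tt X.G p (t, X.up N y) (r, X.up N y) * X.vv p K (n + 2 * N) y r s₁ *
          tt X.G p (s₁, X.up (n + N) y) (s, X.up (n + N) y)) := by
            gcongr
            exact weight_le X t r s₁ s n N
      _ = _ := by ring
  have e1 : ∀ s₁ : X.T, ∑' s : X.T, ENNReal.ofReal (X.om s₁ s * √(X.b : ℝ) ^ 0) *
      tt X.G p (s₁, X.up (n + N) y) (s, X.up (n + N) y) = g := fun s₁ =>
    hgg 0 (X.up (n + N) y) s₁ x t
  have e2 : ∀ r : X.T, ∑' s₁ : X.T, ENNReal.ofReal (X.om r s₁ * √(X.b : ℝ) ^ (n + 2 * N)) *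
      X.vv p K (n + 2 * N) y r s₁ = v := fun r => hgv K (n + 2 * N) y r x t
  have e3 : ∑' r : X.T, ENNReal.ofReal (X.om t r * √(X.b : ℝ) ^ 0) *
      tt X.G p (t, X.up N y) (r, X.up N y) = g := hgg 0 (X.up N y) t x t
  calc X.gg p n x t = X.gg p n (X.up N y) t := hgg n x t _ t
    _ = ∑' s : X.T, ENNReal.ofReal (X.om t s * √(X.b : ℝ) ^ n) *
          tt X.G p (t, X.up N y) (s, X.up n (X.up N y)) := rfl
    _ ≤ ∑' s : X.T, ENNReal.ofReal (X.om t s * √(X.b : ℝ) ^ n) *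
          (C * ∑' r : X.T, ∑' s₁ : X.T,
            tt X.G p (t, X.up N y) (r, X.up N y) * X.vv p K (n + 2 * N) y r s₁ *
              tt X.G p (s₁, X.up (n + N) y) (s, X.up (n + N) y)) := by
        refine ENNReal.tsum_le_tsum fun s => ?_
        rw [up_up]
        gcongr
        exact h n hn y t s
    _ = C * ∑' s : X.T, ∑' r : X.T, ∑' s₁ : X.T, ENNReal.ofReal (X.om t s * √(X.b : ℝ) ^ n) *
          (tt X.G p (t, X.up N y) (r, X.up N y) * X.vv p K (n + 2 * N) y r s₁ *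
              tt X.G p (s₁, X.up (n + N) y) (s, X.up (n + N) y)) := by
        rw [← ENNReal.tsum_mul_left]
        refine tsum_congr fun s => ?_
        rw [mul_left_comm, ← ENNReal.tsum_mul_left]
        congr 1
        refine tsum_congr fun r => ?_
        rw [← ENNReal.tsum_mul_left]
    _ ≤ C * ∑' s : X.T, ∑' r : X.T, ∑' s₁ : X.T,
          (ENNReal.ofReal (X.om t r * √(X.b : ℝ) ^ 0) * tt X.G p (t, X.up N y) (r, X.up N y)) *
          ((ENNReal.ofReal (X.om r s₁ * √(X.b : ℝ) ^ (n + 2 * N)) *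
            X.vv p K (n + 2 * N) y r s₁) *
          (ENNReal.ofReal (X.om s₁ s * √(X.b : ℝ) ^ 0) *
            tt X.G p (s₁, X.up (n + N) y) (s, X.up (n + N) y))) := by
        exact mul_le_mul' le_rfl (ENNReal.tsum_le_tsum fun s => ENNReal.tsum_le_tsum fun r =>
          ENNReal.tsum_le_tsum fun s₁ => key s r s₁)
    _ = C * ∑' r : X.T, ∑' s₁ : X.T, ∑' s : X.T,
          (ENNReal.ofReal (X.om t r * √(X.b : ℝ) ^ 0) * tt X.G p (t, X.up N y) (r, X.up N y)) *
          ((ENNReal.ofReal (X.om r s₁ * √(X.b : ℝ) ^ (n + 2 * N)) *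
            X.vv p K (n + 2 * N) y r s₁) *
          (ENNReal.ofReal (X.om s₁ s * √(X.b : ℝ) ^ 0) *
            tt X.G p (s₁, X.up (n + N) y) (s, X.up (n + N) y))) := by
        rw [ENNReal.tsum_comm]
        congr 1
        refine tsum_congr fun r => ?_
        rw [ENNReal.tsum_comm]
    _ = C * ∑' r : X.T,
          (ENNReal.ofReal (X.om t r * √(X.b : ℝ) ^ 0) * tt X.G p (t, X.up N y) (r, X.up N y)) *
          (v * g) := by
        congr 1
        refine tsum_congr fun r => ?_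
        rw [← e2 r, ← ENNReal.tsum_mul_right, ← ENNReal.tsum_mul_left]
        refine tsum_congr fun s₁ => ?_
        rw [ENNReal.tsum_mul_left, ENNReal.tsum_mul_left, e1 s₁]
    _ = C * (g * (v * g)) := by rw [ENNReal.tsum_mul_right, e3]
    _ = C * (g ^ 2 * v) := by ring

end Pool.Agent.Work.MP_c58d8b_pr.PG
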