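import Pool.Agent.Work.MP_c58d8b_pr.PG.Stmts

/-!
# MP_c58d8b_pr, block PG, item YE: supermultiplicativity of the exit probabilities
-/

set_option autoImplicit false

namespace Pool.Agent.Work.MP_c58d8b_pr.PG

open MeasureTheory ProbabilityTheory Set Filter Topology
open scoped ENNReal unitInterval Classical
open Pool.Agent.Work.MP_c58d8b_pr.SO Pool.Agent.Work.MP_c58d8b_pr.PT

universe u

namespace IX_YE

theorem mem_EI {V : Type u} (H : SimpleGraph V) (S : Finset V) (e : Sym2 V) :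
    e ∈ EI H S ↔ ∃ a b, a ∈ S ∧ b ∈ S ∧ H.Adj a b ∧ e = s(a, b) := by
  unfold EI
  rw [Finset.mem_image]
  constructor
  · rintro ⟨q, hq, rfl⟩
    rw [Finset.mem_filter, Finset.mem_product] at hq
    exact ⟨q.1, q.2, hq.1.1, hq.1.2, hq.2, rfl⟩
  · rintro ⟨a, b, ha, hb, hab, rfl⟩
    exact ⟨(a, b), by rw [Finset.mem_filter, Finset.mem_product]; exact ⟨⟨ha, hb⟩, hab⟩, rfl⟩

theorem mk_mem_EI {V : Type u} {H : SimpleGraph V} {S : Finset V} {a b : V}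
    (h : s(a, b) ∈ EI H S) : a ∈ S ∧ b ∈ S ∧ H.Adj a b := by
  obtain ⟨c, d, hc, hd, hcd, he⟩ := (mem_EI H S _).1 h
  rcases Sym2.eq_iff.1 he with ⟨rfl, rfl⟩ | ⟨rfl, rfl⟩
  · exact ⟨hc, hd, hcd⟩
  · exact ⟨hd, hc, hcd.symm⟩

theorem mem_BlF (hKC : StKC.{u}) (X : Sg.{u}) (M : ℕ) (u v : X.T × X.T') :
    v ∈ X.BlF M u ↔ td X.par u.1 v.1 ≤ M ∧ td X.par' u.2 v.2 ≤ M := by
  have hf : (X.Bl M u).Finite :=
    ((hKC X 1 X.A.one_mem 1 X.B.one_mem).2.2.2.2.2.2.2.2.1 M u).1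
  unfold Sg.BlF
  rw [dif_pos hf, Set.Finite.mem_toFinset]
  rfl

/-- An event which depends on the elements of `F` only. -/
theorem Pr_res (hPB : StPB.{u}) (hPL : StPL.{u}) {ι : Type u} (E F : Finset ι) (p : ℝ)
    (hp0 : 0 ≤ p) (hp1 : p ≤ 1) (hF : F ⊆ E) (A : Set (Set ι)) :
    Pr E p {s | s ∩ (F : Set ι) ∈ A} = Pr F p A := by
  have h1 : Pr E p {s | s ∩ (F : Set ι) ∈ A} = Pr F p {s | s ∩ (F : Set ι) ∈ A} := by
    apply hPL _ E F p hp0 hp1 hF
    intro s _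
    change (s : Set ι) ∩ (F : Set ι) ∈ A ↔ (s : Set ι) ∩ (F : Set ι) ∩ (F : Set ι) ∈ A
    rw [Set.inter_assoc, Set.inter_self]
  rw [h1]
  have hb := (hPB _ F p hp0 hp1).2.2.1
  apply le_antisymm
  · apply hb
    intro s hs h
    have : (s : Set ι) ∩ (F : Set ι) = s := Set.inter_eq_left.2 (by exact_mod_cast hs)
    change (s : Set ι) ∩ (F : Set ι) ∈ A at h
    rwa [this] at h
  · apply hb
    intro s hs h
    have : (s : Set ι) ∩ (F : Set ι) = s := Set.inter_eq_left.2 (by exact_mod_cast hs)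
    change (s : Set ι) ∩ (F : Set ι) ∈ A
    rwa [this]

end IX_YE

theorem pg_YE (hPB : StPB.{u}) (hPL : StPL.{u}) (hCB : StCB.{u}) (hFA : StFA.{u}) (hFB : StFB.{u})
    (hRA : StRA.{u}) (hRB : StRB.{u}) (hKX : StKX.{u}) (hKA : StKA.{u}) (hKC : StKC.{u})
    (hKF : StKF.{u}) (hKG : StKG.{u}) (hYF : StYF.{u}) : StYE.{u} := by
  intro X p K hp hp1 hK1
  have hp0 : 0 ≤ p := hp.le
  obtain ⟨hRA1, _, _, hRA4, hRA5, _⟩ := hRA X.T' X.par' X.h' X.b X.tr'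
  obtain ⟨hz, _, htri, _, _, _, _, _, _, _⟩ := hRB X.T X.par X.h X.a X.tr
  obtain ⟨_, hsym', htri', _, _, hup', _, _, _, _⟩ := hRB X.T' X.par' X.h' X.b X.tr'
  obtain ⟨hKX1, _⟩ := hKX X.T' X.par' X.h' X.b X.tr'
  obtain ⟨hF1, hF2, hF3, hF4, _, _⟩ := hKF X
  obtain ⟨Δ, D, hC⟩ := hKA X
  obtain ⟨P₃, hP₃, _, hGp⟩ := hKG X (D + K)
  obtain ⟨c, hc0, hc1, hG⟩ := hGp p hp hp1
  refine ⟨c, P₃ + D + K, hc0, hc1, ?_⟩
  intro M M' m m' hKm u
  set P := P₃ + D + K with hP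
  obtain ⟨z₀, hz₀⟩ : ∃ z₀ : X.T × X.T', z₀ = (u.1, X.up K u.2) := ⟨_, rfl⟩
  obtain ⟨xm, hxm⟩ : ∃ xm : X.T', xm = X.up m u.2 := ⟨_, rfl⟩
  have hup_up : ∀ (i j : ℕ) (x : X.T'), X.up i (X.up j x) = X.up (i + j) x := by
    intro i j x
    exact (Function.iterate_add_apply X.par' i j x).symm
  have hz₀D : z₀ ∈ X.Dn xm := by
    change z₀.2 ∈ desc X.par' xm
    rw [hz₀, hxm]
    have h1 : X.up m u.2 = X.up (m - K) (X.up K u.2) := by
      rw [hup_up, Nat.sub_add_cancel hKm]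
    rw [h1]
    exact (hRA5 _ _).2
  have hdis : ∀ v : X.T × X.T', v ∈ X.Es xm → v ∉ X.Dn xm := by
    intro v hv hv'
    exact Set.disjoint_left.1 (hF1 xm) hv hv'
  have hz₀E : z₀ ∉ X.Es xm := fun h => hdis z₀ h hz₀D
  have hEsub : X.Es xm ⊆ X.Es u.2 := by
    rw [hxm]
    exact hF2 u.2 m
  set A : Set (Set (Sym2 (X.T × X.T'))) := {s | ∃ w ∈ Cluster s z₀, w ∈ X.Es xm} with hA
  set E₀ := EI (within X.G (X.Es u.2)) (X.BlF M u) with hE₀
  set E := EI (within X.G (X.Es u.2)) (X.BlF (M + M' + P) u) with hE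
  set E₁ := E₀.filter (fun e => ∃ a, a ∈ e ∧ a ∉ X.Es xm) with hE₁
  have hE₁₀ : E₁ ⊆ E₀ := Finset.filter_subset _ _
  have hE₀E : E₀ ⊆ E := by
    intro e he
    obtain ⟨a, b, ha, hb, hab, rfl⟩ := (IX_YE.mem_EI _ _ _).1 he
    rw [IX_YE.mem_BlF hKC] at ha hb
    refine (IX_YE.mem_EI _ _ _).2 ⟨a, b, ?_, ?_, hab, rfl⟩
    · rw [IX_YE.mem_BlF hKC]
      exact ⟨by omega, by omega⟩
    · rw [IX_YE.mem_BlF hKC]
      exact ⟨by omega, by omega⟩
  -- step 1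
  have hstep1 : X.eb p K M m u = Pr E₁ p A := by
    have h0 : X.eb p K M m u = Pr E₀ p A := by
      rw [hA, hz₀, hxm]
      rfl
    rw [h0]
    apply hPL _ E₀ E₁ p hp0 hp1 hE₁₀
    intro s hs
    constructor
    · rintro ⟨w, hw, hwD⟩
      by_contra hno
      have hall : ∀ v ∈ Cluster ((s : Set (Sym2 (X.T × X.T'))) ∩ (E₁ : Set _)) z₀,
          v ∉ X.Es xm := by
        intro v hv hvD
        exact hno ⟨v, hv, hvD⟩
      have hsub := (hCB _ (s : Set (Sym2 (X.T × X.T')))).2.2.2.2.2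
        (Cluster ((s : Set (Sym2 (X.T × X.T'))) ∩ (E₁ : Set _)) z₀) z₀
        ((hCB _ ((s : Set (Sym2 (X.T × X.T'))) ∩ (E₁ : Set _))).1 z₀) (by
          intro a ha b hab
          have hmem : s(a, b) ∈ (s : Set (Sym2 (X.T × X.T'))) ∩ (E₁ : Set _) := by
            refine ⟨hab, ?_⟩
            rw [Finset.mem_coe, hE₁, Finset.mem_filter]
            exact ⟨hs (Finset.mem_coe.1 hab), a, Sym2.mem_mk_left a b, hall a ha⟩
          exact (hCB _ _).2.2.1 z₀ a b ha ((hCB _ _).2.2.2.2.1 a b hmem))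
      exact (hall w (hsub hw)) hwD
    · rintro ⟨w, hw, hwD⟩
      exact ⟨w, (hCB _ _).2.2.2.1 _ Set.inter_subset_left z₀ hw, hwD⟩
  -- the second event
  set A' : Set (Set (Sym2 (X.T × X.T'))) :=
    {s | ∃ w ∈ Cluster s z₀, w ∈ X.Es (X.up (m + m') u.2)} with hA'
  have hsum : X.eb p K (M + M' + P) (m + m') u = ∑ t ∈ E₁.powerset,
      p ^ t.card * (1 - p) ^ (E₁.card - t.card) *
        Pr (E \ E₁) p {s | (t : Set (Sym2 (X.T × X.T'))) ∪ s ∈ A'} := by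
    have h0 : X.eb p K (M + M' + P) (m + m') u = Pr E p A' := by
      rw [hA', hz₀]
      rfl
    rw [h0]
    have h := (hFA (Sym2 (X.T × X.T')) p).1 E₁ (E \ E₁) Finset.disjoint_sdiff A'
    have key : ∀ F : Finset (Sym2 (X.T × X.T')), F = E → Pr F p A' = Pr E p A' := by
      rintro F rfl
      rfl
    refine (key _ ?_).symm.trans h
    ext e
    simp only [Finset.mem_union, Finset.mem_sdiff]
    constructor
    · rintro (he | he)
      · exact hE₀E (hE₁₀ he)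
      · exact he.1
    · intro he
      by_cases h1 : e ∈ E₁
      · exact Or.inl h1
      · exact Or.inr ⟨he, h1⟩
  -- the main estimate
  have hmain : ∀ t : Finset (Sym2 (X.T × X.T')), t ⊆ E₁ → (t : Set (Sym2 (X.T × X.T'))) ∈ A →
      c * X.eb p K M' m' u ≤
        Pr (E \ E₁) p {s | (t : Set (Sym2 (X.T × X.T'))) ∪ s ∈ A'} := by
    intro t ht htA
    obtain ⟨w, hw, hwD⟩ := htA
    have hwu : w ≠ z₀ := by
      rintro rfl
      exact hz₀E hwD
    obtain ⟨y, hy⟩ : ∃ y, s(w, y) ∈ (t : Set (Sym2 (X.T × X.T'))) := by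
      by_contra hno
      push Not at hno
      have h1 := (hCB _ (t : Set (Sym2 (X.T × X.T')))).2.2.2.2.2 {w} w rfl (by
        intro a ha b hab
        rw [Set.mem_singleton_iff] at ha
        subst ha
        exact absurd hab (hno b))
      have h2 := h1 ((hCB _ (t : Set (Sym2 (X.T × X.T')))).2.1 z₀ w hw)
      exact hwu h2.symm
    have hyE₁ : s(w, y) ∈ E₁ := ht (Finset.mem_coe.1 hy)
    rw [hE₁, Finset.mem_filter] at hyE₁
    obtain ⟨hyE₀, a, ha, haD⟩ := hyE₁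
    obtain ⟨hwB, hyB, hadj⟩ := IX_YE.mk_mem_EI hyE₀
    have hyD : y ∉ X.Es xm := by
      rcases Sym2.mem_iff.1 ha with rfl | rfl
      · exact absurd hwD haD
      · exact haD
    have hyDn : y ∈ X.Dn xm := hF3 xm y w hyD hwD hadj.1.symm
    have hwDn : w ∉ X.Dn xm := hdis w hwD
    have hjmp : w ∈ X.Bl D y := hC.jmp y w hadj.1.symm
    have hdw : td X.par' xm w.2 ≤ D := by
      have h1 := hKX1 xm y.2 w.2 hyDn hwDn
      have h2 : td X.par' y.2 w.2 ≤ D := hjmp.2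
      omega
    rw [IX_YE.mem_BlF hKC] at hwB
    -- the second starting point
    obtain ⟨z₂, hz₂⟩ : ∃ z₂ : X.T × X.T', z₂ = (w.1, X.up K xm) := ⟨_, rfl⟩
    have hz₂E : z₂ ∈ X.Es xm := by
      apply hF4
      rw [hz₂]
      have h1 : X.h' (X.up K xm) = X.h' xm + K := hRA1 K xm
      change X.h' xm < X.h' (X.up K xm)
      rw [h1]
      have h2 : (1 : ℤ) ≤ (K : ℤ) := by exact_mod_cast hK1
      omega
    have hz₂B : z₂ ∈ X.Bl (D + K) w := by
      rw [hz₂]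
      refine ⟨?_, ?_⟩
      · change td X.par w.1 w.1 ≤ D + K
        have h1 : td X.par w.1 w.1 = 0 := (hz w.1 w.1).2 rfl
        omega
      · change td X.par' w.2 (X.up K xm) ≤ D + K
        have h1 := htri' w.2 xm (X.up K xm)
        have h2 : td X.par' xm (X.up K xm) = K := hup' xm K
        have h3 := hsym' w.2 xm
        omega
    -- the gadget
    set F₁ := EI (within X.G (X.Es xm)) (X.BlF P₃ w) with hF₁
    set F₂ := EI (within X.G (X.Es xm)) (X.BlF M' (w.1, xm)) with hF₂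
    set A₁ : Set (Set (Sym2 (X.T × X.T'))) := {s | z₂ ∈ Cluster s w} with hA₁
    set A₂ : Set (Set (Sym2 (X.T × X.T'))) :=
      {s | ∃ v ∈ Cluster s z₂, v ∈ X.Es (X.up m' xm)} with hA₂
    have hnot : ∀ a b : X.T × X.T', a ∈ X.Es xm → b ∈ X.Es xm → s(a, b) ∉ E₁ := by
      intro a b ha hb h
      rw [hE₁, Finset.mem_filter] at h
      obtain ⟨_, c, hc, hcD⟩ := h
      rcases Sym2.mem_iff.1 hc with rfl | rfl
      · exact hcD ha
      · exact hcD hb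
    have hF₁E : F₁ ⊆ E \ E₁ := by
      intro e he
      obtain ⟨a, b, ha, hb, hab, rfl⟩ := (IX_YE.mem_EI _ _ _).1 he
      rw [IX_YE.mem_BlF hKC] at ha hb
      obtain ⟨hGab, haW, hbW⟩ := hab
      rw [Finset.mem_sdiff]
      refine ⟨?_, hnot a b haW hbW⟩
      refine (IX_YE.mem_EI _ _ _).2 ⟨a, b, ?_, ?_, ⟨hGab, hEsub haW, hEsub hbW⟩, rfl⟩
      · rw [IX_YE.mem_BlF hKC]
        have h1 := htri u.1 w.1 a.1
        have h2 := htri' u.2 w.2 a.2
        exact ⟨by omega, by omega⟩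
      · rw [IX_YE.mem_BlF hKC]
        have h1 := htri u.1 w.1 b.1
        have h2 := htri' u.2 w.2 b.2
        exact ⟨by omega, by omega⟩
    have hF₂E : F₂ ⊆ E \ E₁ := by
      intro e he
      obtain ⟨a, b, ha, hb, hab, rfl⟩ := (IX_YE.mem_EI _ _ _).1 he
      rw [IX_YE.mem_BlF hKC] at ha hb
      obtain ⟨hGab, haW, hbW⟩ := hab
      rw [Finset.mem_sdiff]
      refine ⟨?_, hnot a b haW hbW⟩
      have hwx := hsym' w.2 xm
      refine (IX_YE.mem_EI _ _ _).2 ⟨a, b, ?_, ?_, ⟨hGab, hEsub haW, hEsub hbW⟩, rfl⟩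
      · rw [IX_YE.mem_BlF hKC]
        have h1 := htri u.1 w.1 a.1
        have h2 := htri' u.2 w.2 a.2
        have h3 := htri' w.2 xm a.2
        have h4 : td X.par w.1 a.1 ≤ M' := ha.1
        have h5 : td X.par' xm a.2 ≤ M' := ha.2
        exact ⟨by omega, by omega⟩
      · rw [IX_YE.mem_BlF hKC]
        have h1 := htri u.1 w.1 b.1
        have h2 := htri' u.2 w.2 b.2
        have h3 := htri' w.2 xm b.2
        have h4 : td X.par w.1 b.1 ≤ M' := hb.1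
        have h5 : td X.par' xm b.2 ≤ M' := hb.2
        exact ⟨by omega, by omega⟩
    have hPr₁ : c ≤ Pr (E \ E₁) p {s | s ∩ (F₁ : Set (Sym2 (X.T × X.T'))) ∈ A₁} := by
      rw [IX_YE.Pr_res hPB hPL (E \ E₁) F₁ p hp0 hp1 hF₁E A₁]
      exact (hG xm w hwD z₂ hz₂E (by omega) hz₂B (X.Es xm) Set.inter_subset_left).2
        (X.BlF P₃ w) (Finset.Subset.refl _)
    have hPr₂ : Pr (E \ E₁) p {s | s ∩ (F₂ : Set (Sym2 (X.T × X.T'))) ∈ A₂} =
        X.eb p K M' m' u := by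
      rw [IX_YE.Pr_res hPB hPL (E \ E₁) F₂ p hp0 hp1 hF₂E A₂, hA₂, hz₂]
      change X.eb p K M' m' (w.1, xm) = _
      exact (hYF X p K hp0 hp1).1 M' m' (w.1, xm) u
    have hInc₁ : Inc {s : Set (Sym2 (X.T × X.T')) | s ∩ (F₁ : Set (Sym2 (X.T × X.T'))) ∈ A₁} := by
      intro s s' hss' hs
      exact (hCB _ _).2.2.2.1 _ (Set.inter_subset_inter_left _ hss') w hs
    have hInc₂ : Inc {s : Set (Sym2 (X.T × X.T')) | s ∩ (F₂ : Set (Sym2 (X.T × X.T'))) ∈ A₂} := by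
      rintro s s' hss' ⟨v, hv, hvE⟩
      exact ⟨v, (hCB _ _).2.2.2.1 _ (Set.inter_subset_inter_left _ hss') z₂ hv, hvE⟩
    have hFKG := hFB _ (E \ E₁) p hp0 hp1 _ _ hInc₁ hInc₂
    have hlow : c * X.eb p K M' m' u ≤
        Pr (E \ E₁) p {s | s ∩ (F₁ : Set (Sym2 (X.T × X.T'))) ∈ A₁} *
          Pr (E \ E₁) p {s | s ∩ (F₂ : Set (Sym2 (X.T × X.T'))) ∈ A₂} := by
      rw [hPr₂]
      exact mul_le_mul_of_nonneg_right hPr₁
        ((hYF X p K hp0 hp1).2.2.2 (X.BlF M' u) m' u).1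
    refine hlow.trans (hFKG.trans ?_)
    apply (hPB _ (E \ E₁) p hp0 hp1).2.2.1
    rintro s _ ⟨hs₁, v, hv, hvD⟩
    refine ⟨v, ?_, ?_⟩
    · have h1 : v ∈ Cluster ((t : Set (Sym2 (X.T × X.T'))) ∪ (s : Set _)) z₂ :=
        (hCB _ _).2.2.2.1 _ (Set.inter_subset_left.trans Set.subset_union_right) z₂ hv
      have h2 : z₂ ∈ Cluster ((t : Set (Sym2 (X.T × X.T'))) ∪ (s : Set _)) w :=
        (hCB _ _).2.2.2.1 _ (Set.inter_subset_left.trans Set.subset_union_right) w hs₁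
      have h3 : w ∈ Cluster ((t : Set (Sym2 (X.T × X.T'))) ∪ (s : Set _)) z₀ :=
        (hCB _ _).2.2.2.1 _ Set.subset_union_left z₀ hw
      exact (hCB _ _).2.2.1 z₀ w v h3 ((hCB _ _).2.2.1 w z₂ v h2 h1)
    · rw [hxm, hup_up, Nat.add_comm m' m] at hvD
      exact hvD
  -- summation
  have hnn : ∀ t : Finset (Sym2 (X.T × X.T')), 0 ≤ p ^ t.card * (1 - p) ^ (E₁.card - t.card) :=
    fun t => mul_nonneg (pow_nonneg hp0 _) (pow_nonneg (by linarith) _)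
  rw [hstep1, hsum]
  have hre : c * (Pr E₁ p A * X.eb p K M' m' u) = Pr E₁ p A * (c * X.eb p K M' m' u) := by ring
  rw [hre]
  unfold Pr
  rw [Finset.sum_mul]
  refine le_trans (Finset.sum_le_sum (fun t ht => ?_))
    (Finset.sum_le_sum_of_subset_of_nonneg (Finset.filter_subset _ _) (fun t _ _ => ?_))
  · rw [Finset.mem_filter, Finset.mem_powerset] at ht
    exact mul_le_mul_of_nonneg_left (hmain t ht.1 ht.2) (hnn t)
  · exact mul_nonneg (hnn t) ((hPB _ (E \ E₁) p hp0 hp1).2.1 _).1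

end Pool.Agent.Work.MP_c58d8b_pr.PG
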