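import Pool.Agent.Work.MP_c58d8b_pr.PG.Stmts

/-!
# MP_c58d8b_pr, block PG, item YG: union bound for the exit
-/

set_option autoImplicit false

namespace Pool.Agent.Work.MP_c58d8b_pr.PG

open MeasureTheory ProbabilityTheory Set Filter Topology
open scoped ENNReal unitInterval Classical
open Pool.Agent.Work.MP_c58d8b_pr.SO Pool.Agent.Work.MP_c58d8b_pr.PT

universe u

namespace IX_YG

/-- The union bound. -/
theorem union_bound (hPB : SO.StPB.{u}) {ι : Type u} {κ : Type u} (E : Finset ι) (p : ℝ)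
    (hp0 : 0 ≤ p) (hp1 : p ≤ 1) (J : Finset κ) (A : κ → Set (Set ι)) :
    Pr E p {s | ∃ i ∈ J, s ∈ A i} ≤ ∑ i ∈ J, Pr E p (A i) := by
  obtain ⟨-, h2, h3, h4, -⟩ := hPB ι E p hp0 hp1
  induction J using Finset.induction_on with
  | empty =>
    rw [Finset.sum_empty]
    have e1 := h4 Set.univ Set.univ
    rw [Set.univ_inter] at e1
    have e2 : Pr E p (Set.univ ∩ Set.univᶜ) = 0 := by linarith
    rw [← e2]
    refine h3 _ _ fun s _ hs => ?_
    obtain ⟨i, hi, -⟩ := hs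
    exact absurd hi (Finset.notMem_empty i)
  | insert j J hj ih =>
    rw [Finset.sum_insert hj, h4 _ (A j)]
    refine add_le_add ?_ ((h3 _ _ ?_).trans ih)
    · exact h3 _ _ fun s _ hs => hs.2
    · intro s _ hs
      obtain ⟨⟨i, hi, hiA⟩, hjA⟩ := hs
      rcases Finset.mem_insert.1 hi with h | h
      · subst h
        exact absurd hiA hjA
      · exact ⟨i, h, hiA⟩

theorem mem_EI {V : Type u} {H : SimpleGraph V} {S : Finset V} {y z : V} (h : s(y, z) ∈ EI H S) :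
    y ∈ S ∧ z ∈ S ∧ H.Adj y z := by
  unfold EI at h
  obtain ⟨q, hq, hqe⟩ := Finset.mem_image.1 h
  obtain ⟨h1, h2⟩ := Finset.mem_filter.1 hq
  obtain ⟨h3, h4⟩ := Finset.mem_product.1 h1
  rcases Sym2.eq_iff.1 hqe with ⟨h5, h6⟩ | ⟨h5, h6⟩
  · rw [← h5, ← h6]
    exact ⟨h3, h4, h2⟩
  · rw [← h5, ← h6]
    exact ⟨h4, h3, h2.symm⟩

theorem mem_BlF {X : Sg.{u}} {M : ℕ} {u z : X.T × X.T'} (h : z ∈ X.BlF M u) : z ∈ X.Bl M u := by
  unfold Sg.BlF at h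
  by_cases hf : (X.Bl M u).Finite
  · rw [dif_pos hf] at h
    exact hf.mem_toFinset.1 h
  · rw [dif_neg hf] at h
    exact absurd h (Finset.notMem_empty z)

/-- The exit vertex. -/
theorem exit (hCB : SO.StCB.{u}) (hKX : StKX.{u}) (X : Sg.{u})
    (hKF1 : ∀ x, Disjoint (X.Es x) (X.Dn x))
    (hKF3 : ∀ x z w, z ∉ X.Es x → w ∈ X.Es x → X.G.Adj z w → z ∈ X.Dn x)
    (Δ D : ℕ) (hC : X.Const Δ D)
    (K M m : ℕ) (hm : K ≤ m) (t : X.T) (x : X.T') (s : Set (Sym2 (X.T × X.T')))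
    (hs : s ⊆ (EI (within X.G (X.Es x)) (X.BlF M (t, x)) : Set (Sym2 (X.T × X.T'))))
    (h : ∃ w ∈ Cluster s (t, X.up K x), w ∈ X.Es (X.up m x)) :
    ∃ w : X.T × X.T', td X.par t w.1 ≤ M ∧ td X.par' (X.up m x) w.2 ≤ D ∧
      w ∈ Cluster s (t, X.up K x) := by
  obtain ⟨w, hw, hwD⟩ := h
  obtain ⟨b1, b2, b3, b4, b5, b6⟩ := hCB _ s
  by_contra hcon
  have hstart : (t, X.up K x) ∉ X.Es (X.up m x) := by
    intro hin
    have hD : (t, X.up K x) ∈ X.Dn (X.up m x) := by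
      refine ⟨m - K, ?_⟩
      show X.par'^[m - K] (X.par'^[K] x) = X.par'^[m] x
      rw [← Function.iterate_add_apply, Nat.sub_add_cancel hm]
    exact Set.disjoint_left.1 (hKF1 (X.up m x)) hin hD
  have hsub : Cluster s (t, X.up K x) ⊆
      {v | v ∈ Cluster s (t, X.up K x) ∧ v ∉ X.Es (X.up m x)} := by
    refine b6 _ _ ⟨b1 _, hstart⟩ ?_
    intro y hy z hyz
    have hz : z ∈ Cluster s (t, X.up K x) := b3 _ _ _ hy.1 (b5 _ _ hyz)
    refine ⟨hz, ?_⟩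
    intro hzE
    apply hcon
    obtain ⟨hyS, hzS, hyzA⟩ := mem_EI (hs hyz)
    have hG : X.G.Adj y z := hyzA.1
    have hyD : y ∈ X.Dn (X.up m x) := hKF3 _ y z hy.2 hzE hG
    have hzD : z ∉ X.Dn (X.up m x) := fun h => Set.disjoint_left.1 (hKF1 (X.up m x)) hzE h
    have hj : td X.par' y.2 z.2 ≤ D := (hC.jmp y z hG).2
    have h1 := (hKX X.T' X.par' X.h' X.b X.tr').1 (X.up m x) y.2 z.2 hyD hzD
    refine ⟨z, (mem_BlF hzS).1, ?_, hz⟩
    omega
  exact (hsub hw).2 hwD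

/-- The sum over the tree. -/
theorem tree_sum (hRB : PT.StRB.{u}) {T : Type u} {par : T → T} {h : T → ℤ} {a : ℕ}
    (hT : Tr par h a) (t : T) (M : ℕ) (RR : Finset T) (hRR : ∀ r ∈ RR, td par t r ≤ M) :
    ∑ r ∈ RR, ((a : ℝ)⁻¹) ^ td par t r ≤ 2 * (M + 1) := by
  obtain ⟨-, -, -, -, -, -, -, -, hfin, hcard⟩ := hRB T par h a hT
  have ha : (0 : ℝ) < a := by
    have := hT.two
    have h2 : 0 < a := by omega
    exact_mod_cast h2
  have h1 : ∀ r ∈ RR, td par t r ∈ Finset.range (M + 1) := fun r hr =>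
    Finset.mem_range.2 (Nat.lt_succ_of_le (hRR r hr))
  rw [← Finset.sum_fiberwise_of_maps_to h1]
  have h2 : ∀ e ∈ Finset.range (M + 1),
      ∑ r ∈ RR.filter (fun r => td par t r = e), ((a : ℝ)⁻¹) ^ td par t r ≤ 2 := by
    intro e _
    have h3 : ∑ r ∈ RR.filter (fun r => td par t r = e), ((a : ℝ)⁻¹) ^ td par t r =
        ((RR.filter (fun r => td par t r = e)).card : ℝ) * ((a : ℝ)⁻¹) ^ e := by
      rw [Finset.sum_congr rfl (g := fun _ => ((a : ℝ)⁻¹) ^ e), Finset.sum_const, nsmul_eq_mul]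
      intro r hr
      rw [(Finset.mem_filter.1 hr).2]
    have h4 : (RR.filter (fun r => td par t r = e)).card ≤ 2 * a ^ e := by
      refine le_trans ?_ (hcard t e)
      rw [← Set.ncard_coe_finset]
      refine Set.ncard_le_ncard ?_ ((hfin t e).subset fun r hr => le_of_eq hr)
      intro r hr
      exact (Finset.mem_filter.1 (Finset.mem_coe.1 hr)).2
    have h5 : ((RR.filter (fun r => td par t r = e)).card : ℝ) ≤ 2 * (a : ℝ) ^ e := by
      exact_mod_cast h4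
    rw [h3]
    refine (mul_le_mul_of_nonneg_right h5 (pow_nonneg (inv_nonneg.2 ha.le) e)).trans ?_
    rw [mul_assoc, ← mul_pow, mul_inv_cancel₀ ha.ne', one_pow, mul_one]
  refine (Finset.sum_le_sum h2).trans ?_
  rw [Finset.sum_const, Finset.card_range, nsmul_eq_mul]
  push_cast
  linarith

/-- The number of the vertices of a ball. -/
theorem ball_card (hRB : PT.StRB.{u}) {T : Type u} {par : T → T} {h : T → ℤ} {a : ℕ}
    (hT : Tr par h a) (D : ℕ) :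
    ∃ N : ℕ, ∀ (y : T) (J : Finset T), (∀ z ∈ J, td par y z ≤ D) → J.card ≤ N := by
  obtain ⟨-, -, -, -, -, -, -, -, hfin, hcard⟩ := hRB T par h a hT
  refine ⟨∑ e ∈ Finset.range (D + 1), 2 * a ^ e, fun y J hJ => ?_⟩
  have h1 : ∀ z ∈ J, td par y z ∈ Finset.range (D + 1) := fun z hz =>
    Finset.mem_range.2 (Nat.lt_succ_of_le (hJ z hz))
  rw [Finset.card_eq_sum_card_fiberwise h1]
  refine Finset.sum_le_sum fun e _ => ?_
  refine le_trans ?_ (hcard y e)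
  rw [← Set.ncard_coe_finset]
  refine Set.ncard_le_ncard ?_ ((hfin y e).subset fun r hr => le_of_eq hr)
  intro r hr
  exact (Finset.mem_filter.1 (Finset.mem_coe.1 hr)).2

end IX_YG

open IX_YG in
/-- YG: union bound for the exit. -/
theorem pg_YG (hPB : SO.StPB.{u}) (hCB : SO.StCB.{u}) (hQB : PT.StQB.{u}) (hQF : PT.StQF.{u})
    (hRB : PT.StRB.{u}) (hKX : StKX.{u}) (hKA : StKA.{u}) (hKE : StKE.{u}) (hKF : StKF.{u})
    (hKH : StKH.{u}) : StYG.{u} := by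
  intro X p K hp0 hp1 hK hBd
  obtain ⟨Δ, D, hC⟩ := hKA X
  obtain ⟨hKF1, -, hKF3, -, -, -⟩ := hKF X
  obtain ⟨-, -, -, -, hKE5⟩ := hKE X
  obtain ⟨P, c, -, hc0, hc1, hKHc⟩ := hKH X p hp0 hp1 (D + K)
  obtain ⟨-, hqr, hqs, hqm, -, hqt, -, -⟩ := hQF _ X.G p hp0.le hp1
  obtain ⟨N, hN⟩ := ball_card hRB X.tr' D
  have ha : (0 : ℝ) < X.a := by
    have := X.tr.two
    have h2 : 0 < X.a := by omega
    exact_mod_cast h2
  have hb1 : (1 : ℝ) ≤ √(X.b : ℝ) := by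
    rw [Real.one_le_sqrt]
    have := X.tr'.two
    have h2 : 1 ≤ X.b := by omega
    exact_mod_cast h2
  have hb0 : (0 : ℝ) < √(X.b : ℝ) := lt_of_lt_of_le one_pos hb1
  obtain ⟨hB1, -, -, -, -, hB6, -, -, hBfin, -⟩ := hRB X.T' X.par' X.h' X.b X.tr'
  have hTfin := (hRB X.T X.par X.h X.a X.tr).2.2.2.2.2.2.2.2.1
  have hT0 := (hRB X.T X.par X.h X.a X.tr).1
  have hTsym := (hRB X.T' X.par' X.h' X.b X.tr').2.1
  refine ⟨√(X.b : ℝ) ^ K + 2 * N * (c⁻¹ * c⁻¹), by positivity, ?_⟩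
  intro M m u
  obtain ⟨t, x⟩ := u
  have hM : (1 : ℝ) ≤ (M : ℝ) + 1 := by
    have : (0 : ℝ) ≤ M := Nat.cast_nonneg M
    linarith
  rcases Nat.lt_or_ge m K with hmK | hmK
  · have h1 : X.eb p K M m (t, x) ≤ 1 := ((hPB _ _ p hp0.le hp1).2.1 _).2
    have h2 : (1 : ℝ) ≤ √(X.b : ℝ) ^ K * ((√(X.b : ℝ))⁻¹) ^ m := by
      have e1 : √(X.b : ℝ) ^ K = √(X.b : ℝ) ^ (K - m) * √(X.b : ℝ) ^ m := by
        rw [← pow_add]
        congr 1
        omega
      rw [e1, mul_assoc, ← mul_pow, mul_inv_cancel₀ hb0.ne', one_pow, mul_one]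
      exact one_le_pow₀ hb1
    have h3 : √(X.b : ℝ) ^ K * ((√(X.b : ℝ))⁻¹) ^ m ≤
        (√(X.b : ℝ) ^ K + 2 * N * (c⁻¹ * c⁻¹)) * (M + 1) * ((√(X.b : ℝ))⁻¹) ^ m := by
      refine mul_le_mul_of_nonneg_right ?_ (by positivity)
      have h4 : (0 : ℝ) ≤ 2 * N * (c⁻¹ * c⁻¹) := by positivity
      have h5 : (0 : ℝ) ≤ √(X.b : ℝ) ^ K := by positivity
      calc √(X.b : ℝ) ^ K = √(X.b : ℝ) ^ K * 1 := (mul_one _).symm
        _ ≤ (√(X.b : ℝ) ^ K + 2 * N * (c⁻¹ * c⁻¹)) * (M + 1) :=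
          mul_le_mul (by linarith) hM zero_le_one (by linarith)
    exact h1.trans (h2.trans h3)
  set G' : SimpleGraph (X.T × X.T') := within X.G (X.Es x) with hG'
  set S : Finset (X.T × X.T') := X.BlF M (t, x) with hS
  have hKG : G' ≤ X.G := fun y z h => h.1
  set RR : Finset X.T := (hTfin t M).toFinset with hRR
  set YY : Finset X.T' := (hBfin (X.up m x) D).toFinset with hYY
  have h1 : X.eb p K M m (t, x) ≤ ∑ i ∈ RR ×ˢ YY, tau G' p S (t, X.up K x) i := by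
    have e1 : X.eb p K M m (t, x) ≤ Pr (EI G' S) p
        {s | ∃ i ∈ RR ×ˢ YY, s ∈ {s | i ∈ Cluster s (t, X.up K x)}} := by
      refine (hPB _ (EI G' S) p hp0.le hp1).2.2.1 _ _ ?_
      intro s hs hw
      have hs' : (s : Set (Sym2 (X.T × X.T'))) ⊆ (EI G' S : Set (Sym2 (X.T × X.T'))) :=
        Finset.coe_subset.2 hs
      obtain ⟨w, hw1, hw2, hw3⟩ := exit hCB hKX X hKF1 hKF3 Δ D hC K M m hmK t x
        (s : Set (Sym2 (X.T × X.T'))) hs' hw
      exact ⟨w, Finset.mem_product.2 ⟨(hTfin t M).mem_toFinset.2 hw1,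
        (hBfin (X.up m x) D).mem_toFinset.2 hw2⟩, hw3⟩
    exact e1.trans (union_bound hPB _ p hp0.le hp1 _ _)
  have h2 : ∀ i ∈ RR ×ˢ YY, tau G' p S (t, X.up K x) i ≤
      ((X.a : ℝ)⁻¹) ^ td X.par t i.1 * ((c⁻¹ * c⁻¹) * ((√(X.b : ℝ))⁻¹) ^ m) := by
    rintro ⟨r, y⟩ hi
    obtain ⟨-, hy⟩ := Finset.mem_product.1 hi
    have hyD : td X.par' (X.up m x) y ≤ D := (hBfin (X.up m x) D).mem_toFinset.1 hy
    have h3 : tau G' p S (t, X.up K x) (r, y) ≤ tau X.G p S (t, X.up K x) (r, y) :=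
      (hQB _).1 G' X.G S S p p hKG (Finset.Subset.refl _) hp0.le le_rfl hp1 _ _
    have h4 : ENNReal.ofReal c ≤ tt X.G p (t, x) (t, X.up K x) := by
      refine (hKHc (t, x) (t, X.up K x) ⟨?_, ?_⟩).2
      · show td X.par t t ≤ D + K
        rw [(hT0 t t).2 rfl]
        exact Nat.zero_le _
      · show td X.par' x (X.par'^[K] x) ≤ D + K
        rw [hB6]
        omega
    have h5 : ENNReal.ofReal c ≤ tt X.G p (r, y) (r, X.up m x) := by
      refine (hKHc (r, y) (r, X.up m x) ⟨?_, ?_⟩).2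
      · show td X.par r r ≤ D + K
        rw [(hT0 r r).2 rfl]
        exact Nat.zero_le _
      · show td X.par' y (X.up m x) ≤ D + K
        rw [hTsym]
        omega
    have h6 : ENNReal.ofReal c * ENNReal.ofReal (tau X.G p S (t, X.up K x) (r, y)) *
        ENNReal.ofReal c ≤ ENNReal.ofReal (((X.a : ℝ)⁻¹) ^ X.d t r * ((√(X.b : ℝ))⁻¹) ^ m) := by
      refine le_trans ?_ (hKE5 p hp0.le hp1 hBd t r x m)
      refine le_trans (mul_le_mul' (mul_le_mul' h4 (hqt S _ _)) h5) ?_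
      refine le_trans (mul_le_mul' (hqm _ _ _) le_rfl) (hqm _ _ _)
    have h7 : c * tau X.G p S (t, X.up K x) (r, y) * c ≤
        ((X.a : ℝ)⁻¹) ^ X.d t r * ((√(X.b : ℝ))⁻¹) ^ m := by
      rw [← ENNReal.ofReal_mul hc0.le, ← ENNReal.ofReal_mul' hc0.le] at h6
      exact (ENNReal.ofReal_le_ofReal_iff (by positivity)).1 h6
    refine h3.trans ?_
    have h8 : tau X.G p S (t, X.up K x) (r, y) =
        (c * tau X.G p S (t, X.up K x) (r, y) * c) * (c⁻¹ * c⁻¹) := by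
      field_simp
    rw [h8]
    refine (mul_le_mul_of_nonneg_right h7 (by positivity)).trans (le_of_eq ?_)
    show ((X.a : ℝ)⁻¹) ^ td X.par t r * ((√(X.b : ℝ))⁻¹) ^ m * (c⁻¹ * c⁻¹) = _
    ring
  refine h1.trans ((Finset.sum_le_sum h2).trans ?_)
  rw [← Finset.sum_mul, Finset.sum_product]
  have h9 : ∑ r ∈ RR, ∑ _y ∈ YY, ((X.a : ℝ)⁻¹) ^ td X.par t r ≤ N * (2 * (M + 1)) := by
    have e2 : ∑ r ∈ RR, ∑ _y ∈ YY, ((X.a : ℝ)⁻¹) ^ td X.par t r =
        YY.card * ∑ r ∈ RR, ((X.a : ℝ)⁻¹) ^ td X.par t r := by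
      rw [Finset.mul_sum]
      refine Finset.sum_congr rfl fun r _ => ?_
      rw [Finset.sum_const, nsmul_eq_mul]
    rw [e2]
    have e3 : YY.card ≤ N := hN (X.up m x) YY fun z hz => (hBfin (X.up m x) D).mem_toFinset.1 hz
    have e4 : (YY.card : ℝ) ≤ N := by exact_mod_cast e3
    refine mul_le_mul e4 ?_ ?_ (by positivity)
    · exact tree_sum hRB X.tr t M RR fun r hr => (hTfin t M).mem_toFinset.1 hr
    · exact Finset.sum_nonneg fun r _ => by positivity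
  refine (mul_le_mul_of_nonneg_right h9 (by positivity)).trans ?_
  have h10 : (0 : ℝ) ≤ √(X.b : ℝ) ^ K * (M + 1) * ((√(X.b : ℝ))⁻¹) ^ m := by positivity
  have h11 : (√(X.b : ℝ) ^ K + 2 * N * (c⁻¹ * c⁻¹)) * (M + 1) * ((√(X.b : ℝ))⁻¹) ^ m =
      √(X.b : ℝ) ^ K * (M + 1) * ((√(X.b : ℝ))⁻¹) ^ m +
        N * (2 * (M + 1)) * (c⁻¹ * c⁻¹ * ((√(X.b : ℝ))⁻¹) ^ m) := by ring
  rw [h11]
  linarith

end Pool.Agent.Work.MP_c58d8b_pr.PG
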