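import Pool.Agent.Work.MP_c58d8b_pr.PG.Stmts

/-!
# MP_c58d8b_pr, block PG, item YI: submultiplicative sequences
-/

set_option autoImplicit false

namespace Pool.Agent.Work.MP_c58d8b_pr.PG

open MeasureTheory ProbabilityTheory Set Filter Topology
open scoped ENNReal unitInterval Classical
open Pool.Agent.Work.MP_c58d8b_pr.SO Pool.Agent.Work.MP_c58d8b_pr.PT

universe u

namespace IX_YI

theorem geom (g : ℕ → ℝ≥0∞) (C₂ : ℝ≥0∞) (h : ∀ m m' : ℕ, g (m + m') ≤ C₂ * (g m * g m'))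
    (n k r : ℕ) : g (k * n + r) ≤ (C₂ * g n) ^ k * g r := by
  induction k with
  | zero => rw [zero_mul, zero_add, pow_zero, one_mul]
  | succ k ih =>
    have e1 : (k + 1) * n + r = n + (k * n + r) := by ring
    rw [e1]
    calc g (n + (k * n + r)) ≤ C₂ * (g n * g (k * n + r)) := h n _
      _ ≤ C₂ * (g n * ((C₂ * g n) ^ k * g r)) := by gcongr
      _ = (C₂ * g n) ^ (k + 1) * g r := by ring

theorem sum_ne_top (g : ℕ → ℝ≥0∞) (C C₂ : ℝ≥0∞) (hC : C ≠ ⊤) (hb : ∀ n, g n ≤ C)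
    (h : ∀ m m' : ℕ, g (m + m') ≤ C₂ * (g m * g m')) (n : ℕ) (hn : 1 ≤ n)
    (hlt : C₂ * g n < 1) : ∑' m, g m ≠ ⊤ := by
  have _ : NeZero n := ⟨by omega⟩
  have e1 : ∑' m, g m = ∑' x : ℕ × Fin n, g (x.1 * n + x.2) := by
    rw [← (Nat.divModEquiv n).symm.tsum_eq]
    rfl
  have e3 : ∑' x : ℕ × Fin n, g (x.1 * n + x.2) = ∑' (k : ℕ) (r : Fin n), g (k * n + r) :=
    ENNReal.tsum_prod (f := fun (k : ℕ) (r : Fin n) => g (k * n + r))
  rw [e1, e3]
  have e2 : ∑' (k : ℕ) (r : Fin n), g (k * n + r) ≤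
      ∑' (k : ℕ), (C₂ * g n) ^ k * ((n : ℝ≥0∞) * C) := by
    refine ENNReal.tsum_le_tsum fun k => ?_
    rw [tsum_fintype]
    calc ∑ r : Fin n, g (k * n + r) ≤ ∑ _r : Fin n, (C₂ * g n) ^ k * C := by
          refine Finset.sum_le_sum fun r _ => ?_
          refine (geom g C₂ h n k r).trans ?_
          gcongr
          exact hb _
      _ = (C₂ * g n) ^ k * ((n : ℝ≥0∞) * C) := by
          rw [Finset.sum_const, Finset.card_univ, Fintype.card_fin, nsmul_eq_mul]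
          ring
  refine ne_top_of_le_ne_top ?_ e2
  rw [ENNReal.tsum_mul_right, ENNReal.tsum_geometric]
  refine ENNReal.mul_ne_top ?_ (ENNReal.mul_ne_top (ENNReal.natCast_ne_top n) hC)
  rw [Ne, ENNReal.inv_eq_top, tsub_eq_zero_iff_le, not_le]
  exact hlt

end IX_YI

open IX_YI in
theorem pg_YI : StYI := by
  intro g C C₂ hC hC₂ hb h
  refine ⟨fun hnt => ?_, fun ht => ?_⟩
  · have h1 : ∀ n, 1 ≤ n → 1 ≤ C₂ * g n := by
      intro n hn
      by_contra hcon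
      rw [not_le] at hcon
      exact hnt (ENNReal.tendsto_atTop_zero_of_tsum_ne_top (sum_ne_top g C C₂ hC hb h n hn hcon))
    have h0 : C₂ ≠ 0 := by
      intro h2
      have h3 := h1 1 le_rfl
      rw [h2, zero_mul] at h3
      exact absurd h3 (by simp)
    refine ⟨C₂⁻¹, ENNReal.inv_pos.2 hC₂, fun n hn => ?_⟩
    calc C₂⁻¹ = C₂⁻¹ * 1 := (mul_one _).symm
      _ ≤ C₂⁻¹ * (C₂ * g n) := by
          gcongr
          exact h1 n hn
      _ = g n := by rw [← mul_assoc, ENNReal.inv_mul_cancel h0 hC₂, one_mul]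
  · have h1 : Tendsto (fun n => C₂ * g n) atTop (𝓝 (C₂ * 0)) :=
      ENNReal.Tendsto.const_mul ht (Or.inr hC₂)
    rw [mul_zero] at h1
    have h2 := (tendsto_order.1 h1).2 1 (by simp)
    obtain ⟨n, hn1, hn2⟩ := (h2.and (eventually_ge_atTop 1)).exists
    exact sum_ne_top g C C₂ hC hb h n hn2 hn1

end Pool.Agent.Work.MP_c58d8b_pr.PG
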