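import Pool.Agent.Work.MP_c58d8b_pr.PG.Stmts

/-!
# MP_c58d8b_pr, block PG, item YK: lower bounds for some `v_n(t, s)`, all large `n`
-/

set_option autoImplicit false

namespace Pool.Agent.Work.MP_c58d8b_pr.PG

open MeasureTheory ProbabilityTheory Set Filter Topology
open scoped ENNReal unitInterval Classical
open Pool.Agent.Work.MP_c58d8b_pr.SO Pool.Agent.Work.MP_c58d8b_pr.PT

universe u

namespace IX_YK

/-- A finite sum with at least a given size has a big term. -/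
theorem big_term {ι : Type u} (F : Finset ι) (f : ι → ℝ≥0∞) (c : ℝ≥0∞) (c' : NNReal)
    (h : (c' : ℝ≥0∞) * (F.card : ℝ≥0∞) < c) (hc : c ≤ ∑ s ∈ F, f s) :
    ∃ s ∈ F, (c' : ℝ≥0∞) ≤ f s := by
  by_contra hno
  push Not at hno
  have h1 : ∑ s ∈ F, f s ≤ ∑ _s ∈ F, (c' : ℝ≥0∞) := Finset.sum_le_sum fun s hs => (hno s hs).le
  rw [Finset.sum_const, nsmul_eq_mul, mul_comm] at h1
  exact absurd (lt_of_le_of_lt (hc.trans h1) h) (lt_irrefl _)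

/-- The sum over a finite set and the rest. -/
theorem split {ι : Type u} (F : Finset ι) (f : ι → ℝ≥0∞) :
    ∑' s, f s = ∑ s ∈ F, f s + ∑' s : {x // x ∉ F}, f s := by
  have h := Summable.tsum_add_tsum_compl (f := f) (s := (F : Set ι))
    ENNReal.summable ENNReal.summable
  rw [← h]
  congr 1
  exact Finset.tsum_subtype F f

end IX_YK

theorem pg_YK (hQF : StQF.{u}) (hRE : StRE.{u}) (hKD : StKD.{u}) (hKE : StKE.{u})
    (hYA : StYA.{u}) (hYB : StYB.{u}) (hYD : StYD.{u}) (hYI : StYI) : StYK.{u} := by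
  intro X K hK p h0 h1 hBd x₀ t₀ hnot
  obtain ⟨C, hC, hYA'⟩ := hYA X
  have hA1 := (hYA' p h0.le h1).1 hBd
  obtain ⟨C₁, hC₁, hB⟩ := hYB X p h0 h1
  obtain ⟨c₁, hc₁, hg⟩ := (hYI (fun n => X.gg p n x₀ t₀) C C₁ hC hC₁ (fun n => hA1 n x₀ t₀)
    (fun m m' => hB m m' x₀ t₀)).1 hnot
  obtain ⟨C₂, N, n₀, hC₂, hD⟩ := hYD X K hK p h0 h1
  have hDfin : C₂ * C ^ 2 ≠ ⊤ := ENNReal.mul_ne_top hC₂ (ENNReal.pow_ne_top hC)
  obtain ⟨c₂, hc₂, hc₂'⟩ := ENNReal.exists_nnreal_pos_mul_lt hDfin hc₁.ne'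
  -- `gv k` is at least `c₂`
  have hgv : ∀ n : ℕ, n₀ + 1 + 2 * N ≤ n → (c₂ : ℝ≥0∞) ≤ X.gv p K n x₀ t₀ := by
    intro n hn
    by_contra hno
    push Not at hno
    obtain ⟨m, rfl⟩ : ∃ m, n = m + 2 * N := ⟨n - 2 * N, by omega⟩
    have h2 := hD m (by omega) x₀ t₀
    have h3 := hg m (by omega)
    have h4 : c₁ ≤ c₂ * (C₂ * C ^ 2) := by
      refine (h3.trans h2).trans ?_
      calc C₂ * (X.gg p 0 x₀ t₀ ^ 2 * X.gv p K (m + 2 * N) x₀ t₀)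
          ≤ C₂ * (C ^ 2 * c₂) := by
            have h5 := hA1 0 x₀ t₀
            have h6 := hno.le
            gcongr
        _ = c₂ * (C₂ * C ^ 2) := by ring
    exact absurd (lt_of_le_of_lt h4 hc₂') (lt_irrefl _)
  -- domination
  have hb : (0 : ℝ) < √(X.b : ℝ) := by
    have := X.tr'.two
    apply Real.sqrt_pos.mpr
    exact_mod_cast (by omega : 0 < X.b)
  have ha : (0 : ℝ) < √(X.a : ℝ) := by
    have := X.tr.two
    apply Real.sqrt_pos.mpr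
    exact_mod_cast (by omega : 0 < X.a)
  have hom : ∀ s, 0 < X.om t₀ s := fun s => by unfold Sg.om; positivity
  obtain ⟨C', hC', hre⟩ := hRE X.T X.par X.h X.a X.tr
  set Ds : X.T → ℝ≥0∞ := fun s => ENNReal.ofReal (√(X.b : ℝ) ^ (2 * K)) *
    ENNReal.ofReal (√(X.a : ℝ) ^ (X.h s - X.h t₀) * ((X.a : ℝ)⁻¹) ^ td X.par t₀ s) with hDs
  have hDsum : ∑' s, Ds s ≠ ⊤ := by
    rw [hDs, ENNReal.tsum_mul_left]
    exact ENNReal.mul_ne_top ENNReal.ofReal_ne_top (ne_top_of_le_ne_top hC' (hre t₀))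
  have hvt : ∀ k s, 2 * K ≤ k → X.vv p K k x₀ t₀ s ≤
      ENNReal.ofReal (((X.a : ℝ)⁻¹) ^ X.d t₀ s * ((√(X.b : ℝ))⁻¹) ^ (k - 2 * K)) := by
    intro k s hk
    have h2 := (hKE X).2.2.2.2 p h0.le h1 hBd t₀ s (X.up K x₀) (k - 2 * K)
    have h3 : X.up (k - 2 * K) (X.up K x₀) = X.up (k - K) x₀ := by
      show X.par'^[k - 2 * K] (X.par'^[K] x₀) = X.par'^[k - K] x₀
      rw [← Function.iterate_add_apply]
      congr 1
      congr 1
      omega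
    rw [h3] at h2
    refine le_trans ?_ h2
    exact (hQF (X.T × X.T') (within X.G (X.vr k x₀)) p h0.le h1).2.2.2.2.2.2.1 X.G p
      (fun _ _ h => h.1) le_rfl h1 _ _
  have hdom : ∀ k s, 2 * K ≤ k →
      ENNReal.ofReal (X.om t₀ s * √(X.b : ℝ) ^ k) * X.vv p K k x₀ t₀ s ≤ Ds s := by
    intro k s hk
    calc ENNReal.ofReal (X.om t₀ s * √(X.b : ℝ) ^ k) * X.vv p K k x₀ t₀ s
        ≤ ENNReal.ofReal (X.om t₀ s * √(X.b : ℝ) ^ k) *
          ENNReal.ofReal (((X.a : ℝ)⁻¹) ^ X.d t₀ s * ((√(X.b : ℝ))⁻¹) ^ (k - 2 * K)) := by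
          have := hvt k s hk
          gcongr
      _ = Ds s := by
        rw [← ENNReal.ofReal_mul (by have := hom s; positivity)]
        simp only [hDs]
        rw [← ENNReal.ofReal_mul (by positivity)]
        congr 1
        obtain ⟨l, rfl⟩ : ∃ l, k = l + 2 * K := ⟨k - 2 * K, by omega⟩
        rw [Nat.add_sub_cancel]
        have h3 : √(X.b : ℝ) ^ l * ((√(X.b : ℝ))⁻¹) ^ l = 1 := by
          rw [← mul_pow, mul_inv_cancel₀ hb.ne', one_pow]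
        calc X.om t₀ s * √(X.b : ℝ) ^ (l + 2 * K) *
              (((X.a : ℝ)⁻¹) ^ X.d t₀ s * ((√(X.b : ℝ))⁻¹) ^ l)
            = √(X.b : ℝ) ^ (2 * K) * (X.om t₀ s * ((X.a : ℝ)⁻¹) ^ X.d t₀ s) *
              (√(X.b : ℝ) ^ l * ((√(X.b : ℝ))⁻¹) ^ l) := by ring
          _ = _ := by rw [h3, mul_one]; rfl
  have hhalf : (c₂ : ℝ≥0∞) / 2 ≠ 0 := by
    simp [hc₂.ne']
  obtain ⟨F, hF⟩ : ∃ F : Finset X.T, ∑' s : {x // x ∉ F}, Ds s < (c₂ : ℝ≥0∞) / 2 := by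
    have h5 := ENNReal.tendsto_tsum_compl_atTop_zero hDsum
    exact (h5.eventually (gt_mem_nhds (pos_iff_ne_zero.mpr hhalf))).exists
  obtain ⟨c₃, hc₃, hc₃'⟩ := ENNReal.exists_nnreal_pos_mul_lt (ENNReal.natCast_ne_top F.card) hhalf
  set M : ℝ := ∑ s ∈ F, X.om t₀ s + 1 with hM
  have hMpos : 0 < M := by
    have : 0 ≤ ∑ s ∈ F, X.om t₀ s := Finset.sum_nonneg fun s _ => (hom s).le
    linarith
  refine ⟨c₃ / M, F.sup (X.d t₀), n₀ + 1 + 2 * N + 2 * K, by positivity, fun k hk => ?_⟩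
  have hku := hgv k (by omega)
  have hk2 : 2 * K ≤ k := by omega
  have h6 : (c₂ : ℝ≥0∞) / 2 ≤
      ∑ s ∈ F, ENNReal.ofReal (X.om t₀ s * √(X.b : ℝ) ^ k) * X.vv p K k x₀ t₀ s := by
    by_contra hlt
    push Not at hlt
    have h7 : X.gv p K k x₀ t₀ = ∑ s ∈ F, ENNReal.ofReal (X.om t₀ s * √(X.b : ℝ) ^ k) *
        X.vv p K k x₀ t₀ s + ∑' s : {x // x ∉ F},
        ENNReal.ofReal (X.om t₀ s * √(X.b : ℝ) ^ k) * X.vv p K k x₀ t₀ s := by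
      exact IX_YK.split F (fun s => ENNReal.ofReal (X.om t₀ s * √(X.b : ℝ) ^ k) *
        X.vv p K k x₀ t₀ s)
    have h8 : ∑' s : {x // x ∉ F}, ENNReal.ofReal (X.om t₀ s * √(X.b : ℝ) ^ k) *
        X.vv p K k x₀ t₀ s < (c₂ : ℝ≥0∞) / 2 :=
      lt_of_le_of_lt (ENNReal.tsum_le_tsum fun s => hdom k s hk2) hF
    have h9 : (c₂ : ℝ≥0∞) < (c₂ : ℝ≥0∞) / 2 + (c₂ : ℝ≥0∞) / 2 := by
      refine lt_of_le_of_lt hku ?_
      rw [h7]
      exact ENNReal.add_lt_add hlt h8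
    rw [ENNReal.add_halves] at h9
    exact lt_irrefl _ h9
  obtain ⟨s, hs, hterm⟩ := IX_YK.big_term F _ _ c₃ hc₃' h6
  refine ⟨X.d t₀ s, Finset.le_sup (f := X.d t₀) hs, fun t s' x hd => ?_⟩
  have h10 : X.vv p K k x t s' = X.vv p K k x₀ t₀ s :=
    (hKD X p h0.le h1).2.1 K k x t s' x₀ t₀ s hd
  rw [h10]
  have hle : X.om t₀ s ≤ M := by
    have := Finset.single_le_sum (f := fun s => X.om t₀ s) (fun s _ => (hom s).le) hs
    linarith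
  have h11 : (c₃ : ℝ≥0∞) ≤ ENNReal.ofReal (M * √(X.b : ℝ) ^ k) * X.vv p K k x₀ t₀ s := by
    refine hterm.trans ?_
    gcongr
  have h12 : ENNReal.ofReal (M * √(X.b : ℝ) ^ k) *
      ENNReal.ofReal (c₃ / M * ((√(X.b : ℝ))⁻¹) ^ k) = c₃ := by
    rw [← ENNReal.ofReal_mul (by positivity)]
    have h3 : √(X.b : ℝ) ^ k * ((√(X.b : ℝ))⁻¹) ^ k = 1 := by
      rw [← mul_pow, mul_inv_cancel₀ hb.ne', one_pow]
    have h13 : M * √(X.b : ℝ) ^ k * (c₃ / M * ((√(X.b : ℝ))⁻¹) ^ k) = c₃ := by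
      calc M * √(X.b : ℝ) ^ k * (c₃ / M * ((√(X.b : ℝ))⁻¹) ^ k)
          = (M * (c₃ / M)) * (√(X.b : ℝ) ^ k * ((√(X.b : ℝ))⁻¹) ^ k) := by ring
        _ = c₃ := by rw [h3, mul_one]; field_simp
    rw [h13]
    exact ENNReal.ofReal_coe_nnreal
  have hne0 : ENNReal.ofReal (M * √(X.b : ℝ) ^ k) ≠ 0 := by
    rw [Ne, ENNReal.ofReal_eq_zero, not_le]
    positivity
  rw [← h12] at h11
  exact (ENNReal.mul_le_mul_iff_right hne0 ENNReal.ofReal_ne_top).mp h11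

end Pool.Agent.Work.MP_c58d8b_pr.PG
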