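import Pool.Agent.Work.MP_c58d8b_pr.PG.Stmts

/-!
# MP_c58d8b_pr, block PG, item YL: a lower bound for `v_N(t, t)`, all large `N`
-/

set_option autoImplicit false

namespace Pool.Agent.Work.MP_c58d8b_pr.PG

open MeasureTheory ProbabilityTheory Set Filter Topology
open scoped ENNReal unitInterval Classical
open Pool.Agent.Work.MP_c58d8b_pr.SO Pool.Agent.Work.MP_c58d8b_pr.PT

universe u

namespace IX_YL

/-- a common lower bound for finitely many positive numbers -/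
theorem common_low (R : ℕ) (δ : ℕ → ℝ) (h : ∀ e, 0 < δ e) :
    ∃ δ₀ : ℝ, 0 < δ₀ ∧ ∀ e ≤ R, δ₀ ≤ δ e := by
  induction R with
  | zero =>
    refine ⟨δ 0, h 0, fun e he => ?_⟩
    have h1 : e = 0 := by omega
    rw [h1]
  | succ R ih =>
    obtain ⟨δ₀, h1, h2⟩ := ih
    refine ⟨min δ₀ (δ (R + 1)), lt_min h1 (h _), fun e he => ?_⟩
    rcases Nat.lt_or_ge e (R + 1) with h3 | h3
    · exact (min_le_left _ _).trans (h2 e (by omega))
    · have h4 : e = R + 1 := by omega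
      rw [h4]
      exact min_le_right _ _

/-- a common upper bound for finitely many natural numbers -/
theorem common_up (R : ℕ) (n : ℕ → ℕ) : ∃ M : ℕ, ∀ e ≤ R, n e ≤ M := by
  induction R with
  | zero =>
    refine ⟨n 0, fun e he => ?_⟩
    have h1 : e = 0 := by omega
    rw [h1]
  | succ R ih =>
    obtain ⟨M, h2⟩ := ih
    refine ⟨max M (n (R + 1)), fun e he => ?_⟩
    rcases Nat.lt_or_ge e (R + 1) with h3 | h3
    · exact (h2 e (by omega)).trans (le_max_left _ _)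
    · have h4 : e = R + 1 := by omega
      rw [h4]
      exact le_max_right _ _

end IX_YL

open IX_YL

/-- YL. -/
theorem pg_YL (hRB : StRB.{u}) (hYS : StYS.{u}) (hYV : StYV.{u}) : StYL.{u} := by
  intro X K hK p hp0 hp1 c R n₀ hc hlow
  have hV := hYV X K hK p hp0 hp1
  choose n₁ hn₁ hδ using hV
  obtain ⟨c₁, n₂, hc₁, hS⟩ := hYS X K p hp0 hp1
  obtain ⟨M, hM⟩ := common_up R n₁
  obtain ⟨N', hN'⟩ : ∃ N', N' = max n₂ M := ⟨_, rfl⟩
  have hN2 : n₂ ≤ N' := by rw [hN']; exact le_max_left _ _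
  have hNM : M ≤ N' := by rw [hN']; exact le_max_right _ _
  have hex : ∀ e : ℕ, ∃ δ : ℝ, 0 < δ ∧ (e ≤ R → ∀ t s x, X.d t s = e →
      ENNReal.ofReal δ ≤ X.vv p K N' x t s) := by
    intro e
    by_cases he : e ≤ R
    · obtain ⟨δ, h1, -, h3⟩ := hδ e N' ((hM e he).trans hNM)
      exact ⟨δ, h1, fun _ => h3⟩
    · exact ⟨1, one_pos, fun h => absurd h he⟩
  choose δ hδ0 hδv using hex
  obtain ⟨δ₀, hδ₀, hδl⟩ := common_low R δ hδ0
  obtain ⟨r, hr⟩ : ∃ r : ℝ, r = (√(X.b : ℝ))⁻¹ := ⟨_, rfl⟩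
  have hb : (1 : ℝ) ≤ √(X.b : ℝ) := by
    rw [Real.one_le_sqrt]
    have h2 : 2 ≤ X.b := X.tr'.two
    have h3 : (2 : ℝ) ≤ X.b := by exact_mod_cast h2
    linarith
  have hr0 : 0 ≤ r := by rw [hr]; positivity
  have hr1 : r ≤ 1 := by rw [hr]; exact inv_le_one_of_one_le₀ hb
  rw [← hr] at hlow
  refine ⟨c₁ * c * δ₀, max n₀ n₂ + N', by positivity, fun N hN t x => ?_⟩
  rw [← hr]
  obtain ⟨n, rfl⟩ : ∃ n, N = n + N' := ⟨N - N', by omega⟩
  have hn0 : n₀ ≤ n := by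
    have := le_max_left n₀ n₂
    omega
  have hn2 : n₂ ≤ n := by
    have := le_max_right n₀ n₂
    omega
  obtain ⟨e, heR, he⟩ := hlow n hn0
  obtain ⟨-, hsym, -, -, -, -, -, hpt, -, -⟩ := hRB X.T X.par X.h X.a X.tr
  obtain ⟨s, hs⟩ := hpt t e
  have hts : X.d t s = e := hs
  have hst : X.d s t = e := by
    have h1 : X.d s t = X.d t s := hsym s t
    rw [h1, hts]
  have h1 := he t s x hts
  have h2 : ENNReal.ofReal δ₀ ≤ X.vv p K N' (X.up n x) s t :=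
    (ENNReal.ofReal_le_ofReal (hδl e heR)).trans (hδv e heR s t (X.up n x) hst)
  refine le_trans ?_ (hS n N' hn2 hN2 x t s t)
  refine le_trans ?_ (mul_le_mul_right (mul_le_mul' h1 h2) _)
  rw [← ENNReal.ofReal_mul (by positivity), ← ENNReal.ofReal_mul hc₁.le]
  refine ENNReal.ofReal_le_ofReal ?_
  have h3 : r ^ (n + N') ≤ r ^ n := pow_le_pow_of_le_one hr0 hr1 (Nat.le_add_right _ _)
  have h4 : 0 ≤ c₁ * c * δ₀ := by positivity
  calc c₁ * c * δ₀ * r ^ (n + N') ≤ c₁ * c * δ₀ * r ^ n := mul_le_mul_of_nonneg_left h3 h4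
    _ = c₁ * (c * r ^ n * δ₀) := by ring

end Pool.Agent.Work.MP_c58d8b_pr.PG
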