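import Pool.Agent.Work.MP_c58d8b_pr.PG.Stmts

/-!
# MP_c58d8b_pr, block PG, item YM: the probability of `Ev`
-/

set_option autoImplicit false

namespace Pool.Agent.Work.MP_c58d8b_pr.PG

open MeasureTheory ProbabilityTheory Set Filter Topology
open scoped ENNReal unitInterval Classical
open Pool.Agent.Work.MP_c58d8b_pr.SO Pool.Agent.Work.MP_c58d8b_pr.PT

universe u

namespace IX_YM

theorem mem_EI {V : Type u} (H : SimpleGraph V) (S : Finset V) (e : Sym2 V) (he : e ∈ EI H S) :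
    ∃ a b : V, a ∈ S ∧ b ∈ S ∧ H.Adj a b ∧ e = s(a, b) := by
  unfold EI at he
  rw [Finset.mem_image] at he
  obtain ⟨⟨a, b⟩, hab, rfl⟩ := he
  rw [Finset.mem_filter, Finset.mem_product] at hab
  exact ⟨a, b, hab.1.1, hab.1.2, hab.2, rfl⟩

theorem EI_sub {V : Type u} (G : SimpleGraph V) (W : Set V) (S : Finset V) :
    EI (within G W) S ⊆ EI G S := by
  intro e he
  obtain ⟨a, b, ha, hb, hab, rfl⟩ := mem_EI _ _ _ he
  unfold EI
  rw [Finset.mem_image]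
  exact ⟨(a, b), Finset.mem_filter.2 ⟨Finset.mem_product.2 ⟨ha, hb⟩, hab.1⟩, rfl⟩

theorem disj {V : Type u} (G : SimpleGraph V) (S : Finset V) (W W' : Set V)
    (h : ∀ v ∈ W, v ∉ W') : Disjoint (EI (within G W) S) (EI (within G W') S) := by
  rw [Finset.disjoint_left]
  intro e he he'
  obtain ⟨a, b, _, _, hab, rfl⟩ := mem_EI _ _ _ he
  obtain ⟨a', b', _, _, hab', hee⟩ := mem_EI _ _ _ he'
  rcases Sym2.eq_iff.1 hee with ⟨h1, _⟩ | ⟨h1, _⟩
  · exact h a hab.2.1 (by rw [h1]; exact hab'.2.1)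
  · exact h a hab.2.1 (by rw [h1]; exact hab'.2.2)

theorem cn_inc (hCB : SO.StCB.{u}) {V : Type u} (G : SimpleGraph V) (W : Set V) (S : Finset V) (u v : V) :
    Inc (cn G W S u v) := by
  intro s t hst hs
  exact (hCB V _).2.2.2.1 _ (Set.inter_subset_inter_left _ hst) u hs

theorem inc_inter {ι : Type u} {A B : Set (Set ι)} (hA : Inc A) (hB : Inc B) : Inc (A ∩ B) :=
  fun s t hst h => ⟨hA s t hst h.1, hB s t hst h.2⟩

theorem pr_cn (hPL : SO.StPL.{u}) {V : Type u} (G : SimpleGraph V) (W : Set V) (S : Finset V) (u v : V)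
    (p : ℝ) (hp : 0 ≤ p) (hp1 : p ≤ 1) :
    Pr (EI G S) p (cn G W S u v) = tau (within G W) p S u v := by
  rw [hPL _ (EI G S) (EI (within G W) S) p hp hp1 (EI_sub G W S) (cn G W S u v) (by
    intro s _
    unfold cn
    rw [Set.mem_ofPred_eq, Set.mem_ofPred_eq, Set.inter_assoc, Set.inter_self])]
  unfold tau Pr
  refine Finset.sum_congr (Finset.filter_congr ?_) (fun _ _ => rfl)
  intro s hs
  rw [Finset.mem_powerset] at hs
  unfold cn
  rw [Set.mem_ofPred_eq, Set.mem_ofPred_eq, Set.inter_eq_left.2 (Finset.coe_subset.2 hs)]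

theorem three (hFI : StFI.{u}) {V : Type u} (G : SimpleGraph V) (S : Finset V) (W₁ W₂ W₃ : Set V)
    (h12 : ∀ v ∈ W₁, v ∉ W₂) (h13 : ∀ v ∈ W₁, v ∉ W₃) (h23 : ∀ v ∈ W₂, v ∉ W₃)
    (u₁ v₁ u₂ v₂ u₃ v₃ : V) (p : ℝ) (hp : 0 ≤ p) (hp1 : p ≤ 1) :
    Pr (EI G S) p (cn G W₁ S u₁ v₁ ∩ cn G W₂ S u₂ v₂ ∩ cn G W₃ S u₃ v₃) =
      tau (within G W₁) p S u₁ v₁ * tau (within G W₂) p S u₂ v₂ * tau (within G W₃) p S u₃ v₃ := by
  have d12 := disj G S W₁ W₂ h12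
  have d13 := disj G S W₁ W₃ h13
  have d23 := disj G S W₂ W₃ h23
  have h := hFI (Sym2 V) (EI G S) p hp hp1 3
    ![EI (within G W₁) S, EI (within G W₂) S, EI (within G W₃) S]
    (by
      intro i
      fin_cases i
      · exact EI_sub _ _ _
      · exact EI_sub _ _ _
      · exact EI_sub _ _ _)
    (by
      intro i i' hii
      fin_cases i <;> fin_cases i'
      · exact absurd rfl hii
      · exact d12
      · exact d13
      · exact d12.symm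
      · exact absurd rfl hii
      · exact d23
      · exact d13.symm
      · exact d23.symm
      · exact absurd rfl hii)
    ![{r | v₁ ∈ Cluster r u₁}, {r | v₂ ∈ Cluster r u₂}, {r | v₃ ∈ Cluster r u₃}]
  rw [Fin.prod_univ_three] at h
  have h2 : cn G W₁ S u₁ v₁ ∩ cn G W₂ S u₂ v₂ ∩ cn G W₃ S u₃ v₃ = {r | ∀ i : Fin 3,
      r ∩ ((![EI (within G W₁) S, EI (within G W₂) S, EI (within G W₃) S] i : Finset (Sym2 V)) :
        Set (Sym2 V)) ∈
      (![{r | v₁ ∈ Cluster r u₁}, {r | v₂ ∈ Cluster r u₂}, {r | v₃ ∈ Cluster r u₃}] i :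
        Set (Set (Sym2 V)))} := by
    ext r
    constructor
    · rintro ⟨⟨h1, h2⟩, h3⟩ i
      fin_cases i
      · exact h1
      · exact h2
      · exact h3
    · intro h
      exact ⟨⟨h 0, h 1⟩, h 2⟩
  rw [h2, h]
  rfl

theorem num (a b d g f c : ℝ) (ha : 0 ≤ a) (hb : c ≤ b) (hd : 0 ≤ d) (hg : c ≤ g) (hf : 0 ≤ f) (hc : 0 ≤ c)
    (x y z : ℝ) (h1 : a * b ≤ x) (h2 : x * d ≤ y) (h3 : y * g ≤ z) : c ^ 2 * (a * d * f) ≤ z * f := by
  have k1 : a * c ≤ a * b := mul_le_mul_of_nonneg_left hb ha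
  have k2 : a * c * d ≤ x * d := mul_le_mul_of_nonneg_right (k1.trans h1) hd
  have k3 : a * c * d ≤ y := k2.trans h2
  have k0 : 0 ≤ a * c * d := by positivity
  have k4 : a * c * d * c ≤ y * g := mul_le_mul k3 hg hc (k0.trans k3)
  have k5 : a * c * d * c ≤ z := k4.trans h3
  calc c ^ 2 * (a * d * f) = a * c * d * c * f := by ring
    _ ≤ z * f := mul_le_mul_of_nonneg_right k5 hf

section
variable (X : Sg.{u})

theorem up_up (m n : ℕ) (x : X.T') : X.up m (X.up n x) = X.up (n + m) x := by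
  show X.par'^[m] (X.par'^[n] x) = X.par'^[n + m] x
  rw [add_comm n m, Function.iterate_add_apply]

theorem gad (hRB : StRB.{u}) (K n : ℕ) (hn : K ≤ n) (t : X.T) (x : X.T') :
    (t, X.up (n + K) x) ∈ X.Bl (2 * K) (t, X.up (n - K) x) := by
  have h1 := hRB X.T X.par X.h X.a X.tr
  have h2 := hRB X.T' X.par' X.h' X.b X.tr'
  refine ⟨?_, ?_⟩
  · change td X.par t t ≤ 2 * K
    rw [(h1.1 t t).2 rfl]
    omega
  · change td X.par' (X.up (n - K) x) (X.up (n + K) x) ≤ 2 * K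
    have e : X.up (n + K) x = X.par'^[2 * K] (X.up (n - K) x) := by
      have := up_up X (2 * K) (n - K) x
      rw [show n - K + 2 * K = n + K by omega] at this
      exact this.symm
    rw [e, h2.2.2.2.2.2.1]

end

end IX_YM

open IX_YM

theorem pg_YM (hPB : SO.StPB.{u}) (hPL : SO.StPL.{u}) (hCB : SO.StCB.{u}) (hFB : StFB.{u}) (hFI : StFI.{u})
    (hRB : StRB.{u}) (hKF : StKF.{u}) (hKH : StKH.{u}) : StYM.{u} := by
  intro X K p hp hp1
  obtain ⟨P, c, hP, hc, hc1, hKH'⟩ := hKH X p hp hp1 (2 * K)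
  refine ⟨P, c ^ 2, by positivity, ?_⟩
  intro S x t s q j n hn hq hj
  have e1 : X.up K (X.up n x) = X.up (n + K) x := up_up X K n x
  have e2 : X.up (q - K) (X.up n x) = X.up (n + q - K) x := by
    rw [up_up, show n + (q - K) = n + q - K by omega]
  have e3 : X.up K (X.up (n + q) x) = X.up (n + q + K) x := up_up X K (n + q) x
  have e4 : X.up (j - (n + q) - K) (X.up (n + q) x) = X.up (j - K) x := by
    rw [up_up, show n + q + (j - (n + q) - K) = j - K by omega]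
  have e5 : X.up q (X.up n x) = X.up (n + q) x := up_up X q n x
  have hF2 := (hKF X).2.1
  have h12 : ∀ v ∈ X.vr n x, v ∉ X.vr q (X.up n x) := fun v hv hv' => hv.2 hv'.1
  have h23 : ∀ v ∈ X.vr q (X.up n x), v ∉ X.vr (j - (n + q)) (X.up (n + q) x) := by
    intro v hv hv'
    apply hv.2
    rw [e5]
    exact hv'.1
  have h13 : ∀ v ∈ X.vr n x, v ∉ X.vr (j - (n + q)) (X.up (n + q) x) := by
    intro v hv hv'
    apply hv.2
    refine hF2 (X.up n x) q ?_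
    rw [e5]
    exact hv'.1
  set A₁ := cn X.G (X.vr n x) S (t, X.up K x) (t, X.up (n - K) x) with hA₁
  set A₂ := cn X.G Set.univ S (t, X.up (n - K) x) (t, X.up (n + K) x) with hA₂
  set A₃ := cn X.G (X.vr q (X.up n x)) S (t, X.up (n + K) x) (s, X.up (n + q - K) x) with hA₃
  set A₄ := cn X.G Set.univ S (s, X.up (n + q - K) x) (s, X.up (n + q + K) x) with hA₄
  set A₅ := cn X.G (X.vr (j - (n + q)) (X.up (n + q) x)) S (s, X.up (n + q + K) x) (s, X.up (j - K) x) with hA₅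
  have hEv : Ev X K S x t s q j n = A₁ ∩ A₂ ∩ A₃ ∩ A₄ ∩ A₅ := rfl
  have v1 : X.vf p S K n x t t = Pr (EI X.G S) p A₁ := (pr_cn hPL _ _ _ _ _ p hp.le hp1).symm
  have v3 : X.vf p S K q (X.up n x) t s = Pr (EI X.G S) p A₃ := by
    rw [hA₃, pr_cn hPL _ _ _ _ _ p hp.le hp1]
    unfold Sg.vf
    rw [e1, e2]
  have v5 : X.vf p S K (j - (n + q)) (X.up (n + q) x) s s = Pr (EI X.G S) p A₅ := by
    rw [hA₅, pr_cn hPL _ _ _ _ _ p hp.le hp1]
    unfold Sg.vf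
    rw [e3, e4]
  have hPB' := hPB (Sym2 (X.T × X.T')) (EI X.G S) p hp.le hp1
  have hnn : ∀ A, 0 ≤ Pr (EI X.G S) p A := fun A => (hPB'.2.1 A).1
  have i1 : Inc A₁ := cn_inc hCB _ _ _ _ _
  have i2 : Inc A₂ := cn_inc hCB _ _ _ _ _
  have i3 : Inc A₃ := cn_inc hCB _ _ _ _ _
  have i4 : Inc A₄ := cn_inc hCB _ _ _ _ _
  have i5 : Inc A₅ := cn_inc hCB _ _ _ _ _
  have i12 := inc_inter i1 i2
  have i123 := inc_inter i12 i3
  have i1234 := inc_inter i123 i4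
  have hFB' := hFB (Sym2 (X.T × X.T')) (EI X.G S) p hp.le hp1
  refine ⟨?_, ?_, ?_⟩
  · intro hS1 hS2
    have g2 : c ≤ Pr (EI X.G S) p A₂ := by
      rw [hA₂, pr_cn hPL _ _ _ _ _ p hp.le hp1]
      exact ((hKH' _ _ (gad X hRB K n (by omega) t x)).1 Set.univ (Set.subset_univ _)).2 S hS1
    have g4 : c ≤ Pr (EI X.G S) p A₄ := by
      rw [hA₄, pr_cn hPL _ _ _ _ _ p hp.le hp1]
      exact ((hKH' _ _ (gad X hRB K (n + q) (by omega) s x)).1 Set.univ (Set.subset_univ _)).2 S hS2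
    rw [v1, v3, v5, hEv]
    have b1 := hFB' A₁ A₂ i1 i2
    have b2 := hFB' (A₁ ∩ A₂) A₃ i12 i3
    have b3 := hFB' (A₁ ∩ A₂ ∩ A₃) A₄ i123 i4
    have b4 := hFB' (A₁ ∩ A₂ ∩ A₃ ∩ A₄) A₅ i1234 i5
    exact (num _ _ _ _ _ _ (hnn A₁) g2 (hnn A₃) g4 (hnn A₅) hc.le _ _ _ b1 b2 b3).trans b4
  · rw [hEv]
    have h3 := three hFI X.G S _ _ _ h12 h13 h23 (t, X.up K x) (t, X.up (n - K) x) (t, X.up (n + K) x)
      (s, X.up (n + q - K) x) (s, X.up (n + q + K) x) (s, X.up (j - K) x) p hp.le hp1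
    rw [v1, v3, v5, hA₁, hA₃, hA₅, pr_cn hPL _ _ _ _ _ p hp.le hp1, pr_cn hPL _ _ _ _ _ p hp.le hp1,
      pr_cn hPL _ _ _ _ _ p hp.le hp1, ← h3]
    refine hPB'.2.2.1 _ _ ?_
    rintro r _ ⟨⟨⟨⟨r1, r2⟩, r3⟩, r4⟩, r5⟩
    exact ⟨⟨r1, r3⟩, r5⟩
  · rintro r ⟨⟨⟨⟨r1, r2⟩, r3⟩, r4⟩, r5⟩
    have hc := hCB (X.T × X.T') (r ∩ (EI X.G S : Set (Sym2 (X.T × X.T'))))
    have hmono : ∀ (W : Set (X.T × X.T')) (u v : X.T × X.T'),
        v ∈ Cluster (r ∩ (EI (within X.G W) S : Set (Sym2 (X.T × X.T')))) u →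
        v ∈ Cluster (r ∩ (EI X.G S : Set (Sym2 (X.T × X.T')))) u := by
      intro W u v hv
      refine (hCB (X.T × X.T') _).2.2.2.1 _ ?_ u hv
      exact Set.inter_subset_inter_right r (Finset.coe_subset.2 (EI_sub _ _ _))
    exact hc.2.2.1 _ _ _ (hc.2.2.1 _ _ _ (hc.2.2.1 _ _ _ (hc.2.2.1 _ _ _ (hmono _ _ _ r1) (hmono _ _ _ r2))
      (hmono _ _ _ r3)) (hmono _ _ _ r4)) (hmono _ _ _ r5)

end Pool.Agent.Work.MP_c58d8b_pr.PG
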