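import Pool.Agent.Work.MP_c58d8b_pr.PG.Stmts

/-!
# MP_c58d8b_pr, block PG, item YN: the pair bound
-/

set_option autoImplicit false

namespace Pool.Agent.Work.MP_c58d8b_pr.PG

open MeasureTheory ProbabilityTheory Set Filter Topology
open scoped ENNReal unitInterval Classical
open Pool.Agent.Work.MP_c58d8b_pr.SO Pool.Agent.Work.MP_c58d8b_pr.PT

universe u

namespace IX_YN

theorem mem_EI {V : Type u} {H : SimpleGraph V} {S : Finset V} {e : Sym2 V} :
    e ∈ EI H S ↔ ∃ a ∈ S, ∃ b ∈ S, H.Adj a b ∧ s(a, b) = e := by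
  unfold EI
  rw [Finset.mem_image]
  constructor
  · rintro ⟨⟨a, b⟩, hq, rfl⟩
    rw [Finset.mem_filter, Finset.mem_product] at hq
    exact ⟨a, hq.1.1, b, hq.1.2, hq.2, rfl⟩
  · rintro ⟨a, ha, b, hb, hab, rfl⟩
    refine ⟨(a, b), ?_, rfl⟩
    rw [Finset.mem_filter, Finset.mem_product]
    exact ⟨⟨ha, hb⟩, hab⟩

theorem EI_mono {V : Type u} {H : SimpleGraph V} {W : Set V} {S : Finset V} :
    EI (within H W) S ⊆ EI H S := by
  intro e he
  rw [mem_EI] at he ⊢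
  obtain ⟨a, ha, b, hb, hab, rfl⟩ := he
  exact ⟨a, ha, b, hb, hab.1, rfl⟩

theorem EI_within {V : Type u} {H : SimpleGraph V} {W W' : Set V} {S : Finset V} (h : W ⊆ W') :
    EI (within H W) S ⊆ EI (within H W') S := by
  intro e he
  rw [mem_EI] at he ⊢
  obtain ⟨a, ha, b, hb, hab, rfl⟩ := he
  exact ⟨a, ha, b, hb, ⟨hab.1, h hab.2.1, h hab.2.2⟩, rfl⟩

section
variable (X : Sg.{u})

theorem up_up (k l : ℕ) (x : X.T') : X.up k (X.up l x) = X.up (k + l) x := by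
  unfold Sg.up
  rw [Function.iterate_add_apply]

theorem Es_mono (hKF : StKF.{u}) {k l : ℕ} (hkl : k ≤ l) (x : X.T') :
    X.Es (X.up l x) ⊆ X.Es (X.up k x) := by
  have h := (hKF X).2.1 (X.up k x) (l - k)
  rw [up_up, Nat.sub_add_cancel hkl] at h
  exact h

/-- All endpoints are in `Es x_c`. -/
def above (x : X.T') (c : ℕ) (F : Finset (Sym2 (X.T × X.T'))) : Prop :=
  ∀ e ∈ F, ∀ v ∈ e, v ∈ X.Es (X.up c x)

/-- Some endpoint is not in `Es x_c`. -/
def below (x : X.T') (c : ℕ) (F : Finset (Sym2 (X.T × X.T'))) : Prop :=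
  ∀ e ∈ F, ∃ v ∈ e, v ∉ X.Es (X.up c x)

theorem disj_of (hKF : StKF.{u}) {x : X.T'} {c c' : ℕ} {F F' : Finset (Sym2 (X.T × X.T'))}
    (h : below X x c F) (h' : above X x c' F') (hc : c ≤ c') : Disjoint F F' := by
  rw [Finset.disjoint_left]
  intro e he he'
  obtain ⟨v, hv, hv'⟩ := h e he
  exact hv' (Es_mono X hKF hc x (h' e he' v hv))

theorem vr_above {x : X.T'} {k l : ℕ} {S : Finset (X.T × X.T')} :
    above X x k (EI (within X.G (X.vr l (X.up k x))) S) := by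
  intro e he v hv
  rw [mem_EI] at he
  obtain ⟨a, ha, b, hb, hab, rfl⟩ := he
  rcases Sym2.mem_iff.1 hv with rfl | rfl
  · exact hab.2.1.1
  · exact hab.2.2.1

theorem vr_below {x : X.T'} {k l : ℕ} {S : Finset (X.T × X.T')} :
    below X x (k + l) (EI (within X.G (X.vr l (X.up k x))) S) := by
  intro e he
  rw [mem_EI] at he
  obtain ⟨a, ha, b, hb, hab, rfl⟩ := he
  refine ⟨a, Sym2.mem_mk_left a b, ?_⟩
  have h := hab.2.1.2
  rw [up_up, Nat.add_comm l k] at h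
  exact h

/-- The edges of the exit event. -/
noncomputable def F3 (S : Finset (X.T × X.T')) (y z : X.T') : Finset (Sym2 (X.T × X.T')) :=
  (EI (within X.G (X.Es y)) S).filter fun e => ∃ v ∈ e, v ∉ X.Es z

theorem F3_above {x : X.T'} {k : ℕ} {S : Finset (X.T × X.T')} {z : X.T'} :
    above X x k (F3 X S (X.up k x) z) := by
  intro e he v hv
  unfold F3 at he
  rw [Finset.mem_filter, mem_EI] at he
  obtain ⟨⟨a, ha, b, hb, hab, rfl⟩, -⟩ := he
  rcases Sym2.mem_iff.1 hv with rfl | rfl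
  · exact hab.2.1
  · exact hab.2.2

theorem F3_below {x : X.T'} {k : ℕ} {S : Finset (X.T × X.T')} {y : X.T'} :
    below X x k (F3 X S y (X.up k x)) := by
  intro e he
  unfold F3 at he
  rw [Finset.mem_filter] at he
  exact he.2

theorem F3_sub {S : Finset (X.T × X.T')} {y z : X.T'} :
    F3 X S y z ⊆ EI (within X.G (X.Es y)) S := Finset.filter_subset _ _

theorem sqrt_pos : 0 < √(X.b : ℝ) := by
  apply Real.sqrt_pos.2
  have := X.tr'.two
  exact_mod_cast (by omega : 0 < X.b)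

theorem tau_bd (hQC : StQC.{u}) (hRB : StRB.{u}) {p : ℝ} (hBd : X.Bd p)
    (W : Set (X.T × X.T')) (S : Finset (X.T × X.T')) (t : X.T) (x : X.T') (k : ℕ) :
    tau (within X.G W) p S (t, x) (t, X.up k x) ≤ ((√(X.b : ℝ))⁻¹) ^ k := by
  rw [(hQC (X.T × X.T')).2.1 X.G W p S]
  have h := hBd (S.filter (· ∈ W)) t t x k
  have h0 : X.d t t = 0 := ((hRB X.T X.par X.h X.a X.tr).1 t t).2 rfl
  rw [h0, pow_zero, one_mul] at h
  have hb := sqrt_pos X
  rw [inv_pow]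
  have hbk : 0 < √(X.b : ℝ) ^ k := pow_pos hb k
  rw [← one_div, le_div_iff₀ hbk, mul_comm]
  exact h

/-- The exit of the cluster in the third connection. -/
theorem exit_mem (hCB : StCB.{u}) {S : Finset (X.T × X.T')} {y z : X.T'} {u v : X.T × X.T'}
    {W : Set (X.T × X.T')} (hW : W ⊆ X.Es y) (hv : v ∈ X.Es z) {r : Set (Sym2 (X.T × X.T'))}
    (h : v ∈ Cluster (r ∩ (EI (within X.G W) S : Set (Sym2 (X.T × X.T')))) u) :
    ∃ w ∈ Cluster (r ∩ (F3 X S y z : Set (Sym2 (X.T × X.T')))) u, w ∈ X.Es z := by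
  by_contra hcon
  push Not at hcon
  obtain ⟨-, -, -, -, -, h6⟩ := hCB (X.T × X.T')
    (r ∩ (EI (within X.G W) S : Set (Sym2 (X.T × X.T'))))
  obtain ⟨c1, -, c3, -, c5, -⟩ := hCB (X.T × X.T')
    (r ∩ (F3 X S y z : Set (Sym2 (X.T × X.T'))))
  have hsub := h6 (Cluster (r ∩ (F3 X S y z : Set (Sym2 (X.T × X.T')))) u) u (c1 _) ?_
  · exact hcon _ (hsub h) hv
  · intro a ha b hab
    refine c3 _ a b ha (c5 a b ⟨hab.1, ?_⟩)
    have h2 := hab.2
    rw [Finset.mem_coe] at h2 ⊢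
    unfold F3
    rw [Finset.mem_filter]
    exact ⟨EI_within hW h2, a, Sym2.mem_mk_left a b, hcon a ha⟩

/-- The probability of the exit event in the edges `F3`. -/
theorem F3_pr (hPB : StPB.{u}) (hPL : StPL.{u}) (hCB : StCB.{u}) {p : ℝ} (hp0 : 0 ≤ p)
    (hp1 : p ≤ 1) (K : ℕ) (S : Finset (X.T × X.T')) (s : X.T) (y : X.T') (m : ℕ) :
    Pr (F3 X S y (X.up m y)) p {r | ∃ w ∈ Cluster r (s, X.up K y), w ∈ X.Es (X.up m y)} ≤
      X.ex p K S m (s, y) := by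
  set F := F3 X S y (X.up m y) with hF
  set A : Set (Set (Sym2 (X.T × X.T'))) :=
    {r | ∃ w ∈ Cluster r (s, X.up K y), w ∈ X.Es (X.up m y)} with hA
  set E := EI (within X.G (X.Es y)) S with hE
  have hFE : F ⊆ E := F3_sub X
  have e1 : Pr E p {r | r ∩ (F : Set (Sym2 (X.T × X.T'))) ∈ A} =
      Pr F p {r | r ∩ (F : Set (Sym2 (X.T × X.T'))) ∈ A} := by
    refine hPL _ E F p hp0 hp1 hFE _ ?_
    intro r _
    change _ ↔ ((r : Set (Sym2 (X.T × X.T'))) ∩ F) ∩ F ∈ A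
    rw [Set.inter_assoc, Set.inter_self]
    rfl
  have e2 : Pr F p A ≤ Pr F p {r | r ∩ (F : Set (Sym2 (X.T × X.T'))) ∈ A} := by
    refine (hPB _ F p hp0 hp1).2.2.1 _ _ ?_
    intro r hr hrA
    change (r : Set (Sym2 (X.T × X.T'))) ∩ F ∈ A
    rw [Set.inter_eq_left.2 (by exact_mod_cast hr)]
    exact hrA
  have e3 : Pr E p {r | r ∩ (F : Set (Sym2 (X.T × X.T'))) ∈ A} ≤ Pr E p A := by
    refine (hPB _ E p hp0 hp1).2.2.1 _ _ ?_
    intro r _ hrA
    obtain ⟨v, hv, hv'⟩ := hrA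
    exact ⟨v, (hCB _ _).2.2.2.1 _ Set.inter_subset_left _ hv, hv'⟩
  have e4 : Pr E p A = X.ex p K S m (s, y) := rfl
  rw [← e4]
  linarith [e2, e3, e1]

end

end IX_YN

open IX_YN in
theorem pg_YN (hPB : StPB.{u}) (hPL : StPL.{u}) (hCB : StCB.{u}) (hFI : StFI.{u})
    (hQC : StQC.{u}) (hRA : StRA.{u}) (hRB : StRB.{u}) (hKF : StKF.{u}) (hYH : StYH.{u}) :
    StYN.{u} := by
  intro X p K hp hp1 hK hBd
  have hp0 : 0 ≤ p := hp.le
  obtain ⟨C₁, hC₁, hC⟩ := hYH X p K hp hp1 hK hBd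
  have hsb := sqrt_pos X
  refine ⟨C₁ * √(X.b : ℝ) ^ (4 * K), by positivity, ?_⟩
  intro S x t s q j n n' ξ hn hq hnn hj hξ
  set F₁ := EI (within X.G (X.vr n (X.up 0 x))) S with hF₁
  set F₂ := EI (within X.G (X.vr q (X.up n x))) S with hF₂
  set F := F3 X S (X.up (n + q) x) (X.up n' x) with hF
  set F₄ := EI (within X.G (X.vr q (X.up n' x))) S with hF₄
  set F₅ := EI (within X.G (X.vr (j - (n' + q)) (X.up (n' + q) x))) S with hF₅
  have b₁ : below X x (0 + n) F₁ := vr_below X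
  have b₂ : below X x (n + q) F₂ := vr_below X
  have b₃ : below X x n' F := F3_below X
  have b₄ : below X x (n' + q) F₄ := vr_below X
  have a₂ : above X x n F₂ := vr_above X
  have a₃ : above X x (n + q) F := F3_above X
  have a₄ : above X x n' F₄ := vr_above X
  have a₅ : above X x (n' + q) F₅ := vr_above X
  have d₁₂ : Disjoint F₁ F₂ := disj_of X hKF b₁ a₂ (by omega)
  have d₁₃ : Disjoint F₁ F := disj_of X hKF b₁ a₃ (by omega)
  have d₁₄ : Disjoint F₁ F₄ := disj_of X hKF b₁ a₄ (by omega)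
  have d₁₅ : Disjoint F₁ F₅ := disj_of X hKF b₁ a₅ (by omega)
  have d₂₃ : Disjoint F₂ F := disj_of X hKF b₂ a₃ (by omega)
  have d₂₄ : Disjoint F₂ F₄ := disj_of X hKF b₂ a₄ (by omega)
  have d₂₅ : Disjoint F₂ F₅ := disj_of X hKF b₂ a₅ (by omega)
  have d₃₄ : Disjoint F F₄ := disj_of X hKF b₃ a₄ (by omega)
  have d₃₅ : Disjoint F F₅ := disj_of X hKF b₃ a₅ (by omega)
  have d₄₅ : Disjoint F₄ F₅ := disj_of X hKF b₄ a₅ (by omega)
  have key := hFI (Sym2 (X.T × X.T')) (EI X.G S) p hp0 hp1 5 ![F₁, F₂, F, F₄, F₅] ?_ ?_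
    ![{r | (t, X.up (n - K) x) ∈ Cluster r (t, X.up K x)},
      {r | (s, X.up (n + q - K) x) ∈ Cluster r (t, X.up (n + K) x)},
      {r | ∃ w ∈ Cluster r (s, X.up (n + q + K) x), w ∈ X.Es (X.up n' x)},
      {r | (s, X.up (n' + q - K) x) ∈ Cluster r (t, X.up (n' + K) x)},
      {r | (s, X.up (j - K) x) ∈ Cluster r (s, X.up (n' + q + K) x)}]
  · have hle : Pr (EI X.G S) p (Ev X K S x t s q j n ∩ Ev X K S x t s q j n') ≤
        Pr (EI X.G S) p {r | ∀ i, r ∩ ((![F₁, F₂, F, F₄, F₅] : Fin 5 → _) i :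
          Set (Sym2 (X.T × X.T'))) ∈
          (![{r | (t, X.up (n - K) x) ∈ Cluster r (t, X.up K x)},
            {r | (s, X.up (n + q - K) x) ∈ Cluster r (t, X.up (n + K) x)},
            {r | ∃ w ∈ Cluster r (s, X.up (n + q + K) x), w ∈ X.Es (X.up n' x)},
            {r | (s, X.up (n' + q - K) x) ∈ Cluster r (t, X.up (n' + K) x)},
            {r | (s, X.up (j - K) x) ∈ Cluster r (s, X.up (n' + q + K) x)}] : Fin 5 → _) i} := by
      refine (hPB _ _ p hp0 hp1).2.2.1 _ _ ?_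
      rintro r - ⟨⟨⟨⟨⟨h1, -⟩, h2⟩, -⟩, h3⟩, ⟨⟨⟨⟨-, -⟩, h4⟩, -⟩, h5⟩⟩
      intro i
      fin_cases i
      · exact h1
      · exact h2
      · refine exit_mem X hCB (W := X.vr (j - (n + q)) (X.up (n + q) x)) (fun v hv => hv.1) ?_ h3
        refine (hKF X).2.2.2.1 _ _ ?_
        have e1 : X.h' (X.up n' x) = X.h' x + n' :=
          (hRA X.T' X.par' X.h' X.b X.tr').1 n' x
        have e2 : X.h' (X.up (j - K) x) = X.h' x + (j - K : ℕ) :=
          (hRA X.T' X.par' X.h' X.b X.tr').1 (j - K) x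
        change X.h' (X.up n' x) < X.h' (X.up (j - K) x)
        rw [e1, e2]
        have : n' < j - K := by omega
        have : (n' : ℤ) < ((j - K : ℕ) : ℤ) := by exact_mod_cast this
        linarith
      · exact h4
      · exact h5
    rw [key, Fin.prod_univ_five] at hle
    refine hle.trans ?_
    change Pr F₁ p _ * Pr F₂ p _ * Pr F p _ * Pr F₄ p _ * Pr F₅ p _ ≤ _
    have hb : 0 ≤ (√(X.b : ℝ))⁻¹ := inv_nonneg.2 (Real.sqrt_nonneg _)
    have p₁ : Pr F₁ p {r | (t, X.up (n - K) x) ∈ Cluster r (t, X.up K x)} ≤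
        ((√(X.b : ℝ))⁻¹) ^ (n - 2 * K) := by
      have h := tau_bd X hQC hRB hBd (X.vr n (X.up 0 x)) S t (X.up K x) (n - 2 * K)
      rw [up_up, show n - 2 * K + K = n - K by omega] at h
      exact h
    have p₂ : Pr F₂ p {r | (s, X.up (n + q - K) x) ∈ Cluster r (t, X.up (n + K) x)} ≤ ξ := by
      have h := hξ (X.up n x)
      unfold Sg.vf tau at h
      rw [up_up, up_up, Nat.add_comm K n, show q - K + n = n + q - K by omega] at h
      exact h
    have p₃ : Pr F p {r | ∃ w ∈ Cluster r (s, X.up (n + q + K) x), w ∈ X.Es (X.up n' x)} ≤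
        C₁ * ((√(X.b : ℝ))⁻¹) ^ (n' - (n + q)) := by
      have h := (F3_pr X hPB hPL hCB hp0 hp1 K S s (X.up (n + q) x) (n' - (n + q))).trans
        (hC S (n' - (n + q)) _)
      rw [up_up, up_up, Nat.add_comm K (n + q), Nat.sub_add_cancel hnn] at h
      exact h
    have p₄ : Pr F₄ p {r | (s, X.up (n' + q - K) x) ∈ Cluster r (t, X.up (n' + K) x)} ≤ ξ := by
      have h := hξ (X.up n' x)
      unfold Sg.vf tau at h
      rw [up_up, up_up, Nat.add_comm K n', show q - K + n' = n' + q - K by omega] at h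
      exact h
    have p₅ : Pr F₅ p {r | (s, X.up (j - K) x) ∈ Cluster r (s, X.up (n' + q + K) x)} ≤
        ((√(X.b : ℝ))⁻¹) ^ (j - (n' + q + 2 * K)) := by
      have h := tau_bd X hQC hRB hBd (X.vr (j - (n' + q)) (X.up (n' + q) x)) S s
        (X.up (n' + q + K) x) (j - (n' + q + 2 * K))
      rw [up_up, show j - (n' + q + 2 * K) + (n' + q + K) = j - K by omega] at h
      exact h
    have nn : ∀ (E : Finset (Sym2 (X.T × X.T'))) (B : Set (Set (Sym2 (X.T × X.T')))),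
        0 ≤ Pr E p B := fun E B => ((hPB _ E p hp0 hp1).2.1 B).1
    have hξ0 : 0 ≤ ξ := (nn _ _).trans p₂
    have hfin : ((√(X.b : ℝ))⁻¹) ^ (n - 2 * K) * ξ *
        (C₁ * ((√(X.b : ℝ))⁻¹) ^ (n' - (n + q))) * ξ *
        ((√(X.b : ℝ))⁻¹) ^ (j - (n' + q + 2 * K)) =
        C₁ * √(X.b : ℝ) ^ (4 * K) * ξ ^ 2 * ((√(X.b : ℝ))⁻¹) ^ (j - 2 * q) := by
      have e : ((√(X.b : ℝ))⁻¹) ^ (j - 2 * q) = ((√(X.b : ℝ))⁻¹) ^ (4 * K) *
          (((√(X.b : ℝ))⁻¹) ^ (n - 2 * K) * ((√(X.b : ℝ))⁻¹) ^ (n' - (n + q)) *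
            ((√(X.b : ℝ))⁻¹) ^ (j - (n' + q + 2 * K))) := by
        rw [← pow_add, ← pow_add, ← pow_add]
        congr 1
        omega
      rw [e]
      have e2 : √(X.b : ℝ) ^ (4 * K) * ((√(X.b : ℝ))⁻¹) ^ (4 * K) = 1 := by
        rw [← mul_pow, mul_inv_cancel₀ hsb.ne', one_pow]
      linear_combination (-(C₁ * ξ ^ 2 * (((√(X.b : ℝ))⁻¹) ^ (n - 2 * K) *
        ((√(X.b : ℝ))⁻¹) ^ (n' - (n + q)) * ((√(X.b : ℝ))⁻¹) ^ (j - (n' + q + 2 * K))))) * e2
    rw [← hfin]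
    have hC₁0 : 0 ≤ C₁ := by linarith
    have g1 := mul_le_mul p₁ p₂ (nn _ _) (pow_nonneg hb _)
    have g2 := mul_le_mul g1 p₃ (nn _ _) (mul_nonneg (pow_nonneg hb _) hξ0)
    have g3 := mul_le_mul g2 p₄ (nn _ _) (mul_nonneg (mul_nonneg (pow_nonneg hb _) hξ0)
      (mul_nonneg hC₁0 (pow_nonneg hb _)))
    exact mul_le_mul g3 p₅ (nn _ _) (mul_nonneg (mul_nonneg (mul_nonneg (pow_nonneg hb _) hξ0)
      (mul_nonneg hC₁0 (pow_nonneg hb _))) hξ0)
  · intro i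
    fin_cases i
    · exact EI_mono
    · exact EI_mono
    · exact (F3_sub X).trans EI_mono
    · exact EI_mono
    · exact EI_mono
  · intro i j' hij
    fin_cases i <;> fin_cases j' <;> first
      | exact absurd rfl hij
      | exact d₁₂ | exact d₁₃ | exact d₁₄ | exact d₁₅ | exact d₂₃ | exact d₂₄ | exact d₂₅
      | exact d₃₄ | exact d₃₅ | exact d₄₅
      | exact d₁₂.symm | exact d₁₃.symm | exact d₁₄.symm | exact d₁₅.symm | exact d₂₃.symm
      | exact d₂₄.symm | exact d₂₅.symm | exact d₃₄.symm | exact d₃₅.symm | exact d₄₅.symm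

end Pool.Agent.Work.MP_c58d8b_pr.PG
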