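import Pool.Agent.Work.MP_c58d8b_pr.PG.Stmts

/-!
# MP_c58d8b_pr, block PG, item YO (adapted from PT JO of helper81): the contradiction
-/

set_option autoImplicit false

namespace Pool.Agent.Work.MP_c58d8b_pr.PG

open MeasureTheory ProbabilityTheory Set Filter Topology
open scoped ENNReal unitInterval Classical
open Pool.Agent.Work.MP_c58d8b_pr.SO Pool.Agent.Work.MP_c58d8b_pr.PT

universe u

namespace IX_YO

theorem within_le {V : Type u} (G : SimpleGraph V) (W : Set V) : within G W ≤ G :=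
  fun _ _ h => h.1

theorem exS {V : Type u} (H : SimpleGraph V) (p : ℝ) (u v : V) (w : ℝ) (hw : 0 < w)
    (h : ENNReal.ofReal w ≤ tt H p u v) : ∃ S : Finset V, w / 2 ≤ tau H p S u v := by
  by_contra hne
  push Not at hne
  have h1 : tt H p u v ≤ ENNReal.ofReal (w / 2) :=
    iSup_le fun S => ENNReal.ofReal_le_ofReal (hne S).le
  have h2 : ENNReal.ofReal (w / 2) < ENNReal.ofReal w :=
    (ENNReal.ofReal_lt_ofReal_iff hw).2 (by linarith)
  exact absurd (h.trans h1) (not_le.2 h2)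

theorem tau_le_toReal {V : Type u} (H : SimpleGraph V) (p : ℝ) (u v : V) (h : tt H p u v ≤ 1)
    (S : Finset V) : tau H p S u v ≤ (tt H p u v).toReal := by
  have h1 : ENNReal.ofReal (tau H p S u v) ≤ tt H p u v :=
    le_iSup (fun S => ENNReal.ofReal (tau H p S u v)) S
  have hne : tt H p u v ≠ ⊤ := (h.trans_lt ENNReal.one_lt_top).ne
  exact (ENNReal.ofReal_le_iff_le_toReal hne).1 h1

theorem num (A c ξ Iq rj r1 r2 P cg C B₁ B₂ : ℝ) (hA : 0 < A) (hcg : 0 < cg) (hC : 0 < C)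
    (hB1 : 0 < B₁) (hB2 : 0 < B₂) (hAc : 64 * B₁ * (B₂ + C) < A * (cg ^ 2 * c ^ 4))
    (hξ : 0 < ξ) (hI : 1 ≤ Iq * ξ) (hr1 : 0 < r1) (hr2 : 0 < r2) (hrj : 0 < rj) (h12 : r1 ≤ r2)
    (hrr : rj * r2 = r1 ^ 2) (hP : A * P ≤ B₁ * rj)
    (h : (Iq * (cg * (c ^ 2 * ξ / 8 * r1))) ^ 2 ≤
      P * (Iq * (B₂ * (ξ * r1)) + Iq ^ 2 * (C * ξ ^ 2 * r2))) : False := by
  set m := Iq * ξ with hm
  have hm0 : 0 < m := by linarith
  have e1 : (Iq * (cg * (c ^ 2 * ξ / 8 * r1))) ^ 2 = m ^ 2 * (cg ^ 2 * c ^ 4) / 64 * r1 ^ 2 := by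
    rw [hm]; ring
  have e2 : Iq * (B₂ * (ξ * r1)) + Iq ^ 2 * (C * ξ ^ 2 * r2) = B₂ * (m * r1) + C * (m ^ 2 * r2) := by
    rw [hm]; ring
  rw [e1, e2] at h
  have h3 : B₂ * (m * r1) + C * (m ^ 2 * r2) ≤ (B₂ + C) * (m ^ 2 * r2) := by
    have h31 : m * r1 ≤ m * r2 := mul_le_mul_of_nonneg_left h12 hm0.le
    have h32 : m * r2 ≤ m ^ 2 * r2 := by
      have : m ≤ m ^ 2 := by nlinarith
      exact mul_le_mul_of_nonneg_right this hr2.le
    have h33 : B₂ * (m * r1) ≤ B₂ * (m ^ 2 * r2) := mul_le_mul_of_nonneg_left (h31.trans h32) hB2.le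
    linarith
  have h4 : 0 < B₂ * (m * r1) + C * (m ^ 2 * r2) := by positivity
  have h5 : A * (m ^ 2 * (cg ^ 2 * c ^ 4) / 64 * r1 ^ 2) ≤ B₁ * rj * ((B₂ + C) * (m ^ 2 * r2)) := by
    calc A * (m ^ 2 * (cg ^ 2 * c ^ 4) / 64 * r1 ^ 2) ≤
          A * (P * (B₂ * (m * r1) + C * (m ^ 2 * r2))) := mul_le_mul_of_nonneg_left h hA.le
      _ = (A * P) * (B₂ * (m * r1) + C * (m ^ 2 * r2)) := by ring
      _ ≤ (B₁ * rj) * (B₂ * (m * r1) + C * (m ^ 2 * r2)) := mul_le_mul_of_nonneg_right hP h4.le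
      _ ≤ B₁ * rj * ((B₂ + C) * (m ^ 2 * r2)) :=
          mul_le_mul_of_nonneg_left h3 (mul_pos hB1 hrj).le
  have h6 : B₁ * rj * ((B₂ + C) * (m ^ 2 * r2)) = B₁ * (B₂ + C) * (m ^ 2 * r1 ^ 2) := by
    rw [← hrr]; ring
  rw [h6] at h5
  have h7 : 0 < m ^ 2 * r1 ^ 2 := by positivity
  have h8 : (A * (cg ^ 2 * c ^ 4)) * (m ^ 2 * r1 ^ 2) ≤ 64 * B₁ * (B₂ + C) * (m ^ 2 * r1 ^ 2) := by
    nlinarith
  have h9 := le_of_mul_le_mul_right h8 h7
  linarith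

end IX_YO

open IX_YO in
theorem pg_YO (hPB : SO.StPB.{u}) (hFE : StFE.{u}) (hQA : StQA.{u}) (hQB : StQB.{u})
    (hQF : StQF.{u}) (hRB : StRB.{u}) (hKD : StKD.{u}) (hYM : StYM.{u}) (hYN : StYN.{u})
    (hYV : StYV.{u}) : StYO.{u} := by
  intro X K hK p hp hp1 hBd c N₀ hc H
  have hp0 : 0 ≤ p := hp.le
  have hK1 : 1 ≤ K := hK.1
  obtain ⟨P, cg, hcg, hYM⟩ := hYM X K p hp hp1
  obtain ⟨C, hC, hYN⟩ := hYN X p K hp hp1 hK1 hBd
  -- the ratio
  have hb2 : (2 : ℝ) ≤ (X.b : ℝ) := by exact_mod_cast X.tr'.two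
  have ha2 : (2 : ℝ) ≤ (X.a : ℝ) := by exact_mod_cast X.tr.two
  have hsb : (1 : ℝ) ≤ √(X.b : ℝ) := by
    rw [Real.one_le_sqrt]; linarith
  have hsb0 : (0 : ℝ) < √(X.b : ℝ) := by linarith
  set ρ : ℝ := (√(X.b : ℝ))⁻¹ with hρ
  have hρ0 : 0 < ρ := inv_pos.2 hsb0
  have hρ1 : ρ ≤ 1 := inv_le_one_of_one_le₀ hsb
  have hρb : ∀ n : ℕ, √(X.b : ℝ) ^ n * ρ ^ n = 1 := by
    intro n
    rw [← mul_pow, hρ, mul_inv_cancel₀ hsb0.ne', one_pow]
  set B₁ : ℝ := √(X.b : ℝ) ^ (2 * K) with hB1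
  have hB1p : 0 < B₁ := by positivity
  have hshift : ∀ n, 2 * K ≤ n → ρ ^ (n - 2 * K) = B₁ * ρ ^ n := by
    intro n hn
    obtain ⟨k, rfl⟩ := Nat.exists_eq_add_of_le hn
    rw [Nat.add_sub_cancel_left, pow_add, ← mul_assoc, hB1, hρb, one_mul]
  -- the exponent e
  obtain ⟨e, he⟩ : ∃ e : ℕ, 64 * B₁ * (B₁ * B₁ + C) / (cg ^ 2 * c ^ 4) < (X.a : ℝ) ^ e :=
    pow_unbounded_of_one_lt _ (by linarith)
  have hAc : 64 * B₁ * (B₁ * B₁ + C) < (X.a : ℝ) ^ e * (cg ^ 2 * c ^ 4) := by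
    rwa [div_lt_iff₀ (by positivity)] at he
  obtain ⟨u₀⟩ := X.conn.nonempty
  set t : X.T := u₀.1 with ht
  set x : X.T' := u₀.2 with hx
  obtain ⟨h0, -, -, -, -, -, -, hex, -, -⟩ := hRB X.T X.par X.h X.a X.tr
  obtain ⟨s, hs⟩ := hex t e
  have hs' : X.d t s = e := hs
  have hdtt : ∀ t : X.T, X.d t t = 0 := fun t => (h0 t t).2 rfl
  obtain ⟨q, hq2K, hq⟩ := hYV X K hK p hp hp1 e
  have hq1 : 1 ≤ q := by omega
  obtain ⟨δ, hδ0, -, hδ⟩ := hq q le_rfl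
  have hδu : ENNReal.ofReal δ ≤ X.vv p K q x t s := hδ t s x hs'
  have hvv1 : ∀ n y t s, X.vv p K n y t s ≤ 1 := fun n y t s =>
    (hQF _ (within X.G (X.vr n y)) p hp0 hp1).1 _ _
  set ξ : ℝ := (X.vv p K q x t s).toReal with hξ
  have hune : X.vv p K q x t s ≠ ⊤ := ((hvv1 q x t s).trans_lt ENNReal.one_lt_top).ne
  have hδξ : δ ≤ ξ := (ENNReal.ofReal_le_iff_le_toReal hune).1 hδu
  have hξ0 : 0 < ξ := lt_of_lt_of_le hδ0 hδξ
  have hofξ : ENNReal.ofReal ξ = X.vv p K q x t s := ENNReal.ofReal_toReal hune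
  have hind : ∀ y : X.T', X.vv p K q y t s = X.vv p K q x t s := fun y =>
    (hKD X p hp0 hp1).2.1 K q y t s x t s rfl
  have hufξ : ∀ (S : Finset (X.T × X.T')) (y : X.T'), X.vf p S K q y t s ≤ ξ := by
    intro S y
    have h1 := tau_le_toReal (within X.G (X.vr q y)) p (t, X.up K y) (s, X.up (q - K) y)
      (hvv1 q y t s) S
    have h2 : (tt (within X.G (X.vr q y)) p (t, X.up K y) (s, X.up (q - K) y)).toReal = ξ := by
      rw [hξ, ← hind y]; rfl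
    rw [h2] at h1
    exact h1
  have hmono : ∀ (W : Set (X.T × X.T')) (S : Finset (X.T × X.T')) (v w : X.T × X.T'),
      tau (within X.G W) p S v w ≤ tau X.G p S v w := fun W S v w =>
    (hQB (X.T × X.T')).1 (within X.G W) X.G S S p p (within_le X.G W) (Finset.Subset.refl S) hp0 le_rfl
      hp1 v w
  have hupadd : ∀ (m n : ℕ) (y : X.T'), X.up m (X.up n y) = X.up (m + n) y := fun m n y =>
    (Function.iterate_add_apply X.par' m n y).symm
  have huf : ∀ (S : Finset (X.T × X.T')) (n : ℕ) (y : X.T') (t : X.T), 2 * K ≤ n →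
      X.vf p S K n y t t ≤ B₁ * ρ ^ n := by
    intro S n y t hn
    have h1 := hBd S t t (X.up K y) (n - 2 * K)
    rw [hdtt t, pow_zero, one_mul, hupadd, show n - 2 * K + K = n - K by omega] at h1
    have h2 : X.vf p S K n y t t ≤ tau X.G p S (t, X.up K y) (t, X.up (n - K) y) := hmono _ _ _ _
    have h3 : (0 : ℝ) < √(X.b : ℝ) ^ (n - 2 * K) := by positivity
    have h4 : √(X.b : ℝ) ^ (n - 2 * K) * X.vf p S K n y t t ≤
        √(X.b : ℝ) ^ (n - 2 * K) * ρ ^ (n - 2 * K) := by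
      rw [hρb]
      exact (mul_le_mul_of_nonneg_left h2 h3.le).trans h1
    rw [← hshift n hn]
    exact le_of_mul_le_mul_left h4 h3
  have hvf0 : ∀ S n y t s, 0 ≤ X.vf p S K n y t s := fun S n y t s =>
    ((hQA _ (within X.G (X.vr n y)) p hp0 hp1).1 S _ _).1
  -- the numbers
  set Iq : ℕ := ⌈1 / ξ⌉₊ with hI
  have hIξ : 1 ≤ (Iq : ℝ) * ξ := by
    have h1 : 1 / ξ ≤ (Iq : ℝ) := Nat.le_ceil _
    rw [div_le_iff₀ hξ0] at h1
    exact h1
  have hI1 : 1 ≤ Iq := by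
    rcases Nat.eq_zero_or_pos Iq with h0 | h0
    · exfalso
      rw [h0] at hIξ
      norm_num at hIξ
    · exact h0
  set N₁ : ℕ := max N₀ (2 * K) with hN1
  have hN10 : N₀ ≤ N₁ := le_max_left _ _
  have hN1K : 2 * K ≤ N₁ := le_max_right _ _
  set j : ℕ := 2 * N₁ + (Iq + 1) * q with hj
  let J : Finset ℕ := (Finset.range Iq).image fun i => N₁ + i * q
  have hJcard : J.card = Iq := by
    rw [Finset.card_image_of_injective, Finset.card_range]
    intro i i' h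
    have h1 : i * q = i' * q := Nat.add_left_cancel h
    exact Nat.eq_of_mul_eq_mul_right hq1 h1
  have hJmem : ∀ n ∈ J, ∃ i, i < Iq ∧ n = N₁ + i * q := by
    intro n hn
    obtain ⟨i, hi, rfl⟩ := Finset.mem_image.1 hn
    exact ⟨i, Finset.mem_range.1 hi, rfl⟩
  have hJ1 : ∀ n ∈ J, N₁ ≤ n ∧ n + q + 2 * K ≤ j ∧ N₁ ≤ j - (n + q) ∧
      n + (j - (n + q)) = j - q := by
    intro n hn
    obtain ⟨i, hi, rfl⟩ := hJmem n hn
    have h1 : i * q + q ≤ Iq * q := by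
      have : (i + 1) * q ≤ Iq * q := Nat.mul_le_mul_right q hi
      nlinarith
    have h2 : j = 2 * N₁ + Iq * q + q := by rw [hj]; ring
    refine ⟨by omega, by omega, by omega, by omega⟩
  have hJ2 : ∀ n ∈ J, ∀ n' ∈ J, n < n' → n + q ≤ n' := by
    intro n hn n' hn' hlt
    obtain ⟨i, hi, rfl⟩ := hJmem n hn
    obtain ⟨i', hi', rfl⟩ := hJmem n' hn'
    have h1 : i < i' := by
      by_contra hge
      push Not at hge
      have : i' * q ≤ i * q := Nat.mul_le_mul_right q hge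
      omega
    have h2 : (i + 1) * q ≤ i' * q := Nat.mul_le_mul_right q h1
    have h3 : (i + 1) * q = i * q + q := by ring
    omega
  -- the finite set
  have hS1 : ∀ n, N₁ ≤ n → ∀ (y : X.T') (t : X.T), ∃ S : Finset (X.T × X.T'),
      c / 2 * ρ ^ n ≤ X.vf p S K n y t t := by
    intro n hn y t
    obtain ⟨S, hS⟩ := exS (within X.G (X.vr n y)) p (t, X.up K y) (t, X.up (n - K) y) (c * ρ ^ n)
      (by positivity) (H n (hN10.trans hn) t y)
    refine ⟨S, le_trans (le_of_eq ?_) hS⟩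
    ring
  have hS2 : ∀ y : X.T', ∃ S : Finset (X.T × X.T'), ξ / 2 ≤ X.vf p S K q y t s := by
    intro y
    refine exS (within X.G (X.vr q y)) p (t, X.up K y) (s, X.up (q - K) y) ξ hξ0 ?_
    rw [hofξ, ← hind y]
    exact le_rfl
  choose! F1 hF1 using hS1
  choose F2 hF2 using hS2
  let Fs : ℕ → Finset (X.T × X.T') := fun n =>
    (F1 n x t ∪ F2 (X.up n x) ∪ F1 (j - (n + q)) (X.up (n + q) x) s) ∪
      (X.BlF P (t, X.up (n - K) x) ∪ X.BlF P (s, X.up (n + q - K) x))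
  let S : Finset (X.T × X.T') := J.biUnion Fs
  have hSsub : ∀ n ∈ J, Fs n ⊆ S := fun n hn => Finset.subset_biUnion_of_mem Fs hn
  have hmonoS : ∀ (Hh : SimpleGraph (X.T × X.T')) (S S' : Finset (X.T × X.T')), S ⊆ S' →
      ∀ v w, tau Hh p S v w ≤ tau Hh p S' v w := fun Hh S S' h v w =>
    (hQB (X.T × X.T')).1 Hh Hh S S' p p le_rfl h hp0 le_rfl hp1 v w
  have hpow : ∀ n ∈ J, ρ ^ n * ρ ^ (j - (n + q)) = ρ ^ (j - q) := by
    intro n hn
    rw [← pow_add, (hJ1 n hn).2.2.2]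
  have hE : ∀ n ∈ J, cg * (c ^ 2 * ξ / 8 * ρ ^ (j - q)) ≤ Pr (EI X.G S) p (Ev X K S x t s q j n) ∧
      Pr (EI X.G S) p (Ev X K S x t s q j n) ≤ B₁ * B₁ * (ξ * ρ ^ (j - q)) := by
    intro n hn
    obtain ⟨h1, h2, h3, -⟩ := hJ1 n hn
    obtain ⟨hlow, hup, -⟩ := hYM S x t s q j n (hN1K.trans h1) hq2K h2
    have hsub := hSsub n hn
    have s1 : F1 n x t ⊆ S := ((Finset.subset_union_left.trans
        Finset.subset_union_left).trans Finset.subset_union_left).trans hsub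
    have s2 : F2 (X.up n x) ⊆ S := ((Finset.subset_union_right.trans
        Finset.subset_union_left).trans Finset.subset_union_left).trans hsub
    have s3 : F1 (j - (n + q)) (X.up (n + q) x) s ⊆ S :=
      (Finset.subset_union_right.trans Finset.subset_union_left).trans hsub
    have s4 : X.BlF P (t, X.up (n - K) x) ⊆ S :=
      (Finset.subset_union_left.trans Finset.subset_union_right).trans hsub
    have s5 : X.BlF P (s, X.up (n + q - K) x) ⊆ S :=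
      (Finset.subset_union_right.trans Finset.subset_union_right).trans hsub
    have g1 : c / 2 * ρ ^ n ≤ X.vf p S K n x t t := (hF1 n h1 x t).trans (hmonoS _ _ _ s1 _ _)
    have g2 : ξ / 2 ≤ X.vf p S K q (X.up n x) t s := (hF2 (X.up n x)).trans (hmonoS _ _ _ s2 _ _)
    have g3 : c / 2 * ρ ^ (j - (n + q)) ≤ X.vf p S K (j - (n + q)) (X.up (n + q) x) s s :=
      (hF1 (j - (n + q)) h3 (X.up (n + q) x) s).trans (hmonoS _ _ _ s3 _ _)
    have g1' : 0 ≤ c / 2 * ρ ^ n := by positivity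
    have g2' : 0 ≤ ξ / 2 := by positivity
    have g3' : 0 ≤ c / 2 * ρ ^ (j - (n + q)) := by positivity
    have k1 := huf S n x t (hN1K.trans h1)
    have k2 := hufξ S (X.up n x)
    have k3 := huf S (j - (n + q)) (X.up (n + q) x) s (hN1K.trans h3)
    constructor
    · refine le_trans ?_ (hlow s4 s5)
      refine mul_le_mul_of_nonneg_left ?_ hcg.le
      calc c ^ 2 * ξ / 8 * ρ ^ (j - q) = (c / 2 * ρ ^ n) * (ξ / 2) * (c / 2 * ρ ^ (j - (n + q))) := by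
            rw [← hpow n hn]; ring
        _ ≤ _ := mul_le_mul (mul_le_mul g1 g2 g2' (g1'.trans g1)) g3 g3'
            (mul_nonneg (g1'.trans g1) (g2'.trans g2))
    · refine hup.trans ?_
      calc _ ≤ (B₁ * ρ ^ n) * ξ * (B₁ * ρ ^ (j - (n + q))) :=
            mul_le_mul (mul_le_mul k1 k2 (hvf0 _ _ _ _ _) (by positivity)) k3 (hvf0 _ _ _ _ _)
              (by positivity)
        _ = B₁ * B₁ * (ξ * ρ ^ (j - q)) := by rw [← hpow n hn]; ring
  have hPair : ∀ n ∈ J, ∀ n' ∈ J, n < n' →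
      Pr (EI X.G S) p (Ev X K S x t s q j n ∩ Ev X K S x t s q j n') ≤
        C * ξ ^ 2 * ρ ^ (j - 2 * q) := by
    intro n hn n' hn' hlt
    exact hYN S x t s q j n n' ξ (hN1K.trans (hJ1 n hn).1) hq2K (hJ2 n hn n' hn' hlt)
      (hJ1 n' hn').2.1 (hufξ S)
  have hfe := hFE (Sym2 (X.T × X.T')) (EI X.G S) p hp0 hp1 J (fun n => Ev X K S x t s q j n)
    (cg * (c ^ 2 * ξ / 8 * ρ ^ (j - q))) (B₁ * B₁ * (ξ * ρ ^ (j - q)))
    (C * ξ ^ 2 * ρ ^ (j - 2 * q)) (by positivity) (by positivity) hE hPair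
  rw [hJcard] at hfe
  -- the union
  have hunion : Pr (EI X.G S) p {r | ∃ n ∈ J, r ∈ Ev X K S x t s q j n} ≤
      tau X.G p S (t, X.up K x) (s, X.up (j - K) x) := by
    refine (hPB _ (EI X.G S) p hp0 hp1).2.2.1 _ _ ?_
    rintro r hr ⟨n, hn, hrn⟩
    obtain ⟨h1, h2, -, -⟩ := hJ1 n hn
    have h3 := (hYM S x t s q j n (hN1K.trans h1) hq2K h2).2.2 hrn
    have h4 : (r : Set (Sym2 (X.T × X.T'))) ∩ (EI X.G S : Set (Sym2 (X.T × X.T'))) = r :=
      Set.inter_eq_left.2 (by exact_mod_cast hr)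
    simp only [Set.mem_ofPred_eq] at h3 ⊢
    rw [h4] at h3
    exact h3
  have hj2K : 2 * K ≤ j := by omega
  have hbd := hBd S t s (X.up K x) (j - 2 * K)
  rw [hs', hupadd, show j - 2 * K + K = j - K by omega] at hbd
  have hP : (X.a : ℝ) ^ e * Pr (EI X.G S) p {r | ∃ n ∈ J, r ∈ Ev X K S x t s q j n} ≤
      B₁ * ρ ^ j := by
    have h1 : (0 : ℝ) < √(X.b : ℝ) ^ (j - 2 * K) := by positivity
    have h2 : (0 : ℝ) < (X.a : ℝ) ^ e := by positivity
    have h3 : √(X.b : ℝ) ^ (j - 2 * K) * ((X.a : ℝ) ^ e *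
        Pr (EI X.G S) p {r | ∃ n ∈ J, r ∈ Ev X K S x t s q j n}) ≤
          √(X.b : ℝ) ^ (j - 2 * K) * ρ ^ (j - 2 * K) := by
      rw [hρb]
      calc _ = (X.a : ℝ) ^ e * √(X.b : ℝ) ^ (j - 2 * K) *
            Pr (EI X.G S) p {r | ∃ n ∈ J, r ∈ Ev X K S x t s q j n} := by ring
        _ ≤ (X.a : ℝ) ^ e * √(X.b : ℝ) ^ (j - 2 * K) *
            tau X.G p S (t, X.up K x) (s, X.up (j - K) x) :=
            mul_le_mul_of_nonneg_left hunion (by positivity)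
        _ ≤ 1 := hbd
    rw [← hshift j hj2K]
    exact le_of_mul_le_mul_left h3 h1
  have hjq : 2 * q ≤ j := by
    have : 1 * q ≤ Iq * q := Nat.mul_le_mul_right q hI1
    have h2 : j = 2 * N₁ + Iq * q + q := by rw [hj]; ring
    omega
  refine num ((X.a : ℝ) ^ e) c ξ Iq (ρ ^ j) (ρ ^ (j - q)) (ρ ^ (j - 2 * q)) _ cg C B₁ (B₁ * B₁)
    (by positivity) hcg hC hB1p (by positivity) hAc hξ0 hIξ (by positivity) (by positivity)
    (by positivity) (pow_le_pow_of_le_one hρ0.le hρ1 (by omega)) ?_ hP hfe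
  rw [← pow_add, ← pow_mul]
  congr 1
  omega

end Pool.Agent.Work.MP_c58d8b_pr.PG
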