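import Pool.Agent.Work.MP_c58d8b_pr.PG.Stmts

/-!
# MP_c58d8b_pr, block PG, item YQ: the sum of the `gg` is finite
-/

set_option autoImplicit false

namespace Pool.Agent.Work.MP_c58d8b_pr.PG

open MeasureTheory ProbabilityTheory Set Filter Topology
open scoped ENNReal unitInterval Classical
open Pool.Agent.Work.MP_c58d8b_pr.SO Pool.Agent.Work.MP_c58d8b_pr.PT

universe u

theorem pg_YQ (hKU : StKU.{u}) (hYA : StYA.{u}) (hYB : StYB.{u}) (hYI : StYI)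
    (hYK : StYK.{u}) (hYL : StYL.{u}) (hYO : StYO.{u}) : StYQ.{u} := by
  intro X p hp0 hp1 hBd x t
  obtain ⟨K, hK⟩ := hKU X
  obtain ⟨C, hCt, hCb⟩ := hYA X
  have hA := (hCb p hp0.le hp1).1 hBd
  obtain ⟨C₂, hC₂, hB⟩ := hYB X p hp0 hp1
  have hT : Tendsto (fun n => X.gg p n x t) atTop (𝓝 0) := by
    by_contra hnot
    obtain ⟨c, R, n₀, hc, hw⟩ := hYK X K hK p hp0 hp1 hBd x t hnot
    obtain ⟨c', N₀, hc', h⟩ := hYL X K hK p hp0 hp1 c R n₀ hc hw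
    exact hYO X K hK p hp0 hp1 hBd c' N₀ hc' h
  exact (hYI (fun n => X.gg p n x t) C C₂ hCt hC₂ (fun n => hA n x t)
    (fun m m' => hB m m' x t)).2 hT

end Pool.Agent.Work.MP_c58d8b_pr.PG
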