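import Pool.Agent.Work.MP_c58d8b_pr.PG.Stmts

/-!
# MP_c58d8b_pr, block PG, item YR (helper23): the vertices which are not descendants
-/

set_option autoImplicit false

namespace Pool.Agent.Work.MP_c58d8b_pr.PG

open MeasureTheory ProbabilityTheory Set Filter Topology
open scoped ENNReal unitInterval Classical
open Pool.Agent.Work.MP_c58d8b_pr.SO Pool.Agent.Work.MP_c58d8b_pr.PT

universe u

namespace IX_YR

theorem tsum_ite_set {α : Type u} (F : Set α) [DecidablePred (· ∈ F)] (hF : F.Finite)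
    (c : ℝ≥0∞) :
    ∑' y : α, (if y ∈ F then c else 0) = (F.ncard : ℝ≥0∞) * c := by
  rw [tsum_eq_sum (s := hF.toFinset)]
  · rw [Finset.sum_congr rfl (g := fun _ => c) (fun y hy => if_pos (hF.mem_toFinset.1 hy)),
      Finset.sum_const, nsmul_eq_mul, Set.ncard_eq_toFinset_card F hF]
  · intro y hy
    exact if_neg fun h => hy (hF.mem_toFinset.2 h)

theorem exits (hKX : StKX.{u}) (X : Sg.{u}) (Δ D : ℕ) (hC : X.Const Δ D) (z0 : X.T')
    (w : X.T × X.T') (hw : w ∉ X.Dn z0) (z : X.T × X.T') (hz : z ∈ X.Dn z0)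
    (hadj : X.G.Adj z w) : td X.par' z0 w.2 ≤ D := by
  have h1 := (hC.jmp z w hadj).2
  have h2 := (hKX X.T' X.par' X.h' X.b X.tr').1 z0 z.2 w.2 hz hw
  omega

/-- vertices in the ball around `z0` -/
theorem ball_sum (hRB : StRB.{u}) (X : Sg.{u}) (D : ℕ) (z0 : X.T') (c : ℝ≥0∞) :
    ∑' y : X.T', (if td X.par' z0 y ≤ D then c else 0) ≤
      ((∑ r ∈ Finset.range (D + 1), 2 * X.b ^ r : ℕ) : ℝ≥0∞) * c := by
  have hpt : ∀ y : X.T', (if td X.par' z0 y ≤ D then c else 0) ≤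
      ∑ r ∈ Finset.range (D + 1), (if y ∈ {y | td X.par' z0 y = r} then c else 0) := by
    intro y
    split_ifs with h
    · calc c = (if y ∈ {y' | td X.par' z0 y' = td X.par' z0 y} then c else 0) :=
            (if_pos rfl).symm
        _ ≤ _ := Finset.single_le_sum
            (f := fun r => if y ∈ {y' | td X.par' z0 y' = r} then c else 0)
            (fun _ _ => bot_le) (Finset.mem_range.2 (by omega))
    · exact bot_le
  refine (ENNReal.tsum_le_tsum hpt).trans ?_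
  rw [Summable.tsum_finsetSum (fun i _ => ENNReal.summable), Nat.cast_sum, Finset.sum_mul]
  refine Finset.sum_le_sum fun r _ => ?_
  have hB := hRB X.T' X.par' X.h' X.b X.tr'
  have hf : {y | td X.par' z0 y = r}.Finite :=
    (hB.2.2.2.2.2.2.2.2.1 z0 r).subset fun y hy => le_of_eq hy
  rw [tsum_ite_set _ hf]
  refine mul_le_mul' ?_ le_rfl
  exact_mod_cast hB.2.2.2.2.2.2.2.2.2 z0 r

theorem near (hQF : StQF.{u}) (hRB : StRB.{u}) (X : Sg.{u}) (p : ℝ) (hp0 : 0 ≤ p) (hp1 : p ≤ 1)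
    (r : ℕ) (c : ℝ) (hc : 0 < c)
    (hH : ∀ u v, v ∈ X.Bl r u → ENNReal.ofReal c ≤ tt X.G p u v) (u v : X.T × X.T')
    (s : X.T) (y y' : X.T') (hy : td X.par' y y' ≤ r) :
    tt X.G p u (s, y) * tt X.G p (s, y) v ≤ (ENNReal.ofReal c)⁻¹ ^ 2 *
      (tt X.G p u (s, y') * tt X.G p (s, y') v) := by
  have hF := hQF _ X.G p hp0 hp1
  have hT := hRB X.T X.par X.h X.a X.tr
  have h1 : ENNReal.ofReal c ≤ tt X.G p (s, y) (s, y') := by
    refine hH _ _ ⟨?_, hy⟩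
    show td X.par s s ≤ r
    rw [(hT.1 s s).2 rfl]
    exact Nat.zero_le _
  have hc0 : ENNReal.ofReal c ≠ 0 := by
    rw [Ne, ENNReal.ofReal_eq_zero, not_le]
    exact hc
  have key : ∀ a b : ℝ≥0∞, ENNReal.ofReal c * a ≤ b → a ≤ (ENNReal.ofReal c)⁻¹ * b := by
    intro a b h
    calc a = (ENNReal.ofReal c)⁻¹ * (ENNReal.ofReal c * a) := by
          rw [← mul_assoc, ENNReal.inv_mul_cancel hc0 ENNReal.ofReal_ne_top, one_mul]
      _ ≤ _ := mul_le_mul' le_rfl h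
  have h2 : tt X.G p u (s, y) ≤ (ENNReal.ofReal c)⁻¹ * tt X.G p u (s, y') := by
    apply key
    calc ENNReal.ofReal c * tt X.G p u (s, y)
        ≤ tt X.G p (s, y) (s, y') * tt X.G p u (s, y) := mul_le_mul' h1 le_rfl
      _ = tt X.G p u (s, y) * tt X.G p (s, y) (s, y') := mul_comm _ _
      _ ≤ _ := hF.2.2.2.1 _ _ _
  have h3 : tt X.G p (s, y) v ≤ (ENNReal.ofReal c)⁻¹ * tt X.G p (s, y') v := by
    apply key
    calc ENNReal.ofReal c * tt X.G p (s, y) v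
        ≤ tt X.G p (s, y) (s, y') * tt X.G p (s, y) v := mul_le_mul' h1 le_rfl
      _ = tt X.G p (s, y') (s, y) * tt X.G p (s, y) v := by rw [hF.2.2.1 (s, y) (s, y')]
      _ ≤ _ := hF.2.2.2.1 _ _ _
  calc tt X.G p u (s, y) * tt X.G p (s, y) v
      ≤ ((ENNReal.ofReal c)⁻¹ * tt X.G p u (s, y')) *
        ((ENNReal.ofReal c)⁻¹ * tt X.G p (s, y') v) := mul_le_mul' h2 h3
    _ = _ := by ring

theorem qu_bound (hQF : StQF.{u}) (hQU : StQU.{u}) (hRB : StRB.{u}) (hKX : StKX.{u}) (X : Sg.{u})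
    (Δ D : ℕ) (hC : X.Const Δ D) (p : ℝ) (hp0 : 0 ≤ p) (hp1 : p ≤ 1) (c : ℝ) (hc : 0 < c)
    (hH : ∀ u v, v ∈ X.Bl (D + 1) u → ENNReal.ofReal c ≤ tt X.G p u v) (z0 : X.T')
    (u v : X.T × X.T') (hu : u ∈ X.Dn z0) (hv : v ∉ X.Dn z0) :
    tt X.G p u v ≤ (Δ * (((∑ r ∈ Finset.range (D + 1), 2 * X.b ^ r : ℕ) : ℝ≥0∞) *
      (ENNReal.ofReal c)⁻¹ ^ 2)) * ∑' r : X.T,
      tt X.G p u (r, X.up 1 z0) * tt X.G p (r, X.up 1 z0) v := by
  refine (hQU _ X.G X.lf Δ hC.deg (X.Dn z0) u v p hp0 hp1 hu hv).trans ?_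
  rw [mul_assoc (Δ : ℝ≥0∞)]
  refine mul_le_mul' le_rfl ?_
  have hB := hRB X.T' X.par' X.h' X.b X.tr'
  have hpt : ∀ w : X.T × X.T', (if w ∉ X.Dn z0 ∧ ∃ z ∈ X.Dn z0, X.G.Adj z w then
      tt (within X.G (insert w (X.Dn z0))) p u w * tt X.G p w v else 0) ≤
      (if td X.par' z0 w.2 ≤ D then (ENNReal.ofReal c)⁻¹ ^ 2 *
        (tt X.G p u (w.1, X.up 1 z0) * tt X.G p (w.1, X.up 1 z0) v) else 0) := by
    intro w
    split_ifs with hw hw' hw'
    · have h1 : tt (within X.G (insert w (X.Dn z0))) p u w ≤ tt X.G p u w := by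
        refine (hQF _ (within X.G (insert w (X.Dn z0))) p hp0 hp1).2.2.2.2.2.2.1 X.G p ?_ le_rfl
          hp1 u w
        intro a b hab
        exact hab.1
      have h2 : td X.par' w.2 (X.up 1 z0) ≤ D + 1 := by
        have h3 := hB.2.2.1 w.2 z0 (X.up 1 z0)
        have h4 : td X.par' z0 (X.up 1 z0) = 1 := hB.2.2.2.2.2.1 z0 1
        rw [hB.2.1 w.2 z0] at h3
        omega
      calc tt (within X.G (insert w (X.Dn z0))) p u w * tt X.G p w v
          ≤ tt X.G p u (w.1, w.2) * tt X.G p (w.1, w.2) v := mul_le_mul' h1 le_rfl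
        _ ≤ _ := near hQF hRB X p hp0 hp1 (D + 1) c hc hH u v w.1 w.2 (X.up 1 z0) h2
    · obtain ⟨hw1, z, hz, hadj⟩ := hw
      exact absurd (exits hKX X Δ D hC z0 w hw1 z hz hadj) hw'
    · exact bot_le
    · exact le_rfl
  refine (ENNReal.tsum_le_tsum hpt).trans ?_
  rw [ENNReal.tsum_prod', ← ENNReal.tsum_mul_left]
  refine ENNReal.tsum_le_tsum fun r => ?_
  refine (ball_sum hRB X D z0 ((ENNReal.ofReal c)⁻¹ ^ 2 *
    (tt X.G p u (r, X.up 1 z0) * tt X.G p (r, X.up 1 z0) v))).trans (le_of_eq ?_)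
  ring

theorem sqrt_ineq (b n j i : ℕ) (hb : 1 ≤ b) :
    √(b : ℝ) ^ ((n : ℤ) - j) ≤
      ((b : ℝ) ^ j)⁻¹ * (√(b : ℝ) ^ (n + i) * √(b : ℝ) ^ (j + i)) := by
  have hb' : (1 : ℝ) ≤ b := by exact_mod_cast hb
  have h1 : 1 ≤ √(b : ℝ) := by
    rw [← Real.sqrt_one]
    exact Real.sqrt_le_sqrt hb'
  have h0 : 0 < √(b : ℝ) := by linarith
  have h2 : (b : ℝ) ^ j = √(b : ℝ) ^ j * √(b : ℝ) ^ j := by
    rw [← mul_pow, Real.mul_self_sqrt (by positivity)]
  rw [zpow_sub₀ h0.ne', zpow_natCast, zpow_natCast, h2, pow_add, pow_add]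
  have h3 : 0 < √(b : ℝ) ^ j := by positivity
  have h4 : 1 ≤ √(b : ℝ) ^ i := one_le_pow₀ h1
  have h5 : (√(b : ℝ) ^ j * √(b : ℝ) ^ j)⁻¹ * (√(b : ℝ) ^ n * √(b : ℝ) ^ i *
      (√(b : ℝ) ^ j * √(b : ℝ) ^ i)) =
      √(b : ℝ) ^ n / √(b : ℝ) ^ j * (√(b : ℝ) ^ i * √(b : ℝ) ^ i) := by
    field_simp
  rw [h5]
  have h6 : 0 ≤ √(b : ℝ) ^ n / √(b : ℝ) ^ j := by positivity
  nlinarith [mul_le_mul h4 h4 zero_le_one (by positivity : (0 : ℝ) ≤ √(b : ℝ) ^ i)]

theorem weight_ineq (hRA : StRA.{u}) (X : Sg.{u}) (t s r : X.T) (x y : X.T') (n j i : ℕ)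
    (hxy : X.par'^[j] y = X.par'^[n] x) :
    ENNReal.ofReal (X.Om (t, x) (s, y)) ≤ ((X.b : ℝ≥0∞) ^ j)⁻¹ *
      (ENNReal.ofReal (X.om t r * √(X.b : ℝ) ^ (n + i)) *
        ENNReal.ofReal (X.om r s * √(X.b : ℝ) ^ (j + i))) := by
  have hb : 1 ≤ X.b := le_trans (by norm_num) X.tr'.two
  have ha : 1 ≤ X.a := le_trans (by norm_num) X.tr.two
  have hsa : 0 < √(X.a : ℝ) := Real.sqrt_pos.2 (by exact_mod_cast ha)
  have hsb : 0 < √(X.b : ℝ) := Real.sqrt_pos.2 (by exact_mod_cast hb)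
  have hh : X.h' y - X.h' x = (n : ℤ) - j := by
    have h1 := (hRA X.T' X.par' X.h' X.b X.tr').1 j y
    have h2 := (hRA X.T' X.par' X.h' X.b X.tr').1 n x
    rw [hxy] at h1
    linarith
  have hbj : ((X.b : ℝ≥0∞) ^ j)⁻¹ = ENNReal.ofReal (((X.b : ℝ) ^ j)⁻¹) := by
    rw [ENNReal.ofReal_inv_of_pos (by positivity), ENNReal.ofReal_pow (by positivity),
      ENNReal.ofReal_natCast]
  have hom : X.om t s = X.om t r * X.om r s := by
    unfold Sg.om
    rw [← zpow_add₀ hsa.ne']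
    congr 1
    ring
  have homp : ∀ t s, 0 < X.om t s := fun t s => zpow_pos hsa _
  have hOm : X.Om (t, x) (s, y) = X.om t s * √(X.b : ℝ) ^ ((n : ℤ) - j) := by
    unfold Sg.Om Sg.om
    rw [hh]
  rw [hbj, ← ENNReal.ofReal_mul (by have := homp t r; positivity),
    ← ENNReal.ofReal_mul (by positivity), hOm, hom]
  apply ENNReal.ofReal_le_ofReal
  have h1 := sqrt_ineq X.b n j i hb
  have h2 := mul_pos (homp t r) (homp r s)
  calc X.om t r * X.om r s * √(X.b : ℝ) ^ ((n : ℤ) - j)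
      ≤ X.om t r * X.om r s *
        (((X.b : ℝ) ^ j)⁻¹ * (√(X.b : ℝ) ^ (n + i) * √(X.b : ℝ) ^ (j + i))) :=
        mul_le_mul_of_nonneg_left h1 h2.le
    _ = _ := by ring

end IX_YR

theorem pg_YR (hQF : StQF.{u}) (hQU : StQU.{u}) (hRA : StRA.{u}) (hRB : StRB.{u})
    (hKX : StKX.{u}) (hKA : StKA.{u}) (hKD : StKD.{u}) (hKH : StKH.{u}) : StYR.{u} := by
  intro X p hp hp1
  have hp0 : 0 ≤ p := hp.le
  obtain ⟨Δ, D, hC⟩ := hKA X
  obtain ⟨P, c, -, hc, -, hH⟩ := hKH X p hp hp1 (D + 1)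
  have hH' : ∀ u v, v ∈ X.Bl (D + 1) u → ENNReal.ofReal c ≤ tt X.G p u v :=
    fun u v h => (hH u v h).2
  have hc0 : ENNReal.ofReal c ≠ 0 := by
    rw [Ne, ENNReal.ofReal_eq_zero, not_le]
    exact hc
  set C : ℝ≥0∞ := (Δ * (((∑ r ∈ Finset.range (D + 1), 2 * X.b ^ r : ℕ) : ℝ≥0∞) *
      (ENNReal.ofReal c)⁻¹ ^ 2)) with hCdef
  have hCtop : C ≠ ⊤ := by
    rw [hCdef]
    exact ENNReal.mul_ne_top (ENNReal.natCast_ne_top _) (ENNReal.mul_ne_top
      (ENNReal.natCast_ne_top _) (ENNReal.pow_ne_top (ENNReal.inv_ne_top.2 hc0)))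
  refine ⟨C, hCtop, ?_⟩
  intro x t
  have hb0 : (X.b : ℝ≥0∞) ≠ 0 := by
    have : 2 ≤ X.b := X.tr'.two
    exact_mod_cast (by omega : X.b ≠ 0)
  set A : ℕ → X.T → ℝ≥0∞ := fun N r =>
    ENNReal.ofReal (X.om t r * √(X.b : ℝ) ^ N) * tt X.G p (t, x) (r, X.up N x) with hA
  set B : ℕ → X.T → X.T → ℝ≥0∞ := fun N r s =>
    ENNReal.ofReal (X.om r s * √(X.b : ℝ) ^ N) * tt X.G p (r, x) (s, X.up N x) with hB
  set g : ℕ → ℝ≥0∞ := fun N => X.gg p N x t with hg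
  have hAsum : ∀ N, ∑' r, A N r = g N := fun N => rfl
  have hBsum : ∀ N r, ∑' s, B N r s = g N := fun N r =>
    (hKD X p hp0 hp1).2.2.2.1 N x r x t
  -- the bound for one vertex
  set Φ : ℕ → ℕ → X.T → ℝ≥0∞ := fun n j s =>
    C * ∑' r, A n r * B j r s with hΦ
  have hvert : ∀ (s : X.T) (y : X.T'), y ∉ desc X.par' x → ∃ n j : ℕ,
      X.par'^[j] y = X.par'^[n] x ∧
      ENNReal.ofReal (X.Om (t, x) (s, y)) * tt X.G p (t, x) (s, y) ≤
        ((X.b : ℝ≥0∞) ^ j)⁻¹ * Φ n j s := by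
    intro s y hy
    have hex : ∃ n, y ∈ desc X.par' (X.up n x) := by
      obtain ⟨m, k, hmk⟩ := X.tr'.common x y
      exact ⟨m, k, hmk.symm⟩
    set n := Nat.find hex with hn
    have hn1 : y ∈ desc X.par' (X.up n x) := Nat.find_spec hex
    have hn0 : n ≠ 0 := by
      intro h0
      rw [h0] at hn1
      exact hy hn1
    have hnm : y ∉ desc X.par' (X.up (n - 1) x) :=
      Nat.find_min hex (by omega)
    obtain ⟨j, hj⟩ := hn1
    refine ⟨n, j, hj, ?_⟩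
    have hq := IX_YR.qu_bound hQF hQU hRB hKX X Δ D hC p hp0 hp1 c hc hH' (X.up (n - 1) x) (t, x) (s, y)
      ((hRA X.T' X.par' X.h' X.b X.tr').2.2.2.2.1 x (n - 1)).2 hnm
    refine (mul_le_mul' le_rfl hq).trans ?_
    rw [hΦ]
    simp only
    rw [← hCdef, mul_left_comm _ C, mul_left_comm _ C]
    refine mul_le_mul' le_rfl ?_
    rw [← ENNReal.tsum_mul_left, ← ENNReal.tsum_mul_left]
    refine ENNReal.tsum_le_tsum fun r => ?_
    have e1 : X.up 1 (X.up (n - 1) x) = X.up n x := by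
      unfold Sg.up
      rw [← Function.iterate_add_apply, show 1 + (n - 1) = n by omega]
    have e2 : X.up n x = X.up j y := hj.symm
    have e3 : tt X.G p (r, X.up n x) (s, y) = tt X.G p (r, x) (s, X.up j x) := by
      rw [(hQF _ X.G p hp0 hp1).2.2.1, e2]
      exact (hKD X p hp0 hp1).1 j y s r x r s
        ((hRB X.T X.par X.h X.a X.tr).2.1 s r)
    rw [e1, e3, hA, hB]
    simp only
    have hw := IX_YR.weight_ineq hRA X t s r x y n j 0 hj
    simp only [Nat.add_zero] at hw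
    calc ENNReal.ofReal (X.Om (t, x) (s, y)) *
        (tt X.G p (t, x) (r, X.up n x) * tt X.G p (r, x) (s, X.up j x))
        ≤ (((X.b : ℝ≥0∞) ^ j)⁻¹ *
          (ENNReal.ofReal (X.om t r * √(X.b : ℝ) ^ n) *
          ENNReal.ofReal (X.om r s * √(X.b : ℝ) ^ j))) *
          (tt X.G p (t, x) (r, X.up n x) * tt X.G p (r, x) (s, X.up j x)) :=
          mul_le_mul' hw le_rfl
      _ = _ := by ring
  -- the sum over `y` for fixed `s`
  have hsum1 : ∀ s : X.T, ∑' y : X.T', (if y ∉ desc X.par' x then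
      ENNReal.ofReal (X.Om (t, x) (s, y)) * tt X.G p (t, x) (s, y) else 0) ≤
      ∑' n : ℕ, ∑' j : ℕ, Φ n j s := by
    intro s
    have h1 : ∀ y : X.T', (if y ∉ desc X.par' x then
        ENNReal.ofReal (X.Om (t, x) (s, y)) * tt X.G p (t, x) (s, y) else 0) ≤
        ∑' n : ℕ, ∑' j : ℕ, (if y ∈ {y | X.par'^[j] y = X.par'^[n] x} then
          ((X.b : ℝ≥0∞) ^ j)⁻¹ * Φ n j s else 0) := by
      intro y
      by_cases hy : y ∉ desc X.par' x
      · rw [if_pos hy]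
        obtain ⟨n, j, hj, hle⟩ := hvert s y hy
        refine hle.trans ?_
        refine le_trans ?_ (ENNReal.le_tsum n)
        refine le_trans ?_ (ENNReal.le_tsum j)
        rw [if_pos (show y ∈ {y | X.par'^[j] y = X.par'^[n] x} from hj)]
      · rw [if_neg hy]
        exact bot_le
    refine (ENNReal.tsum_le_tsum h1).trans ?_
    rw [ENNReal.tsum_comm]
    refine ENNReal.tsum_le_tsum fun n => ?_
    rw [ENNReal.tsum_comm]
    refine ENNReal.tsum_le_tsum fun j => ?_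
    obtain ⟨hf, hc⟩ := (hRA X.T' X.par' X.h' X.b X.tr').2.2.1 j (X.par'^[n] x)
    rw [IX_YR.tsum_ite_set _ hf, hc, ← mul_assoc]
    have h2 : ((X.b ^ j : ℕ) : ℝ≥0∞) * ((X.b : ℝ≥0∞) ^ j)⁻¹ = 1 := by
      push_cast
      exact ENNReal.mul_inv_cancel (pow_ne_zero _ hb0)
        (ENNReal.pow_ne_top (ENNReal.natCast_ne_top _))
    rw [h2, one_mul]
  -- everything
  calc ∑' v : X.T × X.T', (if v.2 ∉ desc X.par' x then
        ENNReal.ofReal (X.Om (t, x) v) * tt X.G p (t, x) v else 0)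
      = ∑' s : X.T, ∑' y : X.T', (if y ∉ desc X.par' x then
        ENNReal.ofReal (X.Om (t, x) (s, y)) * tt X.G p (t, x) (s, y) else 0) :=
        ENNReal.tsum_prod'
    _ ≤ ∑' s : X.T, ∑' n : ℕ, ∑' j : ℕ, Φ n j s := ENNReal.tsum_le_tsum hsum1
    _ = ∑' n : ℕ, ∑' j : ℕ, ∑' s : X.T, Φ n j s := by
        rw [ENNReal.tsum_comm]
        exact tsum_congr fun n => ENNReal.tsum_comm
    _ = ∑' n : ℕ, ∑' j : ℕ, C * (g n * g j) := by
        refine tsum_congr fun n => tsum_congr fun j => ?_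
        rw [hΦ]
        simp only
        rw [ENNReal.tsum_mul_left]
        congr 1
        rw [ENNReal.tsum_comm]
        have h3 : ∀ r, ∑' s, A n r * B j r s = A n r * g j := by
          intro r
          rw [ENNReal.tsum_mul_left, hBsum]
        rw [tsum_congr h3, ENNReal.tsum_mul_right, hAsum]
    _ = C * ((∑' n, g n) * ∑' j, g j) := by
        have h4 : ∀ n : ℕ, ∑' j : ℕ, C * (g n * g j) = C * (g n * ∑' j, g j) := by
          intro n
          rw [ENNReal.tsum_mul_left, ENNReal.tsum_mul_left]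
        rw [tsum_congr h4, ENNReal.tsum_mul_left, ENNReal.tsum_mul_right]
    _ = C * (∑' n, X.gg p n x t) ^ 2 := by
        rw [sq]

end Pool.Agent.Work.MP_c58d8b_pr.PG
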