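import Pool.Agent.Work.MP_c58d8b_pr.PG.Stmts

/-!
# MP_c58d8b_pr, block PG, item YS: `v_n` is supermultiplicative up to a constant
-/

set_option autoImplicit false

namespace Pool.Agent.Work.MP_c58d8b_pr.PG

open MeasureTheory ProbabilityTheory Set Filter Topology
open scoped ENNReal unitInterval Classical
open Pool.Agent.Work.MP_c58d8b_pr.SO Pool.Agent.Work.MP_c58d8b_pr.PT

universe u

namespace IX_YS

theorem up_up (X : Sg.{u}) (m n : ℕ) (x : X.T') : X.up m (X.up n x) = X.up (n + m) x := by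
  show X.par'^[m] (X.par'^[n] x) = X.par'^[n + m] x
  rw [add_comm n m, Function.iterate_add_apply]

theorem within_mono {V : Type u} (G : SimpleGraph V) {W W' : Set V} (h : W ⊆ W') :
    within G W ≤ within G W' := by
  intro x y hxy
  exact ⟨hxy.1, h hxy.2.1, h hxy.2.2⟩

end IX_YS

open IX_YS in
theorem pg_YS (hQE : StQE.{u}) (hQF : StQF.{u}) (hRA : StRA.{u}) (hRB : StRB.{u}) (hKX : StKX.{u})
    (hKF : StKF.{u}) (hKH : StKH.{u}) : StYS.{u} := by
  intro X K p hp0 hp1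
  obtain ⟨P, c, hP, hc0, hc1, hKH'⟩ := hKH X p hp0 hp1 (2 * K)
  refine ⟨c, 2 * K + P + 1, hc0, ?_⟩
  intro n n' hn hn' x t s r
  obtain ⟨ra1, -, -, ra4, ra5, -⟩ := hRA X.T' X.par' X.h' X.b X.tr'
  obtain ⟨-, -, -, -, -, rb6, -⟩ := hRB X.T' X.par' X.h' X.b X.tr'
  obtain ⟨rz, -⟩ := hRB X.T X.par X.h X.a X.tr
  obtain ⟨-, kx2⟩ := hKX X.T' X.par' X.h' X.b X.tr'
  obtain ⟨-, kf2, -, -, -, kf6⟩ := hKF X
  -- descendants
  have hdm : ∀ (y : X.T') (m m' : ℕ), m ≤ m' → desc X.par' (X.up m y) ⊆ desc X.par' (X.up m' y) := by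
    intro y m m' hm
    refine (ra4 (X.up m' y) (X.up m y) ?_).1
    obtain ⟨j, rfl⟩ := Nat.exists_eq_add_of_le hm
    rw [← up_up]
    exact (ra5 (X.up m y) j).2
  -- regions
  have hup : X.up n' (X.up n x) = X.up (n + n') x := up_up X n' n x
  have hW1 : X.vr n x ⊆ X.vr (n + n') x := by
    rintro v ⟨h1, h2⟩
    refine ⟨h1, fun h => h2 ?_⟩
    rw [← hup] at h
    exact kf2 (X.up n x) n' h
  have hW2 : X.vr n' (X.up n x) ⊆ X.vr (n + n') x := by
    rintro v ⟨h1, h2⟩
    refine ⟨kf2 x n h1, ?_⟩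
    rw [← hup]
    exact h2
  have hBl : X.Bl P (s, X.up (n - K) x) ⊆ X.vr (n + n') x := by
    rintro v ⟨-, h2⟩
    obtain ⟨h3, h4⟩ := kx2 (X.up (n - K) x) v.2 P h2
    have h5 : X.h' (X.up (n - K) x) = X.h' x + ((n - K : ℕ) : ℤ) := ra1 (n - K) x
    have h6 : X.h' x < X.h' v.2 := by
      rw [h5, abs_le] at h4
      have h7 := h4.1
      omega
    refine kf6 x (n + n') v ?_ h6
    show v.2 ∈ desc X.par' (X.up (n + n') x)
    have h8 : v.2 ∈ desc X.par' (X.up (n - K + P) x) := by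
      rw [← up_up]
      exact h3
    exact hdm x (n - K + P) (n + n') (by omega) h8
  -- the middle connection
  have hmid : (s, X.up (n + K) x) ∈ X.Bl (2 * K) (s, X.up (n - K) x) := by
    constructor
    · show td X.par s s ≤ 2 * K
      rw [(rz s s).2 rfl]
      exact Nat.zero_le _
    · show td X.par' (X.up (n - K) x) (X.up (n + K) x) ≤ 2 * K
      have e : X.up (n + K) x = X.par'^[2 * K] (X.up (n - K) x) := by
        have e1 : X.up (2 * K) (X.up (n - K) x) = X.up (n - K + 2 * K) x := up_up X (2 * K) (n - K) x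
        have e2 : n - K + 2 * K = n + K := by omega
        rw [e2] at e1
        exact e1.symm
      rw [e, rb6]
  have hA : Ach X.G (X.vr (n + n') x) p (s, X.up (n - K) x) (s, X.up (n + K) x) c :=
    ((hKH' _ _ hmid).1 _ hBl).1
  obtain ⟨-, -, -, -, -, -, qe7, -⟩ := hQE (X.T × X.T') X.G p hp0.le hp1
  have k0 : ENNReal.ofReal c ≤ ttW X.G (X.vr (n + n') x) p (s, X.up (n - K) x) (s, X.up (n + K) x) :=
    qe7 _ _ _ _ hA
  obtain ⟨-, -, -, -, -, -, m1, -⟩ := hQF (X.T × X.T') (within X.G (X.vr n x)) p hp0.le hp1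
  obtain ⟨-, -, -, -, -, -, m2, -⟩ :=
    hQF (X.T × X.T') (within X.G (X.vr n' (X.up n x))) p hp0.le hp1
  obtain ⟨-, -, -, m3, -⟩ := hQF (X.T × X.T') (within X.G (X.vr (n + n') x)) p hp0.le hp1
  have k1 := m1 _ p (within_mono X.G hW1) le_rfl hp1 (t, X.up K x) (s, X.up (n - K) x)
  have k2 := m2 _ p (within_mono X.G hW2) le_rfl hp1 (s, X.up K (X.up n x))
    (r, X.up (n' - K) (X.up n x))
  have e1 : X.up K (X.up n x) = X.up (n + K) x := up_up X K n x
  have e2 : X.up (n' - K) (X.up n x) = X.up (n + n' - K) x := by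
    rw [up_up]
    congr 1
    omega
  rw [e1, e2] at k2
  have k3 := m3 (t, X.up K x) (s, X.up (n - K) x) (s, X.up (n + K) x)
  have k4 := m3 (t, X.up K x) (s, X.up (n + K) x) (r, X.up (n + n' - K) x)
  unfold Sg.vv
  rw [e1, e2]
  unfold ttW at k0 ⊢
  calc ENNReal.ofReal c * (tt (within X.G (X.vr n x)) p (t, X.up K x) (s, X.up (n - K) x) *
        tt (within X.G (X.vr n' (X.up n x))) p (s, X.up (n + K) x) (r, X.up (n + n' - K) x))
      ≤ tt (within X.G (X.vr (n + n') x)) p (s, X.up (n - K) x) (s, X.up (n + K) x) *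
        (tt (within X.G (X.vr (n + n') x)) p (t, X.up K x) (s, X.up (n - K) x) *
        tt (within X.G (X.vr (n + n') x)) p (s, X.up (n + K) x) (r, X.up (n + n' - K) x)) :=
        mul_le_mul' k0 (mul_le_mul' k1 k2)
    _ = (tt (within X.G (X.vr (n + n') x)) p (t, X.up K x) (s, X.up (n - K) x) *
        tt (within X.G (X.vr (n + n') x)) p (s, X.up (n - K) x) (s, X.up (n + K) x)) *
        tt (within X.G (X.vr (n + n') x)) p (s, X.up (n + K) x) (r, X.up (n + n' - K) x) := by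
        ring
    _ ≤ tt (within X.G (X.vr (n + n') x)) p (t, X.up K x) (s, X.up (n + K) x) *
        tt (within X.G (X.vr (n + n') x)) p (s, X.up (n + K) x) (r, X.up (n + n' - K) x) :=
        mul_le_mul' k3 le_rfl
    _ ≤ _ := k4

end Pool.Agent.Work.MP_c58d8b_pr.PG
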