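import Pool.Agent.Work.MP_c58d8b_pr.PG.Stmts

/-!
# MP_c58d8b_pr, block PG, item YT: a good finite set
-/

set_option autoImplicit false

namespace Pool.Agent.Work.MP_c58d8b_pr.PG

open MeasureTheory ProbabilityTheory Set Filter Topology
open scoped ENNReal unitInterval Classical
open Pool.Agent.Work.MP_c58d8b_pr.SO Pool.Agent.Work.MP_c58d8b_pr.PT

universe u

namespace IX_YT

/-- Summation over the boundary edges. -/
theorem boundary_sum {V : Type u} [DecidableEq V] (H : SimpleGraph V) (hmem : ∀ x y, y ∈ nb H x ↔ H.Adj x y)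
    (Δ : ℕ) (hdeg : ∀ x, (nb H x).card ≤ Δ) (S : Finset V) (f : V → ℝ≥0∞) :
    ∑ z ∈ S, ∑ w ∈ (nb H z).filter (· ∉ S), f w ≤ Δ * ∑' b : {x // x ∉ S}, f b := by
  set W : Finset V := S.biUnion fun z => (nb H z).filter (· ∉ S) with hW
  have hsw : ∑ z ∈ S, ∑ w ∈ (nb H z).filter (· ∉ S), f w =
      ∑ w ∈ W, ∑ z ∈ S.filter (fun z => w ∈ nb H z), f w := by
    apply Finset.sum_comm'
    intro z w
    simp only [hW, Finset.mem_biUnion, Finset.mem_filter]
    constructor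
    · rintro ⟨h1, h2, h3⟩
      exact ⟨⟨h1, h2⟩, z, h1, h2, h3⟩
    · rintro ⟨⟨h1, h2⟩, z', h1', h2', h3'⟩
      exact ⟨h1, h2, h3'⟩
  rw [hsw]
  have h1 : ∀ w ∈ W, ∑ z ∈ S.filter (fun z => w ∈ nb H z), f w ≤ Δ * f w := by
    intro w _
    rw [Finset.sum_const, nsmul_eq_mul]
    gcongr
    refine le_trans (Finset.card_le_card ?_) (hdeg w)
    intro z hz
    rw [Finset.mem_filter] at hz
    rw [hmem]
    exact ((hmem z w).1 hz.2).symm
  refine (Finset.sum_le_sum h1).trans ?_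
  rw [← Finset.mul_sum]
  gcongr
  have h2 : ∀ w ∈ W, w ∉ S := by
    intro w hw
    simp only [hW, Finset.mem_biUnion, Finset.mem_filter] at hw
    obtain ⟨z, _, _, h⟩ := hw
    exact h
  calc ∑ w ∈ W, f w = ∑ w ∈ W.subtype (· ∉ S), f w :=
        (Finset.sum_subtype_of_mem f h2).symm
    _ ≤ ∑' b : {x // x ∉ S}, f b := ENNReal.sum_le_tsum _

end IX_YT

theorem pg_YT (hWB : SO.StWB.{u}) (hQA : StQA.{u}) (hQB : StQB.{u}) (hQF : StQF.{u})
    (hKA : StKA.{u}) : StYT.{u} := by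
  intro X p u hp hp1 hXX
  obtain ⟨Δ, L, hC⟩ := hKA X
  obtain ⟨hmem, -⟩ := hWB _ X.G X.lf
  obtain ⟨hA1, -⟩ := hQA _ X.G p hp hp1.le
  obtain ⟨-, -, -, hF4, hF5, hF6, -⟩ := hQF _ X.G p hp hp1.le
  obtain ⟨-, hcont⟩ := hQB (X.T × X.T')
  set f : X.T × X.T' → ℝ≥0∞ := fun w => ENNReal.ofReal (X.Om u w) * tt X.G p u w with hf
  have hfs : ∑' w, f w ≠ ⊤ := hXX
  have hlim := ENNReal.tendsto_tsum_compl_atTop_zero hfs
  have hε : (0 : ℝ≥0∞) < (Δ + 1 : ℝ≥0∞)⁻¹ := by
    rw [ENNReal.inv_pos]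
    exact ENNReal.add_ne_top.2 ⟨ENNReal.natCast_ne_top Δ, ENNReal.one_ne_top⟩
  obtain ⟨S₀, hS₀⟩ := eventually_atTop.1 (hlim.eventually (gt_mem_nhds hε))
  refine ⟨insert u S₀, Finset.mem_insert_self _ _, ?_⟩
  set S := insert u S₀ with hS
  have hsm : ∑' b : {x // x ∉ S}, f b < (Δ + 1 : ℝ≥0∞)⁻¹ := hS₀ S (Finset.subset_insert _ _)
  have hOm : ∀ v, 0 ≤ X.Om u v := by
    intro v
    unfold Sg.Om
    positivity
  set Φ : ℝ → ℝ := fun q => ∑ z ∈ S, ∑ w ∈ (nb X.G z).filter (· ∉ S),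
    tau X.G q S u z * (q * X.Om u w) with hΦ
  have hcΦ : Continuous Φ := by
    refine continuous_finsetSum _ fun z _ => continuous_finsetSum _ fun w _ => ?_
    exact (hcont X.G S u z).mul (continuous_id.mul continuous_const)
  have hΦp : Φ p < 1 := by
    have hterm : ∀ z ∈ S, ∀ w ∈ (nb X.G z).filter (· ∉ S),
        0 ≤ tau X.G p S u z * (p * X.Om u w) := by
      intro z _ w _
      exact mul_nonneg (hA1 S u z).1 (mul_nonneg hp (hOm w))
    have h1 : ENNReal.ofReal (Φ p) ≤ Δ * ∑' b : {x // x ∉ S}, f b := by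
      rw [hΦ]
      simp only
      have hterm' : ∀ z ∈ S, 0 ≤ ∑ w ∈ (nb X.G z).filter (· ∉ S),
          tau X.G p S u z * (p * X.Om u w) := fun z hz => Finset.sum_nonneg (hterm z hz)
      rw [ENNReal.ofReal_sum_of_nonneg hterm']
      refine le_trans ?_ (IX_YT.boundary_sum X.G hmem Δ hC.deg S f)
      refine Finset.sum_le_sum fun z hz => ?_
      have hz2 : ENNReal.ofReal (∑ w ∈ (nb X.G z).filter (· ∉ S),
          tau X.G p S u z * (p * X.Om u w)) = ∑ w ∈ (nb X.G z).filter (· ∉ S),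
            ENNReal.ofReal (tau X.G p S u z * (p * X.Om u w)) :=
        ENNReal.ofReal_sum_of_nonneg (hterm z hz)
      rw [hz2]
      apply Finset.sum_le_sum
      intro w hw
      rw [Finset.mem_filter] at hw
      have hadj : X.G.Adj z w := (hmem z w).1 hw.1
      rw [ENNReal.ofReal_mul (hA1 S u z).1, ENNReal.ofReal_mul hp, hf]
      calc ENNReal.ofReal (tau X.G p S u z) * (ENNReal.ofReal p * ENNReal.ofReal (X.Om u w))
          = ENNReal.ofReal (X.Om u w) * (ENNReal.ofReal (tau X.G p S u z) * ENNReal.ofReal p) := by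
            ring
        _ ≤ ENNReal.ofReal (X.Om u w) * (tt X.G p u z * tt X.G p z w) := by
            gcongr
            · exact hF6 S u z
            · exact hF5 z w hadj
        _ ≤ ENNReal.ofReal (X.Om u w) * tt X.G p u w := by
            gcongr
            exact hF4 u z w
    have h2 : (Δ : ℝ≥0∞) * ∑' b : {x // x ∉ S}, f b < 1 := by
      have hne : (Δ + 1 : ℝ≥0∞) ≠ 0 := by positivity
      have hnt : (Δ + 1 : ℝ≥0∞) ≠ ⊤ :=
        ENNReal.add_ne_top.2 ⟨ENNReal.natCast_ne_top Δ, ENNReal.one_ne_top⟩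
      calc (Δ : ℝ≥0∞) * ∑' b : {x // x ∉ S}, f b
          ≤ (Δ + 1 : ℝ≥0∞) * ∑' b : {x // x ∉ S}, f b := by
            gcongr
            exact le_self_add
        _ < (Δ + 1 : ℝ≥0∞) * (Δ + 1 : ℝ≥0∞)⁻¹ := by
            exact (ENNReal.mul_lt_mul_iff_right hne hnt).2 hsm
        _ = 1 := ENNReal.mul_inv_cancel hne hnt
    have h3 : ENNReal.ofReal (Φ p) < ENNReal.ofReal 1 := by
      rw [ENNReal.ofReal_one]
      exact h1.trans_lt h2
    exact (ENNReal.ofReal_lt_ofReal_iff one_pos).1 h3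
  have hopen : ∀ᶠ q in 𝓝 p, Φ q < 1 := (hcΦ.tendsto p).eventually (gt_mem_nhds hΦp)
  obtain ⟨δ, hδ, hball⟩ := Metric.eventually_nhds_iff.1 hopen
  refine ⟨p + min (δ / 2) (1 - p), ?_, ?_, ?_⟩
  · have : 0 < min (δ / 2) (1 - p) := lt_min (by linarith) (by linarith)
    linarith
  · have : min (δ / 2) (1 - p) ≤ 1 - p := min_le_right _ _
    linarith
  · refine hball ?_
    have h0 : 0 < min (δ / 2) (1 - p) := lt_min (by linarith) (by linarith)
    have h1 : min (δ / 2) (1 - p) ≤ δ / 2 := min_le_left _ _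
    rw [Real.dist_eq, show p + min (δ / 2) (1 - p) - p = min (δ / 2) (1 - p) by ring,
      abs_of_pos h0]
    linarith

end Pool.Agent.Work.MP_c58d8b_pr.PG
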