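import Pool.Agent.Work.MP_c58d8b_pr.PG.Stmts

/-! # MP_c58d8b_pr, block PG, item YV -/

set_option autoImplicit false

namespace Pool.Agent.Work.MP_c58d8b_pr.PG

open MeasureTheory ProbabilityTheory Set Filter Topology
open scoped ENNReal unitInterval Classical
open Pool.Agent.Work.MP_c58d8b_pr.SO Pool.Agent.Work.MP_c58d8b_pr.PT

universe u

namespace IX_YV

theorem sl_subset (hRA : StRA.{u}) (hKF : StKF.{u}) (X : Sg.{u}) (n : ℕ) (hn : 1 ≤ n)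
    (x : X.T') : X.Sl x (n - 1) 0 ⊆ X.vr n x := by
  intro v hv
  obtain ⟨-, -, -, h4, h5, -⟩ := hRA X.T' X.par' X.h' X.b X.tr'
  obtain ⟨hv1, hv2⟩ := hv
  refine (hKF X).2.2.2.2.2 x n v ?_ (by simpa using hv2)
  have h6 : X.up n x = X.par'^[1] (X.up (n - 1) x) := by
    show X.par'^[n] x = X.par'^[1] (X.par'^[n - 1] x)
    rw [← Function.iterate_add_apply]
    congr 2
    omega
  have h7 : X.up (n - 1) x ∈ desc X.par' (X.up n x) := by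
    rw [h6]
    exact (h5 (X.up (n - 1) x) 1).2
  exact (h4 _ _ h7).1 hv1

end IX_YV

theorem pg_YV (hQE : StQE.{u}) (hRA : StRA.{u}) (hRB : StRB.{u}) (hKD : StKD.{u})
    (hKF : StKF.{u}) : StYV.{u} := by
  intro X K hK p hp0 hp1 e
  obtain ⟨hK1, hK2⟩ := hK
  obtain ⟨n₁, hn₁, hreach⟩ := hK2 e
  refine ⟨n₁, hn₁, fun n hn => ?_⟩
  obtain ⟨⟨t₀, x₀⟩⟩ := X.conn.nonempty
  obtain ⟨s₀, hs₀⟩ := (hRB X.T X.par X.h X.a X.tr).2.2.2.2.2.2.2.1 t₀ e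
  have hd₀ : X.d t₀ s₀ = e := hs₀
  obtain ⟨q1, -, -, -, -, q6, q7, -⟩ := hQE (X.T × X.T') X.G p hp0.le hp1
  obtain ⟨c, hc0, hc1, hc⟩ := q6 hp0 _ _ _ (hreach n hn t₀ s₀ x₀ hd₀)
  have h1 : Ach X.G (X.vr n x₀) p (t₀, X.up K x₀) (s₀, X.up (n - K) x₀) c :=
    q1 _ _ _ _ _ (IX_YV.sl_subset hRA hKF X n (by omega) x₀) hc
  refine ⟨c, hc0, hc1, fun t s x hd => ?_⟩
  have h2 : ENNReal.ofReal c ≤ X.vv p K n x₀ t₀ s₀ := q7 _ _ _ _ h1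
  rw [(hKD X p hp0.le hp1).2.1 K n x t s x₀ t₀ s₀ (hd.trans hd₀.symm)]
  exact h2

end Pool.Agent.Work.MP_c58d8b_pr.PG
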