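import Pool.Agent.Work.MP_c58d8b_pr.PT.All
import Pool.Agent.Work.MP_c58d8b_pr.PG.I_KX
import Pool.Agent.Work.MP_c58d8b_pr.PG.I_KA
import Pool.Agent.Work.MP_c58d8b_pr.PG.I_KB
import Pool.Agent.Work.MP_c58d8b_pr.PG.I_KC
import Pool.Agent.Work.MP_c58d8b_pr.PG.I_KD
import Pool.Agent.Work.MP_c58d8b_pr.PG.I_KE
import Pool.Agent.Work.MP_c58d8b_pr.PG.I_KL
import Pool.Agent.Work.MP_c58d8b_pr.PG.I_KH
import Pool.Agent.Work.MP_c58d8b_pr.PG.I_KJ
import Pool.Agent.Work.MP_c58d8b_pr.PG.I_KK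
import Pool.Agent.Work.MP_c58d8b_pr.PG.I_KU
import Pool.Agent.Work.MP_c58d8b_pr.PG.I_KF
import Pool.Agent.Work.MP_c58d8b_pr.PG.I_KG
import Pool.Agent.Work.MP_c58d8b_pr.PG.I_KI
import Pool.Agent.Work.MP_c58d8b_pr.PG.I_KN
import Pool.Agent.Work.MP_c58d8b_pr.PG.I_KZ
import Pool.Agent.Work.MP_c58d8b_pr.PG.I_KQ
import Pool.Agent.Work.MP_c58d8b_pr.PG.I_KR
import Pool.Agent.Work.MP_c58d8b_pr.PG.I_KS
import Pool.Agent.Work.MP_c58d8b_pr.PG.I_KT
import Pool.Agent.Work.MP_c58d8b_pr.PG.I_KV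
import Pool.Agent.Work.MP_c58d8b_pr.PG.I_KW
import Pool.Agent.Work.MP_c58d8b_pr.PG.I_YA
import Pool.Agent.Work.MP_c58d8b_pr.PG.I_YB
import Pool.Agent.Work.MP_c58d8b_pr.PG.I_YC
import Pool.Agent.Work.MP_c58d8b_pr.PG.I_YD
import Pool.Agent.Work.MP_c58d8b_pr.PG.I_YS
import Pool.Agent.Work.MP_c58d8b_pr.PG.I_YV
import Pool.Agent.Work.MP_c58d8b_pr.PG.I_YF
import Pool.Agent.Work.MP_c58d8b_pr.PG.I_YE
import Pool.Agent.Work.MP_c58d8b_pr.PG.I_YG
import Pool.Agent.Work.MP_c58d8b_pr.PG.I_YH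
import Pool.Agent.Work.MP_c58d8b_pr.PG.I_YI
import Pool.Agent.Work.MP_c58d8b_pr.PG.I_YK
import Pool.Agent.Work.MP_c58d8b_pr.PG.I_YL
import Pool.Agent.Work.MP_c58d8b_pr.PG.I_YM
import Pool.Agent.Work.MP_c58d8b_pr.PG.I_YN
import Pool.Agent.Work.MP_c58d8b_pr.PG.I_YO
import Pool.Agent.Work.MP_c58d8b_pr.PG.I_YQ
import Pool.Agent.Work.MP_c58d8b_pr.PG.I_YP
import Pool.Agent.Work.MP_c58d8b_pr.PG.I_YR
import Pool.Agent.Work.MP_c58d8b_pr.PG.I_YT
import Pool.Agent.Work.MP_c58d8b_pr.PG.I_YU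
import Pool.Agent.Work.MP_c58d8b_pr.PG.I_YW
import Pool.Agent.Work.MP_c58d8b_pr.PG.I_YX
import Pool.Agent.Work.MP_c58d8b_pr.PG.I_YZ

/-!
# MP_c58d8b_pr, block PG: assembly
-/

set_option autoImplicit false

namespace Pool.Agent.Work.MP_c58d8b_pr.PG

open Pool.Agent.Work.MP_c58d8b_pr Pool.Agent.Work.MP_c58d8b_pr.SO Pool.Agent.Work.MP_c58d8b_pr.PT

universe u

theorem all_KX : StKX.{u} := pg_KX PT.all_RA PT.all_RB

theorem all_KA : StKA.{u} := pg_KA PT.all_RC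

theorem all_KB : StKB.{u} := pg_KB NBASICS.prf (NWEIGHT.prf NBASICS.prf)

theorem all_KC : StKC.{u} := pg_KC PT.all_RB PT.all_RC

theorem all_KD : StKD.{u} := pg_KD PT.all_QE PT.all_QF all_KC

theorem all_KE : StKE.{u} := pg_KE PT.all_QA PT.all_QB PT.all_QD PT.all_RB

theorem all_KL : StKL.{u} := pg_KL all_KC

theorem all_KH : StKH.{u} := pg_KH PT.all_QB PT.all_QC PT.all_QD all_KC all_KL

theorem all_KJ : StKJ.{u} := pg_KJ PT.all_RA PT.all_RB PT.all_RC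

theorem all_KK : StKK.{u} := pg_KK PT.all_RA PT.all_RB all_KL all_KJ all_KX

theorem all_KU : StKU.{u} := pg_KU PT.all_RA PT.all_RB all_KX all_KL all_KJ

theorem all_KF : StKF.{u} := pg_KF PT.all_RA all_KK

theorem all_KG : StKG.{u} := pg_KG PT.all_QC PT.all_QD PT.all_RB all_KC all_KF PT.all_QB

theorem all_KI : StKI.{u} := pg_KI PT.all_QA PT.all_QC all_KD

theorem all_KN : StKN.{u} := pg_KN PT.all_QA PT.all_QE PT.all_RA PT.all_RB

theorem all_KZ : StKZ.{u} := pg_KZ SO.all_PB SO.all_PL SO.all_PA SO.all_CB PT.all_FB PT.all_FU PT.all_RA PT.all_RB all_KX all_KC all_KL all_KN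

theorem all_KQ : StKQ := pg_KQ 

theorem all_KR : StKR.{u} := pg_KR PT.all_QA PT.all_QE PT.all_RB all_KI all_KZ all_KQ

theorem all_KS : StKS.{u} := pg_KS PT.all_QB PT.all_QC PT.all_QD PT.all_RC

theorem all_KT : StKT.{u} := pg_KT PT.all_QA PT.all_QB PT.all_QC PT.all_QD

theorem all_KV : StKV.{u} := pg_KV SO.all_WB PT.all_QA PT.all_RA PT.all_RB all_KB all_KS PT.all_IH all_KT

theorem all_KW : StKW.{u} := pg_KW all_KB all_KR all_KV SO.all_D5 SO.all_HV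

theorem all_YA : StYA.{u} := pg_YA PT.all_QF PT.all_RE all_KE

theorem all_YB : StYB.{u} := pg_YB PT.all_QF PT.all_QU PT.all_RA PT.all_RB all_KX all_KA all_KD all_KH all_YA

theorem all_YC : StYC.{u} := pg_YC SO.all_WB PT.all_QC PT.all_QE PT.all_QF PT.all_QU PT.all_RA PT.all_RB all_KX all_KA all_KD all_KF all_KG all_KH

theorem all_YD : StYD.{u} := pg_YD all_KD all_YC

theorem all_YS : StYS.{u} := pg_YS PT.all_QE PT.all_QF PT.all_RA PT.all_RB all_KX all_KF all_KH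

theorem all_YV : StYV.{u} := pg_YV PT.all_QE PT.all_RA PT.all_RB all_KD all_KF

theorem all_YF : StYF.{u} := pg_YF SO.all_PB SO.all_PL SO.all_CB all_KC

theorem all_YE : StYE.{u} := pg_YE SO.all_PB SO.all_PL SO.all_CB PT.all_FA PT.all_FB PT.all_RA PT.all_RB all_KX all_KA all_KC all_KF all_KG all_YF

theorem all_YG : StYG.{u} := pg_YG SO.all_PB SO.all_CB PT.all_QB PT.all_QF PT.all_RB all_KX all_KA all_KE all_KF all_KH

theorem all_YH : StYH.{u} := pg_YH PT.all_RZ all_YE all_YF all_YG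

theorem all_YI : StYI := pg_YI 

theorem all_YK : StYK.{u} := pg_YK PT.all_QF PT.all_RE all_KD all_KE all_YA all_YB all_YD all_YI

theorem all_YL : StYL.{u} := pg_YL PT.all_RB all_YS all_YV

theorem all_YM : StYM.{u} := pg_YM SO.all_PB SO.all_PL SO.all_CB PT.all_FB PT.all_FI PT.all_RB all_KF all_KH

theorem all_YN : StYN.{u} := pg_YN SO.all_PB SO.all_PL SO.all_CB PT.all_FI PT.all_QC PT.all_RA PT.all_RB all_KF all_YH

theorem all_YO : StYO.{u} := pg_YO SO.all_PB PT.all_FE PT.all_QA PT.all_QB PT.all_QF PT.all_RB all_KD all_YM all_YN all_YV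

theorem all_YQ : StYQ.{u} := pg_YQ all_KU all_YA all_YB all_YI all_YK all_YL all_YO

theorem all_YP : StYP.{u} := pg_YP PT.all_QF PT.all_RA PT.all_RB all_KD

theorem all_YR : StYR.{u} := pg_YR PT.all_QF PT.all_QU PT.all_RA PT.all_RB all_KX all_KA all_KD all_KH

theorem all_YT : StYT.{u} := pg_YT SO.all_WB PT.all_QA PT.all_QB PT.all_QF all_KA

theorem all_YU : StYU.{u} := pg_YU SO.all_WB PT.all_QA PT.all_QB PT.all_QC PT.all_QT all_KC

theorem all_YW : StYW.{u} := pg_YW NBASICS.prf SO.all_U2 PT.all_QF PT.all_QP all_KB all_KC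

theorem all_YX : StYX.{u} := pg_YX PT.all_QF all_YP all_YQ all_YR all_YT all_YU all_YW

theorem all_YZ : StYZ.{u} := pg_YZ all_KB all_KE all_KW all_YX

end Pool.Agent.Work.MP_c58d8b_pr.PG
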