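import Pool.Agent.Work.MP_c58d8b_pr.PT.Stmts3

/-!
# MP_c58d8b_pr, block PG (ALL invariant graphs on the product of two trees, one fixed end; captain
helper62): definitions
-/

set_option autoImplicit false

namespace Pool.Agent.Work.MP_c58d8b_pr.PG

open MeasureTheory ProbabilityTheory Set
open scoped ENNReal unitInterval Classical
open Pool.Agent.Work.MP_c58d8b_pr.SO Pool.Agent.Work.MP_c58d8b_pr.PT

universe u

/-- The whole setting: the two trees, the groups `A`, `B` and the graph `G` (no condition on the edges). -/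
structure Sg : Type (u + 1) where
  T : Type u
  par : T → T
  h : T → ℤ
  a : ℕ
  tr : Tr par h a
  T' : Type u
  par' : T' → T'
  h' : T' → ℤ
  b : ℕ
  tr' : Tr par' h' b
  A : Subgroup (Equiv.Perm T)
  iso : ∀ α ∈ A, ∀ x y, td par (α x) (α y) = td par x y
  hom : ∀ x y x₁ y₁, td par x y = td par x₁ y₁ → ∃ α ∈ A, α x = x₁ ∧ α y = y₁
  mov : ∀ x y, ∃ α ∈ A, (∀ z, α (par z) = par (α z)) ∧ α x = y
  B : Subgroup (Equiv.Perm T')
  com' : ∀ β ∈ B, ∀ z, β (par' z) = par' (β z)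
  mov' : ∀ x y, ∃ β ∈ B, β x = y
  G : SimpleGraph (T × T')
  conn : G.Connected
  lf : LocFinite G
  inv : ∀ α ∈ A, ∀ β ∈ B, ∀ u v : T × T', G.Adj (α u.1, β u.2) (α v.1, β v.2) ↔ G.Adj u v

namespace Sg

variable (X : Sg.{u})

/-- The group. -/
def Γ : Subgroup (Equiv.Perm (X.T × X.T')) := prodGrp X.A X.B

/-- The distance in the first tree. -/
noncomputable def d (s t : X.T) : ℕ := td X.par s t

/-- The `n`-th ancestor in the second tree. -/
def up (n : ℕ) (x : X.T') : X.T' := X.par'^[n] x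

/-- `T × desc(x)`. -/
def Dn (x : X.T') : Set (X.T × X.T') := {v | v.2 ∈ desc X.par' x}

/-- The vertices from which, avoiding `T × desc(x)`, one can go to all vertices `(s, x_q)`, `q` large. -/
def Es (x : X.T') : Set (X.T × X.T') := {v | ∃ q₀ : ℕ, ∀ q ≥ q₀, ∀ s : X.T,
  (within X.G (X.Dn x)ᶜ).Reachable v (s, X.up q x)}

/-- The region between `x` and `x_n`. -/
def vr (n : ℕ) (x : X.T') : Set (X.T × X.T') := X.Es x ∩ (X.Es (X.up n x))ᶜ

/-- `{v : v.2 ∈ desc(x_K), h' v.2 > h' x - L}`. -/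
def Sl (x : X.T') (K L : ℕ) : Set (X.T × X.T') :=
  {v | v.2 ∈ desc X.par' (X.up K x) ∧ X.h' x < X.h' v.2 + L}

/-- The bound of the theorem: `Bd p` (in all finite volumes). -/
def Bd (p : ℝ) : Prop := ∀ (S : Finset (X.T × X.T')) (t s : X.T) (x : X.T') (j : ℕ),
  (X.a : ℝ) ^ X.d t s * √(X.b : ℝ) ^ j * tau X.G p S (t, x) (s, X.up j x) ≤ 1

/-- `ω(t, s) = a^((h s - h t) / 2)`. -/
noncomputable def om (t s : X.T) : ℝ := √(X.a : ℝ) ^ (X.h s - X.h t)

/-- `Ω(u, v) = a^((h v.1 - h u.1) / 2) b^((h' v.2 - h' u.2) / 2)`. -/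
noncomputable def Om (u v : X.T × X.T') : ℝ :=
  √(X.a : ℝ) ^ (X.h v.1 - X.h u.1) * √(X.b : ℝ) ^ (X.h' v.2 - X.h' u.2)

/-- The ball of radius `M` around `u` (product of the two tree distances). -/
def Bl (M : ℕ) (u : X.T × X.T') : Set (X.T × X.T') :=
  {v | td X.par u.1 v.1 ≤ M ∧ td X.par' u.2 v.2 ≤ M}

/-- The ball as a finite set. -/
noncomputable def BlF (M : ℕ) (u : X.T × X.T') : Finset (X.T × X.T') :=
  if hf : (X.Bl M u).Finite then hf.toFinset else ∅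

/-- `g_n = ∑_s ω(t, s) b^(n/2) tt((t, x), (s, x_n))`. -/
noncomputable def gg (p : ℝ) (n : ℕ) (x : X.T') (t : X.T) : ℝ≥0∞ :=
  ∑' s : X.T, ENNReal.ofReal (X.om t s * √(X.b : ℝ) ^ n) * tt X.G p (t, x) (s, X.up n x)

/-- `v_n(t, s)`: connection of `(t, x_K)` and `(s, x_(n-K))` in the region between `x` and `x_n`. -/
noncomputable def vv (p : ℝ) (K n : ℕ) (x : X.T') (t s : X.T) : ℝ≥0∞ :=
  ttW X.G (X.vr n x) p (t, X.up K x) (s, X.up (n - K) x)

/-- `g^v_n = ∑_s ω(t, s) b^(n/2) v_n(t, s)`. -/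
noncomputable def gv (p : ℝ) (K n : ℕ) (x : X.T') (t : X.T) : ℝ≥0∞ :=
  ∑' s : X.T, ENNReal.ofReal (X.om t s * √(X.b : ℝ) ^ n) * X.vv p K n x t s

/-- `v_n` in finite volume. -/
noncomputable def vf (p : ℝ) (S : Finset (X.T × X.T')) (K n : ℕ) (x : X.T') (t s : X.T) : ℝ :=
  tau (within X.G (X.vr n x)) p S (t, X.up K x) (s, X.up (n - K) x)

/-- `X(p) = ∑_v Ω(u, v) tt(u, v)`. -/
noncomputable def XX (p : ℝ) (u : X.T × X.T') : ℝ≥0∞ :=
  ∑' v : X.T × X.T', ENNReal.ofReal (X.Om u v) * tt X.G p u v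

/-- The exit probability: the cluster of `(t, x_K)` in `Es x ∩ S` contains a vertex of `Es x_m`;
`u = (t, x)`. -/
noncomputable def ex (p : ℝ) (K : ℕ) (S : Finset (X.T × X.T')) (m : ℕ) (u : X.T × X.T') : ℝ :=
  Pr (EI (within X.G (X.Es u.2)) S) p
    {s | ∃ w ∈ Cluster s (u.1, X.up K u.2), w ∈ X.Es (X.up m u.2)}

/-- The exit probability in the ball of radius `M`. -/
noncomputable def eb (p : ℝ) (K M m : ℕ) (u : X.T × X.T') : ℝ := X.ex p K (X.BlF M u) m u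

/-- Constants: the degree is at most `Δ`, the edges have length at most `D ≥ 1` in both trees. -/
structure Const (Δ D : ℕ) : Prop where
  pos : 1 ≤ Δ ∧ 1 ≤ D
  deg : ∀ u, (nb X.G u).card ≤ Δ
  jmp : ∀ u v : X.T × X.T', X.G.Adj u v → v ∈ X.Bl D u

/-- The property of `K`: paths between `(t, x_K)` and `(s, x_(n-K))` above `x` and below `x_n`. -/
def UpK (K : ℕ) : Prop := 1 ≤ K ∧ ∀ e : ℕ, ∃ n₁ : ℕ, 2 * K ≤ n₁ ∧ ∀ n ≥ n₁, ∀ t s x, X.d t s = e →
  (within X.G (X.Sl x (n - 1) 0)).Reachable (t, X.up K x) (s, X.up (n - K) x)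

end Sg

end Pool.Agent.Work.MP_c58d8b_pr.PG
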