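import Pool.Agent.Work.MP_c58d8b_pr.PG.Stmts

/-!
# MP_c58d8b_pr, block PG, item KK: going up from anywhere
-/

set_option autoImplicit false

namespace Pool.Agent.Work.MP_c58d8b_pr.PG

open MeasureTheory ProbabilityTheory Set Filter Topology
open scoped ENNReal unitInterval Classical
open Pool.Agent.Work.MP_c58d8b_pr.SO Pool.Agent.Work.MP_c58d8b_pr.PT

universe u

namespace IX_KK

theorem within_mono {V : Type u} (G : SimpleGraph V) {A B : Set V} (h : A ⊆ B) :
    within G A ≤ within G B := fun _ _ hxy => ⟨hxy.1, h hxy.2.1, h hxy.2.2⟩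

variable (X : Sg.{u})

theorem up_add (m n : ℕ) (y : X.T') : X.up (m + n) y = X.up m (X.up n y) := by
  unfold Sg.up
  exact Function.iterate_add_apply _ m n y

theorem f_h {k : ℕ} {f : X.T' → X.T'} (hf : ∀ x, X.h' (f x) = X.h' x + k) (i : ℕ) (y : X.T') :
    X.h' (f^[i] y) = X.h' y + (i * k : ℕ) := by
  induction i with
  | zero => simp
  | succ i ih =>
    rw [Function.iterate_succ_apply', hf, ih]
    push_cast
    ring

theorem f_up {k D : ℕ} {f : X.T' → X.T'} (hf : ∀ x, X.up D (f x) = X.up (D + k) x) (i : ℕ)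
    (y : X.T') : X.up D (f^[i] y) = X.up (D + i * k) y := by
  induction i with
  | zero => simp
  | succ i ih =>
    rw [Function.iterate_succ_apply', hf, add_comm D k, up_add, ih, ← up_add]
    congr 1
    ring

end IX_KK

open IX_KK in
theorem pg_KK (hRA : StRA.{u}) (hRB : StRB.{u}) (hKL : StKL.{u}) (hKJ : StKJ.{u})
    (hKX : StKX.{u}) : StKK.{u} := by
  intro X
  obtain ⟨d₀, k, D, hk1, hkD, f, hf, hadj⟩ := hKJ X
  obtain ⟨hzero, hsym, htri, -, hle, hpar, hmid, hex, -⟩ := hRB X.T X.par X.h X.a X.tr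
  obtain ⟨hzero', hsym', htri', -, hle', hpar', -, -, -⟩ := hRB X.T' X.par' X.h' X.b X.tr'
  obtain ⟨hht, -⟩ := hRA X.T' X.par' X.h' X.b X.tr'
  obtain ⟨-, hKX2⟩ := hKX X.T' X.par' X.h' X.b X.tr'
  obtain ⟨P, hrP, hP⟩ := hKL X (2 * D + 2 * k + 1)
  refine ⟨P + 2 * k + 2, ?_⟩
  rintro ⟨t, y⟩ q hq s
  set R : Set (X.T × X.T') := {w | X.h' y ≤ X.h' w.2} with hR
  change (within X.G R).Reachable (t, y) (s, X.up q y)
  have hfh := f_h X (fun x => (hf x).1)
  have hfu := f_up X (fun x => (hf x).2)
  -- local paths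
  have hloc : ∀ u v : X.T × X.T', v ∈ X.Bl (2 * D + 2 * k + 1) u → X.h' y + P ≤ X.h' u.2 →
      (within X.G R).Reachable u v := by
    intro u v hv hu
    refine (hP u v hv).mono (within_mono X.G ?_)
    intro w hw
    have h1 := (hKX2 u.2 w.2 P hw.2).2
    rw [abs_le] at h1
    change X.h' y ≤ X.h' w.2
    linarith [h1.1]
  -- jumps
  obtain ⟨t', ht'⟩ := hex t d₀
  have hA : ∀ J : ℕ, (within X.G R).Reachable (t, y) (t, f^[2 * J] y) := by
    intro J
    induction J with
    | zero => exact SimpleGraph.Reachable.refl _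
    | succ J ih =>
      have hmem : ∀ (i : ℕ) (r : X.T), (r, f^[i] y) ∈ R := by
        intro i r
        change X.h' y ≤ X.h' (f^[i] y)
        rw [hfh]
        have : (0 : ℤ) ≤ ((i * k : ℕ) : ℤ) := Int.natCast_nonneg _
        linarith
      have e1 : f^[2 * J + 1] y = f (f^[2 * J] y) := Function.iterate_succ_apply' f _ y
      have e2 : f^[2 * (J + 1)] y = f (f^[2 * J + 1] y) := Function.iterate_succ_apply' f _ y
      have h1 : (within X.G R).Adj (t, f^[2 * J] y) (t', f^[2 * J + 1] y) := by
        refine ⟨?_, hmem _ _, hmem _ _⟩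
        rw [e1]
        exact hadj t t' _ ht'
      have h2 : (within X.G R).Adj (t', f^[2 * J + 1] y) (t, f^[2 * (J + 1)] y) := by
        refine ⟨?_, hmem _ _, hmem _ _⟩
        rw [e2]
        exact hadj t' t _ ((hsym t' t).trans ht')
      exact ih.trans (h1.reachable.trans h2.reachable)
  -- the level `q`
  have hk2 : 0 < 2 * k := by omega
  set J := q / (2 * k) with hJ
  have hqJ : 2 * J * k + q % (2 * k) = q := by
    have := Nat.div_add_mod q (2 * k)
    rw [← hJ] at this
    calc 2 * J * k + q % (2 * k) = 2 * k * J + q % (2 * k) := by ring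
      _ = q := this
  have hr : q % (2 * k) < 2 * k := Nat.mod_lt _ hk2
  have hB : (within X.G R).Reachable (t, f^[2 * J] y) (t, X.up q y) := by
    apply hloc
    · refine ⟨?_, ?_⟩
      · change td X.par t t ≤ _
        rw [(hzero t t).2 rfl]
        exact Nat.zero_le _
      · change td X.par' (f^[2 * J] y) (X.up q y) ≤ _
        have h1 : td X.par' (f^[2 * J] y) (X.up (2 * J * k) y) ≤ D + D := by
          apply hle'
          change X.up D (f^[2 * J] y) = X.up D (X.up (2 * J * k) y)
          rw [hfu, up_add]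
        have h2 : td X.par' (X.up (2 * J * k) y) (X.up q y) = q % (2 * k) := by
          have e : X.up q y = X.par'^[q % (2 * k)] (X.up (2 * J * k) y) := by
            nth_rewrite 1 [← hqJ]
            rw [add_comm]
            exact up_add X _ _ y
          rw [e, hpar']
        have h3 := htri' (f^[2 * J] y) (X.up (2 * J * k) y) (X.up q y)
        omega
    · change X.h' y + P ≤ X.h' (f^[2 * J] y)
      rw [hfh]
      have h1 : P ≤ 2 * J * k := by omega
      have h2 : (P : ℤ) ≤ ((2 * J * k : ℕ) : ℤ) := by exact_mod_cast h1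
      linarith
  have hC : ∀ (n : ℕ) (s₁ : X.T), X.d t s₁ = n →
      (within X.G R).Reachable (t, X.up q y) (s₁, X.up q y) := by
    intro n
    induction n with
    | zero =>
      intro s₁ hs
      have : t = s₁ := (hzero t s₁).1 hs
      rw [this]
    | succ n ih =>
      intro s₁ hs
      obtain ⟨z, hz1, hz2⟩ := hmid t s₁ n 1 hs
      refine (ih z hz1).trans ?_
      apply hloc
      · refine ⟨?_, ?_⟩
        · change td X.par z s₁ ≤ _
          rw [hz2]
          omega
        · change td X.par' (X.up q y) (X.up q y) ≤ _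
          rw [(hzero' _ _).2 rfl]
          exact Nat.zero_le _
      · change X.h' y + P ≤ X.h' (X.up q y)
        have h1 : X.h' (X.up q y) = X.h' y + q := hht q y
        rw [h1]
        have h2 : (P : ℤ) ≤ (q : ℤ) := by
          have : P ≤ q := by omega
          exact_mod_cast this
        linarith
  exact ((hA J).trans hB).trans (hC _ s rfl)

end Pool.Agent.Work.MP_c58d8b_pr.PG
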