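import Pool.Agent.Work.MP_c58d8b_pr.PG.Stmts

/-!
# MP_c58d8b_pr, block PG, item KV: the lower bound for `φ`
-/

set_option autoImplicit false

namespace Pool.Agent.Work.MP_c58d8b_pr.PG

open MeasureTheory ProbabilityTheory Set Filter Topology
open scoped ENNReal unitInterval Classical
open Pool.Agent.Work.MP_c58d8b_pr.SO Pool.Agent.Work.MP_c58d8b_pr.PT

universe u

namespace IX_KV

/-- The size of a ball in the tree. -/
theorem ball (hRB : StRB.{u}) (T : Type u) (par : T → T) (h : T → ℤ) (a : ℕ) (hT : Tr par h a)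
    (x : T) (R : ℕ) : ∃ B : Finset T, (∀ y, y ∈ B ↔ td par x y ≤ R) ∧
      B.card ≤ ∑ r ∈ Finset.range (R + 1), 2 * a ^ r := by
  obtain ⟨-, -, -, -, -, -, -, -, hfin, hcard⟩ := hRB T par h a hT
  refine ⟨(hfin x R).toFinset, fun y => by simp, ?_⟩
  rw [Finset.card_eq_sum_card_fiberwise (f := fun y => td par x y) (t := Finset.range (R + 1))
    (fun y hy => by
      have hy' : td par x y ≤ R := by simpa using hy
      simp only [Finset.coe_range, Set.mem_Iio]
      omega)]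
  apply Finset.sum_le_sum
  intro r hr
  refine le_trans ?_ (hcard x r)
  rw [← Set.ncard_coe_finset]
  apply Set.ncard_le_ncard
  · intro y hy
    simp only [Finset.coe_filter, Set.mem_ofPred_eq] at hy
    exact hy.2
  · refine (hfin x r).subset ?_
    intro y hy
    exact le_of_eq hy

end IX_KV

theorem pg_KV (hWB : StWB.{u}) (hQA : StQA.{u}) (hRA : StRA.{u}) (hRB : StRB.{u})
    (hKB : StKB.{u}) (hKS : StKS.{u}) (hIH : StIH.{u}) (hKT : StKT.{u}) : StKV.{u} := by
  intro X p m z hp0 hp1 hm hz0 hz1 haz hAch o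
  obtain ⟨N, R, hNR⟩ := hKS X p hp0.le hp1 m z hAch
  obtain ⟨-, hsymm, -, -, -, hpar, -, -, -, -⟩ := hRB X.T X.par X.h X.a X.tr
  obtain ⟨hht, -⟩ := hRA X.T X.par X.h X.a X.tr
  obtain ⟨-, -, -, hwt⟩ := hKB X
  have hd : ∀ t, X.d (X.par^[m] t) t = m := fun t => by
    show td X.par (X.par^[m] t) t = m
    rw [hsymm, hpar]
  choose St hSt using fun t => hNR (X.par^[m] t) t o.2 (hd t)
  have hb1 : (1 : ℝ) < (X.b : ℝ) := by
    have := X.tr'.two
    exact_mod_cast (by omega : 1 < X.b)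
  have hlb : 0 < Real.log (X.b : ℝ) := Real.log_pos hb1
  obtain ⟨L, hL⟩ : ∃ L : ℝ, L = ((R : ℝ) + 1) * Real.log (X.b : ℝ) := ⟨_, rfl⟩
  have hL0 : 0 < L := by
    rw [hL]
    positivity
  obtain ⟨M, hM⟩ : ∃ M : ℕ, M = ∑ r ∈ Finset.range (R + 1), 2 * X.a ^ r := ⟨_, rfl⟩
  have hM0 : 0 < M := by
    rw [hM]
    apply Finset.sum_pos
    · intro r _
      have := X.tr.two
      positivity
    · exact ⟨0, by simp⟩
  have hM0' : (0 : ℝ) < (M : ℝ) := by exact_mod_cast hM0
  refine ⟨L, p ^ (N + 1) / M, hL0, by positivity, ?_⟩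
  intro q hpq hq1 S hoS
  have hq0 : 0 < q := lt_of_lt_of_le hp0 hpq
  set U : Set (X.T × X.T') := slab X.Γ o L with hU
  set H : SimpleGraph (X.T × X.T') := within X.G U with hH
  have hslab : ∀ v : X.T × X.T', |X.h' v.2 - X.h' o.2| ≤ (R : ℤ) → v ∈ U := by
    intro v hv
    show |Real.log (weight X.Γ v o)| < L
    rw [hwt v o, Real.log_zpow, abs_mul, abs_of_pos hlb, hL]
    have h1 : |((X.h' v.2 - X.h' o.2 : ℤ) : ℝ)| ≤ (R : ℝ) := by
      rw [← Int.cast_abs]
      exact_mod_cast hv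
    nlinarith
  have hlf : LocFinite H := by
    intro v
    refine (X.lf v).subset ?_
    intro w hw
    exact hw.1
  obtain ⟨hnb, -⟩ := hWB _ H hlf
  obtain ⟨htau, -⟩ := hQA _ H q hq0.le hq1
  have hSt' : ∀ t, (St t).card ≤ N ∧ (X.par^[m] t, o.2) ∈ St t ∧ (t, o.2) ∈ St t ∧
      (∀ v ∈ St t, X.d (X.par^[m] t) v.1 ≤ R ∧ v ∈ U ∧
        (within X.G (St t : Set (X.T × X.T'))).Reachable (X.par^[m] t, o.2) v) ∧
      z ≤ tau X.G p (St t) (X.par^[m] t, o.2) (t, o.2) := by
    intro t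
    obtain ⟨h1, h2, h3, h4, h5⟩ := hSt t
    exact ⟨h1, h2, h3, fun v hv => ⟨(h4 v hv).1, hslab v (h4 v hv).2.1, (h4 v hv).2.2⟩, h5⟩
  have hex := hKT X p q z m N R hp0 hpq hq1 hz0.le o.1 o.2 U St hSt' S hoS
  -- the counting
  obtain ⟨E, hE1, hE2⟩ := hIH X.T X.par X.h X.a X.tr m (S.card + 1) z o.1 (fun t => St t ⊆ S)
    hm hz0.le haz (by
      intro t _
      by_contra hcon
      push Not at hcon
      have hle : (Finset.range (S.card + 1)).card ≤ S.card := by
        apply Finset.card_le_card_of_injOn (fun l : ℕ => (X.par^[l * m] t, o.2))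
        · intro l hl
          have hl' : l < S.card + 1 := by simpa using hl
          exact hcon l hl' (hSt' (X.par^[l * m] t)).2.2.1
        · intro l _ l' _ hll
          have h1 : X.par^[l * m] t = X.par^[l' * m] t := (Prod.ext_iff.1 hll).1
          have h2 : X.h (X.par^[l * m] t) = X.h (X.par^[l' * m] t) := by rw [h1]
          rw [hht, hht] at h2
          have h3 : l * m = l' * m := by
            have : ((l * m : ℕ) : ℤ) = ((l' * m : ℕ) : ℤ) := by linarith
            exact_mod_cast this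
          exact Nat.eq_of_mul_eq_mul_right (by omega) h3
      rw [Finset.card_range] at hle
      omega)
  obtain ⟨J, hJ⟩ : ∃ J : Finset (Σ _ : ℕ, X.T), J = (Finset.range (S.card + 1)).sigma E :=
    ⟨_, rfl⟩
  obtain ⟨P, hP⟩ : ∃ P : Finset (Σ _ : X.T × X.T', X.T × X.T'),
      P = S.sigma (fun x => (nb H x).filter (· ∉ S)) := ⟨_, rfl⟩
  have hne : Nonempty (Σ _ : X.T × X.T', X.T × X.T') := ⟨⟨o, o⟩⟩
  have hch : ∀ i : (Σ _ : ℕ, X.T), i ∈ J → ∃ r : (Σ _ : X.T × X.T', X.T × X.T'),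
      r ∈ P ∧ X.d i.2 r.1.1 ≤ R ∧ z ^ i.1 * p ^ N ≤ tau H q S o r.1 := by
    rintro ⟨k, t⟩ hi
    rw [hJ, Finset.mem_sigma] at hi
    obtain ⟨h1, h2, t', h3, h4⟩ := hE1 k t hi.2
    obtain ⟨y, hy, w, hw, hyw, hyU, hwU, hdy, hty⟩ := hex k t t' h1 h2 h3 h4
    refine ⟨⟨y, w⟩, ?_, hdy, hty⟩
    rw [hP, Finset.mem_sigma, Finset.mem_filter, hnb]
    exact ⟨hy, ⟨hyw, hyU, hwU⟩, hw⟩
  choose! F hF using hch
  have hheight : ∀ i ∈ J, X.h i.2 + (i.1 * m : ℕ) = X.h o.1 := by
    rintro ⟨k, t⟩ hi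
    rw [hJ, Finset.mem_sigma] at hi
    have h1 := (hE1 k t hi.2).1
    rw [← h1, hht]
  have hsum : ∑ i ∈ J, z ^ i.1 * p ^ N ≤ (M : ℝ) * ∑ r ∈ P, tau H q S o r.1 := by
    have hfib : ∀ r ∈ P, ((J.filter (fun i => F i = r)).card : ℝ) ≤ (M : ℝ) := by
      intro r _
      obtain ⟨B, hB1, hB2⟩ := IX_KV.ball hRB X.T X.par X.h X.a X.tr r.1.1 R
      have hle : (J.filter (fun i => F i = r)).card ≤ B.card := by
        apply Finset.card_le_card_of_injOn (fun i => i.2)
        · intro i hi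
          have hi' := Finset.mem_filter.1 (Finset.mem_coe.1 hi)
          apply Finset.mem_coe.2
          rw [hB1, hsymm]
          have h1 := (hF i hi'.1).2.1
          rw [hi'.2] at h1
          exact h1
        · rintro ⟨k, t⟩ hi ⟨k', t'⟩ hj hij
          have hi' := (Finset.mem_filter.1 (Finset.mem_coe.1 hi)).1
          have hj' := (Finset.mem_filter.1 (Finset.mem_coe.1 hj)).1
          have h1 := hheight _ hi'
          have h2 := hheight _ hj'
          simp only at h1 h2 hij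
          subst hij
          have h3 : k * m = k' * m := by
            have : ((k * m : ℕ) : ℤ) = ((k' * m : ℕ) : ℤ) := by linarith
            exact_mod_cast this
          have h4 : k = k' := Nat.eq_of_mul_eq_mul_right (by omega) h3
          subst h4
          rfl
      exact_mod_cast hle.trans (hM ▸ hB2)
    rw [← Finset.sum_fiberwise_of_maps_to (fun i hi => (hF i hi).1), Finset.mul_sum]
    apply Finset.sum_le_sum
    intro r hr
    calc ∑ i ∈ J.filter (fun i => F i = r), z ^ i.1 * p ^ N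
        ≤ ∑ _i ∈ J.filter (fun i => F i = r), tau H q S o r.1 := by
          apply Finset.sum_le_sum
          intro i hi
          rw [Finset.mem_filter] at hi
          rw [← hi.2]
          exact (hF i hi.1).2.2
      _ = ((J.filter (fun i => F i = r)).card : ℝ) * tau H q S o r.1 := by
          rw [Finset.sum_const, nsmul_eq_mul]
      _ ≤ M * tau H q S o r.1 := mul_le_mul_of_nonneg_right (hfib r hr) (htau S o r.1).1
  have hsum2 : p ^ N ≤ ∑ i ∈ J, z ^ i.1 * p ^ N := by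
    rw [hJ, Finset.sum_sigma]
    have h1 : ∑ k ∈ Finset.range (S.card + 1), ∑ _t ∈ E k, z ^ k * p ^ N =
        (∑ k ∈ Finset.range (S.card + 1), z ^ k * (E k).card) * p ^ N := by
      rw [Finset.sum_mul]
      apply Finset.sum_congr rfl
      intro k _
      rw [Finset.sum_const, nsmul_eq_mul]
      ring
    rw [h1]
    have h2 : 0 < p ^ N := pow_pos hp0 N
    nlinarith
  have hphi : phi H q S o = q * ∑ r ∈ P, tau H q S o r.1 := by
    rw [hP, Finset.sum_sigma]
    unfold phi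
    refine congrArg (fun r => q * r) (Finset.sum_congr rfl fun a _ =>
      Finset.sum_congr ?_ fun _ _ => rfl)
    ext w
    simp only [Finset.mem_filter]
  rw [hphi, div_le_iff₀ hM0']
  have h3 : p ^ N ≤ (M : ℝ) * ∑ r ∈ P, tau H q S o r.1 := hsum2.trans hsum
  have h4 : 0 ≤ (M : ℝ) * ∑ r ∈ P, tau H q S o r.1 := (pow_pos hp0 N).le.trans h3
  calc p ^ (N + 1) = p * p ^ N := by ring
    _ ≤ q * ((M : ℝ) * ∑ r ∈ P, tau H q S o r.1) := mul_le_mul hpq h3 (pow_pos hp0 N).le hq0.le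
    _ = q * (∑ r ∈ P, tau H q S o r.1) * M := by ring

end Pool.Agent.Work.MP_c58d8b_pr.PG
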