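import Pool.Agent.Work.MP_c58d8b_pr.PG.Stmts

/-!
# MP_c58d8b_pr, block PG, item YH: the bound for the exit probabilities
-/

set_option autoImplicit false

namespace Pool.Agent.Work.MP_c58d8b_pr.PG

open MeasureTheory ProbabilityTheory Set Filter Topology
open scoped ENNReal unitInterval Classical
open Pool.Agent.Work.MP_c58d8b_pr.SO Pool.Agent.Work.MP_c58d8b_pr.PT

universe u

namespace IX_YH

theorem pw (X : Sg.{u}) (p : ℝ) (K : ℕ) (c : ℝ) (P : ℕ) (hc : 0 < c)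
    (h0 : ∀ M m u, 0 ≤ X.eb p K M m u)
    (hE : ∀ M M' m m' : ℕ, K ≤ m → ∀ u,
      c * (X.eb p K M m u * X.eb p K M' m' u) ≤ X.eb p K (M + M' + P) (m + m') u)
    (M m : ℕ) (hm : K ≤ m) (u : X.T × X.T') (k : ℕ) :
    (c * X.eb p K M m u) ^ (k + 1) ≤ c * X.eb p K (k * (M + P) + M) ((k + 1) * m) u := by
  induction k with
  | zero => simp
  | succ k ih =>
    have hkm : K ≤ (k + 1) * m := hm.trans (Nat.le_mul_of_pos_left m (Nat.succ_pos k))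
    have h1 := hE (k * (M + P) + M) M ((k + 1) * m) m hkm u
    have e1 : k * (M + P) + M + M + P = (k + 1) * (M + P) + M := by ring
    have e2 : (k + 1) * m + m = (k + 1 + 1) * m := by ring
    rw [e1, e2] at h1
    have h2 : 0 ≤ c * X.eb p K M m u := mul_nonneg hc.le (h0 M m u)
    calc (c * X.eb p K M m u) ^ (k + 1 + 1)
        = (c * X.eb p K M m u) ^ (k + 1) * (c * X.eb p K M m u) := pow_succ _ _
      _ ≤ (c * X.eb p K (k * (M + P) + M) ((k + 1) * m) u) * (c * X.eb p K M m u) :=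
          mul_le_mul_of_nonneg_right ih h2
      _ = c * (c * (X.eb p K (k * (M + P) + M) ((k + 1) * m) u * X.eb p K M m u)) := by ring
      _ ≤ c * X.eb p K ((k + 1) * (M + P) + M) ((k + 1 + 1) * m) u :=
          mul_le_mul_of_nonneg_left h1 hc.le

end IX_YH

open IX_YH in
theorem pg_YH (hRZ : StRZ) (hYE : StYE.{u}) (hYF : StYF.{u}) (hYG : StYG.{u}) : StYH.{u} := by
  intro X p K hp0 hp1 hK hBd
  obtain ⟨c, P, hc, hc1, hE⟩ := hYE X p K hp0 hp1 hK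
  obtain ⟨C, hC, hG⟩ := hYG X p K hp0 hp1 hK hBd
  obtain ⟨-, h2, h3, h4⟩ := hYF X p K hp0.le hp1
  have hb : (1 : ℝ) ≤ X.b := by
    have := X.tr'.two
    exact_mod_cast (by omega : 1 ≤ X.b)
  have hsb : (1 : ℝ) ≤ √(X.b : ℝ) := by
    rw [← Real.sqrt_one]
    exact Real.sqrt_le_sqrt hb
  have hs0 : (0 : ℝ) < √(X.b : ℝ) := lt_of_lt_of_le one_pos hsb
  have hs : (0 : ℝ) < (√(X.b : ℝ))⁻¹ := inv_pos.2 hs0
  have hci : 1 ≤ c⁻¹ := (one_le_inv₀ hc).2 hc1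
  have hsK : 1 ≤ √(X.b : ℝ) ^ K := one_le_pow₀ hsb
  refine ⟨c⁻¹ * √(X.b : ℝ) ^ K, one_le_mul_of_one_le_of_one_le hci hsK, ?_⟩
  intro S m u
  rcases le_or_gt K m with hm | hm
  · obtain ⟨M, hM⟩ := h3 S u
    have h5 : c * X.eb p K M m u ≤ ((√(X.b : ℝ))⁻¹) ^ m := by
      refine hRZ (c * X.eb p K M m u) (((√(X.b : ℝ))⁻¹) ^ m) (c * C) ((M + P : ℕ) : ℝ)
        (mul_nonneg hc.le (h4 _ _ _).1) (pow_pos hs m) ?_
      intro k hk
      obtain ⟨j, rfl⟩ : ∃ j, k = j + 1 := ⟨k - 1, by omega⟩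
      refine (pw X p K c P hc (fun M m u => (h4 _ _ _).1) hE M m hm u j).trans ?_
      have h6 := hG (j * (M + P) + M) ((j + 1) * m) u
      have h7 : ((j * (M + P) + M : ℕ) : ℝ) + 1 ≤ ((M + P : ℕ) : ℝ) * ((j + 1 : ℕ) : ℝ) + 1 := by
        have h8 : j * (M + P) + M ≤ (M + P) * (j + 1) := by
          have : (M + P) * (j + 1) = j * (M + P) + M + P := by ring
          omega
        have h9 : ((j * (M + P) + M : ℕ) : ℝ) ≤ (((M + P) * (j + 1) : ℕ) : ℝ) := by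
          exact_mod_cast h8
        rw [Nat.cast_mul] at h9
        linarith
      have h10 : (0 : ℝ) ≤ ((√(X.b : ℝ))⁻¹) ^ ((j + 1) * m) := (pow_pos hs _).le
      calc c * X.eb p K (j * (M + P) + M) ((j + 1) * m) u
          ≤ c * (C * (((j * (M + P) + M : ℕ) : ℝ) + 1) * ((√(X.b : ℝ))⁻¹) ^ ((j + 1) * m)) :=
            mul_le_mul_of_nonneg_left h6 hc.le
        _ ≤ c * (C * (((M + P : ℕ) : ℝ) * ((j + 1 : ℕ) : ℝ) + 1) *
              ((√(X.b : ℝ))⁻¹) ^ ((j + 1) * m)) := by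
            refine mul_le_mul_of_nonneg_left ?_ hc.le
            exact mul_le_mul_of_nonneg_right (mul_le_mul_of_nonneg_left h7 hC.le) h10
        _ = c * C * (((M + P : ℕ) : ℝ) * ((j + 1 : ℕ) : ℝ) + 1) *
              (((√(X.b : ℝ))⁻¹) ^ m) ^ (j + 1) := by
            rw [← pow_mul, mul_comm m (j + 1)]
            ring
    have h11 : X.eb p K M m u ≤ c⁻¹ * ((√(X.b : ℝ))⁻¹) ^ m := by
      rw [le_inv_mul_iff₀ hc]
      exact h5
    have h12 : c⁻¹ * ((√(X.b : ℝ))⁻¹) ^ m ≤ c⁻¹ * √(X.b : ℝ) ^ K * ((√(X.b : ℝ))⁻¹) ^ m := by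
      refine mul_le_mul_of_nonneg_right ?_ (pow_pos hs m).le
      exact le_mul_of_one_le_right (by linarith) hsK
    exact (h2 S (X.BlF M u) m u hM).trans (h11.trans h12)
  · refine (h4 S m u).2.trans ?_
    have h13 : 1 ≤ √(X.b : ℝ) ^ K * ((√(X.b : ℝ))⁻¹) ^ m := by
      rw [inv_pow, ← div_eq_mul_inv, one_le_div (pow_pos hs0 m)]
      exact pow_le_pow_right₀ hsb hm.le
    calc (1 : ℝ) ≤ √(X.b : ℝ) ^ K * ((√(X.b : ℝ))⁻¹) ^ m := h13
      _ ≤ c⁻¹ * (√(X.b : ℝ) ^ K * ((√(X.b : ℝ))⁻¹) ^ m) :=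
          le_mul_of_one_le_left (by linarith) hci
      _ = c⁻¹ * √(X.b : ℝ) ^ K * ((√(X.b : ℝ))⁻¹) ^ m := by ring

end Pool.Agent.Work.MP_c58d8b_pr.PG
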