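import Pool.Agent.Work.MP_c58d8b_pr.I_BASICS
import Pool.Agent.Work.MP_c58d8b_pr.I_INV
import Pool.Agent.Work.MP_c58d8b_pr.I_MEAS
import Pool.Agent.Work.MP_c58d8b_pr.I_WEIGHT
import Pool.Agent.Work.MP_c58d8b_pr.PG.I_KA
import Pool.Agent.Work.MP_c58d8b_pr.PG.I_KB
import Pool.Agent.Work.MP_c58d8b_pr.PG.I_KC
import Pool.Agent.Work.MP_c58d8b_pr.PG.I_KD
import Pool.Agent.Work.MP_c58d8b_pr.PG.I_KE
import Pool.Agent.Work.MP_c58d8b_pr.PG.I_KF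
import Pool.Agent.Work.MP_c58d8b_pr.PG.I_KG
import Pool.Agent.Work.MP_c58d8b_pr.PG.I_KH
import Pool.Agent.Work.MP_c58d8b_pr.PG.I_KI
import Pool.Agent.Work.MP_c58d8b_pr.PG.I_KJ
import Pool.Agent.Work.MP_c58d8b_pr.PG.I_KK
import Pool.Agent.Work.MP_c58d8b_pr.PG.I_KL
import Pool.Agent.Work.MP_c58d8b_pr.PG.I_KN
import Pool.Agent.Work.MP_c58d8b_pr.PG.I_KQ
import Pool.Agent.Work.MP_c58d8b_pr.PG.I_KR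
import Pool.Agent.Work.MP_c58d8b_pr.PG.I_KS
import Pool.Agent.Work.MP_c58d8b_pr.PG.I_KT
import Pool.Agent.Work.MP_c58d8b_pr.PG.I_KU
import Pool.Agent.Work.MP_c58d8b_pr.PG.I_KV
import Pool.Agent.Work.MP_c58d8b_pr.PG.I_KW
import Pool.Agent.Work.MP_c58d8b_pr.PG.I_KX
import Pool.Agent.Work.MP_c58d8b_pr.PG.I_KZ
import Pool.Agent.Work.MP_c58d8b_pr.PG.I_YA
import Pool.Agent.Work.MP_c58d8b_pr.PG.I_YB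
import Pool.Agent.Work.MP_c58d8b_pr.PG.I_YC
import Pool.Agent.Work.MP_c58d8b_pr.PG.I_YD
import Pool.Agent.Work.MP_c58d8b_pr.PG.I_YE
import Pool.Agent.Work.MP_c58d8b_pr.PG.I_YF
import Pool.Agent.Work.MP_c58d8b_pr.PG.I_YG
import Pool.Agent.Work.MP_c58d8b_pr.PG.I_YH
import Pool.Agent.Work.MP_c58d8b_pr.PG.I_YI
import Pool.Agent.Work.MP_c58d8b_pr.PG.I_YK
import Pool.Agent.Work.MP_c58d8b_pr.PG.I_YL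
import Pool.Agent.Work.MP_c58d8b_pr.PG.I_YM
import Pool.Agent.Work.MP_c58d8b_pr.PG.I_YN
import Pool.Agent.Work.MP_c58d8b_pr.PG.I_YO
import Pool.Agent.Work.MP_c58d8b_pr.PG.I_YP
import Pool.Agent.Work.MP_c58d8b_pr.PG.I_YQ
import Pool.Agent.Work.MP_c58d8b_pr.PG.I_YR
import Pool.Agent.Work.MP_c58d8b_pr.PG.I_YS
import Pool.Agent.Work.MP_c58d8b_pr.PG.I_YT
import Pool.Agent.Work.MP_c58d8b_pr.PG.I_YU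
import Pool.Agent.Work.MP_c58d8b_pr.PG.I_YV
import Pool.Agent.Work.MP_c58d8b_pr.PG.I_YW
import Pool.Agent.Work.MP_c58d8b_pr.PG.I_YX
import Pool.Agent.Work.MP_c58d8b_pr.PG.I_YZ
import Pool.Agent.Work.MP_c58d8b_pr.PT.I_EA
import Pool.Agent.Work.MP_c58d8b_pr.PT.I_EB
import Pool.Agent.Work.MP_c58d8b_pr.PT.I_EC
import Pool.Agent.Work.MP_c58d8b_pr.PT.I_ED
import Pool.Agent.Work.MP_c58d8b_pr.PT.I_FA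
import Pool.Agent.Work.MP_c58d8b_pr.PT.I_FB
import Pool.Agent.Work.MP_c58d8b_pr.PT.I_FC
import Pool.Agent.Work.MP_c58d8b_pr.PT.I_FE
import Pool.Agent.Work.MP_c58d8b_pr.PT.I_FI
import Pool.Agent.Work.MP_c58d8b_pr.PT.I_FU
import Pool.Agent.Work.MP_c58d8b_pr.PT.I_IH
import Pool.Agent.Work.MP_c58d8b_pr.PT.I_QA
import Pool.Agent.Work.MP_c58d8b_pr.PT.I_QB
import Pool.Agent.Work.MP_c58d8b_pr.PT.I_QC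
import Pool.Agent.Work.MP_c58d8b_pr.PT.I_QD
import Pool.Agent.Work.MP_c58d8b_pr.PT.I_QE
import Pool.Agent.Work.MP_c58d8b_pr.PT.I_QF
import Pool.Agent.Work.MP_c58d8b_pr.PT.I_QP
import Pool.Agent.Work.MP_c58d8b_pr.PT.I_QS
import Pool.Agent.Work.MP_c58d8b_pr.PT.I_QT
import Pool.Agent.Work.MP_c58d8b_pr.PT.I_QU
import Pool.Agent.Work.MP_c58d8b_pr.PT.I_RA
import Pool.Agent.Work.MP_c58d8b_pr.PT.I_RB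
import Pool.Agent.Work.MP_c58d8b_pr.PT.I_RC
import Pool.Agent.Work.MP_c58d8b_pr.PT.I_RE
import Pool.Agent.Work.MP_c58d8b_pr.PT.I_RZ
import Pool.Agent.Work.MP_c58d8b_pr.SO.I_CB
import Pool.Agent.Work.MP_c58d8b_pr.SO.I_D1
import Pool.Agent.Work.MP_c58d8b_pr.SO.I_D2
import Pool.Agent.Work.MP_c58d8b_pr.SO.I_D3
import Pool.Agent.Work.MP_c58d8b_pr.SO.I_D4
import Pool.Agent.Work.MP_c58d8b_pr.SO.I_D5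
import Pool.Agent.Work.MP_c58d8b_pr.SO.I_HV
import Pool.Agent.Work.MP_c58d8b_pr.SO.I_PA
import Pool.Agent.Work.MP_c58d8b_pr.SO.I_PB
import Pool.Agent.Work.MP_c58d8b_pr.SO.I_PI
import Pool.Agent.Work.MP_c58d8b_pr.SO.I_PL
import Pool.Agent.Work.MP_c58d8b_pr.SO.I_PM
import Pool.Agent.Work.MP_c58d8b_pr.SO.I_PR
import Pool.Agent.Work.MP_c58d8b_pr.SO.I_U2
import Pool.Agent.Work.MP_c58d8b_pr.SO.I_WB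

/-!
# MP_c58d8b_pr, block PG: assembly of exactly the items which the theorem needs
-/

set_option autoImplicit false

namespace Pool.Agent.Work.MP_c58d8b_pr.PGF

open Pool.Agent.Work.MP_c58d8b_pr

universe u

theorem f_PG_KB : PG.StKB.{u} := PG.pg_KB NBASICS.prf (NWEIGHT.prf NBASICS.prf)

theorem f_SO_PB : SO.StPB.{u} := SO.pr_PB

theorem f_SO_PI : SO.StPI.{u} := SO.pr_PI

theorem f_SO_PL : SO.StPL.{u} := SO.pr_PL f_SO_PB f_SO_PI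

theorem f_SO_PA : SO.StPA.{u} := SO.pr_PA f_SO_PL

theorem f_SO_CB : SO.StCB.{u} := SO.pr_CB

theorem f_PT_FA : PT.StFA.{u} := PT.pt_FA

theorem f_PT_FB : PT.StFB.{u} := PT.pt_FB f_PT_FA f_SO_PB

theorem f_PT_QA : PT.StQA.{u} := PT.pt_QA f_SO_PB f_SO_PA f_SO_CB f_PT_FB

theorem f_PT_FC : PT.StFC.{u} := PT.pt_FC f_PT_FA f_SO_PB

theorem f_PT_QB : PT.StQB.{u} := PT.pt_QB f_SO_PB f_SO_PL f_SO_CB f_PT_FC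

theorem f_PT_QD : PT.StQD.{u} := PT.pt_QD f_SO_PB f_SO_PA

theorem f_PT_RA : PT.StRA.{u} := PT.pt_RA

theorem f_PT_RB : PT.StRB.{u} := PT.pt_RB f_PT_RA

theorem f_PG_KE : PG.StKE.{u} := PG.pg_KE f_PT_QA f_PT_QB f_PT_QD f_PT_RB

theorem f_PT_QC : PT.StQC.{u} := PT.pt_QC

theorem f_PT_QE : PT.StQE.{u} := PT.pt_QE f_PT_QA f_PT_QB f_PT_QC f_PT_QD

theorem f_PT_QF : PT.StQF.{u} := PT.pt_QF f_PT_QA f_PT_QB f_PT_QC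

theorem f_PT_RC : PT.StRC.{u} := PT.pt_RC

theorem f_PG_KC : PG.StKC.{u} := PG.pg_KC f_PT_RB f_PT_RC

theorem f_PG_KD : PG.StKD.{u} := PG.pg_KD f_PT_QE f_PT_QF f_PG_KC

theorem f_PG_KI : PG.StKI.{u} := PG.pg_KI f_PT_QA f_PT_QC f_PG_KD

theorem f_PT_FU : PT.StFU.{u} := PT.pt_FU f_PT_FA f_SO_PB f_SO_PI f_SO_PL

theorem f_PG_KX : PG.StKX.{u} := PG.pg_KX f_PT_RA f_PT_RB

theorem f_PG_KL : PG.StKL.{u} := PG.pg_KL f_PG_KC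

theorem f_PG_KN : PG.StKN.{u} := PG.pg_KN f_PT_QA f_PT_QE f_PT_RA f_PT_RB

theorem f_PG_KZ : PG.StKZ.{u} := PG.pg_KZ f_SO_PB f_SO_PL f_SO_PA f_SO_CB f_PT_FB f_PT_FU f_PT_RA f_PT_RB f_PG_KX f_PG_KC f_PG_KL f_PG_KN

theorem f_PG_KQ : PG.StKQ := PG.pg_KQ

theorem f_PG_KR : PG.StKR.{u} := PG.pg_KR f_PT_QA f_PT_QE f_PT_RB f_PG_KI f_PG_KZ f_PG_KQ

theorem f_SO_WB : SO.StWB.{u} := SO.pr_WB

theorem f_PG_KS : PG.StKS.{u} := PG.pg_KS f_PT_QB f_PT_QC f_PT_QD f_PT_RC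

theorem f_PT_IH : PT.StIH.{u} := PT.pt_IH f_PT_RA

theorem f_PG_KT : PG.StKT.{u} := PG.pg_KT f_PT_QA f_PT_QB f_PT_QC f_PT_QD

theorem f_PG_KV : PG.StKV.{u} := PG.pg_KV f_SO_WB f_PT_QA f_PT_RA f_PT_RB f_PG_KB f_PG_KS f_PT_IH f_PG_KT

theorem f_SO_PM : SO.StPM.{u} := SO.pr_PM

theorem f_SO_PR : SO.StPR.{u} := SO.pr_PR

theorem f_SO_D1 : SO.StD1.{u} := SO.pr_D1 f_SO_CB

theorem f_SO_D2 : SO.StD2.{u} := SO.pr_D2 f_SO_PB f_SO_PI f_SO_PL f_SO_CB f_SO_WB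

theorem f_SO_D3 : SO.StD3.{u} := SO.pr_D3 f_SO_PB f_SO_PR f_SO_CB f_SO_D1 f_SO_D2

theorem f_SO_D4 : SO.StD4.{u} := SO.pr_D4 f_SO_PB f_SO_D3

theorem f_SO_D5 : SO.StD5.{u} := SO.pr_D5 NMEAS.prf f_SO_PM f_SO_CB f_SO_WB f_SO_D4

theorem f_SO_HV : SO.StHV.{u} := SO.pr_HV (NWEIGHT.prf NBASICS.prf) NMEAS.prf f_SO_CB

theorem f_PG_KW : PG.StKW.{u} := PG.pg_KW f_PG_KB f_PG_KR f_PG_KV f_SO_D5 f_SO_HV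

theorem f_PG_YP : PG.StYP.{u} := PG.pg_YP f_PT_QF f_PT_RA f_PT_RB f_PG_KD

theorem f_PG_KJ : PG.StKJ.{u} := PG.pg_KJ f_PT_RA f_PT_RB f_PT_RC

theorem f_PG_KU : PG.StKU.{u} := PG.pg_KU f_PT_RA f_PT_RB f_PG_KX f_PG_KL f_PG_KJ

theorem f_PT_RE : PT.StRE.{u} := PT.pt_RE f_PT_RA f_PT_RB

theorem f_PG_YA : PG.StYA.{u} := PG.pg_YA f_PT_QF f_PT_RE f_PG_KE

theorem f_PT_QS : PT.StQS.{u} := PT.pt_QS f_SO_CB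

theorem f_PT_QT : PT.StQT.{u} := PT.pt_QT f_SO_PB f_SO_PI f_SO_PL f_SO_PA f_SO_CB f_SO_WB f_PT_QS

theorem f_PT_QU : PT.StQU.{u} := PT.pt_QU f_SO_WB f_PT_QA f_PT_QB f_PT_QC f_PT_QT

theorem f_PG_KA : PG.StKA.{u} := PG.pg_KA f_PT_RC

theorem f_PG_KH : PG.StKH.{u} := PG.pg_KH f_PT_QB f_PT_QC f_PT_QD f_PG_KC f_PG_KL

theorem f_PG_YB : PG.StYB.{u} := PG.pg_YB f_PT_QF f_PT_QU f_PT_RA f_PT_RB f_PG_KX f_PG_KA f_PG_KD f_PG_KH f_PG_YA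

theorem f_PG_YI : PG.StYI := PG.pg_YI

theorem f_PG_KK : PG.StKK.{u} := PG.pg_KK f_PT_RA f_PT_RB f_PG_KL f_PG_KJ f_PG_KX

theorem f_PG_KF : PG.StKF.{u} := PG.pg_KF f_PT_RA f_PG_KK

theorem f_PG_KG : PG.StKG.{u} := PG.pg_KG f_PT_QC f_PT_QD f_PT_RB f_PG_KC f_PG_KF f_PT_QB

theorem f_PG_YC : PG.StYC.{u} := PG.pg_YC f_SO_WB f_PT_QC f_PT_QE f_PT_QF f_PT_QU f_PT_RA f_PT_RB f_PG_KX f_PG_KA f_PG_KD f_PG_KF f_PG_KG f_PG_KH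

theorem f_PG_YD : PG.StYD.{u} := PG.pg_YD f_PG_KD f_PG_YC

theorem f_PG_YK : PG.StYK.{u} := PG.pg_YK f_PT_QF f_PT_RE f_PG_KD f_PG_KE f_PG_YA f_PG_YB f_PG_YD f_PG_YI

theorem f_PG_YS : PG.StYS.{u} := PG.pg_YS f_PT_QE f_PT_QF f_PT_RA f_PT_RB f_PG_KX f_PG_KF f_PG_KH

theorem f_PG_YV : PG.StYV.{u} := PG.pg_YV f_PT_QE f_PT_RA f_PT_RB f_PG_KD f_PG_KF

theorem f_PG_YL : PG.StYL.{u} := PG.pg_YL f_PT_RB f_PG_YS f_PG_YV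

theorem f_PT_FE : PT.StFE.{u} := PT.pt_FE

theorem f_PT_FI : PT.StFI.{u} := PT.pt_FI f_SO_PB f_SO_PI f_SO_PL

theorem f_PG_YM : PG.StYM.{u} := PG.pg_YM f_SO_PB f_SO_PL f_SO_CB f_PT_FB f_PT_FI f_PT_RB f_PG_KF f_PG_KH

theorem f_PT_RZ : PT.StRZ := PT.pt_RZ

theorem f_PG_YF : PG.StYF.{u} := PG.pg_YF f_SO_PB f_SO_PL f_SO_CB f_PG_KC

theorem f_PG_YE : PG.StYE.{u} := PG.pg_YE f_SO_PB f_SO_PL f_SO_CB f_PT_FA f_PT_FB f_PT_RA f_PT_RB f_PG_KX f_PG_KA f_PG_KC f_PG_KF f_PG_KG f_PG_YF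

theorem f_PG_YG : PG.StYG.{u} := PG.pg_YG f_SO_PB f_SO_CB f_PT_QB f_PT_QF f_PT_RB f_PG_KX f_PG_KA f_PG_KE f_PG_KF f_PG_KH

theorem f_PG_YH : PG.StYH.{u} := PG.pg_YH f_PT_RZ f_PG_YE f_PG_YF f_PG_YG

theorem f_PG_YN : PG.StYN.{u} := PG.pg_YN f_SO_PB f_SO_PL f_SO_CB f_PT_FI f_PT_QC f_PT_RA f_PT_RB f_PG_KF f_PG_YH

theorem f_PG_YO : PG.StYO.{u} := PG.pg_YO f_SO_PB f_PT_FE f_PT_QA f_PT_QB f_PT_QF f_PT_RB f_PG_KD f_PG_YM f_PG_YN f_PG_YV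

theorem f_PG_YQ : PG.StYQ.{u} := PG.pg_YQ f_PG_KU f_PG_YA f_PG_YB f_PG_YI f_PG_YK f_PG_YL f_PG_YO

theorem f_PG_YR : PG.StYR.{u} := PG.pg_YR f_PT_QF f_PT_QU f_PT_RA f_PT_RB f_PG_KX f_PG_KA f_PG_KD f_PG_KH

theorem f_PG_YT : PG.StYT.{u} := PG.pg_YT f_SO_WB f_PT_QA f_PT_QB f_PT_QF f_PG_KA

theorem f_PG_YU : PG.StYU.{u} := PG.pg_YU f_SO_WB f_PT_QA f_PT_QB f_PT_QC f_PT_QT f_PG_KC

theorem f_SO_U2 : SO.StU2.{u} := SO.pr_U2 NBASICS.prf NINV.prf NMEAS.prf f_SO_CB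

theorem f_PT_QP : PT.StQP.{u} := PT.pt_QP f_SO_PM f_SO_CB

theorem f_PG_YW : PG.StYW.{u} := PG.pg_YW NBASICS.prf f_SO_U2 f_PT_QF f_PT_QP f_PG_KB f_PG_KC

theorem f_PG_YX : PG.StYX.{u} := PG.pg_YX f_PT_QF f_PG_YP f_PG_YQ f_PG_YR f_PG_YT f_PG_YU f_PG_YW

theorem f_PG_YZ : PG.StYZ.{u} := PG.pg_YZ f_PG_KB f_PG_KE f_PG_KW f_PG_YX

theorem f_PT_EA : PT.StEA.{u} := PT.pt_EA

theorem f_PT_EC : PT.StEC.{u} := PT.pt_EC f_PT_RB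

theorem f_PT_ED : PT.StED.{u} := PT.pt_ED f_PT_RB

theorem f_PT_EB : PT.StEB.{u} := PT.pt_EB f_PT_RC f_PT_EA f_PT_EC f_PT_ED

end Pool.Agent.Work.MP_c58d8b_pr.PGF
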