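import Pool.Agent.Work.MP_c58d8b_pr.PG.Stmts

/-!
# MP_c58d8b_pr, block PG, item YU: finite susceptibility
-/

set_option autoImplicit false

namespace Pool.Agent.Work.MP_c58d8b_pr.PG

open MeasureTheory ProbabilityTheory Set Filter Topology
open scoped ENNReal unitInterval Classical
open Pool.Agent.Work.MP_c58d8b_pr.SO Pool.Agent.Work.MP_c58d8b_pr.PT

universe u

namespace IX_YU

section
variable (X : Sg.{u})

theorem sa_pos : (0 : ℝ) < √(X.a : ℝ) := by
  apply Real.sqrt_pos.2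
  have h := X.tr.two
  have h' : (2 : ℝ) ≤ (X.a : ℝ) := by exact_mod_cast h
  linarith

theorem sb_pos : (0 : ℝ) < √(X.b : ℝ) := by
  apply Real.sqrt_pos.2
  have h := X.tr'.two
  have h' : (2 : ℝ) ≤ (X.b : ℝ) := by exact_mod_cast h
  linarith

theorem om_pos (x y : X.T × X.T') : 0 < X.Om x y :=
  mul_pos (zpow_pos (sa_pos X) _) (zpow_pos (sb_pos X) _)

theorem om_mul (x y z : X.T × X.T') : X.Om x y * X.Om y z = X.Om x z := by
  unfold Sg.Om
  have e1 : X.h z.1 - X.h x.1 = (X.h y.1 - X.h x.1) + (X.h z.1 - X.h y.1) := by ring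
  have e2 : X.h' z.2 - X.h' x.2 = (X.h' y.2 - X.h' x.2) + (X.h' z.2 - X.h' y.2) := by ring
  rw [e1, e2, zpow_add₀ (sa_pos X).ne', zpow_add₀ (sb_pos X).ne']
  ring

end

section
variable {V : Type u}

/-- `F(v)` -/
noncomputable def F (G : SimpleGraph V) (Om : V → V → ℝ) (p : ℝ) (L : Finset V) (v : V) : ℝ :=
  ∑ w ∈ L, Om v w * tau G p L v w

theorem key (hWB : StWB.{u}) (hQA : StQA.{u}) (hQB : StQB.{u}) (hQC : StQC.{u})
    (hQT : StQT.{u}) (G : SimpleGraph V) (hlf : LocFinite G) (Om : V → V → ℝ)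
    (om_pos : ∀ x y, 0 < Om x y) (om_mul : ∀ x y z, Om x y * Om y z = Om x z)
    (p : ℝ) (h0 : 0 ≤ p) (h1 : p ≤ 1) (u : V)
    (S : Finset V) (hu : u ∈ S) (Bd : V → Finset V) (hBd : ∀ z w, w ∈ Bd z ↔ w ∈ nb G z ∧ w ∉ S)
    (L : Finset V) (M : ℝ)
    (hM0 : 0 ≤ M) (hM : ∀ y ∈ L, F G Om p L y ≤ M) (v : V) (g : Equiv.Perm V)
    (hgu : g u = v) (hgo : ∀ x y, Om (g x) (g y) = Om x y)
    (hga : ∀ x y, G.Adj (g x) (g y) ↔ G.Adj x y) :
    F G Om p L v ≤ ∑ w ∈ S, Om u w +
      (∑ z ∈ S, ∑ w ∈ Bd z, tau G p S u z * (p * Om u w)) * M := by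
  obtain ⟨hA1, -, -, -, -, -⟩ := hQA _ G p h0 h1
  obtain ⟨hB1, -⟩ := hQB V
  obtain ⟨hC1, -, -⟩ := hQC V
  have hnb := (hWB _ G hlf).1
  obtain ⟨A, hA⟩ : ∃ A : Finset V, A = S.image g := ⟨_, rfl⟩
  have hvA : v ∈ A := by
    rw [hA, ← hgu]
    exact Finset.mem_image_of_mem _ hu
  -- the changes of variables
  have hC : ∑ w ∈ A, Om v w = ∑ w ∈ S, Om u w := by
    rw [hA, Finset.sum_image (fun x _ y _ h => g.injective h)]
    refine Finset.sum_congr rfl fun w _ => ?_
    rw [← hgu, hgo]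
  have hphi : ∑ z ∈ A, ∑ y ∈ (nb G z).filter (· ∉ A), tau G p A v z * (p * Om v y) =
      ∑ z ∈ S, ∑ w ∈ Bd z, tau G p S u z * (p * Om u w) := by
    conv_lhs => rw [hA]
    rw [Finset.sum_image (fun x _ y _ h => g.injective h)]
    refine Finset.sum_congr rfl fun z _ => ?_
    have e1 : (nb G (g z)).filter (· ∉ S.image g) = (Bd z).image g := by
      ext y
      simp only [Finset.mem_filter, Finset.mem_image, hnb, hBd]
      constructor
      · rintro ⟨h2, h3⟩
        refine ⟨g.symm y, ⟨?_, ?_⟩, Equiv.apply_symm_apply g y⟩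
        · rw [← hga, Equiv.apply_symm_apply]
          exact h2
        · intro h4
          exact h3 ⟨g.symm y, h4, Equiv.apply_symm_apply g y⟩
      · rintro ⟨x, ⟨h2, h3⟩, rfl⟩
        refine ⟨(hga z x).2 h2, ?_⟩
        rintro ⟨x', h4, h5⟩
        rw [g.injective h5] at h4
        exact h3 h4
    rw [e1, Finset.sum_image (fun x _ y _ h => g.injective h)]
    refine Finset.sum_congr rfl fun y _ => ?_
    rw [← hgu, hgo, hC1 G G g hga]
  -- the pointwise bound
  obtain ⟨As, hAs⟩ : ∃ As : Set V, ∀ x, x ∈ As ↔ x ∈ A := ⟨(A : Set V), fun x => Iff.rfl⟩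
  obtain ⟨LA, hLA⟩ : ∃ LA : Finset V, LA = L.filter (· ∈ As) := ⟨_, rfl⟩
  obtain ⟨N, hN⟩ : ∃ N : V → Finset V, ∀ z, N z =
    (nb G z).filter (fun w => w ∈ L ∧ w ∉ As) := ⟨_, fun z => rfl⟩
  have hpt : ∀ w ∈ L, Om v w * tau G p L v w ≤ (if w ∈ A then Om v w else 0) +
      ∑ z ∈ LA, ∑ y ∈ N z, tau G p LA v z * (p * Om v y) * (Om y w * tau G p L y w) := by
    intro w _
    have e0 : ∀ z y, tau G p LA v z * (p * Om v y) * (Om y w * tau G p L y w) =
        Om v w * (tau G p LA v z * (p * tau G p L y w)) := by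
      intro z y
      rw [← om_mul v y w]
      ring
    have e1 : ∑ z ∈ LA, ∑ y ∈ N z,
        tau G p LA v z * (p * Om v y) * (Om y w * tau G p L y w) =
        Om v w * ∑ z ∈ LA, ∑ y ∈ N z, tau G p LA v z * (p * tau G p L y w) := by
      rw [Finset.mul_sum]
      refine Finset.sum_congr rfl fun z _ => ?_
      rw [Finset.mul_sum]
      exact Finset.sum_congr rfl fun y _ => e0 z y
    rw [e1]
    by_cases hw : w ∈ A
    · rw [if_pos hw]
      have h2 : Om v w * tau G p L v w ≤ Om v w * 1 :=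
        mul_le_mul_of_nonneg_left (hA1 L v w).2 (om_pos v w).le
      have h3 : 0 ≤ Om v w * ∑ z ∈ LA, ∑ y ∈ N z, tau G p LA v z * (p * tau G p L y w) :=
        mul_nonneg (om_pos v w).le (Finset.sum_nonneg fun z _ => Finset.sum_nonneg fun y _ =>
          mul_nonneg (hA1 _ _ _).1 (mul_nonneg h0 (hA1 _ _ _).1))
      linarith
    · rw [if_neg hw, zero_add]
      apply mul_le_mul_of_nonneg_left _ (om_pos v w).le
      have h2 := hQT _ G hlf L As v w p h0 h1 ((hAs v).2 hvA) (fun h => hw ((hAs w).1 h))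
      rw [← hLA] at h2
      refine h2.trans (le_of_eq ?_)
      refine Finset.sum_congr rfl fun z _ => ?_
      rw [hN]
  -- summation
  have hsum : F G Om p L v ≤ ∑ w ∈ L, (if w ∈ A then Om v w else 0) +
      ∑ z ∈ LA, ∑ y ∈ N z, tau G p LA v z * (p * Om v y) * F G Om p L y := by
    unfold F
    refine (Finset.sum_le_sum hpt).trans ?_
    rw [Finset.sum_add_distrib]
    apply add_le_add le_rfl
    rw [Finset.sum_comm]
    apply le_of_eq
    refine Finset.sum_congr rfl fun z _ => ?_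
    rw [Finset.sum_comm]
    refine Finset.sum_congr rfl fun y _ => ?_
    rw [Finset.mul_sum]
  have hfirst : ∑ w ∈ L, (if w ∈ A then Om v w else 0) ≤ ∑ w ∈ S, Om u w := by
    rw [← hC, ← Finset.sum_filter]
    apply Finset.sum_le_sum_of_subset_of_nonneg
    · intro w hw
      exact (Finset.mem_filter.1 hw).2
    · intro w _ _
      exact (om_pos v w).le
  have hsecond : ∑ z ∈ LA, ∑ y ∈ N z, tau G p LA v z * (p * Om v y) * F G Om p L y ≤
      (∑ z ∈ A, ∑ y ∈ (nb G z).filter (· ∉ A), tau G p A v z * (p * Om v y)) * M := by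
    rw [Finset.sum_mul]
    have hLAA : LA ⊆ A := by
      intro z hz
      rw [hLA] at hz
      exact (hAs z).1 (Finset.mem_filter.1 hz).2
    refine (Finset.sum_le_sum (g := fun z => (∑ y ∈ (nb G z).filter (· ∉ A),
      tau G p A v z * (p * Om v y)) * M) ?_).trans
      (Finset.sum_le_sum_of_subset_of_nonneg hLAA ?_)
    · intro z _
      rw [Finset.sum_mul]
      have hNz : N z ⊆ (nb G z).filter (· ∉ A) := by
        intro y hy
        rw [hN] at hy
        have hy' := Finset.mem_filter.1 hy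
        exact Finset.mem_filter.2 ⟨hy'.1, fun h => hy'.2.2 ((hAs y).2 h)⟩
      refine (Finset.sum_le_sum (g := fun y => tau G p A v z * (p * Om v y) * M) ?_).trans
        (Finset.sum_le_sum_of_subset_of_nonneg hNz ?_)
      · intro y hy
        have hyL : y ∈ L := by
          rw [hN] at hy
          exact (Finset.mem_filter.1 hy).2.1
        have h2 : tau G p LA v z ≤ tau G p A v z :=
          hB1 G G LA A p p le_rfl hLAA h0 le_rfl h1 v z
        have h3 : 0 ≤ p * Om v y := mul_nonneg h0 (om_pos v y).le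
        have h4 : tau G p LA v z * (p * Om v y) ≤ tau G p A v z * (p * Om v y) :=
          mul_le_mul_of_nonneg_right h2 h3
        have h5 : 0 ≤ tau G p LA v z * (p * Om v y) := mul_nonneg (hA1 _ _ _).1 h3
        calc tau G p LA v z * (p * Om v y) * F G Om p L y
            ≤ tau G p LA v z * (p * Om v y) * M := mul_le_mul_of_nonneg_left (hM y hyL) h5
          _ ≤ tau G p A v z * (p * Om v y) * M := mul_le_mul_of_nonneg_right h4 hM0
      · intro y _ _
        exact mul_nonneg (mul_nonneg (hA1 _ _ _).1 (mul_nonneg h0 (om_pos v y).le)) hM0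
    · intro z _ _
      exact mul_nonneg (Finset.sum_nonneg fun y _ => mul_nonneg (hA1 _ _ _).1
        (mul_nonneg h0 (om_pos v y).le)) hM0
  rw [hphi] at hsecond
  linarith

end

end IX_YU

theorem pg_YU (hWB : StWB.{u}) (hQA : StQA.{u}) (hQB : StQB.{u}) (hQC : StQC.{u})
    (hQT : StQT.{u}) (hKC : StKC.{u}) : StYU.{u} := by
  intro X p u S h0 h1 hu hlt
  obtain ⟨hA1, -, -, -, -, -⟩ := hQA _ X.G p h0 h1
  obtain ⟨hB1, -⟩ := hQB (X.T × X.T')
  obtain ⟨φ, hφ⟩ : ∃ φ : ℝ, φ = ∑ z ∈ S, ∑ w ∈ (nb X.G z).filter (· ∉ S),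
    tau X.G p S u z * (p * X.Om u w) := ⟨_, rfl⟩
  obtain ⟨C, hC⟩ : ∃ C : ℝ, C = ∑ w ∈ S, X.Om u w := ⟨_, rfl⟩
  have hC0 : 0 ≤ C := by
    rw [hC]
    exact Finset.sum_nonneg fun w _ => (IX_YU.om_pos X u w).le
  rw [← hφ] at hlt
  have hF0 : ∀ L v, 0 ≤ IX_YU.F X.G X.Om p L v := fun L v =>
    Finset.sum_nonneg fun w _ => mul_nonneg (IX_YU.om_pos X v w).le (hA1 L v w).1
  -- the bound in finite volume
  have hbd : ∀ (L : Finset (X.T × X.T')), ∀ v ∈ L, IX_YU.F X.G X.Om p L v ≤ C / (1 - φ) := by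
    intro L v hv
    obtain ⟨m, hm, hmax⟩ := Finset.exists_max_image L (fun y => IX_YU.F X.G X.Om p L y) ⟨v, hv⟩
    obtain ⟨α, hα, hαc, hαu⟩ := X.mov u.1 m.1
    obtain ⟨β, hβ, hβu⟩ := X.mov' u.2 m.2
    have hV := (hKC X α hα β hβ).2.2.2.2.2.2.2.2.2 hαc
    have h2 := IX_YU.key hWB hQA hQB hQC hQT X.G X.lf X.Om (IX_YU.om_pos X) (IX_YU.om_mul X) p h0 h1
      u S hu (fun z => (nb X.G z).filter (· ∉ S)) (fun z w => Finset.mem_filter) L
      (IX_YU.F X.G X.Om p L m) (hF0 L m) hmax m (Equiv.prodCongr α β) (Prod.ext hαu hβu)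
      (fun x y => hV.2 x y) (fun x y => X.inv α hα β hβ x y)
    rw [← hφ, ← hC] at h2
    refine (hmax v hv).trans ?_
    rw [le_div_iff₀ (by linarith)]
    linarith
  -- the series
  have hle : X.XX p u ≤ ENNReal.ofReal (C / (1 - φ)) := by
    unfold Sg.XX
    rw [ENNReal.tsum_eq_iSup_sum]
    refine iSup_le fun s => ?_
    have e1 : ∀ v, ENNReal.ofReal (X.Om u v) * tt X.G p u v =
        ⨆ L : Finset (X.T × X.T'), ENNReal.ofReal (X.Om u v * tau X.G p L u v) := by
      intro v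
      unfold tt
      rw [ENNReal.mul_iSup]
      refine iSup_congr fun L => ?_
      rw [ENNReal.ofReal_mul (IX_YU.om_pos X u v).le]
    have hmono : ∀ v, Monotone fun L : Finset (X.T × X.T') =>
        ENNReal.ofReal (X.Om u v * tau X.G p L u v) := by
      intro v L L' hL
      apply ENNReal.ofReal_le_ofReal
      exact mul_le_mul_of_nonneg_left (hB1 X.G X.G L L' p p le_rfl hL h0 le_rfl h1 u v)
        (IX_YU.om_pos X u v).le
    rw [Finset.sum_congr rfl fun v _ => e1 v, ENNReal.finsetSum_iSup_of_monotone hmono]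
    refine iSup_le fun L => ?_
    refine (Finset.sum_le_sum fun v _ => hmono v (Finset.subset_union_left :
      L ⊆ L ∪ insert u s)).trans ?_
    rw [← ENNReal.ofReal_sum_of_nonneg fun v _ => mul_nonneg (IX_YU.om_pos X u v).le
      (hA1 _ u v).1]
    apply ENNReal.ofReal_le_ofReal
    refine le_trans ?_ (hbd (L ∪ insert u s) u (Finset.mem_union_right _
      (Finset.mem_insert_self u s)))
    unfold IX_YU.F
    apply Finset.sum_le_sum_of_subset_of_nonneg
    · intro v hv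
      exact Finset.mem_union_right _ (Finset.mem_insert_of_mem hv)
    · intro v _ _
      exact mul_nonneg (IX_YU.om_pos X u v).le (hA1 _ u v).1
  exact ne_top_of_le_ne_top ENNReal.ofReal_ne_top hle

end Pool.Agent.Work.MP_c58d8b_pr.PG
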