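import Pool.Agent.Work.MP_c58d8b_pr.PG.Defs

/-!
# MP_c58d8b_pr, block PG (captain helper62): statements with complete proofs

THE GENERAL THEOREM: all connected locally finite `A × B`-invariant graphs on `T × T'`, no condition on
the edges. Item `XX`: statement `StXX`, file `PG/I_XX.lean`, theorem `pg_XX`, hypotheses = the statements
named in the docstring ((hYY : StYY)). The general statements `StFA, StFB, StFC, StFI, StFU, StFE, StQA, StQB,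
StQC, StQD, StQE, StQF, StQT, StQU, StQP, StRA, StRB, StRC, StRE, StRF, StRZ, StIH` are those of block PT
(landed, `PT/Stmts.lean`), `StPB, StPL, StCB, StWB, StD5, StHV, StU2` those of block SO. Items marked
COPY of `PT XY` are the same as the landed item `PT/I_XY.lean` (there for a structure `Sys` with one more
field `cmp`, which that proof does not use): copy that proof and adapt names.
Notation: `x_n = X.up n x`, `d = X.d`, `d'` = `td X.par'`, `√b^(-n)` = `((√b)⁻¹)^n`.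
-/

set_option autoImplicit false

namespace Pool.Agent.Work.MP_c58d8b_pr.PG

open MeasureTheory ProbabilityTheory Set Filter Topology
open scoped ENNReal unitInterval Classical
open Pool.Agent.Work.MP_c58d8b_pr.SO Pool.Agent.Work.MP_c58d8b_pr.PT

universe u

/-! ## K. The setting -/

/-- [KX] (EASY-MEDIUM) More on trees. (1) `par^l y = x`; for `par^m y = par^n w` with `m + n = td y w`: `m > l`
(otherwise `w ∈ desc x`), so `par^(m-l) x = par^n w` and `td x w ≤ m - l + n`; the other inequality is the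
triangle inequality. (2) `td x y = m + n`, `par^m x = par^n y`, `m ≤ r`: `y ∈ desc (par^m x) ⊆ desc (par^r x)`;
`h y - h x = m - n`. (hRA : StRA) (hRB : StRB) -/
def StKX : Prop := ∀ (T : Type u) (par : T → T) (h : T → ℤ) (a : ℕ), Tr par h a →
  (∀ x y w, y ∈ desc par x → w ∉ desc par x → td par y w = td par y x + td par x w) ∧
  (∀ x y (r : ℕ), td par x y ≤ r → y ∈ desc par (par^[r] x) ∧ |h y - h x| ≤ r)

/-- [KA] (EASY-MEDIUM) Constants. All vertices have the same degree; every edge is the image of an edge `o v` at a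
fixed `o` under `(α, β)`, which preserves both distances (`iso`, `StRC`). (hWB : StWB) (hRC : StRC) -/
def StKA : Prop := ∀ X : Sg.{u}, ∃ Δ D : ℕ, X.Const Δ D

/-- [KB] COPY of `PT VB`. (EASY) (hB : Basics.{u}) (hW : WeightStmt.{u}) (hRA : StRA) (hRB : StRB) -/
def StKB : Prop := ∀ X : Sg.{u}, Good X.Γ X.G ∧ Countable (X.T × X.T') ∧ Infinite (X.T × X.T') ∧
  ∀ u v : X.T × X.T', weight X.Γ u v = (X.b : ℝ) ^ (X.h' u.2 - X.h' v.2)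

/-- [KC] (EASY-MEDIUM) Equivariance, as `PT VC`. New: `Es` (a walk in `within G (Dn x)ᶜ` is mapped to a walk in
`within G (Dn (β x))ᶜ`; use also the inverse elements; `s` runs through all of `T`) and `vr`.
(hRA : StRA) (hRB : StRB) (hRC : StRC) -/
def StKC : Prop := ∀ X : Sg.{u}, ∀ α ∈ X.A, ∀ β ∈ X.B,
  IsAut X.G (Equiv.prodCongr α β) ∧
  (∀ n x, β (X.up n x) = X.up n (β x)) ∧ (∀ s t, X.d (α s) (α t) = X.d s t) ∧
  (∀ x, Equiv.prodCongr α β '' X.Dn x = X.Dn (β x)) ∧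
  (∀ x, Equiv.prodCongr α β '' X.Es x = X.Es (β x)) ∧
  (∀ n x, Equiv.prodCongr α β '' X.vr n x = X.vr n (β x)) ∧
  (∀ x K L, Equiv.prodCongr α β '' X.Sl x K L = X.Sl (β x) K L) ∧
  (∀ M u v, (α v.1, β v.2) ∈ X.Bl M (α u.1, β u.2) ↔ v ∈ X.Bl M u) ∧
  (∀ M u, (X.Bl M u).Finite ∧ (X.BlF M u).image (Equiv.prodCongr α β) = X.BlF M (α u.1, β u.2)) ∧
  ((∀ z, α (X.par z) = X.par (α z)) → (∀ t s, X.om (α t) (α s) = X.om t s) ∧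
    ∀ u v, X.Om (α u.1, β u.2) (α v.1, β v.2) = X.Om u v)

/-- [KD] (MEDIUM) Homogeneity, as `PT VD` (`hom`, `mov'`, `StKC`; `α` commuting with `par` and `Equiv.tsum_eq` for the
sums). (hQC : StQC) (hQE : StQE) (hQF : StQF) (hKC : StKC) -/
def StKD : Prop := ∀ (X : Sg.{u}) (p : ℝ), 0 ≤ p → p ≤ 1 →
  (∀ n x t s x' t' s', X.d t s = X.d t' s' →
    tt X.G p (t, x) (s, X.up n x) = tt X.G p (t', x') (s', X.up n x')) ∧
  (∀ K n x t s x' t' s', X.d t s = X.d t' s' → X.vv p K n x t s = X.vv p K n x' t' s') ∧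
  (∀ n x t s x' t' s' c, X.d t s = X.d t' s' →
    (∀ K L, (Ach X.G (X.Sl x K L) p (t, x) (s, X.up n x) c →
      Ach X.G (X.Sl x' K L) p (t', x') (s', X.up n x') c)) ∧
    (∀ K, (Ach X.G (X.vr n x) p (t, X.up K x) (s, X.up (n - K) x) c →
      Ach X.G (X.vr n x') p (t', X.up K x') (s', X.up (n - K) x') c))) ∧
  (∀ n x t x' t', X.gg p n x t = X.gg p n x' t') ∧
  (∀ K n x t x' t', X.gv p K n x t = X.gv p K n x' t') ∧
  (∀ u v, X.XX p u = X.XX p v)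

/-- [KE] COPY of `PT VE`. (EASY) (hQA : StQA) (hQB : StQB) (hQD : StQD) (hRB : StRB) -/
def StKE : Prop := ∀ X : Sg.{u}, X.Bd 0 ∧ ¬ X.Bd 1 ∧
  (∀ p q : ℝ, 0 ≤ p → p ≤ q → q ≤ 1 → X.Bd q → X.Bd p) ∧
  (∀ p : ℝ, 0 < p → p ≤ 1 → (∀ q : ℝ, 0 ≤ q → q < p → X.Bd q) → X.Bd p) ∧
  (∀ p : ℝ, 0 ≤ p → p ≤ 1 → X.Bd p → ∀ t s x j, tt X.G p (t, x) (s, X.up j x) ≤
    ENNReal.ofReal (((X.a : ℝ)⁻¹) ^ X.d t s * ((√(X.b : ℝ))⁻¹) ^ j))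

/-- [KL] (EASY-MEDIUM) Local paths. Fix `o`; the ball `Bl r o` is finite; for each `v` in it a walk in `G` from `o` to
`v` has finitely many vertices, all in `Bl P o` for `P` large. Every pair `u, v ∈ Bl r u` is the image of such a
pair under `(α, β)` (`mov`, `mov'`, `StKC`). (hKC : StKC) (hRB : StRB) -/
def StKL : Prop := ∀ (X : Sg.{u}) (r : ℕ), ∃ P : ℕ, r ≤ P ∧ ∀ u v, v ∈ X.Bl r u →
  (within X.G (X.Bl P u)).Reachable u v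

/-- [KH] (EASY-MEDIUM) Local probabilities. `P` from `StKL`; `c = p^N`, `N = |BlF P u|` (independent of `u`): `StQD` with
`S = BlF P u` for the graph `within G W`, `Bl P u ⊆ W`. (hQC : StQC) (hQD : StQD) (hQE : StQE) (hKC : StKC) (hKL : StKL) -/
def StKH : Prop := ∀ (X : Sg.{u}) (p : ℝ), 0 < p → p ≤ 1 → ∀ r : ℕ, ∃ (P : ℕ) (c : ℝ), r ≤ P ∧
  0 < c ∧ c ≤ 1 ∧ ∀ u v, v ∈ X.Bl r u →
    (∀ W, X.Bl P u ⊆ W → Ach X.G W p u v c ∧ ∀ S : Finset (X.T × X.T'), X.BlF P u ⊆ S →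
      c ≤ tau (within X.G W) p S u v) ∧ ENNReal.ofReal c ≤ tt X.G p u v

/-- [KJ] (EASY-MEDIUM) Up-jumps. A walk from `(t, x)` to `(t, par' x)` has a step `(r, y) ~ (r', y')` with
`h' y' > h' y`; `k = h' y' - h' y`, `d₀ = d r r'`, and `d' y y' ≤ D` for some `D` (`D = d' y y'`, `k ≤ D`): with
`par'^m y = par'^l y'`, `m + l ≤ D`, `m - l = k`: `par'^D y' = par'^(D+k) y`. Move it to every `x` (`mov'`) and every pair
`t, s` with `d t s = d₀` (`hom`). (hRA : StRA) (hRB : StRB) (hRC : StRC) -/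
def StKJ : Prop := ∀ X : Sg.{u}, ∃ d₀ k D : ℕ, 1 ≤ k ∧ k ≤ D ∧ ∃ f : X.T' → X.T',
  (∀ x, X.h' (f x) = X.h' x + k ∧ X.up D (f x) = X.up (D + k) x) ∧
  ∀ t s x, X.d t s = d₀ → X.G.Adj (t, x) (s, f x)

/-- [KK] (MEDIUM) Going up from anywhere. `StKJ`: `(t, v) → (t', f v) → (t, f² v) → ...` (`t'` at distance `d₀`);
`h' (f^i v) = h' v + i k`, `up D (f^i v) = up (D + i k) v`, so `d' (f^i v) (up (i k) v) ≤ 2 D`. Let `P` be the constant of `StKL`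
for `r = 2 D + 2 k + 1`, `q₀ = P + 2 k + 2`. For `q ≥ q₀` let `2 J k ≤ q < 2 (J + 1) k`: after `2 J` jumps a local path to
`(t, up q v)`, of heights `≥ h' v + 2 J k - P ≥ h' v`; then from `(t, up q v)` to `(s, up q v)` by local paths for steps of
length `1` in `T` (heights `≥ h' v + q - P ≥ h' v`). (hRA : StRA) (hRB : StRB) (hKL : StKL) (hKJ : StKJ) (hKX : StKX) -/
def StKK : Prop := ∀ X : Sg.{u}, ∃ q₀ : ℕ, ∀ v : X.T × X.T', ∀ q ≥ q₀, ∀ s : X.T,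
  (within X.G {w | X.h' v.2 ≤ X.h' w.2}).Reachable v (s, X.up q v.2)

/-- [KU] (MEDIUM) Paths between levels. `d₀, k, D, f` from `StKJ`, `ρ₀` the constant of `StKL` for `r = 2 D + 2 k + 1`,
`K = D + ρ₀ + 1`. For `e`: `ρ` the constant of `StKL` for `r = 2 D + 2 k + e`, `J` with `2 J k ≥ ρ + 2 D`. For large `n` write
`n - K = K + 2 J k + r + 2 J' k`, `r < 2 k`, `2 J' k ≥ ρ + 2 D + 2 k`. Path: from `(t, x_K)` by `2 J` jumps to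
`(t, f^(2J) x_K)` (within `2 D` of `x_(K+2Jk)`), local path to `(s, x_(K+2Jk+r))`, `2 J'` jumps, local path (distance
`≤ 2 D`) to `(s, x_(n-K))`. All heights `> h' x`; all in `desc x_(n-1)`: `f^i y ∈ desc(up (D + i k) y)`, local paths
within `ρ` resp. `ρ₀` of their starting points (`StKX`). (hRA : StRA) (hRB : StRB) (hKX : StKX) (hKL : StKL) (hKJ : StKJ) -/
def StKU : Prop := ∀ X : Sg.{u}, ∃ K : ℕ, X.UpK K

/-- [KF] (MEDIUM) Facts on `Es`. (1) A vertex of `Dn x` is isolated in `within G (Dn x)ᶜ`, and `s` is arbitrary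
(`T` has two elements). (2) `(Dn x_k)ᶜ ⊆ (Dn x)ᶜ`, `up q (up k x) = up (q + k) x`. (3) `w ∉ Dn x` by (1); if `z ∉ Dn x` the
edge `z w` is in `within G (Dn x)ᶜ` and `z ∈ Es x`. (4) `StKK`: `v` is connected to all `(s, up q v.2)`, `q ≥ q₀`, in heights
`≥ h' v.2 > h' x`, so outside `Dn x`; `up m v.2 = up l x`, so `(s, up q x) = (s, up (q - l + m) v.2)` for large `q`. (5) All
vertices of a walk from `u` to `(s, up q x)` in `within G (Dn x)ᶜ` are in `Es x`; join `u` and `v` over a common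
`(s, up q x)`. (hRA : StRA) (hRB : StRB) (hKK : StKK) -/
def StKF : Prop := ∀ X : Sg.{u},
  (∀ x, Disjoint (X.Es x) (X.Dn x)) ∧
  (∀ x k, X.Es (X.up k x) ⊆ X.Es x) ∧
  (∀ x z w, z ∉ X.Es x → w ∈ X.Es x → X.G.Adj z w → z ∈ X.Dn x) ∧
  (∀ x (v : X.T × X.T'), X.h' x < X.h' v.2 → v ∈ X.Es x) ∧
  (∀ x, ∀ u ∈ X.Es x, ∀ v ∈ X.Es x, (within X.G (X.Es x)).Reachable u v) ∧
  (∀ x n, ∀ v ∈ X.Dn (X.up n x), X.h' x < X.h' v.2 → v ∈ X.vr n x)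

/-- [KG] (EASY-MEDIUM) Local paths in `Es x`. Up to `(α, β)` there are finitely many triples `(x, u, v)`
(`x = x₀`, `u.1 = t₀` fixed, `u.2` and `v` in finite balls); for each take a walk of `StKF` (5); `P` large.
Probability: `StQD` for `S = BlF P u` and the graph `within G (Es x)`.
(hQC : StQC) (hQD : StQD) (hRB : StRB) (hKC : StKC) (hKF : StKF) -/
def StKG : Prop := ∀ (X : Sg.{u}) (r : ℕ), ∃ P : ℕ, r ≤ P ∧
  (∀ x, ∀ u ∈ X.Es x, ∀ v ∈ X.Es x, td X.par' x u.2 ≤ r → v ∈ X.Bl r u →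
    (within X.G (X.Es x ∩ X.Bl P u)).Reachable u v) ∧
  ∀ p : ℝ, 0 < p → p ≤ 1 → ∃ c : ℝ, 0 < c ∧ c ≤ 1 ∧
    ∀ x, ∀ u ∈ X.Es x, ∀ v ∈ X.Es x, td X.par' x u.2 ≤ r → v ∈ X.Bl r u →
      ∀ W, X.Es x ∩ X.Bl P u ⊆ W → Ach X.G W p u v c ∧
        ∀ S : Finset (X.T × X.T'), X.BlF P u ⊆ S → c ≤ tau (within X.G W) p S u v

/-! ### Part I: if `Bd p` fails there are heavy clusters for all `p' > p` -/

/-- [KI] COPY of `PT IA`. (EASY) (hQA : StQA) (hQC : StQC) (hRA : StRA) (hKD : StKD) -/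
def StKI : Prop := ∀ (X : Sg.{u}) (p : ℝ), 0 ≤ p → p ≤ 1 → ¬ X.Bd p →
  ∃ (e j L : ℕ) (c : ℝ), 1 ≤ L ∧ 0 < c ∧ c ≤ 1 ∧ 1 < (X.a : ℝ) ^ e * √(X.b : ℝ) ^ j * c ∧
    ∀ t s x, X.d t s = e → Ach X.G (X.Sl x L L) p (t, x) (s, X.up j x) c

/-- [KN] COPY of `PT IB`. (EASY) (hQA : StQA) (hQE : StQE) (hRA : StRA) (hRB : StRB) -/
def StKN : Prop := ∀ (X : Sg.{u}) (p : ℝ), 0 ≤ p → p ≤ 1 → ∀ (e j L : ℕ) (c : ℝ), 0 ≤ c → c ≤ 1 →
  (∀ t s x, X.d t s = e → Ach X.G (X.Sl x L L) p (t, x) (s, X.up j x) c) →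
  ∀ (N : ℕ) (t s : X.T) (x : X.T'), X.d t s = N * e →
    Ach X.G (X.Sl x (N * j + L) L) p (t, x) (s, X.up (N * j) x) (c ^ N)

/-- [KZ] (MEDIUM-HARD) One step of the zigzag. `P` from `StKL` for `r = 2 L`, `K₅ = max P L`, `E_P` = the number of edges in
`BlF P u` (the same for all `u`). `n = 2 L + N j`; `N` so large that `n ≥ P + K₅` (`j ≥ 1`). Top vertex `v`. `Y`: for every
`y` with `up (n - K₅) y = v` one `w` with `up K₅ w = y`; so `|Y| = b^(n-K₅)`, `up n w = v`. `t', s'`: `d t t' = i`, `d t' s' = m`,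
`d s' s = i`, `i = N e + 1`; `t₁, s₁`: `d t' t₁ = 1`, `d t₁ t = N e`, `d s' s₁ = 1`, `d s₁ s = N e`. For `w ∈ Y`:
GADGETS: the edges of the balls `BlF P (t', w)`, `BlF P (s', w)`; if all are open then `(t', w) ~ (t₁, w_2L)`,
`(s', w) ~ (s₁, w_2L)` (`StKL`). CHAINS (`StKN`): `(t₁, w_2L) → (t, v)`, `(s₁, w_2L) → (s, v)` in `Sl w_2L (N j + L) L`, whose vertices are
in `Dn v_L` and of height `> h' w + L`. BELOW: the hypothesis for `w`: `(t', w) → (s', w)` in `Dn w_L`. `E` = all edges of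
`within G (Dn v_L)` in a large finite set, `E₀` = the edges of `E` which are not inside any `Dn w'_L`, `w' ∈ Y`, `F w` = the edges
of `E` inside `Dn w_L` (disjoint for different `w ∈ Y`: `K₅ ≥ L`). `D w` = (gadget edges of `w` not inside `Dn w_L` open, both
chains), `Z w` = (gadget edges of `w` inside `Dn w_L` open, `(t', w) ~ (s', w)` in `Dn w_L`). `D w` depends on `E₀`: gadget edges of `w`
are not inside `Dn w'_L`, `w' ≠ w` (a vertex of `desc w'_L` has distance `> K₅ ≥ P` from `w`, since `up K₅ w ≠ up K₅ w'`); chain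
edges: heights. `StFB`: `Pr (D w) ≥ p^(2 E_P) c^(2N)`, `Pr (Z w) ≥ p^(2 E_P) z`. `StFU`; `D w ∩ Z w` implies `(t, v) ~ (s, v)` in `Dn v_L`
(gadget balls are in `Dn v_L`: `P ≤ n + L`). `κ = b^(2L) b^(-K₅) p^(4 E_P)`, `κ' = b^(2L) b^(-K₅) p^(2 E_P)`,
`κ'' = p^(4 E_P)`.
(hPB : StPB) (hPL : StPL) (hPA : StPA) (hCB : StCB) (hFB : StFB) (hFU : StFU) (hQA : StQA) (hRA : StRA) (hRB : StRB) (hKX : StKX) (hKC : StKC) (hKL : StKL) (hKN : StKN) -/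
def StKZ : Prop := ∀ (X : Sg.{u}) (p : ℝ), 0 < p → p ≤ 1 → ∀ (e j L : ℕ) (c : ℝ), 1 ≤ j → 1 ≤ L →
  0 < c → c ≤ 1 → (∀ t s x, X.d t s = e → Ach X.G (X.Sl x L L) p (t, x) (s, X.up j x) c) →
  ∃ (κ κ' κ'' : ℝ) (N₀ : ℕ), 0 < κ ∧ 0 < κ' ∧ 0 < κ'' ∧ ∀ N ≥ N₀, ∀ (m : ℕ) (z : ℝ), 0 ≤ z → z ≤ 1 →
    (∀ t s w, X.d t s = m → Ach X.G (X.Dn (X.up L w)) p (t, w) (s, w) z) →
    ∀ t s v, X.d t s = m + 2 * (N * e + 1) →
      Ach X.G (X.Dn (X.up L v)) p (t, v) (s, v)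
        (κ * (X.b : ℝ) ^ (N * j) * c ^ (2 * N) * z * (1 - κ' * (X.b : ℝ) ^ (N * j) * z / 2)) ∧
      Ach X.G (X.Dn (X.up L v)) p (t, v) (s, v) (κ'' * c ^ (2 * N) * z)

/-- [KQ] (EASY-MEDIUM) Iteration (as `PT IE`). Choose `μ` with `0 < μ < 1`, `μ < K₁`, `a^(2i) μ > 1`, then `ε ∈ (0, 1]` with
`K₁ (1 - K₂ ε / 2) ≥ μ`, `δ = min 1 (c' ε)`. Claim: for every `N` there is `z` with `δ μ^N ≤ z ≤ 1`, `Q (2 i N) z`: for
`z ≤ ε` the first rule gives `z' ≥ μ z`, for `z > ε` the second one gives `z' ≥ c' ε ≥ δ`. Then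
`a^(2iN) z ≥ δ (a^(2i) μ)^N ≥ 1` for some `N ≥ 1`. -/
def StKQ : Prop := ∀ (a : ℝ) (i : ℕ) (K₁ K₂ c' : ℝ) (Q : ℕ → ℝ → Prop), 1 < a → 1 ≤ i → 0 < K₁ →
  0 ≤ K₂ → 0 < c' → 1 < a ^ (2 * i) * K₁ → Q 0 1 → (∀ m z, Q m z → z ≤ 1) →
  (∀ m z, 0 ≤ z → z ≤ 1 → Q m z → Q (m + 2 * i) (K₁ * z * (1 - K₂ * z / 2)) ∧ Q (m + 2 * i) (c' * z)) →
  ∃ (m : ℕ) (z : ℝ), 1 ≤ m ∧ 0 < z ∧ Q m z ∧ 1 ≤ a ^ m * z

/-- [KR] (EASY-MEDIUM) A good horizontal connection. `StKI`. If `j = 0`: `m = e`, `z = c` (`e ≥ 1` since `c ≤ 1`;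
`Ach` is monotone in the region). If `j ≥ 1`: `StKZ`; `a^(2(Ne+1)) κ b^(Nj) c^(2N) = a² κ (a^e √b^j c)^(2N) > 1` for some
`N ≥ N₀`; `StKQ` with `i = N e + 1` for `Q m z` = `∀ t s w, d t s = m → Ach (Dn (up L w)) (t, w) (s, w) z`.
(hQA : StQA) (hQE : StQE) (hRB : StRB) (hKI : StKI) (hKZ : StKZ) (hKQ : StKQ) -/
def StKR : Prop := ∀ (X : Sg.{u}) (p : ℝ), 0 < p → p ≤ 1 → ¬ X.Bd p →
  ∃ (m : ℕ) (z : ℝ), 1 ≤ m ∧ 0 < z ∧ z ≤ 1 ∧ 1 ≤ (X.a : ℝ) ^ m * z ∧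
    ∀ t s x, X.d t s = m → Ach X.G Set.univ p (t, x) (s, x) z

/-- [KS] COPY of `PT IG` (there with `Dn x` instead of `Set.univ`). (EASY)
(hQB : StQB) (hQC : StQC) (hQD : StQD) (hRB : StRB) (hRC : StRC) (hKC : StKC) -/
def StKS : Prop := ∀ (X : Sg.{u}) (p : ℝ), 0 ≤ p → p ≤ 1 → ∀ (m : ℕ) (z : ℝ),
  (∀ t s x, X.d t s = m → Ach X.G Set.univ p (t, x) (s, x) z) →
  ∃ N R : ℕ, ∀ t s x, X.d t s = m → ∃ S : Finset (X.T × X.T'), S.card ≤ N ∧ (t, x) ∈ S ∧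
    (s, x) ∈ S ∧ (∀ v ∈ S, X.d t v.1 ≤ R ∧ |X.h' v.2 - X.h' x| ≤ R ∧
      (within X.G (S : Set (X.T × X.T'))).Reachable (t, x) v) ∧
    z ≤ tau X.G p S (t, x) (s, x)

/-- [KT] COPY of `PT II`. (EASY) (hQA : StQA) (hQB : StQB) (hQC : StQC) (hQD : StQD) -/
def StKT : Prop := ∀ (X : Sg.{u}) (p q z : ℝ) (m N R : ℕ), 0 < p → p ≤ q → q ≤ 1 → 0 ≤ z →
  ∀ (t₀ : X.T) (x : X.T') (U : Set (X.T × X.T')) (St : X.T → Finset (X.T × X.T')),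
  (∀ t, (St t).card ≤ N ∧ (X.par^[m] t, x) ∈ St t ∧ (t, x) ∈ St t ∧
    (∀ v ∈ St t, X.d (X.par^[m] t) v.1 ≤ R ∧ v ∈ U ∧
      (within X.G (St t : Set (X.T × X.T'))).Reachable (X.par^[m] t, x) v) ∧
    z ≤ tau X.G p (St t) (X.par^[m] t, x) (t, x)) →
  ∀ S : Finset (X.T × X.T'), (t₀, x) ∈ S → ∀ (k : ℕ) (t t' : X.T), X.par^[k * m] t = t₀ →
  (∀ l < k, St (X.par^[l * m] t) ⊆ S) → X.par^[m] t' = t → ¬ St t' ⊆ S →
  ∃ y ∈ S, ∃ w, w ∉ S ∧ X.G.Adj y w ∧ y ∈ U ∧ w ∈ U ∧ X.d t y.1 ≤ R ∧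
    z ^ k * p ^ N ≤ tau (within X.G U) q S (t₀, x) y

/-- [KV] COPY of `PT IJ` (there with `Dn x` instead of `Set.univ`, and with the statements `VB`, `IG`, `IH`, `II`).
(EASY-MEDIUM) (hWB : StWB) (hQA : StQA) (hRA : StRA) (hRB : StRB) (hIH : StIH) (hKB : StKB) (hKS : StKS) (hKT : StKT) -/
def StKV : Prop := ∀ (X : Sg.{u}) (p : ℝ) (m : ℕ) (z : ℝ), 0 < p → p ≤ 1 → 1 ≤ m → 0 < z → z ≤ 1 →
  1 ≤ (X.a : ℝ) ^ m * z → (∀ t s x, X.d t s = m → Ach X.G Set.univ p (t, x) (s, x) z) →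
  ∀ o : X.T × X.T', ∃ L c : ℝ, 0 < L ∧ 0 < c ∧ ∀ q : ℝ, p ≤ q → q ≤ 1 →
    ∀ S : Finset (X.T × X.T'), o ∈ S → c ≤ phi (within X.G (slab X.Γ o L)) q S o

/-- [KW] COPY of `PT IK`. (EASY) (hKB : StKB) (hKR : StKR) (hKV : StKV) (hD5 : SO.StD5.{u}) (hHV : SO.StHV.{u}) -/
def StKW : Prop := ∀ (X : Sg.{u}) (p : ℝ), 0 < p → p < 1 → ¬ X.Bd p → ∀ p' : I, p < p' →
  0 < perc X.G p' (HeavyEvent X.Γ)

/-! ## Y. Part II: if `Bd p` holds there is no uniqueness slightly above `p` -/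

/-- [YA] (EASY) First bounds, `C` from `StRE`: `√b^n tt((t,x),(s,x_n)) ≤ a^(-d)` (`StKE`). The term `s = t` of `gg 0` is `1`.
(hQF : StQF) (hRE : StRE) (hRB : StRB) (hKE : StKE) -/
def StYA : Prop := ∀ X : Sg.{u}, ∃ C : ℝ≥0∞, C ≠ ⊤ ∧ ∀ p : ℝ, 0 ≤ p → p ≤ 1 →
  (X.Bd p → ∀ n x t, X.gg p n x t ≤ C) ∧ ∀ x t, 1 ≤ X.gg p 0 x t

/-- [YB] (MEDIUM) Submultiplicativity. `m' = 0`: `StYA`. `m' ≥ 1`: `StQU` for `A = Dn x_m`, `u = (t, x)`, `v = (s, x_(m+m'))`;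
a vertex `w ∉ A` with a neighbour in `A` has `d' x_m w.2 ≤ D` (`StKX`), so `w = (r, y)`, `y` in a finite ball of `N` elements
around `x_m`; by `StKH` (`r := D`) and `StQF` `tt u w ≤ c⁻¹ tt u (r, x_m)`, `tt w v ≤ c⁻¹ tt (r, x_m) v`. So
`tt u v ≤ Δ N c⁻² ∑_r tt u (r, x_m) tt (r, x_m) v`. Multiply by `ω(t, s) √b^(m+m') = ω(t, r) √b^m ω(r, s) √b^(m')` and sum over `s`
(`up m' x_m = x_(m+m')`, `StKD`). (hQF : StQF) (hQU : StQU) (hRA : StRA) (hRB : StRB) (hKX : StKX) (hKA : StKA) (hKC : StKC) (hKD : StKD) (hKH : StKH) (hYA : StYA) -/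
def StYB : Prop := ∀ (X : Sg.{u}) (p : ℝ), 0 < p → p ≤ 1 → ∃ C : ℝ≥0∞, C ≠ ⊤ ∧
  ∀ m m' x t, X.gg p (m + m') x t ≤ C * (X.gg p m x t * X.gg p m' x t)

/-- [YC] (HARD) Double Simon-Lieb inequality. `Δ, D` from `StKA`. `P₁`: `StKH` for `r = D + K + 1` (constant `c₁`). `n₁`: `hK` for
`e = 0`. `N ≥ n₁ + D + K + P₁ + 1`. `P₂`, `c₂`: `StKG` for `r = N + D + K`. `n₀ = P₂ + K + N + 2`. Let `x = up N y`, `n ≥ n₀`,
`u = (t, x)`, `v = (s, x_n)`, `x' = x_(n-1)`. First `StQU` for `G`, `A = (Es x')ᶜ` (`u ∈ Dn x' ⊆ A`, `v ∈ Es x'` by height, `StKF`):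
exits `w ∈ Es x'`, adjacent to some `z ∈ A`, so `z ∈ Dn x'` (`StKF` (3)), `w ∉ Dn x'`, `d' x' w.2 ≤ D` (`StKX`). For fixed `w`:
`H₁ = within G (insert w A)`, `tt H₁ u w = tt H₁ w u`; second `StQU` for `H₁` and `Es x ∋ w` (`Es x' ⊆ Es x`), `u ∉ Es x`: exits
`w' ∉ Es x` adjacent to `z' ∈ Es x`: `w' ∈ Dn x`, `d' x w'.2 ≤ D`. The region `(insert w A) ∩ (insert w' (Es x))` is contained in
`vr (n+2N) y`: `Es x ⊆ Es y`; `w' ∈ Es y` by height (`N > D`); `A = (Es x')ᶜ ⊆ (Es y_(n+2N))ᶜ`; `w ∈ Dn y_(n+2N)`. So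
`tt u v ≤ Δ² ∑_(w, w') tt u w' · ttW G (vr (n+2N) y) w' w · tt w v`. Moving endpoints: `tt u w' ≤ c₁⁻¹ tt u (w'.1, x)`,
`tt w v ≤ c₁⁻¹ tt (w.1, x_n) v`. GADGET 1: `(w'.1, up K y)` and `w'` are in `Es y` (heights), connected with probability `≥ c₂` in
`Es y ∩ Bl P₂ ..`, which is in `Dn y_(P₂+K) ⊆ (Es y_(n+2N))ᶜ`, so in `vr (n+2N) y`. GADGET 2: `w → (w.1, up K x')` with
probability `≥ c₁` in `Bl P₁ w ⊆ vr (n+2N) y` (heights `≥ h' x' - D - P₁ > h' y`; in `desc x'_(D+P₁)`), then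
`(w.1, up K x') → (w.1, up (N+1-K) x')` in `Sl x' N 0 ⊆ vr (N+1) x' ⊆ vr (n+2N) y` (`hK` with `e = 0`, `n := N + 1`;
`up (N+1) x' = up (n+2N) y`; a fixed positive probability `c₃` by `StQE` and the homogeneity of `Ach (vr (N+1) x')` in `StKD`);
`up (N+1-K) x' = up (n+2N-K) y`. So
`ttW G (vr (n+2N) y) w' w ≤ C vv K (n+2N) y w'.1 w.1`. The number of values of `w.2`, `w'.2` is bounded.
(hWB : StWB) (hQC : StQC) (hQE : StQE) (hQF : StQF) (hQU : StQU) (hRA : StRA) (hRB : StRB) (hKX : StKX) (hKA : StKA) (hKC : StKC) (hKD : StKD) (hKF : StKF) (hKG : StKG) (hKH : StKH) -/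
def StYC : Prop := ∀ (X : Sg.{u}) (K : ℕ), X.UpK K → ∀ p : ℝ, 0 < p → p ≤ 1 →
  ∃ (C : ℝ≥0∞) (N n₀ : ℕ), C ≠ ⊤ ∧ ∀ n ≥ n₀, ∀ y t s,
    tt X.G p (t, X.up N y) (s, X.up (n + N) y) ≤ C * ∑' r : X.T, ∑' s₁ : X.T,
      tt X.G p (t, X.up N y) (r, X.up N y) * X.vv p K (n + 2 * N) y r s₁ *
        tt X.G p (s₁, X.up (n + N) y) (s, X.up (n + N) y)

/-- [YD] (EASY-MEDIUM) Multiply `StYC` by `ω(t, s) √b^n = ω(t, r) (ω(r, s₁) √b^(n+2N)) ω(s₁, s) √b^(-2N)` and sum over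
`s`, `s₁`, `r` (`gg 0`, `gv (n+2N)`, `gg 0`; `StKD`). (hKD : StKD) (hYC : StYC) -/
def StYD : Prop := ∀ (X : Sg.{u}) (K : ℕ), X.UpK K → ∀ p : ℝ, 0 < p → p ≤ 1 →
  ∃ (C : ℝ≥0∞) (N n₀ : ℕ), C ≠ ⊤ ∧ ∀ n ≥ n₀, ∀ x t,
    X.gg p n x t ≤ C * (X.gg p 0 x t ^ 2 * X.gv p K (n + 2 * N) x t)

/-- [YS] (MEDIUM) `v_n` is supermultiplicative up to a constant. `P`, `c` from `StKH` for `r = 2 K`; `n₂ = 2 K + P + 1`. Both
regions `vr n x`, `vr n' x_n` are contained in `vr (n+n') x` (`StKF` (2)), and so is `Bl P (s, x_(n-K))` (heights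
`≥ h' x + n - K - P > h' x`; contained in `Dn x_(n+P) ⊆ Dn x_(n+n')`; `StKF` last part). Product rule (`StQF`) for
`(t, x_K) → (s, x_(n-K)) → (s, x_(n+K)) → (r, x_(n+n'-K))`. (hQE : StQE) (hQF : StQF) (hRA : StRA) (hRB : StRB) (hKX : StKX) (hKF : StKF) (hKH : StKH) -/
def StYS : Prop := ∀ (X : Sg.{u}) (K : ℕ) (p : ℝ), 0 < p → p ≤ 1 → ∃ (c : ℝ) (n₂ : ℕ), 0 < c ∧
  ∀ n n', n₂ ≤ n → n₂ ≤ n' → ∀ x t s r,
    ENNReal.ofReal c * (X.vv p K n x t s * X.vv p K n' (X.up n x) s r) ≤ X.vv p K (n + n') x t r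

/-- [YV] (EASY-MEDIUM) Positivity. `Sl x (n-1) 0 ⊆ vr n x` (`StKF` last part); `StQE` (positivity) for one `(t, s, x)`,
`StKD`. (hQE : StQE) (hRA : StRA) (hRB : StRB) (hKD : StKD) (hKF : StKF) -/
def StYV : Prop := ∀ (X : Sg.{u}) (K : ℕ), X.UpK K → ∀ p : ℝ, 0 < p → p ≤ 1 → ∀ e : ℕ,
  ∃ n₁ : ℕ, 2 * K ≤ n₁ ∧ ∀ n ≥ n₁, ∃ δ : ℝ, 0 < δ ∧ δ ≤ 1 ∧ ∀ t s x, X.d t s = e →
    ENNReal.ofReal δ ≤ X.vv p K n x t s

/-- [YF] (EASY-MEDIUM) Exit probabilities, as `PT JF`: invariance, monotonicity in `S`, balls, bounds.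
(hPB : StPB) (hPL : StPL) (hCB : StCB) (hRB : StRB) (hRC : StRC) (hKC : StKC) -/
def StYF : Prop := ∀ (X : Sg.{u}) (p : ℝ) (K : ℕ), 0 ≤ p → p ≤ 1 →
  (∀ M m u v, X.eb p K M m u = X.eb p K M m v) ∧
  (∀ S S' m u, S ⊆ S' → X.ex p K S m u ≤ X.ex p K S' m u) ∧
  (∀ (S : Finset (X.T × X.T')) u, ∃ M, S ⊆ X.BlF M u) ∧
  (∀ S m u, 0 ≤ X.ex p K S m u ∧ X.ex p K S m u ≤ 1)

/-- [YE] (MEDIUM-HARD) Supermultiplicativity of the exit probabilities. `D` from `StKA`; `P₃, c` from `StKG` for `r = D + K`;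
`P = P₃ + D + K`. `u = (t, x)`, `m ≥ K`, so `(t, x_K) ∈ Dn x_m`, not in `Es x_m`. `E = EI (within G (Es x)) (BlF (M+M'+P) u)`,
`E₁` = the edges of `EI (within G (Es x)) (BlF M u)` with an endpoint not in `Es x_m`. The event `A_m(s)` (the cluster of
`(t, x_K)` meets `Es x_m`), for `s ⊆ EI (within G (Es x)) (BlF M u)`, is equivalent to `A_m(s ∩ E₁)` (first vertex in
`Es x_m` on a path). For `t₁ ⊆ E₁` with `A_m(t₁)` choose `w ∈ Es x_m` in the cluster; it is an endpoint of an edge of `E₁` whose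
other endpoint is not in `Es x_m`, so in `Dn x_m` (`StKF` (3)), and `d' x_m w.2 ≤ D` (`StKX`, `w ∉ Dn x_m`); `w ∈ BlF M u`. Let
`u₂ = (w.1, x_m)`. GADGET: `w → (w.1, up K x_m)` in `Es x_m ∩ Bl P₃ w`, then the exit event of `u₂` with `m'` in
`EI (within G (Es x_m)) (BlF M' u₂)`: both depend on edges inside `Es x_m`, contained in `E \ E₁` (`Es x_m ⊆ Es x`; balls:
triangle inequality; an edge of `E₁` has an endpoint outside `Es x_m`). `StFB`: probability `≥ c eb M' m' u₂ =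
c eb M' m' u` (`StYF`). Then the cluster of `(t, x_K)` meets `Es (up m' x_m)`. `StFA` with `E₁` and `E \ E₁`, `StPL`.
(hPB : StPB) (hPL : StPL) (hCB : StCB) (hFA : StFA) (hFB : StFB) (hRA : StRA) (hRB : StRB) (hKX : StKX) (hKA : StKA) (hKC : StKC) (hKF : StKF) (hKG : StKG) (hYF : StYF) -/
def StYE : Prop := ∀ (X : Sg.{u}) (p : ℝ) (K : ℕ), 0 < p → p ≤ 1 → 1 ≤ K →
  ∃ (c : ℝ) (P : ℕ), 0 < c ∧ c ≤ 1 ∧ ∀ M M' m m' : ℕ, K ≤ m → ∀ u,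
    c * (X.eb p K M m u * X.eb p K M' m' u) ≤ X.eb p K (M + M' + P) (m + m') u

/-- [YG] (MEDIUM) Union bound. If `m < K`: `eb ≤ 1 ≤ √b^K √b^(-m)`. If `m ≥ K`: the first vertex `w ∈ Es x_m` of a path from
`(t, x_K)` (not in `Es x_m`) has `d' x_m w.2 ≤ D`, `d t w.1 ≤ M`; `P(w ∈ Cluster s (t, x_K)) ≤ tt (t, x_K) w ≤
c⁻² tt (t, x) (w.1, x_m) ≤ c⁻² a^(-d) √b^(-m)` (`StKH` for `r = D + K`), the number of the `w.2` is bounded and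
`∑_(r : d t r ≤ M) a^(-d t r) ≤ 2 (M + 1)` (`StRB`).
(hPB : StPB) (hCB : StCB) (hQB : StQB) (hQF : StQF) (hRA : StRA) (hRB : StRB) (hKX : StKX) (hKA : StKA) (hKC : StKC) (hKE : StKE) (hKF : StKF) (hKH : StKH) (hYF : StYF) -/
def StYG : Prop := ∀ (X : Sg.{u}) (p : ℝ) (K : ℕ), 0 < p → p ≤ 1 → 1 ≤ K → X.Bd p →
  ∃ C : ℝ, 0 < C ∧ ∀ M m u, X.eb p K M m u ≤ C * (M + 1) * ((√(X.b : ℝ))⁻¹) ^ m

/-- [YH] (EASY-MEDIUM) For `m ≥ K`: `(c eb M m)^k ≤ c eb (k (M+P)) (k m) ≤ c C (k (M+P) + 1) √b^(-mk)` for `k ≥ 1`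
(induction, `StYE`, monotone in `M`), `StRZ` gives `c eb M m ≤ √b^(-m)`. For `m < K`: `ex ≤ 1 ≤ √b^K √b^(-m)`. `ex p K S m u ≤
eb p K M m u` for some `M` (`StYF`). (hRZ : StRZ) (hYE : StYE) (hYF : StYF) (hYG : StYG) -/
def StYH : Prop := ∀ (X : Sg.{u}) (p : ℝ) (K : ℕ), 0 < p → p ≤ 1 → 1 ≤ K → X.Bd p →
  ∃ C : ℝ, 1 ≤ C ∧ ∀ (S : Finset (X.T × X.T')) (m : ℕ) u, X.ex p K S m u ≤ C * ((√(X.b : ℝ))⁻¹) ^ m

/-- [YI] (EASY-MEDIUM) Sequences. `g (k n + r) ≤ (C₂ g n)^k g r`. If `C₂ g n < 1` for some `n ≥ 1` then `g → 0` and, the bound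
being geometric, the sum is finite (`∑_k ∑_(r < n) (C₂ g n)^k C`). So if `g` does not tend to `0` then `g n ≥ 1/C₂` for
all `n ≥ 1` (if `C₂ = 0` then `g = 0`); if `g → 0` then some `C₂ g n < 1`. -/
def StYI : Prop := ∀ (g : ℕ → ℝ≥0∞) (C C₂ : ℝ≥0∞), C ≠ ⊤ → C₂ ≠ ⊤ → (∀ n, g n ≤ C) →
  (∀ m m' : ℕ, g (m + m') ≤ C₂ * (g m * g m')) →
  (¬ Tendsto g atTop (𝓝 0) → ∃ c : ℝ≥0∞, 0 < c ∧ ∀ n, 1 ≤ n → c ≤ g n) ∧
  (Tendsto g atTop (𝓝 0) → ∑' n, g n ≠ ⊤)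

/-- [YK] (MEDIUM) Lower bounds for some `v_n(t, s)`, all large `n`. `StYB`, `StYA`, `StYI`: `gg n ≥ c₁` for `n ≥ 1`; `StYD`:
`gv n ≥ c₂ > 0` for all large `n` (`gg 0 ≤ C`). Domination: `vv n x t s ≤ tt (t, x_K) (s, x_(n-K)) ≤ a^(-d) √b^(-(n-2K))` (`n ≥ 2 K`), so
the terms of `gv n` are `≤ b^K ω(t, s) a^(-d t s)`, with finite sum (`StRE`); outside a finite set `F` of `s` they contribute
less than `c₂ / 2`; so some `s ∈ F` has `ω(t, s) √b^n vv ≥ c₂ / (2 |F|)`. `R` = maximum of `d t s` on `F`; `vv` depends only on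
`d t s` (`StKD`). (hQF : StQF) (hRE : StRE) (hKD : StKD) (hKE : StKE) (hYA : StYA) (hYB : StYB) (hYD : StYD) (hYI : StYI) -/
def StYK : Prop := ∀ (X : Sg.{u}) (K : ℕ), X.UpK K → ∀ p : ℝ, 0 < p → p ≤ 1 → X.Bd p →
  ∀ (x₀ : X.T') (t₀ : X.T), ¬ Tendsto (fun n => X.gg p n x₀ t₀) atTop (𝓝 0) →
  ∃ (c : ℝ) (R n₀ : ℕ), 0 < c ∧ ∀ n ≥ n₀, ∃ e ≤ R, ∀ t s x, X.d t s = e →
    ENNReal.ofReal (c * ((√(X.b : ℝ))⁻¹) ^ n) ≤ X.vv p K n x t s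

/-- [YL] (EASY-MEDIUM) `N' ≥` the `n₂` of `StYS` and all the `n₁` of `StYV` for `e ≤ R`, `δ` = minimum of the `δ` for `n = N'`,
`e ≤ R`. For `n ≥ n₀, n₂`: `e` from the hypothesis, `s` with `d t s = e` (`StRB`): `vv (n + N') x t t ≥
c₁ vv n x t s vv N' x_n s t ≥ c₁ c √b^(-n) δ ≥ c' √b^(-(n+N'))`. (hRB : StRB) (hYS : StYS) (hYV : StYV) -/
def StYL : Prop := ∀ (X : Sg.{u}) (K : ℕ), X.UpK K → ∀ p : ℝ, 0 < p → p ≤ 1 → ∀ (c : ℝ) (R n₀ : ℕ),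
  0 < c → (∀ n ≥ n₀, ∃ e ≤ R, ∀ t s x, X.d t s = e →
    ENNReal.ofReal (c * ((√(X.b : ℝ))⁻¹) ^ n) ≤ X.vv p K n x t s) →
  ∃ (c' : ℝ) (N₀ : ℕ), 0 < c' ∧ ∀ N ≥ N₀, ∀ t x,
    ENNReal.ofReal (c' * ((√(X.b : ℝ))⁻¹) ^ N) ≤ X.vv p K N x t t

/-- The event `(t, x_K) → (t, x_(n-K)) → (t, x_(n+K)) → (s, x_(n+q-K)) → (s, x_(n+q+K)) → (s, x_(j-K))`: three connections in
the regions `vr`, two (gadgets) anywhere in `S`. -/
def Ev (X : Sg.{u}) (K : ℕ) (S : Finset (X.T × X.T')) (x : X.T') (t s : X.T) (q j n : ℕ) :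
    Set (Set (Sym2 (X.T × X.T'))) :=
  cn X.G (X.vr n x) S (t, X.up K x) (t, X.up (n - K) x) ∩
  cn X.G Set.univ S (t, X.up (n - K) x) (t, X.up (n + K) x) ∩
  cn X.G (X.vr q (X.up n x)) S (t, X.up (n + K) x) (s, X.up (n + q - K) x) ∩
  cn X.G Set.univ S (s, X.up (n + q - K) x) (s, X.up (n + q + K) x) ∩
  cn X.G (X.vr (j - (n + q)) (X.up (n + q) x)) S (s, X.up (n + q + K) x) (s, X.up (j - K) x)

/-- [YM] (MEDIUM) The probability of `Ev` (`P`, `c` from `StKH` for `r = 2 K`). Lower bound: `StFB` for the five increasing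
events; the gadget events have probability `≥ c` because `S` contains the balls. Upper bound: drop the gadgets; the
three other events depend on the edges inside `vr n x`, `vr q x_n`, `vr (j-(n+q)) x_(n+q)`, which are disjoint sets of
vertices (`StKF` (2)): `StFI`. Their probabilities are the `vf` (`up K (up n x) = up (n + K) x` etc.). Third part: the event
implies a connection in `S`. (hPB : StPB) (hPL : StPL) (hCB : StCB) (hFB : StFB) (hFI : StFI) (hKF : StKF) (hKH : StKH) -/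
def StYM : Prop := ∀ (X : Sg.{u}) (K : ℕ) (p : ℝ), 0 < p → p ≤ 1 → ∃ (P : ℕ) (c : ℝ), 0 < c ∧
  ∀ (S : Finset (X.T × X.T')) (x : X.T') (t s : X.T) (q j n : ℕ), 2 * K ≤ n → 2 * K ≤ q →
  n + q + 2 * K ≤ j →
  (X.BlF P (t, X.up (n - K) x) ⊆ S → X.BlF P (s, X.up (n + q - K) x) ⊆ S →
    c * (X.vf p S K n x t t * X.vf p S K q (X.up n x) t s *
      X.vf p S K (j - (n + q)) (X.up (n + q) x) s s) ≤ Pr (EI X.G S) p (Ev X K S x t s q j n)) ∧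
  Pr (EI X.G S) p (Ev X K S x t s q j n) ≤ X.vf p S K n x t t * X.vf p S K q (X.up n x) t s *
      X.vf p S K (j - (n + q)) (X.up (n + q) x) s s ∧
  Ev X K S x t s q j n ⊆
    {r | (s, X.up (j - K) x) ∈ Cluster (r ∩ (EI X.G S : Set (Sym2 (X.T × X.T')))) (t, X.up K x)}

/-- [YN] (MEDIUM) The pair bound. `C₁` from `StYH`. `m = n' - (n + q)`, `y' = x_(n+q)`. `Ev n ∩ Ev n'` is contained in the
intersection of (1) `cn (vr n x)` (of `Ev n`), (2) `cn (vr q x_n)` (of `Ev n`), (3) the exit event of `(s, y')` with `m`, (4)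
`cn (vr q x_n')` (of `Ev n'`), (5) `cn (vr (j-(n'+q)) x_(n'+q))` (of `Ev n'`). (3): the third connection of `Ev n` leads from `(s, up K y')` to
`(s, x_(j-K)) ∈ Es x_n'` (height, `j - K > n'`) inside `Es y'`. If `m ≥ K` the start is not in `Es x_n'`, and the exit event depends
only on `E₃` = the edges of `EI (within G (Es y')) S` with an endpoint not in `Es x_n'` (first vertex in `Es x_n'`); if `m < K`
drop (3) (`1 ≤ √b^K √b^(-m)`). The edge sets are disjoint: (1) inside `Es x ∩ (Es x_n)ᶜ`, (2) inside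
`Es x_n ∩ (Es x_(n+q))ᶜ`, (3) inside `Es x_(n+q)` with an endpoint outside `Es x_n'`, (4) inside `Es x_n' ∩ (Es x_(n'+q))ᶜ`,
(5) inside `Es x_(n'+q)`. `StFI`. (1) has probability `vf ≤ tau G .. ≤ √b^(-(n-2K))` (`Bd`), (5) `≤ √b^(-(j-n'-q-2K))`, (2), (4) `≤ ξ`, (3)
`≤ C₁ √b^(-m)`. `C = b^(2K) √b^K C₁`. The exponents add up to `j - 2q`.
(hPB : StPB) (hPL : StPL) (hCB : StCB) (hFI : StFI) (hQC : StQC) (hRA : StRA) (hRB : StRB) (hKF : StKF) (hYH : StYH) -/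
def StYN : Prop := ∀ (X : Sg.{u}) (p : ℝ) (K : ℕ), 0 < p → p ≤ 1 → 1 ≤ K → X.Bd p → ∃ C : ℝ, 0 < C ∧
  ∀ (S : Finset (X.T × X.T')) (x : X.T') (t s : X.T) (q j n n' : ℕ) (ξ : ℝ), 2 * K ≤ n →
  2 * K ≤ q → n + q ≤ n' → n' + q + 2 * K ≤ j → (∀ y, X.vf p S K q y t s ≤ ξ) →
  Pr (EI X.G S) p (Ev X K S x t s q j n ∩ Ev X K S x t s q j n') ≤
    C * ξ ^ 2 * ((√(X.b : ℝ))⁻¹) ^ (j - 2 * q)

/-- [YO] (MEDIUM-HARD) The contradiction. `P, c_g` from `StYM`, `C` from `StYN`. `e` large (see below), `d t s = e` (`StRB`); `q` and `δ` from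
`StYV` (`q ≥ 2 K`), `ξ = (vv p K q x t s).toReal ≥ δ > 0` (independent of `x`, `≤ 1`). `N₁ = max N₀ (2 K)`, `I ≥ 1/ξ`, `I ≥ 1`,
`J = {N₁ + i q : i < I}`, `j = 2 N₁ + (I + 1) q`. Finite `S` such that for all `n ∈ J`: `vf n x t t ≥ (c/2) √b^(-n)`,
`vf q x_n t s ≥ ξ/2`, `vf (j-(n+q)) x_(n+q) s s ≥ (c/2) √b^(-(j-n-q))` (`vv` is the supremum of the `vf`, `StQB`), and `S` contains the
balls of `StYM`. So `Pr (Ev n) ≥ α = c_g (c² ξ / 8) √b^(-(j-q))`; `Pr (Ev n) ≤ β = b^(2K) ξ √b^(-(j-q))` (`vf ≤ tau G ≤ √b^(-(n-2K))` by `Bd`);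
pairs `≤ γ = C ξ² √b^(-(j-2q))`. `StFE`; the union has probability `≤ tau G p S (t, x_K) (s, x_(j-K)) ≤ a^(-e) √b^(-(j-2K))`. Divide by
`I² ξ² √b^(-2j+2q)`: `c_g² c⁴ / 64 ≤ a^(-e) b^K (b^(2K) + C)` (`I ξ ≥ 1`, `√b^(-q) ≤ 1`), false for large `e`.
(hPB : StPB) (hFE : StFE) (hQA : StQA) (hQB : StQB) (hQC : StQC) (hQF : StQF) (hRA : StRA) (hRB : StRB) (hKD : StKD) (hYM : StYM) (hYN : StYN) (hYV : StYV) -/
def StYO : Prop := ∀ (X : Sg.{u}) (K : ℕ), X.UpK K → ∀ p : ℝ, 0 < p → p ≤ 1 → X.Bd p →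
  ∀ (c : ℝ) (N₀ : ℕ), 0 < c →
  ¬ ∀ N ≥ N₀, ∀ t x, ENNReal.ofReal (c * ((√(X.b : ℝ))⁻¹) ^ N) ≤ X.vv p K N x t t

/-- [YQ] (EASY) `K` from `StKU`; `gg → 0` by `StYK`, `StYL`, `StYO`; then the second part of `StYI` with `StYA`, `StYB`.
(hKU : StKU) (hYA : StYA) (hYB : StYB) (hYI : StYI) (hYK : StYK) (hYL : StYL) (hYO : StYO) -/
def StYQ : Prop := ∀ (X : Sg.{u}) (p : ℝ), 0 < p → p ≤ 1 → X.Bd p → ∀ x t,
  ∑' n, X.gg p n x t ≠ ⊤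

/-- [YP] COPY of `PT JP`. (EASY) (hQF : StQF) (hRA : StRA) (hRB : StRB) (hKD : StKD) -/
def StYP : Prop := ∀ (X : Sg.{u}) (p : ℝ), 0 ≤ p → p ≤ 1 → ∀ x t,
  ∑' v : X.T × X.T', (if v.2 ∈ desc X.par' x then
    ENNReal.ofReal (X.Om (t, x) v) * tt X.G p (t, x) v else 0) ≤ ∑' n, X.gg p n x t

/-- [YR] (MEDIUM-HARD) The other vertices (compare `PT JR`). For `v = (s, y)`, `y ∉ desc x`, let `n ≥ 1` be minimal with
`y ∈ desc x_n`, and `up j y = x_n`. `StQU` for `A = Dn x_(n-1)`, `u = (t, x)`, `v`: exits `w` with `d' x_(n-1) w.2 ≤ D` (`StKX`), so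
`d' x_n w.2 ≤ D + 1` and (`StKH` for `r = D + 1`) `tt u w ≤ c⁻¹ tt u (w.1, x_n)`, `tt w v ≤ c⁻¹ tt (w.1, x_n) v`; the number of the values
of `w.2` is bounded: `tt u v ≤ C ∑_r tt u (r, x_n) tt (r, x_n) v`. `Ω = ω(t, s) √b^(n-j)`, there are `b^j` values of `y` for given `n, j`,
`tt (r, x_n) v = tt (s, y) (r, up j y) = tt (r, x') (s, up j x')` for any `x'` (`StKD`), `√b^(n-j) b^j = √b^n √b^j`. So the sum is at most
`C ∑_n ∑_j g_n g_j`. (hQF : StQF) (hQU : StQU) (hRA : StRA) (hRB : StRB) (hKX : StKX) (hKA : StKA) (hKC : StKC) (hKD : StKD) (hKH : StKH) -/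
def StYR : Prop := ∀ (X : Sg.{u}) (p : ℝ), 0 < p → p ≤ 1 → ∃ C : ℝ≥0∞, C ≠ ⊤ ∧ ∀ x t,
  ∑' v : X.T × X.T', (if v.2 ∉ desc X.par' x then
    ENNReal.ofReal (X.Om (t, x) v) * tt X.G p (t, x) v else 0) ≤
      C * (∑' n, X.gg p n x t) ^ 2

/-- [YT] COPY of `PT JT`. (EASY) (hWB : StWB) (hQA : StQA) (hQB : StQB) (hQF : StQF) (hKA : StKA) -/
def StYT : Prop := ∀ (X : Sg.{u}) (p : ℝ) (u : X.T × X.T'), 0 ≤ p → p < 1 → X.XX p u ≠ ⊤ →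
  ∃ S : Finset (X.T × X.T'), u ∈ S ∧ ∃ p' : ℝ, p < p' ∧ p' ≤ 1 ∧
    ∑ z ∈ S, ∑ w ∈ (nb X.G z).filter (· ∉ S), tau X.G p' S u z * (p' * X.Om u w) < 1

/-- [YU] COPY of `PT JU`. (EASY) (hWB : StWB) (hQA : StQA) (hQB : StQB) (hQC : StQC) (hQT : StQT) (hKC : StKC) -/
def StYU : Prop := ∀ (X : Sg.{u}) (p : ℝ) (u : X.T × X.T') (S : Finset (X.T × X.T')), 0 ≤ p →
  p ≤ 1 → u ∈ S →
  ∑ z ∈ S, ∑ w ∈ (nb X.G z).filter (· ∉ S), tau X.G p S u z * (p * X.Om u w) < 1 →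
  X.XX p u ≠ ⊤

/-- [YW] COPY of `PT JV`. (EASY) (hB : Basics.{u}) (hU2 : SO.StU2.{u}) (hQF : StQF) (hQP : StQP) (hKB : StKB) (hKC : StKC) -/
def StYW : Prop := ∀ (X : Sg.{u}) (p : I) (u : X.T × X.T'), X.XX p u ≠ ⊤ →
  perc X.G p (UniqueEvent (X.T × X.T')) ≠ 1

/-- [YX] (EASY) PART II, as `PT JW`. (hPB : StPB) (hQF : StQF) (hYP : StYP) (hYQ : StYQ) (hYR : StYR) (hYT : StYT) (hYU : StYU) (hYW : StYW) -/
def StYX : Prop := ∀ (X : Sg.{u}) (p : ℝ), 0 ≤ p → p < 1 → X.Bd p → ∃ p' : ℝ, p < p' ∧ p' ≤ 1 ∧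
  ∀ q : I, (q : ℝ) ≤ p' → perc X.G q (UniqueEvent (X.T × X.T')) ≠ 1

/-- [YZ] (EASY) THE THEOREM, as `PT ZZ`. (hKB : StKB) (hKE : StKE) (hKW : StKW) (hYX : StYX) -/
def StYZ : Prop := ∀ X : Sg.{u}, ph X.G X.Γ < pu X.G

end Pool.Agent.Work.MP_c58d8b_pr.PG
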